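import Mathlib

/-!
# Counting lemmas for separated triples and cuts
-/

namespace Pool.Agent.H98.ConicCount

open Finset

variable {n : ℕ}

/-- Triples of distinct vertices. -/
abbrev Tri (n : ℕ) : Type := Fin 3 ↪ Fin n

/-- The cut `s` separates the middle vertex `t 1` from `t 0` and from `t 2`. -/
def SepBy (t : Tri n) (s : Fin n → Bool) : Prop := s (t 0) = !s (t 1) ∧ s (t 2) = !s (t 1)

instance (t : Tri n) (s : Fin n → Bool) : Decidable (SepBy t s) := by
  unfold SepBy; infer_instance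

/-- At least a quarter of all cuts separate a given triple. -/
theorem card_sep (t : Tri n) : 2 ^ n ≤ 4 * (univ.filter fun s : Fin n → Bool => SepBy t s).card := by
  classical
  let g : (Fin n → Bool) → (Fin n → Bool) := fun s =>
    Function.update (Function.update s (t 0) (!s (t 1))) (t 2) (!s (t 1))
  have h01 : t 0 ≠ t 1 := fun h => by simpa using t.injective h
  have h21 : t 2 ≠ t 1 := fun h => by simpa using t.injective h
  have h02 : t 0 ≠ t 2 := fun h => by simpa using t.injective h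
  have hg1 : ∀ s, g s (t 1) = s (t 1) := fun s => by
    simp only [g]
    rw [Function.update_of_ne h21.symm, Function.update_of_ne h01.symm]
  have hg0 : ∀ s, g s (t 0) = !s (t 1) := fun s => by
    simp only [g]
    rw [Function.update_of_ne h02, Function.update_self]
  have hg2 : ∀ s, g s (t 2) = !s (t 1) := fun s => by
    simp only [g]
    rw [Function.update_self]
  have hgx : ∀ s x, x ≠ t 0 → x ≠ t 2 → g s x = s x := fun s x h0 h2 => by
    simp only [g]
    rw [Function.update_of_ne h2, Function.update_of_ne h0]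
  have hmaps : ∀ s ∈ (univ : Finset (Fin n → Bool)),
      g s ∈ univ.filter fun s : Fin n → Bool => SepBy t s := by
    intro s _
    rw [mem_filter]
    refine ⟨mem_univ _, ?_, ?_⟩
    · rw [hg0, hg1]
    · rw [hg2, hg1]
  have hcard : (univ : Finset (Fin n → Bool)).card = 2 ^ n := by
    rw [card_univ]; simp
  rw [← hcard]
  apply Finset.card_le_mul_card_image_of_maps_to hmaps
  intro s' _
  -- the fiber embeds into `Bool × Bool`
  have : ((univ.filter fun s : Fin n → Bool => g s = s').card) ≤ (univ : Finset (Bool × Bool)).card := by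
    apply Finset.card_le_card_of_injOn (fun s => (s (t 0), s (t 2))) (fun _ _ => mem_univ _)
    intro s hs r hr hsr
    simp only [coe_filter, mem_univ, true_and, Set.mem_ofPred_eq] at hs hr
    simp only [Prod.mk.injEq] at hsr
    funext x
    by_cases hx0 : x = t 0
    · rw [hx0]; exact hsr.1
    · by_cases hx2 : x = t 2
      · rw [hx2]; exact hsr.2
      · rw [← hgx s x hx0 hx2, ← hgx r x hx0 hx2, hs, hr]
  simpa using this

theorem numeric (a p : ℕ) (ha : 3 * p ≤ a) : a ^ 2 * (a - 2) * 2 ^ p ≤ 9 * 2 ^ a := by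
  -- it suffices to treat `p = a / 3`
  have h1 : a ^ 2 * (a - 2) * 2 ^ p ≤ a ^ 2 * (a - 2) * 2 ^ (a / 3) := by
    apply Nat.mul_le_mul_left
    apply Nat.pow_le_pow_right (by norm_num)
    omega
  refine h1.trans ?_
  clear h1 ha
  -- induction in steps of three
  induction a using Nat.strong_induction_on with
  | _ a ih =>
    by_cases hlt : a < 9
    · interval_cases a <;> norm_num
    · obtain ⟨b, rfl⟩ : ∃ b, a = b + 3 := ⟨a - 3, by omega⟩
      have hb := ih b (by omega)
      have hdiv : (b + 3) / 3 = b / 3 + 1 := by omega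
      rw [hdiv, pow_succ]
      have hkey : (b + 3) ^ 2 * (b + 3 - 2) ≤ 4 * (b ^ 2 * (b - 2)) := by
        obtain ⟨c, rfl⟩ : ∃ c, b = c + 6 := ⟨b - 6, by omega⟩
        have e1 : c + 6 + 3 - 2 = c + 7 := by omega
        have e2 : c + 6 - 2 = c + 4 := by omega
        rw [e1, e2]
        nlinarith [sq_nonneg c, Nat.zero_le (c^3), Nat.zero_le (c^2)]
      calc (b + 3) ^ 2 * (b + 3 - 2) * (2 ^ (b / 3) * 2)
          ≤ 4 * (b ^ 2 * (b - 2)) * (2 ^ (b / 3) * 2) := Nat.mul_le_mul_right _ hkey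
        _ = 8 * (b ^ 2 * (b - 2) * 2 ^ (b / 3)) := by ring
        _ ≤ 8 * (9 * 2 ^ b) := Nat.mul_le_mul_left _ hb
        _ = 9 * 2 ^ (b + 3) := by rw [pow_add]; ring

/-- The vertex set of a triple. -/
def verts (t : Tri n) : Finset (Fin n) := univ.map t

theorem mem_verts (t : Tri n) (x : Fin n) : x ∈ verts t ↔ x = t 0 ∨ x = t 1 ∨ x = t 2 := by
  unfold verts
  rw [mem_map]
  constructor
  · rintro ⟨i, _, rfl⟩
    fin_cases i
    · exact Or.inl rfl
    · exact Or.inr (Or.inl rfl)
    · exact Or.inr (Or.inr rfl)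
  · rintro (rfl | rfl | rfl)
    · exact ⟨0, mem_univ _, rfl⟩
    · exact ⟨1, mem_univ _, rfl⟩
    · exact ⟨2, mem_univ _, rfl⟩

theorem card_verts (t : Tri n) : (verts t).card = 3 := by
  unfold verts; rw [card_map]; simp

/-- The key rectangle bound. -/
theorem card_rect (T : Finset (Tri n)) (S : Finset (Fin n → Bool))
    (h : ∀ t ∈ T, ∀ s ∈ S, SepBy t s) : 4 * (T.card * S.card) ≤ 9 * 2 ^ n := by
  classical
  rcases S.eq_empty_or_nonempty with hS | ⟨s0, hs0⟩
  · simp [hS]
  -- covered vertices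
  set C : Finset (Fin n) := T.biUnion verts with hC
  have hCn : C.card ≤ n := by
    simpa using card_le_univ C
  -- a maximal disjoint subfamily
  obtain ⟨M, hMT, hMd, hMmax⟩ : ∃ M : Finset (Tri n), M ⊆ T ∧
      (∀ t ∈ M, ∀ t' ∈ M, t ≠ t' → Disjoint (verts t) (verts t')) ∧
      ∀ t ∈ T, ∃ t' ∈ M, ¬ Disjoint (verts t) (verts t') := by
    let F : Finset (Finset (Tri n)) := T.powerset.filter fun M =>
      ∀ t ∈ M, ∀ t' ∈ M, t ≠ t' → Disjoint (verts t) (verts t')
    have hF : F.Nonempty := ⟨∅, by simp [F]⟩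
    obtain ⟨M, hM, hmax⟩ := F.exists_max_image Finset.card hF
    simp only [F, mem_filter, mem_powerset] at hM
    refine ⟨M, hM.1, hM.2, ?_⟩
    intro t ht
    by_contra hcon
    push Not at hcon
    have htM : t ∉ M := by
      intro htM
      have := hcon t htM
      rw [disjoint_self_iff_empty] at this
      have hc := card_verts t
      rw [this] at hc
      simp at hc
    have hins : insert t M ∈ F := by
      simp only [F, mem_filter, mem_powerset]
      refine ⟨insert_subset ht hM.1, ?_⟩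
      intro a ha b hb hab
      rw [mem_insert] at ha hb
      rcases ha with rfl | ha
      · rcases hb with rfl | hb
        · exact absurd rfl hab
        · exact hcon b hb
      · rcases hb with rfl | hb
        · exact (hcon a ha).symm
        · exact hM.2 a ha b hb hab
    have := hmax _ hins
    rw [card_insert_of_notMem htM] at this
    omega
  have h3p : 3 * M.card ≤ C.card := by
    have h1 : (M.biUnion verts).card = ∑ t ∈ M, (verts t).card :=
      card_biUnion (fun t ht t' ht' hne => hMd t ht t' ht' hne)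
    have h2 : ∑ t ∈ M, (verts t).card = 3 * M.card := by
      rw [sum_congr rfl (fun t _ => card_verts t), sum_const, smul_eq_mul, mul_comm]
    rw [← h2, ← h1]
    exact card_le_card (biUnion_subset_biUnion_of_subset_left _ hMT)
  -- values of a cut in `S` on a triple of `T` are determined by any one of them
  have hdet : ∀ t ∈ T, ∀ s ∈ S, ∀ s' ∈ S, ∀ x ∈ verts t, s x = s' x → ∀ y ∈ verts t, s y = s' y := by
    intro t ht s hs s' hs' x hx hxx y hy
    obtain ⟨a1, a2⟩ := h t ht s hs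
    obtain ⟨b1, b2⟩ := h t ht s' hs'
    rw [mem_verts] at hx hy
    have hm : s (t 1) = s' (t 1) := by
      rcases hx with rfl | rfl | rfl
      · rw [a1, b1] at hxx; simpa using hxx
      · exact hxx
      · rw [a2, b2] at hxx; simpa using hxx
    rcases hy with rfl | rfl | rfl
    · rw [a1, b1, hm]
    · exact hm
    · rw [a2, b2, hm]
  -- the number of cuts in `S`
  have hScard : S.card ≤ 2 ^ (n - C.card) * 2 ^ M.card := by
    have hinj : S.card ≤ (univ : Finset (({x // x ∉ C} → Bool) × (M → Bool))).card := by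
      apply Finset.card_le_card_of_injOn
        (fun s => ((fun x : {x // x ∉ C} => s x.1), (fun t : M => s (t.1 1))))
        (fun _ _ => mem_univ _)
      intro s hs s' hs' hss
      simp only [Prod.mk.injEq] at hss
      obtain ⟨e1, e2⟩ := hss
      funext x
      by_cases hx : x ∈ C
      · rw [hC, mem_biUnion] at hx
        obtain ⟨t, ht, hxt⟩ := hx
        obtain ⟨t', ht', hnd⟩ := hMmax t ht
        rw [not_disjoint_iff] at hnd
        obtain ⟨y, hy, hy'⟩ := hnd
        have h1 : s (t' 1) = s' (t' 1) := congrFun e2 ⟨t', ht'⟩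
        have h2 : s y = s' y := hdet t' (hMT ht') s hs s' hs' (t' 1)
          ((mem_verts _ _).2 (Or.inr (Or.inl rfl))) h1 y hy'
        exact hdet t ht s hs s' hs' y hy h2 x hxt
      · exact congrFun e1 ⟨x, hx⟩
    refine hinj.trans ?_
    rw [card_univ, Fintype.card_prod, Fintype.card_fun, Fintype.card_fun, Fintype.card_bool]
    rw [Fintype.card_subtype_compl]
    simp
  -- the number of triples in `T`
  set A := C.filter (fun x => s0 x = true) with hA
  set B := C.filter (fun x => s0 x = false) with hB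
  have hAB : A.card + B.card = C.card := by
    have : B = C.filter (fun x => ¬ s0 x = true) := by
      rw [hB]; ext x; simp
    rw [this, hA]
    exact card_filter_add_card_filter_not _
  have hTcard : T.card ≤ A.card * (B.card * B.card - B.card) + B.card * (A.card * A.card - A.card) := by
    have hsub : T.card ≤ (A ×ˢ B.offDiag ∪ B ×ˢ A.offDiag).card := by
      apply Finset.card_le_card_of_injOn (fun t : Tri n => (t 1, (t 0, t 2)))
      · intro t ht
        have ht' : t ∈ T := ht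
        have hv : ∀ i, t i ∈ C := fun i => by
          rw [hC, mem_biUnion]
          exact ⟨t, ht', by unfold verts; exact mem_map_of_mem _ (mem_univ _)⟩
        have hne : t 0 ≠ t 2 := fun h => by simpa using t.injective h
        obtain ⟨a1, a2⟩ := h t ht' s0 hs0
        cases hm : s0 (t 1)
        · rw [hm] at a1 a2
          refine mem_coe.2 (mem_union_right _ (mem_product.2 ⟨?_, ?_⟩))
          · exact mem_filter.2 ⟨hv 1, hm⟩
          · exact mem_offDiag.2 ⟨mem_filter.2 ⟨hv 0, a1⟩, mem_filter.2 ⟨hv 2, a2⟩, hne⟩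
        · rw [hm] at a1 a2
          refine mem_coe.2 (mem_union_left _ (mem_product.2 ⟨?_, ?_⟩))
          · exact mem_filter.2 ⟨hv 1, hm⟩
          · exact mem_offDiag.2 ⟨mem_filter.2 ⟨hv 0, a1⟩, mem_filter.2 ⟨hv 2, a2⟩, hne⟩
      · intro t _ t' _ htt
        simp only [Prod.mk.injEq] at htt
        apply Function.Embedding.ext
        intro i
        fin_cases i
        · exact htt.2.1
        · exact htt.1
        · exact htt.2.2
    refine hsub.trans ((card_union_le _ _).trans ?_)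
    rw [card_product, card_product, offDiag_card, offDiag_card]
  have hnum := numeric C.card M.card h3p
  -- combine
  have hT4 : 4 * T.card ≤ C.card ^ 2 * (C.card - 2) := by
    rcases T.eq_empty_or_nonempty with hT | ⟨t0, ht0⟩
    · simp [hT]
    -- both colour classes are nonempty
    have hv : ∀ i, t0 i ∈ C := fun i => by
      rw [hC, mem_biUnion]
      exact ⟨t0, ht0, by unfold verts; exact mem_map_of_mem _ (mem_univ _)⟩
    obtain ⟨a1, a2⟩ := h t0 ht0 s0 hs0
    have hpos : 1 ≤ A.card ∧ 1 ≤ B.card := by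
      rw [Nat.one_le_iff_ne_zero, Nat.one_le_iff_ne_zero, ne_eq, ne_eq, card_eq_zero, card_eq_zero,
        ← ne_eq, ← ne_eq, ← nonempty_iff_ne_empty, ← nonempty_iff_ne_empty]
      cases hm : s0 (t0 1)
      · rw [hm] at a1
        exact ⟨⟨t0 0, mem_filter.2 ⟨hv 0, a1⟩⟩, ⟨t0 1, mem_filter.2 ⟨hv 1, hm⟩⟩⟩
      · rw [hm] at a1
        exact ⟨⟨t0 1, mem_filter.2 ⟨hv 1, hm⟩⟩, ⟨t0 0, mem_filter.2 ⟨hv 0, a1⟩⟩⟩
    obtain ⟨hA1, hB1⟩ := hpos
    obtain ⟨α, hα⟩ : ∃ α, A.card = α + 1 := ⟨A.card - 1, by omega⟩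
    obtain ⟨β, hβ⟩ : ∃ β, B.card = β + 1 := ⟨B.card - 1, by omega⟩
    rw [hα, hβ] at hTcard hAB
    have e1 : (β + 1) * (β + 1) - (β + 1) = (β + 1) * β := by
      rw [← Nat.mul_sub_one]; simp
    have e2 : (α + 1) * (α + 1) - (α + 1) = (α + 1) * α := by
      rw [← Nat.mul_sub_one]; simp
    rw [e1, e2] at hTcard
    have e3 : C.card - 2 = α + β := by omega
    rw [e3, ← hAB]
    have hsq : 4 * ((α + 1) * (β + 1)) ≤ (α + 1 + (β + 1)) ^ 2 := by
      zify
      nlinarith [sq_nonneg ((α : ℤ) - β)]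
    calc 4 * T.card ≤ 4 * ((α + 1) * ((β + 1) * β) + (β + 1) * ((α + 1) * α)) := by omega
      _ = (4 * ((α + 1) * (β + 1))) * (α + β) := by ring
      _ ≤ (α + 1 + (β + 1)) ^ 2 * (α + β) := Nat.mul_le_mul_right _ hsq
  calc 4 * (T.card * S.card) = (4 * T.card) * S.card := by ring
    _ ≤ (C.card ^ 2 * (C.card - 2)) * (2 ^ (n - C.card) * 2 ^ M.card) := Nat.mul_le_mul hT4 hScard
    _ = (C.card ^ 2 * (C.card - 2) * 2 ^ M.card) * 2 ^ (n - C.card) := by ring
    _ ≤ (9 * 2 ^ C.card) * 2 ^ (n - C.card) := Nat.mul_le_mul_right _ hnum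
    _ = 9 * 2 ^ n := by rw [mul_assoc, ← pow_add, Nat.add_sub_of_le hCn]

/-- Number of subsets of `L` containing `a` and not `b`. -/
theorem card_sub {Λ : Type*} [DecidableEq Λ] (L : Finset Λ) (a b : Λ) (ha : a ∈ L) (hb : b ∈ L)
    (hab : a ≠ b) : 2 ^ L.card ≤ 4 * (L.powerset.filter fun Θ => a ∈ Θ ∧ b ∉ Θ).card := by
  have h1 : ((L.erase a).erase b).powerset.card ≤
      (L.powerset.filter fun Θ => a ∈ Θ ∧ b ∉ Θ).card := by
    apply card_le_card_of_injOn (fun Θ => insert a Θ)
    · intro Θ hΘ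
      have hΘ' : Θ ⊆ (L.erase a).erase b := mem_powerset.1 hΘ
      refine mem_coe.2 (mem_filter.2 ⟨mem_powerset.2 ?_, mem_insert_self _ _, ?_⟩)
      · exact insert_subset ha (hΘ'.trans ((erase_subset _ _).trans (erase_subset _ _)))
      · rw [mem_insert]
        rintro (h | h)
        · exact hab h.symm
        · have := hΘ' h
          simp at this
    · intro Θ hΘ Θ' hΘ' heq
      have h1 : a ∉ Θ := fun h => by have := mem_powerset.1 (mem_coe.1 hΘ) h; simp at this
      have h2 : a ∉ Θ' := fun h => by have := mem_powerset.1 (mem_coe.1 hΘ') h; simp at this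
      rw [← erase_insert h1, ← erase_insert h2]
      exact congrArg (fun X => X.erase a) heq
  rw [card_powerset, card_erase_of_mem (mem_erase.2 ⟨hab.symm, hb⟩), card_erase_of_mem ha] at h1
  have hL : 2 ≤ L.card := by
    have : ({a, b} : Finset Λ) ⊆ L := by
      intro x hx
      simp only [mem_insert, mem_singleton] at hx
      rcases hx with rfl | rfl
      · exact ha
      · exact hb
    have h2 := card_le_card this
    rwa [card_pair hab] at h2
  calc 2 ^ L.card = 4 * 2 ^ (L.card - 1 - 1) := by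
        obtain ⟨c, hc⟩ : ∃ c, L.card = c + 2 := ⟨L.card - 2, by omega⟩
        rw [hc]
        have : c + 2 - 1 - 1 = c := by omega
        rw [this, pow_add]; ring
    _ ≤ _ := Nat.mul_le_mul_left _ h1

/-- The bound for the pattern given by two labellings. -/
theorem card_pattern {Λ : Type*} [DecidableEq Λ] (T : Finset (Tri n)) (S : Finset (Fin n → Bool))
    (lt : Tri n → Λ) (ls : (Fin n → Bool) → Λ)
    (h : ∀ t ∈ T, ∀ s ∈ S, lt t ≠ ls s → SepBy t s) :
    ((T ×ˢ S).filter fun z => lt z.1 ≠ ls z.2).card ≤ 9 * 2 ^ n := by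
  classical
  -- all labels in use
  set L : Finset Λ := T.image lt ∪ S.image ls with hL
  set P := (T ×ˢ S).filter fun z => lt z.1 ≠ ls z.2 with hP
  -- double counting over subsets of labels
  have h1 : ∑ z ∈ P, (L.powerset.filter fun Θ => lt z.1 ∈ Θ ∧ ls z.2 ∉ Θ).card ≤
      ∑ Θ ∈ L.powerset, ((T.filter fun t => lt t ∈ Θ).card * (S.filter fun s => ls s ∉ Θ).card) := by
    have e1 : ∀ z : Tri n × (Fin n → Bool),
        (L.powerset.filter fun Θ => lt z.1 ∈ Θ ∧ ls z.2 ∉ Θ).card =
          ∑ Θ ∈ L.powerset, if (lt z.1 ∈ Θ ∧ ls z.2 ∉ Θ) then 1 else 0 := by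
      intro z
      rw [card_eq_sum_ones, sum_filter]
    simp_rw [e1]
    rw [sum_comm]
    refine sum_le_sum fun Θ _ => ?_
    rw [← sum_filter, ← card_eq_sum_ones, ← card_product]
    apply card_le_card
    intro z hz
    rw [mem_filter] at hz
    obtain ⟨hz1, hz2, hz3⟩ := hz
    rw [hP, mem_filter, mem_product] at hz1
    exact mem_product.2 ⟨mem_filter.2 ⟨hz1.1.1, hz2⟩, mem_filter.2 ⟨hz1.1.2, hz3⟩⟩
  have h2 : ∀ Θ ∈ L.powerset, 4 * ((T.filter fun t => lt t ∈ Θ).card *
      (S.filter fun s => ls s ∉ Θ).card) ≤ 9 * 2 ^ n := by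
    intro Θ _
    apply card_rect
    intro t ht s hs
    rw [mem_filter] at ht hs
    exact h t ht.1 s hs.1 (fun he => hs.2 (he ▸ ht.2))
  have h3 : ∀ z ∈ P, 2 ^ L.card ≤ 4 * (L.powerset.filter fun Θ => lt z.1 ∈ Θ ∧ ls z.2 ∉ Θ).card := by
    intro z hz
    rw [hP, mem_filter, mem_product] at hz
    exact card_sub L _ _ (mem_union_left _ (mem_image_of_mem _ hz.1.1))
      (mem_union_right _ (mem_image_of_mem _ hz.1.2)) hz.2
  have h4 : P.card * 2 ^ L.card ≤ 4 * ∑ z ∈ P,
      (L.powerset.filter fun Θ => lt z.1 ∈ Θ ∧ ls z.2 ∉ Θ).card := by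
    rw [mul_sum, ← smul_eq_mul, ← sum_const]
    exact sum_le_sum h3
  have h5 : 4 * ∑ Θ ∈ L.powerset, ((T.filter fun t => lt t ∈ Θ).card *
      (S.filter fun s => ls s ∉ Θ).card) ≤ 2 ^ L.card * (9 * 2 ^ n) := by
    rw [mul_sum, ← card_powerset, ← smul_eq_mul (a := L.powerset.card), ← sum_const]
    exact sum_le_sum h2
  have h6 : P.card * 2 ^ L.card ≤ (9 * 2 ^ n) * 2 ^ L.card := by
    calc P.card * 2 ^ L.card ≤ _ := h4
      _ ≤ _ := Nat.mul_le_mul_left 4 h1
      _ ≤ 2 ^ L.card * (9 * 2 ^ n) := h5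
      _ = _ := by ring
  exact Nat.le_of_mul_le_mul_right h6 (by positivity)

theorem card_tri : Fintype.card (Tri n) = n * (n - 1) * (n - 2) := by
  rw [Fintype.card_embedding_eq]
  simp only [Fintype.card_fin]
  rcases n with _ | _ | _ | n
  · simp [Nat.descFactorial]
  · simp [Nat.descFactorial]
  · simp [Nat.descFactorial]
  · simp [Nat.descFactorial]; ring

/-- Combination: if every separated pair is caught by one of `r₁` rectangles or `r₂` label
patterns, all consisting of separated pairs only, then `n (n-1) (n-2) ≤ 9 r₁ + 36 r₂`. -/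
theorem cover_bound {ι₁ ι₂ : Type*} [Fintype ι₁] [Fintype ι₂] {Λ : ι₂ → Type*}
    [∀ l, DecidableEq (Λ l)]
    (T₁ : ι₁ → Finset (Tri n)) (S₁ : ι₁ → Finset (Fin n → Bool))
    (h₁ : ∀ l, ∀ t ∈ T₁ l, ∀ s ∈ S₁ l, SepBy t s)
    (T₂ : ι₂ → Finset (Tri n)) (S₂ : ι₂ → Finset (Fin n → Bool))
    (lt : ∀ l, Tri n → Λ l) (ls : ∀ l, (Fin n → Bool) → Λ l)
    (h₂ : ∀ l, ∀ t ∈ T₂ l, ∀ s ∈ S₂ l, lt l t ≠ ls l s → SepBy t s)
    (hcov : ∀ t s, SepBy t s → (∃ l, t ∈ T₁ l ∧ s ∈ S₁ l) ∨
      (∃ l, t ∈ T₂ l ∧ s ∈ S₂ l ∧ lt l t ≠ ls l s)) :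
    n * (n - 1) * (n - 2) ≤ 9 * Fintype.card ι₁ + 36 * Fintype.card ι₂ := by
  classical
  set All := (univ : Finset (Tri n × (Fin n → Bool))).filter fun z => SepBy z.1 z.2 with hAll
  have h1 : n * (n - 1) * (n - 2) * 2 ^ n ≤ 4 * All.card := by
    have e : All.card = ∑ t : Tri n, (univ.filter fun s : Fin n → Bool => SepBy t s).card := by
      rw [hAll, card_eq_sum_ones, sum_filter, ← univ_product_univ, sum_product]
      refine sum_congr rfl fun t _ => ?_
      rw [card_eq_sum_ones, sum_filter]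
    rw [e, mul_sum, ← card_tri, ← card_univ, ← smul_eq_mul, ← sum_const]
    exact sum_le_sum fun t _ => card_sep t
  have h2 : All ⊆ (univ.biUnion fun l => T₁ l ×ˢ S₁ l) ∪
      (univ.biUnion fun l => (T₂ l ×ˢ S₂ l).filter fun z => lt l z.1 ≠ ls l z.2) := by
    rintro ⟨t, s⟩ hz
    rw [hAll, mem_filter] at hz
    rcases hcov t s hz.2 with ⟨l, ht, hs⟩ | ⟨l, ht, hs, hne⟩
    · exact mem_union_left _ (mem_biUnion.2 ⟨l, mem_univ _, mem_product.2 ⟨ht, hs⟩⟩)
    · exact mem_union_right _ (mem_biUnion.2 ⟨l, mem_univ _,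
        mem_filter.2 ⟨mem_product.2 ⟨ht, hs⟩, hne⟩⟩)
  have h3 : 4 * All.card ≤ (9 * Fintype.card ι₁ + 36 * Fintype.card ι₂) * 2 ^ n := by
    have hc := (card_le_card h2).trans (card_union_le _ _)
    have hb1 : (univ.biUnion fun l => T₁ l ×ˢ S₁ l).card ≤ ∑ l, (T₁ l ×ˢ S₁ l).card :=
      card_biUnion_le
    have hb2 : (univ.biUnion fun l => (T₂ l ×ˢ S₂ l).filter fun z => lt l z.1 ≠ ls l z.2).card ≤
        ∑ l, ((T₂ l ×ˢ S₂ l).filter fun z => lt l z.1 ≠ ls l z.2).card := card_biUnion_le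
    have hs1 : 4 * ∑ l, (T₁ l ×ˢ S₁ l).card ≤ Fintype.card ι₁ * (9 * 2 ^ n) := by
      rw [mul_sum, ← card_univ, ← smul_eq_mul (a := (univ : Finset ι₁).card), ← sum_const]
      refine sum_le_sum fun l _ => ?_
      rw [card_product]
      exact card_rect _ _ (h₁ l)
    have hs2 : ∑ l, ((T₂ l ×ˢ S₂ l).filter fun z => lt l z.1 ≠ ls l z.2).card ≤
        Fintype.card ι₂ * (9 * 2 ^ n) := by
      rw [← card_univ, ← smul_eq_mul, ← sum_const]
      exact sum_le_sum fun l _ => card_pattern _ _ _ _ (h₂ l)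
    calc 4 * All.card ≤ 4 * (∑ l, (T₁ l ×ˢ S₁ l).card +
          ∑ l, ((T₂ l ×ˢ S₂ l).filter fun z => lt l z.1 ≠ ls l z.2).card) := by
            apply Nat.mul_le_mul_left
            exact hc.trans (Nat.add_le_add hb1 hb2)
      _ = 4 * ∑ l, (T₁ l ×ˢ S₁ l).card +
          4 * ∑ l, ((T₂ l ×ˢ S₂ l).filter fun z => lt l z.1 ≠ ls l z.2).card := by ring
      _ ≤ Fintype.card ι₁ * (9 * 2 ^ n) + 4 * (Fintype.card ι₂ * (9 * 2 ^ n)) :=
          Nat.add_le_add hs1 (Nat.mul_le_mul_left _ hs2)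
      _ = _ := by ring
  exact Nat.le_of_mul_le_mul_right (h1.trans h3) (by positivity)

end Pool.Agent.H98.ConicCount
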