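import Mathlib
import Pool.Agent.TropProf.Farkas

/-!
# H98.AL: a bilinear bound, and the affine form of the lemma of Farkas
-/

set_option autoImplicit false

namespace Pool.Agent.H98.AL

open Finset

/-- A matrix with small positive parts of all partial row sums has a small inner product with
nonnegative matrices of rank one with small entries. -/
theorem bil {T Q : Type} [Fintype T] [Fintype Q] (W : T → Q → ℝ) (Bd : ℝ)
    (hBd : ∀ S : Finset Q, ∑ t, max 0 (∑ s ∈ S, W t s) ≤ Bd) (u : T → ℝ) (v : Q → ℝ)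
    (hu : ∀ t, 0 ≤ u t) (hv : ∀ s, 0 ≤ v s) (c : ℝ) (hc : 0 ≤ c) (huv : ∀ t s, u t * v s ≤ c) :
    ∑ t, ∑ s, W t s * (u t * v s) ≤ c * Bd := by
  classical
  have hBd0 : 0 ≤ Bd := by
    refine le_trans ?_ (hBd ∅)
    exact Finset.sum_nonneg fun t _ => le_max_left _ _
  rcases isEmpty_or_nonempty T with hT | hT
  · rw [Finset.univ_eq_empty, Finset.sum_empty]
    exact mul_nonneg hc hBd0
  rcases isEmpty_or_nonempty Q with hS | hS
  · simp only [Finset.univ_eq_empty, Finset.sum_empty, Finset.sum_const_zero]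
    exact mul_nonneg hc hBd0
  obtain ⟨t₀, -, ht₀⟩ := Finset.exists_max_image Finset.univ u Finset.univ_nonempty
  obtain ⟨s₀, -, hs₀⟩ := Finset.exists_max_image Finset.univ v Finset.univ_nonempty
  set T' := Finset.univ.filter fun t => 0 < ∑ s, W t s * v s with hT'
  set w : Q → ℝ := fun s => ∑ t ∈ T', W t s with hw
  set S := Finset.univ.filter fun s => 0 < w s with hS'
  have h1 : ∑ t, ∑ s, W t s * (u t * v s) ≤ u t₀ * ∑ t ∈ T', ∑ s, W t s * v s := by
    rw [Finset.mul_sum, hT', Finset.sum_filter]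
    refine Finset.sum_le_sum fun t _ => ?_
    have h2 : ∑ s, W t s * (u t * v s) = u t * ∑ s, W t s * v s := by
      rw [Finset.mul_sum]
      exact Finset.sum_congr rfl fun s _ => by ring
    rw [h2]
    by_cases h : 0 < ∑ s, W t s * v s
    · rw [if_pos h]
      exact mul_le_mul_of_nonneg_right (ht₀ t (Finset.mem_univ _)) h.le
    · rw [if_neg h]
      exact mul_nonpos_of_nonneg_of_nonpos (hu t) (not_lt.1 h)
  have h3 : ∑ t ∈ T', ∑ s, W t s * v s ≤ v s₀ * ∑ s ∈ S, w s := by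
    rw [Finset.sum_comm, Finset.mul_sum, hS', Finset.sum_filter]
    refine Finset.sum_le_sum fun s _ => ?_
    have h2 : ∑ t ∈ T', W t s * v s = v s * w s := by
      rw [hw, Finset.mul_sum]
      exact Finset.sum_congr rfl fun t _ => by ring
    rw [h2]
    by_cases h : 0 < w s
    · rw [if_pos h]
      exact mul_le_mul_of_nonneg_right (hs₀ s (Finset.mem_univ _)) h.le
    · rw [if_neg h]
      exact mul_nonpos_of_nonneg_of_nonpos (hv s) (not_lt.1 h)
  have h4 : ∑ s ∈ S, w s ≤ Bd := by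
    refine le_trans ?_ (hBd S)
    rw [hw, Finset.sum_comm]
    calc ∑ t ∈ T', ∑ s ∈ S, W t s ≤ ∑ t ∈ T', max 0 (∑ s ∈ S, W t s) :=
          Finset.sum_le_sum fun t _ => le_max_right _ _
      _ ≤ _ := Finset.sum_le_sum_of_subset_of_nonneg (Finset.subset_univ _)
          fun t _ _ => le_max_left _ _
  calc ∑ t, ∑ s, W t s * (u t * v s) ≤ u t₀ * ∑ t ∈ T', ∑ s, W t s * v s := h1
    _ ≤ u t₀ * (v s₀ * ∑ s ∈ S, w s) := mul_le_mul_of_nonneg_left h3 (hu _)
    _ ≤ u t₀ * (v s₀ * Bd) :=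
        mul_le_mul_of_nonneg_left (mul_le_mul_of_nonneg_left h4 (hv _)) (hu _)
    _ = (u t₀ * v s₀) * Bd := by ring
    _ ≤ c * Bd := mul_le_mul_of_nonneg_right (huv _ _) hBd0

/-- **Affine form of the lemma of Farkas**, with arbitrarily many equations. -/
theorem affine_farkas {X : Type*} [AddCommGroup X] [Module ℝ X] {κ : Type*}
    (eqn : κ → X →ₗ[ℝ] ℝ) (rhs : κ → ℝ) {r : ℕ} (a : Fin r → X →ₗ[ℝ] ℝ) (b : Fin r → ℝ)
    (φ : X →ₗ[ℝ] ℝ) (d : ℝ) (x₀ : X) (hx₀ : ∀ e, eqn e x₀ = rhs e) (hx₀' : ∀ l, 0 ≤ a l x₀ + b l)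
    (h : ∀ x, (∀ e, eqn e x = rhs e) → (∀ l, 0 ≤ a l x + b l) → 0 ≤ φ x + d) :
    ∃ u₀ : ℝ, 0 ≤ u₀ ∧ ∃ u : Fin r → ℝ, (∀ l, 0 ≤ u l) ∧
      ∀ x, (∀ e, eqn e x = rhs e) → φ x + d = u₀ + ∑ l, u l * (a l x + b l) := by
  let Z : Submodule ℝ X := ⨅ e, LinearMap.ker (eqn e)
  have hZ : ∀ z : X, z ∈ Z ↔ ∀ e, eqn e z = 0 := by
    intro z
    simp only [Z, Submodule.mem_iInf, LinearMap.mem_ker]
  -- the homogeneous functionals on `Z × ℝ`
  let A : Fin (r + 1) → (Z × ℝ) →ₗ[ℝ] ℝ := Fin.snoc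
    (fun l => (a l ∘ₗ Z.subtype) ∘ₗ LinearMap.fst ℝ Z ℝ + (a l x₀ + b l) • LinearMap.snd ℝ Z ℝ)
    (LinearMap.snd ℝ Z ℝ)
  have hA : ∀ (l : Fin r) (z : Z) (τ : ℝ), A l.castSucc (z, τ) = a l z + (a l x₀ + b l) * τ := by
    intro l z τ
    simp [A]
  have hAlast : ∀ (z : Z) (τ : ℝ), A (Fin.last r) (z, τ) = τ := by
    intro z τ
    simp [A]
  let B : (Z × ℝ) →ₗ[ℝ] ℝ :=
    (φ ∘ₗ Z.subtype) ∘ₗ LinearMap.fst ℝ Z ℝ + (φ x₀ + d) • LinearMap.snd ℝ Z ℝ
  have hB : ∀ (z : Z) (τ : ℝ), B (z, τ) = φ z + (φ x₀ + d) * τ := by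
    intro z τ
    simp [B]
  obtain ⟨u, hu0, hu⟩ := TropProf.farkas (r + 1) A B (by
    rintro ⟨z, τ⟩ hz
    have hτ : 0 ≤ τ := by
      have := hz (Fin.last r)
      rwa [hAlast] at this
    have hl : ∀ l : Fin r, 0 ≤ a l z + (a l x₀ + b l) * τ := by
      intro l
      have := hz l.castSucc
      rwa [hA] at this
    have hze : ∀ e, eqn e (z : X) = 0 := (hZ z).1 z.2
    rw [hB]
    rcases hτ.lt_or_eq with hτ' | hτ'
    · have h1 := h (x₀ + τ⁻¹ • (z : X)) (by
        intro e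
        rw [map_add, map_smul, hze, smul_zero, add_zero, hx₀]) (by
        intro l
        rw [map_add, map_smul, smul_eq_mul]
        have h2 : a l x₀ + τ⁻¹ * a l z + b l = τ⁻¹ * (a l z + (a l x₀ + b l) * τ) := by
          field_simp
          ring
        rw [h2]
        exact mul_nonneg (inv_nonneg.2 hτ) (hl l))
      rw [map_add, map_smul, smul_eq_mul] at h1
      have h2 : φ z + (φ x₀ + d) * τ = τ * (φ x₀ + τ⁻¹ * φ z + d) := by
        field_simp
        ring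
      rw [h2]
      exact mul_nonneg hτ h1
    · rw [← hτ', mul_zero, add_zero]
      by_contra hneg
      push Not at hneg
      obtain ⟨N, hN⟩ := exists_nat_gt ((φ x₀ + d) / (-φ z))
      have h1 := h (x₀ + (N : ℝ) • (z : X)) (by
        intro e
        rw [map_add, map_smul, hze, smul_zero, add_zero, hx₀]) (by
        intro l
        rw [map_add, map_smul, smul_eq_mul]
        have h2 := hl l
        rw [← hτ', mul_zero, add_zero] at h2
        have h3 : 0 ≤ (N : ℝ) * a l z := mul_nonneg (Nat.cast_nonneg N) h2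
        have h4 := hx₀' l
        linarith)
      rw [map_add, map_smul, smul_eq_mul] at h1
      have hpos : 0 < -φ z := by linarith
      rw [div_lt_iff₀ hpos] at hN
      linarith)
  refine ⟨u (Fin.last r), hu0 _, fun l => u l.castSucc, fun l => hu0 _, ?_⟩
  intro x hx
  have hz : x - x₀ ∈ Z := (hZ _).2 fun e => by rw [map_sub, hx, hx₀, sub_self]
  have h1 : B (⟨x - x₀, hz⟩, 1) = ∑ i, u i * A i (⟨x - x₀, hz⟩, 1) := by
    rw [hu]
    simp only [LinearMap.sum_apply, LinearMap.smul_apply, smul_eq_mul]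
  rw [hB, Fin.sum_univ_castSucc, hAlast] at h1
  have h2 : φ (x - x₀) + (φ x₀ + d) * 1 = φ x + d := by
    rw [map_sub]
    ring
  have h3 : ∀ l : Fin r, A l.castSucc (⟨x - x₀, hz⟩, 1) = a l x + b l := by
    intro l
    rw [hA]
    show a l (x - x₀) + (a l x₀ + b l) * 1 = _
    rw [map_sub]
    ring
  have h4 : φ ((⟨x - x₀, hz⟩ : Z) : X) = φ (x - x₀) := rfl
  rw [h4, h2, Finset.sum_congr rfl fun l _ => by rw [h3 l], mul_one] at h1
  rw [h1, add_comm]

end Pool.Agent.H98.AL
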