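import Mathlib

/-!
# H98.AL: a large set of zero-one vectors on which many pairs of coordinates differ often
-/

set_option autoImplicit false

namespace Pool.Agent.H98.AL

open Finset

variable {n : ℕ}

/-- sign of a bit -/
noncomputable def sg (b : Bool) : ℝ := if b = true then 1 else -1

theorem sg_mul_self (b : Bool) : sg b * sg b = 1 := by
  cases b <;> norm_num [sg]

/-- flip the coordinate `i` -/
def flip (i : Fin n) : Equiv.Perm (Fin n → Bool) :=
  Function.Involutive.toPerm (fun s => Function.update s i (!s i)) (by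
    intro s
    funext x
    by_cases hx : x = i
    · subst hx
      simp
    · simp [Function.update_of_ne hx])

theorem flip_self (i : Fin n) (s : Fin n → Bool) : flip i s i = !s i := by
  show Function.update s i (!s i) i = _
  simp

theorem flip_ne {i x : Fin n} (h : x ≠ i) (s : Fin n → Bool) : flip i s x = s x := by
  show Function.update s i (!s i) x = _
  rw [Function.update_of_ne h]

theorem sg_not (b : Bool) : sg (!b) = - sg b := by
  cases b <;> norm_num [sg]

theorem sum_odd (i : Fin n) (F : (Fin n → Bool) → ℝ) (h : ∀ s, F (flip i s) = - F s) :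
    ∑ s, F s = 0 := by
  have h1 := Equiv.sum_comp (flip i) F
  rw [Finset.sum_congr rfl fun s _ => h s, Finset.sum_neg_distrib] at h1
  linarith

theorem sum_sg (i : Fin n) : ∑ s : Fin n → Bool, sg (s i) = 0 :=
  sum_odd i _ fun s => by rw [flip_self, sg_not]

theorem sum_sg_sg {i j : Fin n} (h : i ≠ j) : ∑ s : Fin n → Bool, sg (s i) * sg (s j) = 0 :=
  sum_odd i _ fun s => by rw [flip_self, flip_ne h.symm, sg_not]; ring

theorem sum_one : ∑ _s : Fin n → Bool, (1 : ℝ) = 2 ^ n := by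
  rw [Finset.sum_const, Finset.card_univ, Fintype.card_fun, Fintype.card_bool, Fintype.card_fin,
    nsmul_eq_mul, mul_one]
  push_cast
  rfl

/-- half of the vectors differ at `i` and `j` -/
theorem sum_ne {i j : Fin n} (h : i ≠ j) :
    ∑ s : Fin n → Bool, (if s i ≠ s j then (1 : ℝ) else 0) = 2 ^ n / 2 := by
  have h1 : ∀ s : Fin n → Bool, (if s i ≠ s j then (1 : ℝ) else 0) =
      (1 - sg (s i) * sg (s j)) / 2 := by
    intro s
    cases s i <;> cases s j <;> norm_num [sg]
  rw [Finset.sum_congr rfl fun s _ => h1 s, ← Finset.sum_div, Finset.sum_sub_distrib, sum_one,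
    sum_sg_sg h, sub_zero]

/-- `k` is separated from `i` and `j` by one quarter of the vectors -/
theorem sum_sep {i k j : Fin n} (hik : i ≠ k) (hjk : j ≠ k) (hij : i ≠ j) :
    ∑ s : Fin n → Bool, (if s i ≠ s k ∧ s j ≠ s k then (1 : ℝ) else 0) = 2 ^ n / 4 := by
  have h1 : ∀ s : Fin n → Bool, (if s i ≠ s k ∧ s j ≠ s k then (1 : ℝ) else 0) =
      (1 - sg (s i) * sg (s k) - sg (s j) * sg (s k) + sg (s i) * sg (s j)) / 4 := by
    intro s
    cases s i <;> cases s j <;> cases s k <;> norm_num [sg]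
  rw [Finset.sum_congr rfl fun s _ => h1 s, ← Finset.sum_div, Finset.sum_add_distrib,
    Finset.sum_sub_distrib, Finset.sum_sub_distrib, sum_one, sum_sg_sg hik, sum_sg_sg hjk,
    sum_sg_sg hij]
  ring

/-- exponential moment -/
theorem moment (A : Finset (Fin n)) (l : ℝ) :
    ∑ s : Fin n → Bool, Real.exp (l * ∑ x ∈ A, sg (s x)) ≤ 2 ^ n * Real.exp (l ^ 2 / 2 * A.card) := by
  have h1 : ∀ s : Fin n → Bool, Real.exp (l * ∑ x ∈ A, sg (s x)) =
      ∏ x, (if x ∈ A then Real.exp (l * sg (s x)) else 1) := by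
    intro s
    rw [Finset.mul_sum, Real.exp_sum, Finset.prod_ite_mem, Finset.univ_inter]
  have h2 := Finset.prod_univ_sum (fun _ : Fin n => (Finset.univ : Finset Bool))
    (fun x b => if x ∈ A then Real.exp (l * sg b) else 1)
  rw [Fintype.piFinset_univ] at h2
  rw [Finset.sum_congr rfl fun s _ => h1 s, ← h2]
  have h3 : ∀ x : Fin n, ∑ b : Bool, (if x ∈ A then Real.exp (l * sg b) else 1) ≤
      2 * (if x ∈ A then Real.exp (l ^ 2 / 2) else 1) := by
    intro x
    rw [Fintype.sum_bool]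
    by_cases hx : x ∈ A
    · rw [if_pos hx, if_pos hx, if_pos hx]
      have h4 : Real.exp (l * sg true) + Real.exp (l * sg false) = 2 * Real.cosh l := by
        rw [Real.cosh_eq]
        simp only [sg]
        norm_num
        ring
      rw [h4]
      exact mul_le_mul_of_nonneg_left (Real.cosh_le_exp_half_sq l) (by norm_num)
    · rw [if_neg hx, if_neg hx, if_neg hx]
      norm_num
  refine (Finset.prod_le_prod (fun x _ => ?_) fun x _ => h3 x).trans (le_of_eq ?_)
  · refine Finset.sum_nonneg fun b _ => ?_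
    split
    · exact (Real.exp_pos _).le
    · exact zero_le_one
  · rw [Finset.prod_mul_distrib, Finset.prod_const, Finset.card_univ, Fintype.card_fin,
      Finset.prod_ite_mem, Finset.univ_inter, Finset.prod_const, ← Real.exp_nat_mul, mul_comm (A.card : ℝ)]

/-- change of coordinates -/
def mixPerm (A : Finset (Fin n)) (π : Fin n → Fin n) (hπ : ∀ x ∈ A, π x ∉ A) :
    Equiv.Perm (Fin n → Bool) :=
  Function.Involutive.toPerm (fun s x => if x ∈ A then xor (s x) (s (π x)) else s x) (by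
    intro s
    funext x
    by_cases hx : x ∈ A
    · simp only [hx, if_true, hπ x hx, if_false, Bool.xor_assoc, Bool.xor_self, Bool.xor_false]
    · simp only [hx, if_false])

theorem mixPerm_apply (A : Finset (Fin n)) (π : Fin n → Fin n) (hπ : ∀ x ∈ A, π x ∉ A)
    (s : Fin n → Bool) {x : Fin n} (hx : x ∈ A) : mixPerm A π hπ s x = xor (s x) (s (π x)) := by
  show (if x ∈ A then xor (s x) (s (π x)) else s x) = _
  rw [if_pos hx]

/-- **Leaf lemma.** If every coordinate in `A` differs often from another coordinate outside of `A`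
on `S`, then `S` is small. -/
theorem leaf (A : Finset (Fin n)) (π : Fin n → Fin n) (hπ : ∀ x ∈ A, π x ∉ A)
    (S : Finset (Fin n → Bool)) {γ : ℝ} (hγ : 0 ≤ γ)
    (h : ∀ x ∈ A, (1 / 2 + γ) * S.card ≤ ((S.filter fun s => s x ≠ s (π x)).card : ℝ)) :
    (S.card : ℝ) ≤ 2 ^ n * Real.exp (-(2 * γ ^ 2 * A.card)) := by
  set e : Fin n → (Fin n → Bool) → ℝ := fun x s => sg (xor (s x) (s (π x))) with he
  set Y : (Fin n → Bool) → ℝ := fun s => ∑ x ∈ A, e x s with hY
  have h1 : ∀ x ∈ A, 2 * γ * S.card ≤ ∑ s ∈ S, e x s := by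
    intro x hx
    have h2 : ∀ s : Fin n → Bool, e x s = 2 * (if s x ≠ s (π x) then (1 : ℝ) else 0) - 1 := by
      intro s
      simp only [he]
      cases s x <;> cases s (π x) <;> norm_num [sg]
    rw [Finset.sum_congr rfl fun s _ => h2 s, Finset.sum_sub_distrib, ← Finset.mul_sum,
      Finset.sum_boole, Finset.sum_const, nsmul_eq_mul, mul_one]
    have := h x hx
    linarith
  have h2 : 2 * γ * A.card * S.card ≤ ∑ s ∈ S, Y s := by
    rw [hY, Finset.sum_comm]
    have : ∑ _x ∈ A, 2 * γ * (S.card : ℝ) ≤ ∑ x ∈ A, ∑ s ∈ S, e x s := Finset.sum_le_sum h1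
    rw [Finset.sum_const, nsmul_eq_mul] at this
    linarith
  set m : ℝ := 2 * γ * A.card with hm
  have h3 : Real.exp (2 * γ * m) * S.card ≤ ∑ s ∈ S, Real.exp (2 * γ * Y s) := by
    have h4 : ∀ s ∈ S, Real.exp (2 * γ * m) * (1 + 2 * γ * (Y s - m)) ≤ Real.exp (2 * γ * Y s) := by
      intro s _
      have h5 : Real.exp (2 * γ * Y s) = Real.exp (2 * γ * m) * Real.exp (2 * γ * (Y s - m)) := by
        rw [← Real.exp_add]
        congr 1
        ring
      rw [h5]
      refine mul_le_mul_of_nonneg_left ?_ (Real.exp_pos _).le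
      have := Real.add_one_le_exp (2 * γ * (Y s - m))
      linarith
    refine le_trans ?_ (Finset.sum_le_sum h4)
    rw [← Finset.mul_sum]
    refine mul_le_mul_of_nonneg_left ?_ (Real.exp_pos _).le
    rw [Finset.sum_add_distrib, Finset.sum_const, nsmul_eq_mul, mul_one, ← Finset.mul_sum,
      Finset.sum_sub_distrib, Finset.sum_const, nsmul_eq_mul]
    have h6 : 0 ≤ 2 * γ * (∑ s ∈ S, Y s - S.card * m) := by
      refine mul_nonneg (by linarith) ?_
      linarith
    linarith
  have h7 : ∑ s ∈ S, Real.exp (2 * γ * Y s) ≤ ∑ s, Real.exp (2 * γ * Y s) :=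
    Finset.sum_le_sum_of_subset_of_nonneg (Finset.subset_univ _) fun _ _ _ => (Real.exp_pos _).le
  have h8 : ∑ s, Real.exp (2 * γ * Y s) = ∑ s : Fin n → Bool, Real.exp (2 * γ * ∑ x ∈ A, sg (s x)) := by
    rw [← Equiv.sum_comp (mixPerm A π hπ)
      (fun s : Fin n → Bool => Real.exp (2 * γ * ∑ x ∈ A, sg (s x)))]
    refine Finset.sum_congr rfl fun s _ => ?_
    congr 2
    refine Finset.sum_congr rfl fun x hx => ?_
    rw [mixPerm_apply A π hπ s hx]
  have h9 := moment A (2 * γ)
  have h10 : Real.exp (2 * γ * m) * S.card ≤ 2 ^ n * Real.exp ((2 * γ) ^ 2 / 2 * A.card) := by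
    calc Real.exp (2 * γ * m) * S.card ≤ _ := h3
      _ ≤ _ := h7
      _ = _ := h8
      _ ≤ _ := h9
  have h11 : (S.card : ℝ) = Real.exp (-(2 * γ * m)) * (Real.exp (2 * γ * m) * S.card) := by
    rw [← mul_assoc, ← Real.exp_add]
    simp
  rw [h11]
  refine (mul_le_mul_of_nonneg_left h10 (Real.exp_pos _).le).trans (le_of_eq ?_)
  rw [mul_left_comm, ← Real.exp_add]
  congr 2
  rw [hm]
  ring

/-- bipartition -/
theorem bip (K : Finset (Fin n)) (ν : Fin n → Fin n) (hν : ∀ k ∈ K, ν k ≠ k) :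
    ∃ A : Finset (Fin n), A ⊆ K ∧ (∀ x ∈ A, ν x ∉ A) ∧ K.card ≤ 4 * A.card := by
  classical
  have h1 : ∀ k ∈ K, ∑ s : Fin n → Bool, (if s k = true ∧ s (ν k) = false then (1 : ℝ) else 0) =
      2 ^ n / 4 := by
    intro k hk
    have h2 : ∀ s : Fin n → Bool, (if s k = true ∧ s (ν k) = false then (1 : ℝ) else 0) =
        (1 + sg (s k) - sg (s (ν k)) - sg (s k) * sg (s (ν k))) / 4 := by
      intro s
      cases s k <;> cases s (ν k) <;> norm_num [sg]
    rw [Finset.sum_congr rfl fun s _ => h2 s, ← Finset.sum_div, Finset.sum_sub_distrib,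
      Finset.sum_sub_distrib, Finset.sum_add_distrib, sum_one, sum_sg, sum_sg,
      sum_sg_sg (hν k hk).symm]
    ring
  have h2 : ∑ s : Fin n → Bool, ((K.card : ℝ) / 4) ≤
      ∑ s : Fin n → Bool, ((K.filter fun k => s k = true ∧ s (ν k) = false).card : ℝ) := by
    have h3 : ∀ s : Fin n → Bool, ((K.filter fun k => s k = true ∧ s (ν k) = false).card : ℝ) =
        ∑ k ∈ K, (if s k = true ∧ s (ν k) = false then (1 : ℝ) else 0) := by
      intro s
      rw [Finset.sum_boole]
    rw [Finset.sum_congr rfl fun s _ => h3 s, Finset.sum_comm, Finset.sum_congr rfl h1,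
      Finset.sum_const, Finset.sum_const, nsmul_eq_mul, nsmul_eq_mul, Finset.card_univ,
      Fintype.card_fun, Fintype.card_bool, Fintype.card_fin]
    push_cast
    exact le_of_eq (by ring)
  obtain ⟨s, -, hs⟩ := Finset.exists_le_of_sum_le Finset.univ_nonempty h2
  refine ⟨K.filter fun k => s k = true ∧ s (ν k) = false, Finset.filter_subset _ _, ?_, ?_⟩
  · intro x hx hνx
    have h3 := (Finset.mem_filter.1 hx).2.2
    have h4 := (Finset.mem_filter.1 hνx).2.1
    rw [h3] at h4
    exact Bool.noConfusion h4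
  · have : (K.card : ℝ) ≤ 4 * ((K.filter fun k => s k = true ∧ s (ν k) = false).card : ℝ) := by
      linarith
    exact_mod_cast this

/-- **Few triples are separated more often than by chance.** -/
theorem comb (S : Finset (Fin n → Bool)) {γ : ℝ} (hγ : 0 < γ)
    (𝒯 : Finset (Fin 3 ↪ Fin n))
    (h𝒯 : ∀ t ∈ 𝒯, (1 / 2 + γ) * S.card ≤
      ((S.filter fun s => s (t 0) ≠ s (t 1) ∧ s (t 2) ≠ s (t 1)).card : ℝ)) :
    (𝒯.card : ℝ) * S.card ≤ 3 * 2 ^ n / γ ^ 6 := by
  classical
  set N : Fin n → Finset (Fin n) := fun k => Finset.univ.filter fun x =>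
    x ≠ k ∧ (1 / 2 + γ) * S.card ≤ ((S.filter fun s => s x ≠ s k).card : ℝ) with hN
  set K := Finset.univ.filter fun k => (N k).Nonempty with hK
  -- neighbours
  have hmem : ∀ t ∈ 𝒯, t 0 ∈ N (t 1) ∧ t 2 ∈ N (t 1) := by
    intro t ht
    have h1 := h𝒯 t ht
    constructor
    · refine Finset.mem_filter.2 ⟨Finset.mem_univ _, fun h => ?_, h1.trans ?_⟩
      · have := t.injective h
        simp at this
      · exact_mod_cast Finset.card_le_card fun s hs => by
          rw [Finset.mem_filter] at hs ⊢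
          exact ⟨hs.1, hs.2.1⟩
    · refine Finset.mem_filter.2 ⟨Finset.mem_univ _, fun h => ?_, h1.trans ?_⟩
      · have := t.injective h
        simp at this
      · exact_mod_cast Finset.card_le_card fun s hs => by
          rw [Finset.mem_filter] at hs ⊢
          exact ⟨hs.1, hs.2.2⟩
  -- the largest neighbourhood
  obtain ⟨a, ha1, ha2⟩ : ∃ a : ℕ, (∀ k, (N k).card ≤ a) ∧
      (S.card : ℝ) ≤ 2 ^ n * Real.exp (-(2 * γ ^ 2 * a)) := by
    rcases isEmpty_or_nonempty (Fin n) with hn | hn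
    · refine ⟨0, fun k => hn.elim k, ?_⟩
      have h2 : (S.card : ℝ) ≤ 2 ^ n := by
        have h3 := Finset.card_le_univ S
        rw [Fintype.card_fun, Fintype.card_bool, Fintype.card_fin] at h3
        exact_mod_cast h3
      simpa using h2
    · obtain ⟨k, -, hk⟩ := Finset.exists_max_image Finset.univ (fun k => (N k).card)
        Finset.univ_nonempty
      refine ⟨(N k).card, fun k' => hk k' (Finset.mem_univ _), ?_⟩
      refine leaf (N k) (fun _ => k) ?_ S hγ.le ?_
      · intro x _ h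
        exact (Finset.mem_filter.1 h).2.1 rfl
      · intro x hx
        exact (Finset.mem_filter.1 hx).2.2
  -- the centres
  obtain ⟨b, hb1, hb2⟩ : ∃ b : ℕ, K.card ≤ 4 * b ∧
      (S.card : ℝ) ≤ 2 ^ n * Real.exp (-(2 * γ ^ 2 * b)) := by
    have h1 : ∀ k, ∃ x, k ∈ K → x ∈ N k := by
      intro k
      by_cases hk : k ∈ K
      · obtain ⟨x, hx⟩ := (Finset.mem_filter.1 hk).2
        exact ⟨x, fun _ => hx⟩
      · exact ⟨k, fun h => absurd h hk⟩
    choose ν hν using h1
    obtain ⟨A, hA1, hA2, hA3⟩ := bip K ν fun k hk => (Finset.mem_filter.1 (hν k hk)).2.1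
    refine ⟨A.card, hA3, leaf A ν hA2 S hγ.le ?_⟩
    intro x hx
    have h2 := (Finset.mem_filter.1 (hν x (hA1 hx))).2.2
    refine h2.trans (le_of_eq ?_)
    congr 2
    refine Finset.filter_congr fun s _ => ?_
    exact ne_comm
  -- counting
  have hcard : 𝒯.card ≤ K.card * a ^ 2 := by
    have h1 : 𝒯.card ≤ (K.sigma fun k => N k ×ˢ N k).card := by
      refine Finset.card_le_card_of_injOn
        (fun t => (⟨t 1, (t 0, t 2)⟩ : Σ _ : Fin n, Fin n × Fin n)) ?_ ?_
      · intro t ht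
        obtain ⟨h2, h3⟩ := hmem t ht
        rw [Finset.mem_coe, Finset.mem_sigma]
        exact ⟨Finset.mem_filter.2 ⟨Finset.mem_univ _, ⟨_, h2⟩⟩, Finset.mem_product.2 ⟨h2, h3⟩⟩
      · intro t _ t' _ h
        simp only [Sigma.mk.injEq, heq_eq_eq, Prod.mk.injEq] at h
        obtain ⟨h1, h2, h3⟩ := h
        ext i
        fin_cases i
        · exact congrArg Fin.val h2
        · exact congrArg Fin.val h1
        · exact congrArg Fin.val h3
    refine h1.trans ?_
    rw [Finset.card_sigma]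
    calc ∑ k ∈ K, (N k ×ˢ N k).card ≤ ∑ _k ∈ K, a ^ 2 := Finset.sum_le_sum fun k _ => by
          rw [Finset.card_product, sq]
          exact Nat.mul_le_mul (ha1 k) (ha1 k)
      _ = K.card * a ^ 2 := by rw [Finset.sum_const, smul_eq_mul]
  -- the larger of the two numbers
  obtain ⟨c, hc1, hc2⟩ : ∃ c : ℕ, 𝒯.card ≤ 4 * c ^ 3 ∧
      (S.card : ℝ) ≤ 2 ^ n * Real.exp (-(2 * γ ^ 2 * c)) := by
    rcases le_total a b with hab | hab
    · refine ⟨b, hcard.trans ?_, hb2⟩
      calc K.card * a ^ 2 ≤ (4 * b) * b ^ 2 := Nat.mul_le_mul hb1 (Nat.pow_le_pow_left hab 2)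
        _ = 4 * b ^ 3 := by ring
    · refine ⟨a, hcard.trans ?_, ha2⟩
      calc K.card * a ^ 2 ≤ (4 * a) * a ^ 2 :=
            Nat.mul_le_mul_right _ (hb1.trans (Nat.mul_le_mul_left 4 hab))
        _ = 4 * a ^ 3 := by ring
  have hy0 : 0 ≤ 2 * γ ^ 2 * (c : ℝ) := by positivity
  have hexp := Real.pow_div_factorial_le_exp (2 * γ ^ 2 * (c : ℝ)) hy0 3
  have hexp' : (2 * γ ^ 2 * (c : ℝ)) ^ 3 ≤ 6 * Real.exp (2 * γ ^ 2 * c) := by
    have h6 : ((Nat.factorial 3 : ℕ) : ℝ) = 6 := by norm_num [Nat.factorial]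
    rw [h6, div_le_iff₀ (by norm_num)] at hexp
    linarith
  have hc1' : (𝒯.card : ℝ) ≤ 4 * (c : ℝ) ^ 3 := by exact_mod_cast hc1
  have hfin : 4 * (c : ℝ) ^ 3 * Real.exp (-(2 * γ ^ 2 * c)) ≤ 3 / γ ^ 6 := by
    rw [Real.exp_neg, ← div_eq_mul_inv, div_le_div_iff₀ (Real.exp_pos _) (by positivity)]
    have e1 : 4 * (c : ℝ) ^ 3 * γ ^ 6 = (2 * γ ^ 2 * (c : ℝ)) ^ 3 / 2 := by ring
    rw [e1]
    linarith
  calc (𝒯.card : ℝ) * S.card ≤ (4 * (c : ℝ) ^ 3) * (2 ^ n * Real.exp (-(2 * γ ^ 2 * c))) :=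
        mul_le_mul hc1' hc2 (by positivity) (by positivity)
    _ = 2 ^ n * (4 * (c : ℝ) ^ 3 * Real.exp (-(2 * γ ^ 2 * c))) := by ring
    _ ≤ 2 ^ n * (3 / γ ^ 6) := mul_le_mul_of_nonneg_left hfin (by positivity)
    _ = 3 * 2 ^ n / γ ^ 6 := by ring

end Pool.Agent.H98.AL
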