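import Pool.Agent.APM54.Defs

/-!
# MP_885423_lc: mixed-integer linear programs for all distances

Definitions used in the statement of `Pool.Agent.Results.MP_885423_lc.ApproxLinear.result`.
Distances (`dist`, `walkWeight`) are those of `Pool.Agent.APM54.Defs`.
-/

set_option autoImplicit false

namespace Pool.Agent.H98.AL

open Pool.Agent.APM54

/-- A mixed-integer linear program which is to find the distances in the graphs with vertex set
`Fin n`. The weights `W` of the pairs of vertices are the data; the unknown is an element `x` of a
real vector space `X` (of any dimension, also infinite). The constraints are affine jointly in `W`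
and `x`: any number of linear equations, `r` linear inequalities, and `q` binary variables (affine
functions whose value must be `0` or `1`). The output is a matrix, an affine function of `W`
and `x`. -/
structure Milp (n r q : ℕ) where
  /-- the space of the unknown -/
  X : Type
  /-- it is an additive group -/
  [grp : AddCommGroup X]
  /-- it is a real vector space -/
  [mod : Module ℝ X]
  /-- index set of the equations -/
  E : Type
  /-- left-hand sides of the equations -/
  eqn : E → ((Fin n → Fin n → ℝ) × X) →ₗ[ℝ] ℝ
  /-- right-hand sides of the equations -/
  rhs : E → ℝ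
  /-- linear parts of the inequalities `0 ≤ ineq l (W, x) + off l` -/
  ineq : Fin r → ((Fin n → Fin n → ℝ) × X) →ₗ[ℝ] ℝ
  /-- constant terms of the inequalities -/
  off : Fin r → ℝ
  /-- linear parts of the binary variables `bin j (W, x) + bin₀ j` -/
  bin : Fin q → ((Fin n → Fin n → ℝ) × X) →ₗ[ℝ] ℝ
  /-- constant terms of the binary variables -/
  bin₀ : Fin q → ℝ
  /-- linear part of the output `out (W, x) + out₀` -/
  out : ((Fin n → Fin n → ℝ) × X) →ₗ[ℝ] (Fin n → Fin n → ℝ)
  /-- constant term of the output -/
  out₀ : Fin n → Fin n → ℝ

attribute [instance] Milp.grp Milp.mod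

namespace Milp

variable {n r q : ℕ} (P : Milp n r q)

/-- `x` is a feasible solution for the weights `W` -/
def Feasible (W : Fin n → Fin n → ℝ) (x : P.X) : Prop :=
  (∀ e, P.eqn e (W, x) = P.rhs e) ∧ (∀ l, 0 ≤ P.ineq l (W, x) + P.off l) ∧
    ∀ j, P.bin j (W, x) + P.bin₀ j = 0 ∨ P.bin j (W, x) + P.bin₀ j = 1

/-- the output at `x` for the weights `W` -/
def output (W : Fin n → Fin n → ℝ) (x : P.X) (u v : Fin n) : ℝ := (P.out (W, x) + P.out₀) u v

/-- For the weights `W` the program determines all distances up to the factor `ρ`: no feasible
solution has an output larger than `ρ` times a distance, and some feasible solution has outputs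
which are at least the distances. (So maximising the output of the program over the feasible
solutions gives, for all pairs simultaneously, numbers between the distance and `ρ` times the
distance.) -/
def Correct (ρ : ℝ) (W : Fin n → Fin n → ℝ) : Prop :=
  (∀ x, P.Feasible W x → ∀ u v, u ≠ v → P.output W x u v ≤ ρ * dist W u v) ∧
    ∃ x, P.Feasible W x ∧ ∀ u v, u ≠ v → dist W u v ≤ P.output W x u v

end Milp

end Pool.Agent.H98.AL
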