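import Pool.Agent.H98.ALMain
import Pool.Agent.H98.ALDefs

/-!
# H98.AL: the bound for mixed-integer linear programs
-/

set_option autoImplicit false

namespace Pool.Agent.H98.AL

open Finset Pool.Agent.APM54

variable {n : ℕ}

/-- the weights of the cut `s` -/
noncomputable def cutW (L : ℝ) (s : Fin n → Bool) (u v : Fin n) : ℝ :=
  if u = v then 0 else if s u = s v then 1 else L

theorem walkWeight_nonneg {W : Fin n → Fin n → ℝ} (hW : ∀ u v, 0 ≤ W u v) (l : List (Fin n)) :
    ∀ u v, 0 ≤ walkWeight W u l v := by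
  induction l with
  | nil => exact fun u v => hW u v
  | cons x l ih => exact fun u v => add_nonneg (hW u x) (ih x v)

theorem dist_le_walk {W : Fin n → Fin n → ℝ} (hW : ∀ u v, 0 ≤ W u v) {u v : Fin n} (huv : u ≠ v)
    (l : List (Fin n)) : dist W u v ≤ walkWeight W u l v := by
  unfold Pool.Agent.APM54.dist
  rw [if_neg huv]
  exact ciInf_le ⟨0, by rintro _ ⟨l, rfl⟩; exact walkWeight_nonneg hW l u v⟩ l

theorem cutW_nonneg {L : ℝ} (hL : 1 ≤ L) (s : Fin n → Bool) (u v : Fin n) : 0 ≤ cutW L s u v := by
  unfold cutW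
  split_ifs <;> linarith

/-- `cutW` satisfies the triangle inequality -/
theorem cutW_tri {L : ℝ} (hL : 1 ≤ L) (s : Fin n → Bool) (u v w : Fin n) :
    cutW L s u w ≤ cutW L s u v + cutW L s v w := by
  unfold cutW
  by_cases h1 : u = v
  · subst h1
    simp
  · by_cases h2 : v = w
    · subst h2
      simp
    · rw [if_neg h1, if_neg h2]
      split_ifs with h3 h4 h5 h6 h7 h8
      all_goals first | linarith | skip
      all_goals simp_all

theorem cutW_le_walk {L : ℝ} (hL : 1 ≤ L) (s : Fin n → Bool) (l : List (Fin n)) :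
    ∀ u v, cutW L s u v ≤ walkWeight (cutW L s) u l v := by
  induction l with
  | nil => exact fun u v => le_rfl
  | cons x l ih =>
    intro u v
    exact (cutW_tri hL s u x v).trans (add_le_add le_rfl (ih x v))

theorem dist_cutW {L : ℝ} (hL : 1 ≤ L) (s : Fin n → Bool) {u v : Fin n} (huv : u ≠ v) :
    dist (cutW L s) u v = cutW L s u v := by
  refine le_antisymm (dist_le_walk (cutW_nonneg hL s) huv []) ?_
  unfold Pool.Agent.APM54.dist
  rw [if_neg huv]
  exact le_ciInf fun l => cutW_le_walk hL s l u v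

/-- the number of the off-diagonal pairs and bounds -/
theorem card_pairs : Fintype.card {p : Fin n × Fin n // p.1 < p.2} * 2 ≤ n ^ 2 := by
  classical
  have h1 : Fintype.card ({p : Fin n × Fin n // p.1 < p.2} × Bool) ≤
      Fintype.card (Fin n × Fin n) := by
    refine Fintype.card_le_of_injective
      (fun x : {p : Fin n × Fin n // p.1 < p.2} × Bool =>
        if x.2 then x.1.1 else (x.1.1.2, x.1.1.1)) ?_
    rintro ⟨⟨⟨a, b⟩, hab⟩, c⟩ ⟨⟨⟨a', b'⟩, hab'⟩, c'⟩ h
    dsimp only at hab hab' h
    cases c <;> cases c' <;> simp only [if_true, if_false, Bool.false_eq_true, Prod.mk.injEq] at h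
    · obtain ⟨h1, h2⟩ := h
      subst h1
      subst h2
      rfl
    · obtain ⟨h1, h2⟩ := h
      subst h1
      subst h2
      exact absurd (hab.trans hab') (lt_irrefl _)
    · obtain ⟨h1, h2⟩ := h
      subst h1
      subst h2
      exact absurd (hab.trans hab') (lt_irrefl _)
    · obtain ⟨h1, h2⟩ := h
      subst h1
      subst h2
      rfl
  rw [Fintype.card_prod, Fintype.card_prod, Fintype.card_bool, Fintype.card_fin] at h1
  rw [pow_two]
  exact h1

/-- evaluation of the weights -/
def evW {X : Type*} [AddCommGroup X] [Module ℝ X] (u v : Fin n) :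
    ((Fin n → Fin n → ℝ) × X) →ₗ[ℝ] ℝ where
  toFun p := p.1 u v
  map_add' _ _ := rfl
  map_smul' _ _ := rfl

/-- evaluation of a matrix -/
def evM (u v : Fin n) : (Fin n → Fin n → ℝ) →ₗ[ℝ] ℝ where
  toFun D := D u v
  map_add' _ _ := rfl
  map_smul' _ _ := rfl

theorem fun_val {r q : ℕ} (P : Milp n r q) (ρ : ℝ) (t : Fin 3 ↪ Fin n) (W : Fin n → Fin n → ℝ)
    (x : P.X) : ((ρ • (evW (t 0) (t 1) + evW (t 1) (t 2)) - (evM (t 0) (t 2)).comp P.out :
      ((Fin n → Fin n → ℝ) × P.X) →ₗ[ℝ] ℝ) (W, x)) + - P.out₀ (t 0) (t 2) =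
      ρ * (W (t 0) (t 1) + W (t 1) (t 2)) - P.output W x (t 0) (t 2) := by
  simp only [evW, evM, Milp.output, LinearMap.sub_apply, LinearMap.smul_apply,
    LinearMap.add_apply, LinearMap.comp_apply, LinearMap.coe_mk, AddHom.coe_mk,
    smul_eq_mul, Pi.add_apply]
  ring

theorem milp_bound {r q : ℕ} {ρ L : ℝ} (hρ : 1 ≤ ρ) (hL : 10 * ρ ≤ L) (P : Milp n r q)
    (h : ∀ W : Fin n → Fin n → ℝ, (∀ u, W u u = 0) → (∀ u v, W u v = W v u) →
      (∀ u v, u ≠ v → 1 ≤ W u v ∧ W u v ≤ L) → P.Correct ρ W) :
    (n * (n - 1) * (n - 2) : ℝ) ≤ (650 * ρ) ^ 2 * (2 ^ q * (r + n ^ 2 + 1)) := by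
  classical
  have hL1 : 1 ≤ L := by linarith
  have hcut : ∀ s : Fin n → Bool, P.Correct ρ (cutW L s) := by
    intro s
    refine h _ (fun u => by simp [cutW]) (fun u v => ?_) fun u v huv => ?_
    · unfold cutW
      simp only [eq_comm]
    · unfold cutW
      rw [if_neg huv]
      split_ifs
      · exact ⟨le_rfl, hL1⟩
      · exact ⟨hL1, le_rfl⟩
  choose hc1 x hx1 hx2 using hcut
  have key := core1 (n := n) (X := (Fin n → Fin n → ℝ) × P.X)
    (κ := P.E ⊕ (Fin q ⊕ (Fin n × Fin n))) (ι := Fin r ⊕ ({p : Fin n × Fin n // p.1 < p.2} × Bool))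
    (M := Fin q → Bool)
    (fun m => Sum.elim P.eqn (Sum.elim P.bin
      (fun p => if p.1 = p.2 then evW p.1 p.1 else evW p.1 p.2 - evW p.2 p.1)))
    (fun m => Sum.elim P.rhs (Sum.elim (fun j => (if m j then 1 else 0) - P.bin₀ j) fun _ => 0))
    (fun _ => Sum.elim P.ineq (fun p => if p.2 then evW p.1.1.1 p.1.1.2 else - evW p.1.1.1 p.1.1.2))
    (fun _ => Sum.elim P.off (fun p => if p.2 then -1 else L))
    (fun t => ρ • (evW (t 0) (t 1) + evW (t 1) (t 2)) - (evM (t 0) (t 2)).comp P.out)
    (fun t => - P.out₀ (t 0) (t 2)) hρ hL ?_ ?_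
  · refine key.trans ?_
    refine mul_le_mul_of_nonneg_left ?_ (by positivity)
    rw [Fintype.card_sum, Fintype.card_prod, Fintype.card_bool, Fintype.card_fun,
      Fintype.card_bool, Fintype.card_fin, Fintype.card_fin]
    have h1 : ((Fintype.card {p : Fin n × Fin n // p.1 < p.2} * 2 : ℕ) : ℝ) ≤ ((n ^ 2 : ℕ) : ℝ) :=
      Nat.cast_le.2 card_pairs
    push_cast at h1 ⊢
    refine mul_le_mul_of_nonneg_left ?_ (by positivity)
    linarith
  · intro s
    refine ⟨fun j => decide (P.bin j (cutW L s, x s) + P.bin₀ j = 1), (cutW L s, x s), ?_, ?_, ?_⟩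
    · rintro (e | j | p)
      · exact (hx1 s).1 e
      · simp only [Sum.elim_inr, Sum.elim_inl]
        rcases (hx1 s).2.2 j with h1 | h1
        · have h2 : ¬ (P.bin j (cutW L s, x s) + P.bin₀ j = 1) := by
            rw [h1]
            norm_num
          simp only [decide_eq_true_eq]
          rw [if_neg h2]
          linarith
        · simp only [decide_eq_true_eq]
          rw [if_pos h1]
          linarith
      · simp only [Sum.elim_inr]
        split_ifs with hp
        · simp [evW, cutW]
        · simp only [evW, LinearMap.sub_apply, LinearMap.coe_mk, AddHom.coe_mk, cutW]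
          simp only [eq_comm, sub_self]
    · rintro (l | ⟨⟨p, hp⟩, c⟩)
      · exact (hx1 s).2.1 l
      · have hp' : p.1 ≠ p.2 := ne_of_lt hp
        cases c
        · simp only [Sum.elim_inr, Bool.false_eq_true, if_false, LinearMap.neg_apply, evW,
            LinearMap.coe_mk, AddHom.coe_mk, cutW, if_neg hp']
          split_ifs <;> linarith
        · simp only [Sum.elim_inr, if_true, evW, LinearMap.coe_mk, AddHom.coe_mk, cutW, if_neg hp']
          split_ifs <;> linarith
    · intro t
      have h01 : t 0 ≠ t 1 := fun h => by simpa using t.injective h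
      have h12 : t 1 ≠ t 2 := fun h => by simpa using t.injective h
      have h02 : t 0 ≠ t 2 := fun h => by simpa using t.injective h
      rw [fun_val]
      have hlo := hx2 s (t 0) (t 2) h02
      have hup := hc1 s (x s) (hx1 s) (t 0) (t 2) h02
      rw [dist_cutW hL1 s h02] at hlo hup
      have hLL : 0 ≤ ρ * (L - 1) := mul_nonneg (by linarith) (by linarith)
      unfold cutW at hlo hup ⊢
      rw [if_neg h02] at hlo hup
      rw [if_neg h01, if_neg h12]
      refine ⟨?_, ?_, ?_, ?_⟩
      · have h5 : (1 : ℝ) ≤ P.output (fun u v => if u = v then 0 else if s u = s v then 1 else L)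
            (x s) (t 0) (t 2) := by
          refine le_trans ?_ hlo
          split_ifs <;> linarith
        split_ifs <;> nlinarith
      · rintro ⟨h3, h4⟩
        have h6 : s (t 0) = s (t 2) := by
          cases hs0 : s (t 0) <;> cases hs1 : s (t 1) <;> cases hs2 : s (t 2) <;> simp_all
        rw [if_pos h6] at hup
        rw [if_neg h3, if_neg (Ne.symm h4)]
        linarith
      · intro h3 h4
        have h6 : s (t 0) = s (t 2) := h3.trans h4.symm
        rw [if_pos h6] at hlo
        rw [if_pos h3, if_pos h4.symm]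
        linarith
      · intro h3
        rw [if_neg h3] at hlo
        by_cases h4 : s (t 0) = s (t 1)
        · have h5 : s (t 1) ≠ s (t 2) := fun h => h3 (h4.trans h)
          rw [if_pos h4, if_neg h5]
          linarith
        · have h5 : s (t 1) = s (t 2) := by
            cases hs0 : s (t 0) <;> cases hs1 : s (t 1) <;> cases hs2 : s (t 2) <;> simp_all
          rw [if_neg h4, if_pos h5]
          linarith
  · rintro m ⟨W, y⟩ heq hineq t
    have h01 : t 0 ≠ t 1 := fun h => by simpa using t.injective h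
    have h12 : t 1 ≠ t 2 := fun h => by simpa using t.injective h
    have h02 : t 0 ≠ t 2 := fun h => by simpa using t.injective h
    have hdiag : ∀ u, W u u = 0 := by
      intro u
      have := heq (Sum.inr (Sum.inr (u, u)))
      simpa [evW] using this
    have hsymm : ∀ u v, W u v = W v u := by
      intro u v
      by_cases huv : u = v
      · rw [huv]
      · have := heq (Sum.inr (Sum.inr (u, v)))
        simp only [Sum.elim_inr, if_neg huv, evW, LinearMap.sub_apply, LinearMap.coe_mk,
          AddHom.coe_mk] at this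
        linarith
    have hlt : ∀ u v, u < v → 1 ≤ W u v ∧ W u v ≤ L := by
      intro u v huv
      have h1 := hineq (Sum.inr (⟨(u, v), huv⟩, true))
      have h2 := hineq (Sum.inr (⟨(u, v), huv⟩, false))
      simp only [Sum.elim_inr, if_true, Bool.false_eq_true, if_false, evW, LinearMap.neg_apply,
        LinearMap.coe_mk, AddHom.coe_mk] at h1 h2
      exact ⟨by linarith, by linarith⟩
    have hbox : ∀ u v, u ≠ v → 1 ≤ W u v ∧ W u v ≤ L := by
      intro u v huv
      rcases lt_or_gt_of_ne huv with h1 | h1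
      · exact hlt u v h1
      · rw [hsymm u v]
        exact hlt v u h1
    have hW0 : ∀ u v, 0 ≤ W u v := by
      intro u v
      by_cases huv : u = v
      · rw [huv, hdiag]
      · linarith [(hbox u v huv).1]
    have hfeas : P.Feasible W y := by
      refine ⟨fun e => heq (Sum.inl e), fun l => hineq (Sum.inl l), fun j => ?_⟩
      have h1 := heq (Sum.inr (Sum.inl j))
      simp only [Sum.elim_inr, Sum.elim_inl] at h1
      rw [h1]
      cases m j
      · left; simp
      · right; simp
    have h1 := (h W hdiag hsymm hbox).1 y hfeas (t 0) (t 2) h02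
    have h2 := dist_le_walk hW0 h02 [t 1]
    simp only [walkWeight] at h2
    have h3 : ρ * dist W (t 0) (t 2) ≤ ρ * (W (t 0) (t 1) + W (t 1) (t 2)) :=
      mul_le_mul_of_nonneg_left h2 (by linarith)
    rw [fun_val]
    linarith

end Pool.Agent.H98.AL
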