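import Pool.Agent.H98.ALSun

/-!
# H98.AL: the weights
-/

set_option autoImplicit false

namespace Pool.Agent.H98.AL

open Finset

/-- if at most `A / x ^ 2` of the numbers are at least `x`, then the sum of the excesses over `γ` is
at most `A / γ` -/
theorem layer {τ : Type} {A γ : ℝ} (hA : 0 ≤ A) (hγ : 0 < γ) (y : τ → ℝ) (T : Finset τ)
    (hy : ∀ t ∈ T, 0 < y t)
    (h : ∀ x : ℝ, 0 < x → ((T.filter fun t => x ≤ y t).card : ℝ) ≤ A / x ^ 2) :
    ∑ t ∈ T, (y t - γ) ≤ A / γ := by
  classical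
  have key : ∀ m : ℕ, ∀ T : Finset τ, T.card = m → (∀ t ∈ T, 0 < y t) →
      (∀ x : ℝ, 0 < x → ((T.filter fun t => x ≤ y t).card : ℝ) ≤ A / x ^ 2) →
      ∑ t ∈ T, y t ≤ 2 * √(A * m) := by
    intro m
    induction m with
    | zero =>
      intro T hT _ _
      rw [Finset.card_eq_zero.1 hT, Finset.sum_empty]
      positivity
    | succ m ih =>
      intro T hT hy h
      have hne : T.Nonempty := by
        rw [← Finset.card_pos, hT]
        exact Nat.succ_pos m
      obtain ⟨t₀, ht₀, hmin⟩ := Finset.exists_min_image T y hne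
      have h1 := ih (T.erase t₀) (by rw [Finset.card_erase_of_mem ht₀, hT]; rfl)
        (fun t ht => hy t (Finset.mem_of_mem_erase ht)) (fun x hx => le_trans (by
          exact_mod_cast Finset.card_le_card (Finset.filter_subset_filter _ (Finset.erase_subset _ _)))
          (h x hx))
      have h2 := h (y t₀) (hy t₀ ht₀)
      have h3 : T.filter (fun t => y t₀ ≤ y t) = T := Finset.filter_true_of_mem hmin
      rw [h3, hT] at h2
      have hy0 := hy t₀ ht₀
      rw [le_div_iff₀ (by positivity)] at h2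
      rw [← Finset.add_sum_erase T y ht₀]
      -- `y t₀ ≤ 2 (√(A (m + 1)) - √(A m))`
      have h4 : √(A * m) ^ 2 = A * m := Real.sq_sqrt (by positivity)
      have h5 : √(A * ((m + 1 : ℕ) : ℝ)) ^ 2 = A * ((m + 1 : ℕ) : ℝ) := Real.sq_sqrt (by positivity)
      have h6 : 0 ≤ √(A * m) := Real.sqrt_nonneg _
      have h7 : 0 ≤ √(A * ((m + 1 : ℕ) : ℝ)) := Real.sqrt_nonneg _
      set u := √(A * m)
      set v := √(A * ((m + 1 : ℕ) : ℝ))
      have hm1 : (0 : ℝ) < ((m + 1 : ℕ) : ℝ) := by positivity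
      have hm2 : ((m + 1 : ℕ) : ℝ) = m + 1 := by push_cast; ring
      have h8 : u ≤ v := Real.sqrt_le_sqrt (by rw [hm2]; nlinarith)
      -- `v * y ≤ A`
      have h9 : v * y t₀ ≤ A := by
        have h10 : (v * y t₀) ^ 2 ≤ A ^ 2 := by
          rw [mul_pow, h5]
          nlinarith
        exact (pow_le_pow_iff_left₀ (mul_nonneg h7 hy0.le) hA (by norm_num)).1 h10
      have h11 : v ^ 2 - u ^ 2 = A := by
        rw [h4, h5, hm2]
        ring
      have h12 : y t₀ ≤ 2 * (v - u) := by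
        rcases h7.lt_or_eq with hv | hv
        · have h13 : y t₀ * v ≤ 2 * (v - u) * v := by
            have h14 : (v - u) * (v + u) = A := by rw [← h11]; ring
            nlinarith
          exact le_of_mul_le_mul_right h13 hv
        · have hA0 : A = 0 := by
            have : v ^ 2 = 0 := by rw [← hv]; ring
            rw [h5] at this
            rcases mul_eq_zero.1 this with h | h
            · exact h
            · exact absurd h hm1.ne'
          rw [hA0] at h2
          nlinarith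
      linarith
  have h1 := key T.card T rfl hy h
  rw [Finset.sum_sub_distrib, Finset.sum_const, nsmul_eq_mul]
  have hm : (0 : ℝ) ≤ T.card := Nat.cast_nonneg _
  have h2 : √(A * T.card) = √A * √(T.card : ℝ) := Real.sqrt_mul hA _
  have h3 : √A ^ 2 = A := Real.sq_sqrt hA
  have h4 : √(T.card : ℝ) ^ 2 = T.card := Real.sq_sqrt hm
  rw [h2] at h1
  rw [le_div_iff₀ hγ]
  have h5 : (∑ t ∈ T, y t - T.card * γ) * γ ≤ (2 * (√A * √(T.card : ℝ)) - T.card * γ) * γ :=
    mul_le_mul_of_nonneg_right (by linarith) hγ.le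
  refine h5.trans ?_
  have h6 : 0 ≤ (√A - γ * √(T.card : ℝ)) ^ 2 := sq_nonneg _
  have h7 : (√A - γ * √(T.card : ℝ)) ^ 2 =
      √A ^ 2 - (2 * (√A * √(T.card : ℝ)) - √(T.card : ℝ) ^ 2 * γ) * γ := by ring
  rw [h7, h3, h4] at h6
  linarith

variable {n : ℕ}

/-- the weights -/
noncomputable def wgt (c : ℝ) (t : Fin 3 ↪ Fin n) (s : Fin n → Bool) : ℝ :=
  if s (t 0) ≠ s (t 1) ∧ s (t 2) ≠ s (t 1) then 1 else -c

/-- the weights have a small inner product with nonnegative matrices of rank one -/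
theorem wgt_box {c γ : ℝ} (hc : 0 < c) (hγ : 0 < γ) (hcγ : c / (1 + c) = 1 / 2 + γ)
    (S : Finset (Fin n → Bool)) :
    ∑ t : Fin 3 ↪ Fin n, max 0 (∑ s ∈ S, wgt c t s) ≤ 1200 * 2 ^ n * (1 + c) / γ := by
  classical
  have hc1 : 0 < 1 + c := by linarith
  rcases S.eq_empty_or_nonempty with hS | hS
  · rw [hS]
    simp only [Finset.sum_empty, max_self, Finset.sum_const_zero]
    positivity
  have hS0 : (0 : ℝ) < S.card := by exact_mod_cast hS.card_pos
  set y : (Fin 3 ↪ Fin n) → ℝ := fun t =>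
    ((S.filter fun s => s (t 0) ≠ s (t 1) ∧ s (t 2) ≠ s (t 1)).card : ℝ) / S.card - 1 / 2 with hy
  have h3 : ∀ t : Fin 3 ↪ Fin n, ∑ s ∈ S, wgt c t s = S.card * (1 + c) * (y t - γ) := by
    intro t
    have h4 : ∀ s : Fin n → Bool, wgt c t s = (1 + c) *
        (if s (t 0) ≠ s (t 1) ∧ s (t 2) ≠ s (t 1) then (1 : ℝ) else 0) - c := by
      intro s
      unfold wgt
      split <;> ring
    rw [Finset.sum_congr rfl fun s _ => h4 s, Finset.sum_sub_distrib, ← Finset.mul_sum,
      Finset.sum_boole, Finset.sum_const, nsmul_eq_mul]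
    have h5 : c = (1 + c) * (1 / 2 + γ) := by
      rw [← hcγ]
      field_simp
    simp only [hy]
    rw [show (S.card : ℝ) * (1 + c) * (((S.filter fun s => s (t 0) ≠ s (t 1) ∧
        s (t 2) ≠ s (t 1)).card : ℝ) / S.card - 1 / 2 - γ) = (1 + c) *
        ((S.card : ℝ) * (((S.filter fun s => s (t 0) ≠ s (t 1) ∧
        s (t 2) ≠ s (t 1)).card : ℝ) / S.card)) - S.card * ((1 + c) * (1 / 2 + γ)) from by ring,
      ← h5, mul_div_cancel₀ _ hS0.ne']
  set 𝒯 := Finset.univ.filter fun t : Fin 3 ↪ Fin n => γ < y t with h𝒯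
  have h1 : ∑ t : Fin 3 ↪ Fin n, max 0 (∑ s ∈ S, wgt c t s) ≤
      S.card * (1 + c) * ∑ t ∈ 𝒯, (y t - γ) := by
    rw [Finset.mul_sum, h𝒯, Finset.sum_filter]
    refine Finset.sum_le_sum fun t _ => ?_
    rw [h3]
    by_cases h : γ < y t
    · rw [if_pos h, max_eq_right]
      have : 0 < y t - γ := by linarith
      positivity
    · rw [if_neg h, max_eq_left]
      have : y t - γ ≤ 0 := by linarith
      exact mul_nonpos_of_nonneg_of_nonpos (by positivity) this
  have h2 : ∑ t ∈ 𝒯, (y t - γ) ≤ (1200 * 2 ^ n / S.card) / γ := by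
    refine layer (by positivity) hγ y 𝒯 (fun t ht => hγ.trans (Finset.mem_filter.1 ht).2) ?_
    intro x hx
    have h4 := comb3 S hx (𝒯.filter fun t => x ≤ y t) (by
      intro t ht
      have h5 := (Finset.mem_filter.1 ht).2
      simp only [hy] at h5
      have h6 : 1 / 2 + x ≤ ((S.filter fun s => s (t 0) ≠ s (t 1) ∧
        s (t 2) ≠ s (t 1)).card : ℝ) / S.card := by linarith
      rwa [le_div_iff₀ hS0] at h6)
    rw [div_div, mul_comm (S.card : ℝ) (x ^ 2), ← div_div, le_div_iff₀ hS0]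
    exact h4
  refine h1.trans ?_
  calc S.card * (1 + c) * ∑ t ∈ 𝒯, (y t - γ)
      ≤ S.card * (1 + c) * ((1200 * 2 ^ n / S.card) / γ) :=
        mul_le_mul_of_nonneg_left h2 (by positivity)
    _ = 1200 * 2 ^ n * (1 + c) / γ := by
        field_simp

end Pool.Agent.H98.AL
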