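import Pool.Agent.H98.ALLayer
import Pool.Agent.H98.ALBil

/-!
# H98.AL: nonnegative factorizations of slack matrices on the cuts
-/

set_option autoImplicit false

namespace Pool.Agent.H98.AL

open Finset

variable {n : ℕ}

theorem card_triples (x : ℝ) :
    ∑ _t : Fin 3 ↪ Fin n, x = (n * (n - 1) * (n - 2) : ℝ) * x := by
  rw [Finset.sum_const, nsmul_eq_mul, Finset.card_univ,
    Fintype.card_embedding_eq, Fintype.card_fin, Fintype.card_fin]
  congr 1
  rcases n with _ | _ | m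
  · simp [Nat.descFactorial]
  · simp [Nat.descFactorial]
  · have : (m + 2).descFactorial 3 = m * ((m + 1) * (m + 2)) := by
      simp [Nat.descFactorial]
    rw [this]
    push_cast
    ring

/-- **The main bound**, for a nonnegative factorization of a slack matrix. -/
theorem core0 {ι : Type*} [Fintype ι] (u : (Fin 3 ↪ Fin n) → ι → ℝ)
    (v : ι → (Fin n → Bool) → ℝ) (hu : ∀ t l, 0 ≤ u t l) (hv : ∀ l s, 0 ≤ v l s) {ρ Λ : ℝ}
    (hρ : 1 ≤ ρ) (hΛ : 10 * ρ ≤ Λ) (hmax : ∀ t s, ∑ l, u t l * v l s ≤ 2 * ρ * Λ)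
    (hA : ∀ t s, s (t 0) ≠ s (t 1) ∧ s (t 2) ≠ s (t 1) →
      2 * ρ * Λ - ρ ≤ ∑ l, u t l * v l s)
    (hE : ∀ t s, s (t 0) = s (t 1) → s (t 2) = s (t 1) → ∑ l, u t l * v l s ≤ 2 * ρ - 1)
    (hB : ∀ t s, s (t 0) ≠ s (t 2) → ∑ l, u t l * v l s ≤ (ρ - 1) * Λ + ρ) :
    (n * (n - 1) * (n - 2) : ℝ) ≤ (650 * ρ) ^ 2 * Fintype.card ι := by
  classical
  have hρ0 : 0 < ρ := by linarith
  have hΛ0 : 0 < Λ := by linarith
  set c : ℝ := 1 + 2 / (5 * ρ) with hc
  set γ : ℝ := 1 / (10 * ρ + 2) with hγ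
  have hc0 : 0 < c := by positivity
  have hγ0 : 0 < γ := by positivity
  have hcγ : c / (1 + c) = 1 / 2 + γ := by
    rw [hc, hγ]
    field_simp
    ring
  set Bd : ℝ := 1200 * 2 ^ n * (1 + c) / γ with hBd
  -- the upper bound
  have hterm : ∀ l : ι, ∑ t : Fin 3 ↪ Fin n, ∑ s, wgt c t s * (u t l * v l s) ≤
      2 * ρ * Λ * Bd := by
    intro l
    refine bil (fun t s => wgt c t s) _ (fun S => wgt_box hc0 hγ0 hcγ S) (fun t => u t l)
      (fun s => v l s) (fun t => hu t l) (fun s => hv l s) (2 * ρ * Λ) (by positivity) ?_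
    intro t s
    exact (Finset.single_le_sum (f := fun l => u t l * v l s)
      (fun l _ => mul_nonneg (hu t l) (hv l s)) (Finset.mem_univ l)).trans (hmax t s)
  have hsum : ∑ t : Fin 3 ↪ Fin n, ∑ s, wgt c t s * ∑ l, u t l * v l s ≤
      Fintype.card ι * (2 * ρ * Λ * Bd) := by
    have h1 : ∑ t : Fin 3 ↪ Fin n, ∑ s, wgt c t s * ∑ l, u t l * v l s =
        ∑ l, ∑ t : Fin 3 ↪ Fin n, ∑ s, wgt c t s * (u t l * v l s) := by
      symm
      rw [Finset.sum_comm]
      refine Finset.sum_congr rfl fun t _ => ?_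
      rw [Finset.sum_comm]
      refine Finset.sum_congr rfl fun s _ => ?_
      rw [Finset.mul_sum]
    rw [h1]
    calc _ ≤ ∑ _l : ι, 2 * ρ * Λ * Bd := Finset.sum_le_sum fun l _ => hterm l
      _ = _ := by rw [Finset.sum_const, nsmul_eq_mul, Finset.card_univ]
  -- the lower bound
  set e₁ : ℝ := 2 * ρ * Λ - ρ with he₁
  set e₂ : ℝ := (ρ - 1) * Λ + ρ with he₂
  set e₃ : ℝ := 2 * ρ - 1 with he₃
  have hlow : ∀ t : Fin 3 ↪ Fin n, 2 ^ n / 2 * (7 / 20 * Λ) ≤
      ∑ s, wgt c t s * ∑ l, u t l * v l s := by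
    intro t
    have h01 : t 0 ≠ t 1 := fun h => by simpa using t.injective h
    have h21 : t 2 ≠ t 1 := fun h => by simpa using t.injective h
    have h02 : t 0 ≠ t 2 := fun h => by simpa using t.injective h
    have h1 : ∀ s : Fin n → Bool,
        (e₁ + c * e₃) * (if s (t 0) ≠ s (t 1) ∧ s (t 2) ≠ s (t 1) then (1 : ℝ) else 0) -
          (c * e₂ - c * e₃) * (if s (t 0) ≠ s (t 2) then (1 : ℝ) else 0) - c * e₃ ≤
        wgt c t s * ∑ l, u t l * v l s := by
      intro s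
      by_cases hs : s (t 0) ≠ s (t 2)
      · have h2 : ¬ (s (t 0) ≠ s (t 1) ∧ s (t 2) ≠ s (t 1)) := by
          cases hs0 : s (t 0) <;> cases hs1 : s (t 1) <;> cases hs2 : s (t 2) <;> simp_all
        unfold wgt
        rw [if_neg h2, if_neg h2, if_pos hs]
        have h3 := mul_le_mul_of_nonneg_left (hB t s hs) hc0.le
        linarith
      · by_cases h2 : s (t 0) ≠ s (t 1) ∧ s (t 2) ≠ s (t 1)
        · unfold wgt
          rw [if_pos h2, if_neg hs, if_pos h2]
          have h3 := hA t s h2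
          linarith
        · have h4 : s (t 0) = s (t 1) ∧ s (t 2) = s (t 1) := by
            cases hs0 : s (t 0) <;> cases hs1 : s (t 1) <;> cases hs2 : s (t 2) <;> simp_all
          unfold wgt
          rw [if_neg h2, if_neg hs, if_neg h2]
          have h3 := mul_le_mul_of_nonneg_left (hE t s h4.1 h4.2) hc0.le
          linarith
    refine le_trans ?_ (Finset.sum_le_sum fun s _ => h1 s)
    rw [Finset.sum_sub_distrib, Finset.sum_sub_distrib, ← Finset.mul_sum, ← Finset.mul_sum,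
      sum_sep h01 h21 h02, sum_ne h02, Finset.sum_const, nsmul_eq_mul, Finset.card_univ,
      Fintype.card_fun, Fintype.card_bool, Fintype.card_fin]
    push_cast
    have h5 : (7 : ℝ) / 20 * Λ ≤ (e₁ + c * e₃) / 2 - (c * e₂ - c * e₃) - 2 * (c * e₃) := by
      have h6 : (e₁ + c * e₃) / 2 - (c * e₂ - c * e₃) - 2 * (c * e₃) =
          Λ * (3 / 5 + 2 / (5 * ρ)) - ρ / 2 - (2 * ρ + 3 / 10 - 1 / (5 * ρ)) := by
        rw [he₁, he₂, he₃, hc]
        field_simp
        ring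
      rw [h6]
      have h7 : 0 < 1 / (5 * ρ) := by positivity
      have h8 : 4 ≤ Λ * (2 / (5 * ρ)) := by
        rw [mul_div_assoc', le_div_iff₀ (by positivity)]
        linarith
      linarith
    have h2n : (0 : ℝ) < 2 ^ n := by positivity
    nlinarith
  have hlow' : (n * (n - 1) * (n - 2) : ℝ) * (2 ^ n / 2 * (7 / 20 * Λ)) ≤
      ∑ t : Fin 3 ↪ Fin n, ∑ s, wgt c t s * ∑ l, u t l * v l s := by
    rw [← card_triples]
    exact Finset.sum_le_sum fun t _ => hlow t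
  have h2n : (0 : ℝ) < 2 ^ n := by positivity
  have hcγ' : (1 + c) / γ ≤ 144 / 5 * ρ := by
    have e1 : (1 + c) / γ = (10 * ρ + 2) ^ 2 / (5 * ρ) := by
      rw [hc, hγ]
      field_simp
      ring
    rw [e1, div_le_iff₀ (by positivity)]
    nlinarith
  have hcard : (0 : ℝ) ≤ Fintype.card ι := Nat.cast_nonneg _
  have h6 : (n * (n - 1) * (n - 2) : ℝ) * (2 ^ n / 2 * (7 / 20 * Λ)) ≤
      Fintype.card ι * (2 * ρ * Λ * (1200 * 2 ^ n * (144 / 5 * ρ))) := by
    calc (n * (n - 1) * (n - 2) : ℝ) * (2 ^ n / 2 * (7 / 20 * Λ))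
        ≤ Fintype.card ι * (2 * ρ * Λ * Bd) := hlow'.trans hsum
      _ = Fintype.card ι * (2 * ρ * Λ * (1200 * 2 ^ n * ((1 + c) / γ))) := by
          rw [hBd]
          ring
      _ ≤ _ := by
          refine mul_le_mul_of_nonneg_left ?_ hcard
          refine mul_le_mul_of_nonneg_left ?_ (by positivity)
          exact mul_le_mul_of_nonneg_left hcγ' (by positivity)
  have h7 : 2 ^ n * Λ * 7 / 40 * (n * (n - 1) * (n - 2) : ℝ) ≤
      2 ^ n * Λ * 7 / 40 * (2764800 / 7 * ρ ^ 2 * Fintype.card ι) := by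
    calc 2 ^ n * Λ * 7 / 40 * (n * (n - 1) * (n - 2) : ℝ)
        = (n * (n - 1) * (n - 2) : ℝ) * (2 ^ n / 2 * (7 / 20 * Λ)) := by ring
      _ ≤ _ := h6
      _ = _ := by ring
  have h8 := le_of_mul_le_mul_left h7 (by positivity)
  refine h8.trans ?_
  have h9 : 0 ≤ ρ ^ 2 * Fintype.card ι := by positivity
  nlinarith

/-- **The bound for unions of projections of polyhedra.** `M` is the set of pieces; `x` ranges
over a real vector space. -/
theorem core1 {X : Type*} [AddCommGroup X] [Module ℝ X] {κ ι M : Type*} [Fintype ι] [Fintype M]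
    (eqn : M → κ → X →ₗ[ℝ] ℝ) (rhs : M → κ → ℝ) (a : M → ι → X →ₗ[ℝ] ℝ) (b : M → ι → ℝ)
    (φ : (Fin 3 ↪ Fin n) → X →ₗ[ℝ] ℝ) (φ₀ : (Fin 3 ↪ Fin n) → ℝ) {ρ Λ : ℝ} (hρ : 1 ≤ ρ)
    (hΛ : 10 * ρ ≤ Λ)
    (h : ∀ s : Fin n → Bool, ∃ m x, (∀ e, eqn m e x = rhs m e) ∧
      (∀ l, 0 ≤ a m l x + b m l) ∧ ∀ t : Fin 3 ↪ Fin n, φ t x + φ₀ t ≤ 2 * ρ * Λ ∧
        (s (t 0) ≠ s (t 1) ∧ s (t 2) ≠ s (t 1) → 2 * ρ * Λ - ρ ≤ φ t x + φ₀ t) ∧
        (s (t 0) = s (t 1) → s (t 2) = s (t 1) → φ t x + φ₀ t ≤ 2 * ρ - 1) ∧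
        (s (t 0) ≠ s (t 2) → φ t x + φ₀ t ≤ (ρ - 1) * Λ + ρ))
    (hS : ∀ m x, (∀ e, eqn m e x = rhs m e) → (∀ l, 0 ≤ a m l x + b m l) →
      ∀ t, 0 ≤ φ t x + φ₀ t) :
    (n * (n - 1) * (n - 2) : ℝ) ≤
      (650 * ρ) ^ 2 * (Fintype.card M * (Fintype.card ι + 1)) := by
  classical
  choose μ q hq1 hq2 hq3 using h
  let e := (Fintype.equivFin ι).symm
  have hfark : ∀ (t : Fin 3 ↪ Fin n) (m : M), ∃ w : Option ι → ℝ, (∀ l, 0 ≤ w l) ∧
      ∀ s, μ s = m → φ t (q s) + φ₀ t =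
        w none + ∑ l, w (some l) * (a m l (q s) + b m l) := by
    intro t m
    by_cases hm : ∃ s, μ s = m
    · obtain ⟨s₀, hs₀⟩ := hm
      subst hs₀
      obtain ⟨u₀, hu₀, u, hu, hall⟩ := affine_farkas (eqn (μ s₀)) (rhs (μ s₀))
        (fun l => a (μ s₀) (e l)) (fun l => b (μ s₀) (e l)) (φ t) (φ₀ t) (q s₀)
        (hq1 _) (fun l => hq2 _ _) (by
          intro x hx1 hx2
          refine hS (μ s₀) x hx1 (fun l => ?_) t
          have := hx2 (e.symm l)
          simpa using this)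
      refine ⟨fun o => o.elim u₀ fun l => u (e.symm l), ?_, ?_⟩
      · rintro (_ | l)
        · exact hu₀
        · exact hu _
      · intro s hs
        have h1 := hall (q s) (by rw [← hs]; exact hq1 s)
        rw [h1]
        simp only [Option.elim]
        congr 1
        rw [← Equiv.sum_comp e]
        simp
    · push Not at hm
      exact ⟨fun _ => 0, fun _ => le_rfl, fun s hs => absurd hs (hm s)⟩
  choose w hw hsl using hfark
  have hfac : ∀ (t : Fin 3 ↪ Fin n) (s : Fin n → Bool), ∑ l : M × Option ι,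
      w t l.1 l.2 * (if μ s = l.1 then
        (l.2.elim 1 fun l' => a (μ s) l' (q s) + b (μ s) l') else 0) = φ t (q s) + φ₀ t := by
    intro t s
    rw [Fintype.sum_prod_type, Finset.sum_eq_single (μ s)]
    · rw [Fintype.sum_option, hsl t (μ s) s rfl]
      simp
    · intro m _ hm
      refine Finset.sum_eq_zero fun o _ => ?_
      rw [if_neg (Ne.symm hm), mul_zero]
    · intro hm
      exact absurd (Finset.mem_univ _) hm
  have key := core0 (n := n) (ι := M × Option ι) (fun t l => w t l.1 l.2)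
    (fun l s => if μ s = l.1 then
        (l.2.elim 1 fun l' => a (μ s) l' (q s) + b (μ s) l') else 0)
    (fun t l => hw t l.1 l.2) (by
      rintro ⟨m, o⟩ s
      dsimp only
      split_ifs
      · cases o with
        | none => exact zero_le_one
        | some l => exact hq2 s l
      · exact le_rfl) hρ hΛ
    (fun t s => by rw [hfac t s]; exact (hq3 s t).1)
    (fun t s h1 => by rw [hfac t s]; exact (hq3 s t).2.1 h1)
    (fun t s h1 h2 => by rw [hfac t s]; exact (hq3 s t).2.2.1 h1 h2)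
    (fun t s h1 => by rw [hfac t s]; exact (hq3 s t).2.2.2 h1)
  rw [Fintype.card_prod, Fintype.card_option] at key
  push_cast at key
  exact key

end Pool.Agent.H98.AL
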