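import Pool.Agent.H98.ALCount

/-!
# H98.AL: sunflowers of separated triples

If many triples `(i, k, j)` are separated (`s i = s j ≠ s k`) by more than half of the vectors of `S`,
then `S` is small. A family of `m` triples in which any two have at most one fixed vertex in common
shows `|S| ≤ 2 ^ n exp (- m / 7)`.
-/

set_option autoImplicit false

namespace Pool.Agent.H98.AL

open Finset

variable {n : ℕ}

/-- the middle vertex is separated from the two others -/
noncomputable def ind3 (t : Fin 3 ↪ Fin n) (s : Fin n → Bool) : ℝ :=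
  if s (t 0) ≠ s (t 1) ∧ s (t 2) ≠ s (t 1) then 1 else 0

theorem ind3_eq (t : Fin 3 ↪ Fin n) (s : Fin n → Bool) : ind3 t s =
    (1 - sg (s (t 0)) * sg (s (t 1)) - sg (s (t 2)) * sg (s (t 1)) +
      sg (s (t 0)) * sg (s (t 2))) / 4 := by
  unfold ind3
  cases s (t 0) <;> cases s (t 1) <;> cases s (t 2) <;> norm_num [sg]

theorem ind3_flip {t : Fin 3 ↪ Fin n} {p : Fin n} (h : ∀ δ, t δ ≠ p) (s : Fin n → Bool) :
    ind3 t (flip p s) = ind3 t s := by
  unfold ind3
  rw [flip_ne (h 0), flip_ne (h 1), flip_ne (h 2)]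

/-- among any two vertices of a triple at least one belongs to no other triple -/
def Sun (M : Finset (Fin 3 ↪ Fin n)) : Prop :=
  ∀ t ∈ M, ∀ α β : Fin 3, α ≠ β → (∀ t' ∈ M, t' ≠ t → ∀ δ, t' δ ≠ t α) ∨
    (∀ t' ∈ M, t' ≠ t → ∀ δ, t' δ ≠ t β)

theorem Sun.mono {M M' : Finset (Fin 3 ↪ Fin n)} (h : Sun M') (hM : M ⊆ M') : Sun M := by
  intro t ht α β hαβ
  rcases h t (hM ht) α β hαβ with h1 | h1
  · exact Or.inl fun t' ht' => h1 t' (hM ht')
  · exact Or.inr fun t' ht' => h1 t' (hM ht')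

/-- the events are independent -/
theorem moment3 (M : Finset (Fin 3 ↪ Fin n)) (hM : Sun M) (y : ℝ) :
    ∑ s : Fin n → Bool, ∏ t ∈ M, (1 + y * ind3 t s) = 2 ^ n * (1 + y / 4) ^ M.card := by
  classical
  induction M using Finset.induction_on with
  | empty => simp only [Finset.prod_empty, sum_one, Finset.card_empty, pow_zero, mul_one]
  | insert t M ht ih =>
    have hM' := hM.mono (Finset.subset_insert t M)
    set H : (Fin n → Bool) → ℝ := fun s => ∏ t' ∈ M, (1 + y * ind3 t' s) with hH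
    have hpriv : ∀ p : Fin n, (∀ t' ∈ insert t M, t' ≠ t → ∀ δ, t' δ ≠ p) →
        ∀ s, H (flip p s) = H s := by
      intro p hp s
      refine Finset.prod_congr rfl fun t' ht' => ?_
      rw [ind3_flip (hp t' (Finset.mem_insert_of_mem ht') fun h => ht (h ▸ ht'))]
    have hzero : ∀ α β : Fin 3, α ≠ β → ∑ s, sg (s (t α)) * sg (s (t β)) * H s = 0 := by
      intro α β hαβ
      have hne : t α ≠ t β := fun h => hαβ (t.injective h)
      rcases hM t (Finset.mem_insert_self t M) α β hαβ with h1 | h1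
      · refine sum_odd (t α) _ fun s => ?_
        rw [hpriv _ h1, flip_self, flip_ne hne.symm, sg_not]
        ring
      · refine sum_odd (t β) _ fun s => ?_
        rw [hpriv _ h1, flip_self, flip_ne hne, sg_not]
        ring
    have h1 : ∑ s, ind3 t s * H s = (∑ s, H s) / 4 := by
      have h2 : ∀ s, ind3 t s * H s = (H s - sg (s (t 0)) * sg (s (t 1)) * H s -
          sg (s (t 2)) * sg (s (t 1)) * H s + sg (s (t 0)) * sg (s (t 2)) * H s) / 4 := by
        intro s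
        rw [ind3_eq]
        ring
      rw [Finset.sum_congr rfl fun s _ => h2 s, ← Finset.sum_div, Finset.sum_add_distrib,
        Finset.sum_sub_distrib, Finset.sum_sub_distrib, hzero 0 1 (by decide),
        hzero 2 1 (by decide), hzero 0 2 (by decide)]
      ring
    have h3 : ∀ s, ∏ t' ∈ insert t M, (1 + y * ind3 t' s) = H s + y * (ind3 t s * H s) := by
      intro s
      rw [Finset.prod_insert ht]
      ring
    rw [Finset.sum_congr rfl fun s _ => h3 s, Finset.sum_add_distrib, ← Finset.mul_sum, h1,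
      Finset.card_insert_of_notMem ht, pow_succ, ih hM']
    ring

/-- **Sunflower lemma.** -/
theorem sunflower (M : Finset (Fin 3 ↪ Fin n)) (hM : Sun M) (S : Finset (Fin n → Bool))
    (h : ∀ t ∈ M, (1 / 2 : ℝ) * S.card ≤
      ((S.filter fun s => s (t 0) ≠ s (t 1) ∧ s (t 2) ≠ s (t 1)).card : ℝ)) :
    (S.card : ℝ) ≤ 2 ^ n * Real.exp (-((M.card : ℝ) / 7)) := by
  set l : ℝ := Real.log 3 with hl
  have hl0 : 0 ≤ l := Real.log_nonneg (by norm_num)
  have hexpl : Real.exp l = 3 := Real.exp_log (by norm_num)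
  set Y : (Fin n → Bool) → ℝ := fun s => ∑ t ∈ M, ind3 t s with hY
  have h1 : ∀ s, Real.exp (l * Y s) = ∏ t ∈ M, (1 + 2 * ind3 t s) := by
    intro s
    rw [hY, Finset.mul_sum, Real.exp_sum]
    refine Finset.prod_congr rfl fun t _ => ?_
    unfold ind3
    split
    · rw [mul_one, hexpl]
      norm_num
    · simp
  have h2 : (M.card : ℝ) / 2 * S.card ≤ ∑ s ∈ S, Y s := by
    rw [hY, Finset.sum_comm]
    have h3 : ∑ _t ∈ M, (1 / 2 : ℝ) * S.card ≤ ∑ t ∈ M, ∑ s ∈ S, ind3 t s := by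
      refine Finset.sum_le_sum fun t ht => (h t ht).trans (le_of_eq ?_)
      unfold ind3
      rw [Finset.sum_boole]
    rw [Finset.sum_const, nsmul_eq_mul] at h3
    linarith
  set m : ℝ := (M.card : ℝ) / 2 with hm
  have h3 : Real.exp (l * m) * S.card ≤ ∑ s ∈ S, Real.exp (l * Y s) := by
    have h4 : ∀ s ∈ S, Real.exp (l * m) * (1 + l * (Y s - m)) ≤ Real.exp (l * Y s) := by
      intro s _
      have h5 : Real.exp (l * Y s) = Real.exp (l * m) * Real.exp (l * (Y s - m)) := by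
        rw [← Real.exp_add]
        congr 1
        ring
      rw [h5]
      refine mul_le_mul_of_nonneg_left ?_ (Real.exp_pos _).le
      have := Real.add_one_le_exp (l * (Y s - m))
      linarith
    refine le_trans ?_ (Finset.sum_le_sum h4)
    rw [← Finset.mul_sum]
    refine mul_le_mul_of_nonneg_left ?_ (Real.exp_pos _).le
    rw [Finset.sum_add_distrib, Finset.sum_const, nsmul_eq_mul, mul_one, ← Finset.mul_sum,
      Finset.sum_sub_distrib, Finset.sum_const, nsmul_eq_mul]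
    have h6 : 0 ≤ l * (∑ s ∈ S, Y s - S.card * m) := by
      refine mul_nonneg hl0 ?_
      linarith
    linarith
  have h7 : ∑ s ∈ S, Real.exp (l * Y s) ≤ ∑ s, Real.exp (l * Y s) :=
    Finset.sum_le_sum_of_subset_of_nonneg (Finset.subset_univ _) fun _ _ _ => (Real.exp_pos _).le
  have h8 : ∑ s, Real.exp (l * Y s) = 2 ^ n * (1 + 2 / 4) ^ M.card := by
    rw [Finset.sum_congr rfl fun s _ => h1 s, moment3 M hM]
  have h9 : Real.exp (l * m) * S.card ≤ 2 ^ n * (1 + 2 / 4) ^ M.card := by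
    calc _ ≤ _ := h3
      _ ≤ _ := h7
      _ = _ := h8
  -- numbers
  have h10 : Real.exp (2 / 7) ≤ 4 / 3 := by
    have e1 : Real.exp (2 / 7) ^ 7 ≤ (4 / 3 : ℝ) ^ 7 := by
      rw [← Real.exp_nat_mul]
      have e2 : ((7 : ℕ) : ℝ) * (2 / 7) = 1 + 1 := by norm_num
      rw [e2, Real.exp_add]
      have e3 := Real.exp_one_lt_d9
      have e4 := Real.exp_pos 1
      nlinarith
    exact (pow_le_pow_iff_left₀ (Real.exp_pos _).le (by norm_num) (by norm_num)).1 e1
  have h11 : (1 + 2 / 4 : ℝ) ^ M.card ≤ Real.exp (l * m) * Real.exp (-((M.card : ℝ) / 7)) := by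
    have e1 : (1 + 2 / 4 : ℝ) ≤ Real.exp (l / 2 - 1 / 7) := by
      have e2 : (1 + 2 / 4 : ℝ) ^ 2 ≤ Real.exp (l / 2 - 1 / 7) ^ 2 := by
        rw [← Real.exp_nat_mul]
        have e3 : ((2 : ℕ) : ℝ) * (l / 2 - 1 / 7) = l + -(2 / 7) := by
          push_cast
          ring
        rw [e3, Real.exp_add, hexpl, Real.exp_neg, ← div_eq_mul_inv, le_div_iff₀ (Real.exp_pos _)]
        linarith
      exact (pow_le_pow_iff_left₀ (by norm_num) (Real.exp_pos _).le (by norm_num)).1 e2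
    calc (1 + 2 / 4 : ℝ) ^ M.card ≤ Real.exp (l / 2 - 1 / 7) ^ M.card :=
          pow_le_pow_left₀ (by norm_num) e1 _
      _ = Real.exp (l * m) * Real.exp (-((M.card : ℝ) / 7)) := by
          rw [← Real.exp_nat_mul, ← Real.exp_add]
          congr 1
          rw [hm]
          ring
  have h12 : Real.exp (l * m) * S.card ≤
      Real.exp (l * m) * (2 ^ n * Real.exp (-((M.card : ℝ) / 7))) := by
    calc _ ≤ _ := h9
      _ ≤ 2 ^ n * (Real.exp (l * m) * Real.exp (-((M.card : ℝ) / 7))) :=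
          mul_le_mul_of_nonneg_left h11 (by positivity)
      _ = _ := by ring
  exact le_of_mul_le_mul_left h12 (Real.exp_pos _)

/-- a maximal sunflower -/
theorem maxsun (𝒯 : Finset (Fin 3 ↪ Fin n)) (Z : Finset (Fin n)) (hZ : Z.card ≤ 1)
    (hZt : ∀ t ∈ 𝒯, Z ⊆ Finset.univ.image t) :
    ∃ M ⊆ 𝒯, Sun M ∧ ∃ V : Finset (Fin n), V.card ≤ (3 - Z.card) * M.card ∧
      ∀ t ∈ 𝒯, ∃ α, t α ∈ V ∧ t α ∉ Z := by
  classical
  have hZ1 : ∀ a ∈ Z, ∀ b ∈ Z, a = b := fun a ha b hb => Finset.card_le_one.1 hZ a ha b hb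
  set F := 𝒯.powerset.filter fun M => ∀ t ∈ M, ∀ t' ∈ M, t ≠ t' → ∀ α β, t α = t' β → t α ∈ Z
    with hF
  have hne : F.Nonempty := ⟨∅, Finset.mem_filter.2 ⟨Finset.empty_mem_powerset _, by simp⟩⟩
  obtain ⟨M, hM, hmax⟩ := Finset.exists_max_image F (fun M => M.card) hne
  obtain ⟨hM1, hM2⟩ := Finset.mem_filter.1 hM
  rw [Finset.mem_powerset] at hM1
  refine ⟨M, hM1, ?_, M.biUnion fun t => (Finset.univ.image t) \ Z, ?_, ?_⟩
  · -- sunflower
    intro t ht α β hαβ
    have hne : t α ≠ t β := fun h => hαβ (t.injective h)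
    by_cases h1 : t α ∈ Z
    · refine Or.inr fun t' ht' hne' δ hδ => hne ?_
      exact hZ1 _ h1 _ (hM2 t ht t' ht' hne'.symm β δ hδ.symm)
    · exact Or.inl fun t' ht' hne' δ hδ => h1 (hM2 t ht t' ht' hne'.symm α δ hδ.symm)
  · refine Finset.card_biUnion_le.trans ?_
    have h1 : ∀ t ∈ M, ((Finset.univ.image t) \ Z).card ≤ 3 - Z.card := by
      intro t ht
      rw [Finset.card_sdiff_of_subset (hZt t (hM1 ht)),
        Finset.card_image_of_injective _ t.injective, Finset.card_univ, Fintype.card_fin]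
    refine (Finset.sum_le_sum h1).trans (le_of_eq ?_)
    rw [Finset.sum_const, smul_eq_mul, mul_comm]
  · intro t ht
    by_cases htM : t ∈ M
    · -- some vertex is not in `Z`
      have h1 : ∃ α, t α ∉ Z := by
        by_contra hcon
        push Not at hcon
        have := t.injective (hZ1 _ (hcon 0) _ (hcon 1))
        simp at this
      obtain ⟨α, hα⟩ := h1
      refine ⟨α, Finset.mem_biUnion.2 ⟨t, htM, ?_⟩, hα⟩
      exact Finset.mem_sdiff.2 ⟨Finset.mem_image_of_mem _ (Finset.mem_univ _), hα⟩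
    · have h1 : ¬ ∀ t₁ ∈ insert t M, ∀ t₂ ∈ insert t M, t₁ ≠ t₂ → ∀ α β, t₁ α = t₂ β →
          t₁ α ∈ Z := by
        intro hcon
        have h2 : insert t M ∈ F := Finset.mem_filter.2 ⟨Finset.mem_powerset.2
          (Finset.insert_subset ht hM1), hcon⟩
        have h3 := hmax _ h2
        rw [Finset.card_insert_of_notMem htM] at h3
        omega
      push Not at h1
      obtain ⟨t₁, ht₁, t₂, ht₂, hne, α, β, hαβ, hZα⟩ := h1
      rcases Finset.mem_insert.1 ht₁ with h1 | h1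
      · rcases Finset.mem_insert.1 ht₂ with h2 | h2
        · exact absurd (h1.trans h2.symm) hne
        · rw [h1] at hαβ hZα
          refine ⟨α, Finset.mem_biUnion.2 ⟨t₂, h2, ?_⟩, hZα⟩
          exact Finset.mem_sdiff.2 ⟨Finset.mem_image.2 ⟨β, Finset.mem_univ _, hαβ.symm⟩, hZα⟩
      · rcases Finset.mem_insert.1 ht₂ with h2 | h2
        · rw [h2] at hαβ
          rw [hαβ] at hZα
          refine ⟨β, Finset.mem_biUnion.2 ⟨t₁, h1, ?_⟩, hZα⟩
          exact Finset.mem_sdiff.2 ⟨Finset.mem_image.2 ⟨α, Finset.mem_univ _, hαβ⟩, hZα⟩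
        · exact absurd (hM2 t₁ h1 t₂ h2 hne α β hαβ) hZα

private theorem fin3_cover : ∀ α β δ x : Fin 3, α ≠ β → δ ≠ α → δ ≠ β →
    x = α ∨ x = β ∨ x = δ := by decide

private theorem fin3_cases : ∀ α β : Fin 3, α ≠ β → (α = 1 ∧ β = 2) ∨ (α = 2 ∧ β = 1) ∨
    (α = 0 ∧ β = 1) ∨ (α = 1 ∧ β = 0) ∨ (α = 0 ∧ β = 2) ∨ (α = 2 ∧ β = 0) := by decide

/-- **Few triples are separated more often than by chance** (strong form). -/
theorem comb3 (S : Finset (Fin n → Bool)) {γ : ℝ} (hγ : 0 < γ)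
    (𝒯 : Finset (Fin 3 ↪ Fin n))
    (h𝒯 : ∀ t ∈ 𝒯, (1 / 2 + γ) * S.card ≤
      ((S.filter fun s => s (t 0) ≠ s (t 1) ∧ s (t 2) ≠ s (t 1)).card : ℝ)) :
    (𝒯.card : ℝ) * S.card ≤ 1200 * 2 ^ n / γ ^ 2 := by
  classical
  have hhalf : ∀ t ∈ 𝒯, (1 / 2 : ℝ) * S.card ≤
      ((S.filter fun s => s (t 0) ≠ s (t 1) ∧ s (t 2) ≠ s (t 1)).card : ℝ) := by
    intro t ht
    refine le_trans ?_ (h𝒯 t ht)
    have : (0 : ℝ) ≤ γ * S.card := by positivity
    linarith
  set N : Fin n → Finset (Fin n) := fun k => Finset.univ.filter fun x =>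
    x ≠ k ∧ (1 / 2 + γ) * S.card ≤ ((S.filter fun s => s x ≠ s k).card : ℝ) with hN
  -- neighbours
  have hmem : ∀ t ∈ 𝒯, t 0 ∈ N (t 1) ∧ t 2 ∈ N (t 1) ∧ t 1 ∈ N (t 0) := by
    intro t ht
    have h1 := h𝒯 t ht
    refine ⟨?_, ?_, ?_⟩
    · refine Finset.mem_filter.2 ⟨Finset.mem_univ _, fun h => ?_, h1.trans ?_⟩
      · have := t.injective h
        simp at this
      · exact_mod_cast Finset.card_le_card fun s hs => by
          rw [Finset.mem_filter] at hs ⊢
          exact ⟨hs.1, hs.2.1⟩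
    · refine Finset.mem_filter.2 ⟨Finset.mem_univ _, fun h => ?_, h1.trans ?_⟩
      · have := t.injective h
        simp at this
      · exact_mod_cast Finset.card_le_card fun s hs => by
          rw [Finset.mem_filter] at hs ⊢
          exact ⟨hs.1, hs.2.2⟩
    · refine Finset.mem_filter.2 ⟨Finset.mem_univ _, fun h => ?_, h1.trans ?_⟩
      · have := t.injective h
        simp at this
      · exact_mod_cast Finset.card_le_card fun s hs => by
          rw [Finset.mem_filter] at hs ⊢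
          exact ⟨hs.1, fun h => hs.2.1 h.symm⟩
  rcases isEmpty_or_nonempty (Fin n) with hn | hn
  · have h0 : 𝒯 = ∅ := by
      rw [Finset.eq_empty_iff_forall_notMem]
      intro t _
      exact hn.elim (t 0)
    rw [h0]
    simp
    positivity
  -- the largest neighbourhood
  obtain ⟨a, ha1, ha2⟩ : ∃ a : ℕ, (∀ k, (N k).card ≤ a) ∧
      (S.card : ℝ) ≤ 2 ^ n * Real.exp (-(2 * γ ^ 2 * a)) := by
    obtain ⟨k, -, hk⟩ := Finset.exists_max_image Finset.univ (fun k => (N k).card)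
      Finset.univ_nonempty
    refine ⟨(N k).card, fun k' => hk k' (Finset.mem_univ _), ?_⟩
    refine leaf (N k) (fun _ => k) ?_ S hγ.le ?_
    · intro x _ h
      exact (Finset.mem_filter.1 h).2.1 rfl
    · intro x hx
      exact (Finset.mem_filter.1 hx).2.2
  -- disjoint triples
  obtain ⟨M₀, hM₀, hsun₀, V₀, hV₀, hV₀'⟩ := maxsun 𝒯 ∅ (by simp) (by simp)
  have hS₀ := sunflower M₀ hsun₀ S fun t ht => hhalf t (hM₀ ht)
  -- sunflowers with a kernel
  have hker : ∀ v, ∃ M ⊆ 𝒯, Sun M ∧ ∃ V : Finset (Fin n), V.card ≤ 2 * M.card ∧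
      ∀ t ∈ 𝒯, (∃ α, t α = v) → ∃ β, t β ∈ V ∧ t β ≠ v := by
    intro v
    obtain ⟨M, hM, hsun, V, hV, hV'⟩ := maxsun (𝒯.filter fun t => ∃ α, t α = v) {v} (by simp) (by
      intro t ht
      obtain ⟨α, hα⟩ := (Finset.mem_filter.1 ht).2
      rw [Finset.singleton_subset_iff]
      exact Finset.mem_image.2 ⟨α, Finset.mem_univ _, hα⟩)
    refine ⟨M, hM.trans (Finset.filter_subset _ _), hsun, V, ?_, ?_⟩
    · simpa using hV
    · intro t ht hα
      obtain ⟨β, hβ1, hβ2⟩ := hV' t (Finset.mem_filter.2 ⟨ht, hα⟩)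
      exact ⟨β, hβ1, fun h => hβ2 (Finset.mem_singleton.2 h)⟩
  choose M hM hsun V hV hV' using hker
  obtain ⟨b, hb1, hb2⟩ : ∃ b : ℕ, (∀ v, (M v).card ≤ b) ∧
      (S.card : ℝ) ≤ 2 ^ n * Real.exp (-((b : ℝ) / 7)) := by
    obtain ⟨v, -, hv⟩ := Finset.exists_max_image Finset.univ (fun v => (M v).card)
      Finset.univ_nonempty
    exact ⟨(M v).card, fun v' => hv v' (Finset.mem_univ _),
      sunflower (M v) (hsun v) S fun t ht => hhalf t (hM v ht)⟩
  -- two vertices of a triple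
  have hpair : ∀ α β : Fin 3, α ≠ β → ∀ v w : Fin n,
      (𝒯.filter fun t => t α = v ∧ t β = w).card ≤ a := by
    intro α β hαβ v w
    have hinj : ∀ (δ : Fin 3) (y : Fin n), δ ≠ α → δ ≠ β →
        (∀ t ∈ 𝒯.filter (fun t => t α = v ∧ t β = w), t δ ∈ N y) →
        (𝒯.filter fun t => t α = v ∧ t β = w).card ≤ a := by
      intro δ y hδα hδβ hin
      refine le_trans ?_ (ha1 y)
      refine Finset.card_le_card_of_injOn (fun t => t δ) (fun t ht => hin t ht) ?_
      intro t ht t' ht' htt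
      have h1 := (Finset.mem_filter.1 (Finset.mem_coe.1 ht)).2
      have h2 := (Finset.mem_filter.1 (Finset.mem_coe.1 ht')).2
      have h3 : ∀ x : Fin 3, x = α ∨ x = β ∨ x = δ := fun x => fin3_cover α β δ x hαβ hδα hδβ
      ext x
      rcases h3 x with rfl | rfl | rfl
      · rw [h1.1, h2.1]
      · rw [h1.2, h2.2]
      · exact congrArg Fin.val htt
    have hcases : (α = 1 ∧ β = 2) ∨ (α = 2 ∧ β = 1) ∨ (α = 0 ∧ β = 1) ∨ (α = 1 ∧ β = 0) ∨
        (α = 0 ∧ β = 2) ∨ (α = 2 ∧ β = 0) := fin3_cases α β hαβ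
    rcases hcases with ⟨rfl, rfl⟩ | ⟨rfl, rfl⟩ | ⟨rfl, rfl⟩ | ⟨rfl, rfl⟩ | ⟨rfl, rfl⟩ | ⟨rfl, rfl⟩
    · refine hinj 0 v (by decide) (by decide) fun t ht => ?_
      obtain ⟨h1, h2, h3⟩ := Finset.mem_filter.1 ht
      rw [← h2]
      exact (hmem t h1).1
    · refine hinj 0 w (by decide) (by decide) fun t ht => ?_
      obtain ⟨h1, h2, h3⟩ := Finset.mem_filter.1 ht
      rw [← h3]
      exact (hmem t h1).1
    · refine hinj 2 w (by decide) (by decide) fun t ht => ?_
      obtain ⟨h1, h2, h3⟩ := Finset.mem_filter.1 ht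
      rw [← h3]
      exact (hmem t h1).2.1
    · refine hinj 2 v (by decide) (by decide) fun t ht => ?_
      obtain ⟨h1, h2, h3⟩ := Finset.mem_filter.1 ht
      rw [← h2]
      exact (hmem t h1).2.1
    · refine hinj 1 v (by decide) (by decide) fun t ht => ?_
      obtain ⟨h1, h2, h3⟩ := Finset.mem_filter.1 ht
      rw [← h2]
      exact (hmem t h1).2.2
    · refine hinj 1 w (by decide) (by decide) fun t ht => ?_
      obtain ⟨h1, h2, h3⟩ := Finset.mem_filter.1 ht
      rw [← h3]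
      exact (hmem t h1).2.2
  -- counting
  have hcard : 𝒯.card ≤ 6 * (3 * M₀.card * (2 * b * a)) := by
    set P := (Finset.univ : Finset (Fin 3 × Fin 3)).filter (fun z => z.1 ≠ z.2) with hP
    have hPcard : P.card = 6 := by rw [hP]; decide
    have h1 : 𝒯 ⊆ P.biUnion fun z => V₀.biUnion fun v => (V v).biUnion fun w =>
        𝒯.filter fun t => t z.1 = v ∧ t z.2 = w := by
      intro t ht
      obtain ⟨α, hα, -⟩ := hV₀' t ht
      obtain ⟨β, hβ, hβ'⟩ := hV' (t α) t ht ⟨α, rfl⟩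
      have hαβ : α ≠ β := fun h => hβ' (by rw [h])
      refine Finset.mem_biUnion.2 ⟨(α, β), Finset.mem_filter.2 ⟨Finset.mem_univ _, hαβ⟩, ?_⟩
      refine Finset.mem_biUnion.2 ⟨t α, hα, ?_⟩
      refine Finset.mem_biUnion.2 ⟨t β, hβ, ?_⟩
      exact Finset.mem_filter.2 ⟨ht, rfl, rfl⟩
    refine (Finset.card_le_card h1).trans ?_
    refine Finset.card_biUnion_le.trans ?_
    have h2 : ∀ z ∈ P, (V₀.biUnion fun v => (V v).biUnion fun w =>
        𝒯.filter fun t => t z.1 = v ∧ t z.2 = w).card ≤ 3 * M₀.card * (2 * b * a) := by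
      intro z hz
      refine Finset.card_biUnion_le.trans ?_
      have h3 : ∀ v ∈ V₀, ((V v).biUnion fun w =>
          𝒯.filter fun t => t z.1 = v ∧ t z.2 = w).card ≤ 2 * b * a := by
        intro v _
        refine Finset.card_biUnion_le.trans ?_
        refine (Finset.sum_le_sum fun w _ => hpair z.1 z.2 (Finset.mem_filter.1 hz).2 v w).trans ?_
        rw [Finset.sum_const, smul_eq_mul]
        exact Nat.mul_le_mul_right a ((hV v).trans (Nat.mul_le_mul_left 2 (hb1 v)))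
      refine (Finset.sum_le_sum h3).trans ?_
      rw [Finset.sum_const, smul_eq_mul]
      refine Nat.mul_le_mul_right _ ?_
      simpa using hV₀
    refine (Finset.sum_le_sum h2).trans (le_of_eq ?_)
    rw [Finset.sum_const, smul_eq_mul, hPcard]
  -- the largest of the three numbers
  obtain ⟨y, hy0, hy1, hy2, hy3, hy4⟩ : ∃ y : ℝ, 0 ≤ y ∧ (M₀.card : ℝ) ≤ 7 * y ∧ (b : ℝ) ≤ 7 * y ∧
      2 * γ ^ 2 * a ≤ y ∧ (S.card : ℝ) ≤ 2 ^ n * Real.exp (-y) := by
    have hmax : ∀ u v : ℝ, (S.card : ℝ) ≤ 2 ^ n * Real.exp (-u) →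
        (S.card : ℝ) ≤ 2 ^ n * Real.exp (-v) → (S.card : ℝ) ≤ 2 ^ n * Real.exp (-(max u v)) := by
      intro u v h1 h2
      rcases le_total u v with h | h
      · rw [max_eq_right h]
        exact h2
      · rw [max_eq_left h]
        exact h1
    refine ⟨max (max ((M₀.card : ℝ) / 7) ((b : ℝ) / 7)) (2 * γ ^ 2 * a), ?_, ?_, ?_, ?_, ?_⟩
    · exact le_max_of_le_right (by positivity)
    · have : (M₀.card : ℝ) / 7 ≤ max (max ((M₀.card : ℝ) / 7) ((b : ℝ) / 7)) (2 * γ ^ 2 * a) :=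
        (le_max_left _ _).trans (le_max_left _ _)
      linarith
    · have : (b : ℝ) / 7 ≤ max (max ((M₀.card : ℝ) / 7) ((b : ℝ) / 7)) (2 * γ ^ 2 * a) :=
        (le_max_right _ _).trans (le_max_left _ _)
      linarith
    · exact le_max_right _ _
    · exact hmax _ _ (hmax _ _ hS₀ hb2) ha2
  have hcard' : (𝒯.card : ℝ) ≤ 36 * M₀.card * b * a := by
    have : (𝒯.card : ℝ) ≤ 6 * (3 * M₀.card * (2 * b * a)) := by exact_mod_cast hcard
    linarith
  have hγ2 : 0 < γ ^ 2 := by positivity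
  have h1 : (𝒯.card : ℝ) * γ ^ 2 ≤ 882 * y ^ 3 := by
    have e1 : (M₀.card : ℝ) * b ≤ 7 * y * (7 * y) :=
      mul_le_mul hy1 hy2 (Nat.cast_nonneg _) (by positivity)
    have e2 : (M₀.card : ℝ) * b * (2 * γ ^ 2 * a) ≤ 7 * y * (7 * y) * y :=
      mul_le_mul e1 hy3 (by positivity) (by positivity)
    calc (𝒯.card : ℝ) * γ ^ 2 ≤ (36 * M₀.card * b * a) * γ ^ 2 :=
          mul_le_mul_of_nonneg_right hcard' hγ2.le
      _ = 18 * ((M₀.card : ℝ) * b * (2 * γ ^ 2 * a)) := by ring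
      _ ≤ 18 * (7 * y * (7 * y) * y) := by linarith
      _ = 882 * y ^ 3 := by ring
  -- `y ^ 3 ≤ 27 exp (y - 3)`
  have h2 : y ^ 3 * Real.exp (-y) ≤ 27 / 20 := by
    have e1 : y / 3 ≤ Real.exp (y / 3 - 1) := by
      have := Real.add_one_le_exp (y / 3 - 1)
      linarith
    have e2 : (y / 3) ^ 3 ≤ Real.exp (y / 3 - 1) ^ 3 := pow_le_pow_left₀ (by positivity) e1 3
    rw [← Real.exp_nat_mul] at e2
    have e3 : ((3 : ℕ) : ℝ) * (y / 3 - 1) = y + -3 := by
      push_cast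
      ring
    rw [e3, Real.exp_add] at e2
    have e4 : (20 : ℝ) ≤ Real.exp 3 := by
      have e5 : Real.exp 3 = Real.exp 1 * Real.exp 1 * Real.exp 1 := by
        rw [← Real.exp_add, ← Real.exp_add]
        norm_num
      have e6 := Real.exp_one_gt_d9
      rw [e5]
      nlinarith
    have e7 : Real.exp (-3) ≤ 1 / 20 := by
      rw [Real.exp_neg, inv_eq_one_div]
      exact one_div_le_one_div_of_le (by norm_num) e4
    have e8 : y ^ 3 ≤ 27 * (Real.exp y * Real.exp (-3)) := by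
      have : (y / 3) ^ 3 = y ^ 3 / 27 := by ring
      rw [this] at e2
      linarith
    have e9 : Real.exp y * Real.exp (-y) = 1 := by rw [← Real.exp_add]; simp
    calc y ^ 3 * Real.exp (-y) ≤ 27 * (Real.exp y * Real.exp (-3)) * Real.exp (-y) :=
          mul_le_mul_of_nonneg_right e8 (Real.exp_pos _).le
      _ = 27 * (Real.exp y * Real.exp (-y)) * Real.exp (-3) := by ring
      _ = 27 * Real.exp (-3) := by rw [e9]; ring
      _ ≤ 27 / 20 := by linarith
  rw [le_div_iff₀ hγ2]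
  calc (𝒯.card : ℝ) * S.card * γ ^ 2 = ((𝒯.card : ℝ) * γ ^ 2) * S.card := by ring
    _ ≤ 882 * y ^ 3 * (2 ^ n * Real.exp (-y)) :=
        mul_le_mul h1 hy4 (Nat.cast_nonneg _) (by positivity)
    _ = 882 * 2 ^ n * (y ^ 3 * Real.exp (-y)) := by ring
    _ ≤ 882 * 2 ^ n * (27 / 20) := mul_le_mul_of_nonneg_left h2 (by positivity)
    _ ≤ 1200 * 2 ^ n := by
        have : (0 : ℝ) < 2 ^ n := by positivity
        linarith

end Pool.Agent.H98.AL
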