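import Pool.Agent.H98.AMPiece
import Pool.Agent.H98.ALFinal

/-!
# H98.AM: metrics which are glued from many cuts

The vertices are `m` blocks `A i`, `m` blocks `B j` and `2 m` blocks `C l` of `k` vertices each, and
some other vertices. For every pair `(i, j)` there is a cut of `A i ∪ B j ∪ C (i + j)`, and all these
cuts are independent. The offsets are chosen such that a path from `A i` to `B j` through `C l` is too
long unless `l = i + j`.
-/

set_option autoImplicit false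

namespace Pool.Agent.H98.AM

open Finset Pool.Agent.APM54 Pool.Agent.H98.AL

/-- the vertices in the blocks -/
abbrev U (m k : ℕ) : Type := (Fin m × Fin k) ⊕ ((Fin m × Fin k) ⊕ (Fin (2 * m) × Fin k))

/-- are two bits different? -/
noncomputable def dl (b b' : Bool) : ℝ := if b = b' then 0 else 1

theorem dl_nonneg (b b' : Bool) : 0 ≤ dl b b' := by
  unfold dl
  split_ifs <;> norm_num

theorem dl_le (b b' : Bool) : dl b b' ≤ 1 := by
  unfold dl
  split_ifs <;> norm_num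

theorem dl_tri (b b' b'' : Bool) : dl b b'' ≤ dl b b' + dl b' b'' := by
  cases b <;> cases b' <;> cases b'' <;> norm_num [dl]

variable {m k : ℕ}

/-- weight between `A i` and `C l` -/
noncomputable def wAC (m : ℕ) (σ : ℕ → ℕ → Fin 3 → Fin k → Bool) (i : ℕ) (a : Fin k) (l : ℕ)
    (x : Fin k) : ℝ :=
  20 * (m : ℝ) ^ 2 + ((l : ℝ) ^ 2 / 2 + (i : ℝ) ^ 2 - 2 * i * l) +
    dl (σ i (l - i) 0 a) (σ i (l - i) 1 x)

/-- weight between `C l` and `B j` -/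
noncomputable def wCB (m : ℕ) (σ : ℕ → ℕ → Fin 3 → Fin k → Bool) (l : ℕ) (x : Fin k) (j : ℕ)
    (b : Fin k) : ℝ :=
  20 * (m : ℝ) ^ 2 + ((l : ℝ) ^ 2 / 2 + (j : ℝ) ^ 2 - 2 * j * l) +
    dl (σ (l - j) j 1 x) (σ (l - j) j 2 b)

/-- weight between `A i` and `B j` -/
noncomputable def wAB (m : ℕ) (σ : ℕ → ℕ → Fin 3 → Fin k → Bool) (i : ℕ) (a : Fin k) (j : ℕ)
    (b : Fin k) : ℝ :=
  40 * (m : ℝ) ^ 2 - 2 * i * j + dl (σ i j 0 a) (σ i j 2 b)

/-- the weight, as a function of the positions of the two vertices -/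
noncomputable def G (σ : ℕ → ℕ → Fin 3 → Fin k → Bool) : Option (U m k) → Option (U m k) → ℝ
  | some (Sum.inl p), some (Sum.inr (Sum.inr z)) => wAC m σ p.1 p.2 z.1 z.2
  | some (Sum.inr (Sum.inr z)), some (Sum.inl p) => wAC m σ p.1 p.2 z.1 z.2
  | some (Sum.inr (Sum.inl p)), some (Sum.inr (Sum.inr z)) => wCB m σ z.1 z.2 p.1 p.2
  | some (Sum.inr (Sum.inr z)), some (Sum.inr (Sum.inl p)) => wCB m σ z.1 z.2 p.1 p.2
  | some (Sum.inl p), some (Sum.inr (Sum.inl y)) => wAB m σ p.1 p.2 y.1 y.2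
  | some (Sum.inr (Sum.inl y)), some (Sum.inl p) => wAB m σ p.1 p.2 y.1 y.2
  | _, _ => 38 * (m : ℝ) ^ 2

theorem G_symm (σ : ℕ → ℕ → Fin 3 → Fin k → Bool) (o o' : Option (U m k)) :
    G σ o o' = G σ o' o := by
  rcases o with _ | p | p | p <;> rcases o' with _ | p' | p' | p' <;> rfl

theorem wAC_bd (σ : ℕ → ℕ → Fin 3 → Fin k → Bool) (p : Fin m × Fin k) (z : Fin (2 * m) × Fin k) :
    19 * (m : ℝ) ^ 2 ≤ wAC m σ p.1 p.2 z.1 z.2 ∧ wAC m σ p.1 p.2 z.1 z.2 ≤ 38 * (m : ℝ) ^ 2 := by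
  obtain ⟨⟨i, hi⟩, a⟩ := p
  obtain ⟨⟨l, hl⟩, x⟩ := z
  have hm1 : (1 : ℝ) ≤ m := by exact_mod_cast (by omega : 1 ≤ m)
  have hi' : (i : ℝ) ≤ m := by exact_mod_cast hi.le
  have hl' : (l : ℝ) ≤ 2 * m := by exact_mod_cast hl.le
  have hi0 : (0 : ℝ) ≤ i := Nat.cast_nonneg _
  have hl0 : (0 : ℝ) ≤ l := Nat.cast_nonneg _
  unfold wAC
  have h1 := dl_nonneg (σ i (l - i) 0 a) (σ i (l - i) 1 x)
  have h2 := dl_le (σ i (l - i) 0 a) (σ i (l - i) 1 x)
  dsimp only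
  constructor
  · have h3 : (i : ℝ) ^ 2 ≤ (m : ℝ) ^ 2 := pow_le_pow_left₀ hi0 hi' 2
    nlinarith [sq_nonneg ((l : ℝ) - 2 * i)]
  · have h3 : (l : ℝ) ^ 2 ≤ (2 * m : ℝ) ^ 2 := pow_le_pow_left₀ hl0 hl' 2
    have h4 : (i : ℝ) ^ 2 ≤ (m : ℝ) ^ 2 := pow_le_pow_left₀ hi0 hi' 2
    have h5 : 0 ≤ (i : ℝ) * l := mul_nonneg hi0 hl0
    nlinarith

theorem wCB_bd (σ : ℕ → ℕ → Fin 3 → Fin k → Bool) (p : Fin m × Fin k) (z : Fin (2 * m) × Fin k) :
    19 * (m : ℝ) ^ 2 ≤ wCB m σ z.1 z.2 p.1 p.2 ∧ wCB m σ z.1 z.2 p.1 p.2 ≤ 38 * (m : ℝ) ^ 2 := by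
  obtain ⟨⟨i, hi⟩, a⟩ := p
  obtain ⟨⟨l, hl⟩, x⟩ := z
  have hm1 : (1 : ℝ) ≤ m := by exact_mod_cast (by omega : 1 ≤ m)
  have hi' : (i : ℝ) ≤ m := by exact_mod_cast hi.le
  have hl' : (l : ℝ) ≤ 2 * m := by exact_mod_cast hl.le
  have hi0 : (0 : ℝ) ≤ i := Nat.cast_nonneg _
  have hl0 : (0 : ℝ) ≤ l := Nat.cast_nonneg _
  unfold wCB
  have h1 := dl_nonneg (σ (l - i) i 1 x) (σ (l - i) i 2 a)
  have h2 := dl_le (σ (l - i) i 1 x) (σ (l - i) i 2 a)
  dsimp only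
  constructor
  · have h3 : (i : ℝ) ^ 2 ≤ (m : ℝ) ^ 2 := pow_le_pow_left₀ hi0 hi' 2
    nlinarith [sq_nonneg ((l : ℝ) - 2 * i)]
  · have h3 : (l : ℝ) ^ 2 ≤ (2 * m : ℝ) ^ 2 := pow_le_pow_left₀ hl0 hl' 2
    have h4 : (i : ℝ) ^ 2 ≤ (m : ℝ) ^ 2 := pow_le_pow_left₀ hi0 hi' 2
    have h5 : 0 ≤ (i : ℝ) * l := mul_nonneg hi0 hl0
    nlinarith

theorem wAB_bd (σ : ℕ → ℕ → Fin 3 → Fin k → Bool) (p y : Fin m × Fin k) :
    38 * (m : ℝ) ^ 2 ≤ wAB m σ p.1 p.2 y.1 y.2 ∧ wAB m σ p.1 p.2 y.1 y.2 ≤ 41 * (m : ℝ) ^ 2 := by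
  obtain ⟨⟨i, hi⟩, a⟩ := p
  obtain ⟨⟨j, hj⟩, b⟩ := y
  have hm1 : (1 : ℝ) ≤ m := by exact_mod_cast (by omega : 1 ≤ m)
  have hi' : (i : ℝ) ≤ m := by exact_mod_cast hi.le
  have hj' : (j : ℝ) ≤ m := by exact_mod_cast hj.le
  have hi0 : (0 : ℝ) ≤ i := Nat.cast_nonneg _
  have hj0 : (0 : ℝ) ≤ j := Nat.cast_nonneg _
  unfold wAB
  have h1 := dl_nonneg (σ i j 0 a) (σ i j 2 b)
  have h2 := dl_le (σ i j 0 a) (σ i j 2 b)
  dsimp only
  have h3 : (i : ℝ) * j ≤ m * m := mul_le_mul hi' hj' hj0 (by linarith)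
  have h5 : 0 ≤ (i : ℝ) * j := mul_nonneg hi0 hj0
  constructor
  · nlinarith
  · nlinarith

/-- the main triangle inequality -/
theorem wAB_le (σ : ℕ → ℕ → Fin 3 → Fin k → Bool) (i j l : ℕ) (a b x : Fin k) :
    wAB m σ i a j b ≤ wAC m σ i a l x + wCB m σ l x j b := by
  unfold wAB wAC wCB
  by_cases hl : l = i + j
  · subst hl
    have h1 : i + j - i = j := by omega
    have h2 : i + j - j = i := by omega
    rw [h1, h2]
    have h3 := dl_tri (σ i j 0 a) (σ i j 1 x) (σ i j 2 b)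
    push_cast
    nlinarith
  · have h1 := dl_nonneg (σ i (l - i) 0 a) (σ i (l - i) 1 x)
    have h2 := dl_nonneg (σ (l - j) j 1 x) (σ (l - j) j 2 b)
    have h3 := dl_le (σ i j 0 a) (σ i j 2 b)
    have h4 : (1 : ℝ) ≤ ((l : ℝ) - i - j) ^ 2 := by
      have h5 : (1 : ℤ) ≤ ((l : ℤ) - i - j) ^ 2 := by
        have h6 : ((l : ℤ) - i - j) ≠ 0 := by omega
        have := Int.one_le_abs h6
        nlinarith [abs_mul_abs_self ((l : ℤ) - i - j)]
      exact_mod_cast h5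
    nlinarith

/-- equality at the critical triples -/
theorem wAB_eq (σ : ℕ → ℕ → Fin 3 → Fin k → Bool) (i j : ℕ) (a b x : Fin k) :
    wAC m σ i a (i + j) x + wCB m σ (i + j) x j b - wAB m σ i a j b =
      dl (σ i j 0 a) (σ i j 1 x) + dl (σ i j 1 x) (σ i j 2 b) - dl (σ i j 0 a) (σ i j 2 b) := by
  unfold wAB wAC wCB
  have h1 : i + j - i = j := by omega
  have h2 : i + j - j = i := by omega
  rw [h1, h2]
  push_cast
  ring

theorem G_lower (σ : ℕ → ℕ → Fin 3 → Fin k → Bool) (o o' : Option (U m k)) :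
    19 * (m : ℝ) ^ 2 ≤ G σ o o' := by
  have h0 : 19 * (m : ℝ) ^ 2 ≤ 38 * (m : ℝ) ^ 2 := by nlinarith [sq_nonneg (m : ℝ)]
  rcases o with _ | p | p | p <;> rcases o' with _ | p' | p' | p'
  all_goals first
    | exact h0
    | exact (wAC_bd σ _ _).1
    | exact (wCB_bd σ _ _).1
    | exact h0.trans (wAB_bd σ _ _).1

theorem G_upper (σ : ℕ → ℕ → Fin 3 → Fin k → Bool) (o o' : Option (U m k)) :
    G σ o o' ≤ 41 * (m : ℝ) ^ 2 := by
  have h0 : 38 * (m : ℝ) ^ 2 ≤ 41 * (m : ℝ) ^ 2 := by nlinarith [sq_nonneg (m : ℝ)]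
  rcases o with _ | p | p | p <;> rcases o' with _ | p' | p' | p'
  all_goals first
    | exact h0
    | exact (wAC_bd σ _ _).2.trans h0
    | exact (wCB_bd σ _ _).2.trans h0
    | exact (wAB_bd σ _ _).2

theorem G_tri (σ : ℕ → ℕ → Fin 3 → Fin k → Bool) (o o' o'' : Option (U m k)) :
    G σ o o'' ≤ G σ o o' + G σ o' o'' := by
  have h1 := G_lower σ o o'
  have h2 := G_lower σ o' o''
  have h3 : G σ o o'' ≤ 38 * (m : ℝ) ^ 2 → G σ o o'' ≤ G σ o o' + G σ o' o'' := by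
    intro h
    linarith
  have hAB : ∀ (p y : Fin m × Fin k) (o' : Option (U m k)), G σ (some (Sum.inl p))
      (some (Sum.inr (Sum.inl y))) ≤ G σ (some (Sum.inl p)) o' +
      G σ o' (some (Sum.inr (Sum.inl y))) := by
    intro p y o'
    have h4 := wAB_bd σ p y
    have h5 : G σ (some (Sum.inl p)) (some (Sum.inr (Sum.inl y))) = wAB m σ p.1 p.2 y.1 y.2 := rfl
    have hm0 : (0 : ℝ) ≤ (m : ℝ) ^ 2 := sq_nonneg _
    rcases o' with _ | z | z | z
    · have h6 : G σ (some (Sum.inl p)) (none : Option (U m k)) = 38 * (m : ℝ) ^ 2 := rfl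
      have h7 : G σ (none : Option (U m k)) (some (Sum.inr (Sum.inl y))) = 38 * (m : ℝ) ^ 2 := rfl
      rw [h5, h6, h7]
      linarith
    · have h6 : G σ (some (Sum.inl p)) (some (Sum.inl z) : Option (U m k)) =
        38 * (m : ℝ) ^ 2 := rfl
      have h7 : G σ (some (Sum.inl z) : Option (U m k)) (some (Sum.inr (Sum.inl y))) =
        wAB m σ z.1 z.2 y.1 y.2 := rfl
      have h8 := wAB_bd σ z y
      rw [h5, h6, h7]
      linarith
    · have h6 : G σ (some (Sum.inl p)) (some (Sum.inr (Sum.inl z)) : Option (U m k)) =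
        wAB m σ p.1 p.2 z.1 z.2 := rfl
      have h7 : G σ (some (Sum.inr (Sum.inl z)) : Option (U m k)) (some (Sum.inr (Sum.inl y))) =
        38 * (m : ℝ) ^ 2 := rfl
      have h8 := wAB_bd σ p z
      rw [h5, h6, h7]
      linarith
    · exact wAB_le σ p.1 y.1 z.1 p.2 y.2 z.2
  rcases o with _ | p | p | p <;> rcases o'' with _ | p' | p' | p'
  · exact h3 le_rfl
  · exact h3 le_rfl
  · exact h3 le_rfl
  · exact h3 le_rfl
  · exact h3 le_rfl
  · exact h3 le_rfl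
  · exact hAB p p' o'
  · exact h3 (wAC_bd σ p p').2
  · exact h3 le_rfl
  · rw [G_symm, G_symm σ (some (Sum.inr (Sum.inl p))) o', G_symm σ o' (some (Sum.inl p')),
      add_comm]
    exact hAB p' p o'
  · exact h3 le_rfl
  · exact h3 (wCB_bd σ p p').2
  · exact h3 le_rfl
  · exact h3 (wAC_bd σ p' p).2
  · exact h3 (wCB_bd σ p' p).2
  · exact h3 le_rfl

variable {n : ℕ}

/-- the weights; `c` gives the positions of the vertices -/
noncomputable def WB (c : Fin n → Option (U m k)) (σ : ℕ → ℕ → Fin 3 → Fin k → Bool)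
    (u v : Fin n) : ℝ :=
  if u = v then 0 else G σ (c u) (c v) / (19 * (m : ℝ) ^ 2)

theorem WB_symm (c : Fin n → Option (U m k)) (σ : ℕ → ℕ → Fin 3 → Fin k → Bool) (u v : Fin n) :
    WB c σ u v = WB c σ v u := by
  unfold WB
  rw [G_symm]
  simp only [eq_comm]

theorem WB_bd (hm : 0 < m) (c : Fin n → Option (U m k)) (σ : ℕ → ℕ → Fin 3 → Fin k → Bool)
    {u v : Fin n} (huv : u ≠ v) : 1 ≤ WB c σ u v ∧ WB c σ u v ≤ 3 := by
  have hm' : (0 : ℝ) < m := by exact_mod_cast hm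
  have hm2 : (0 : ℝ) < 19 * (m : ℝ) ^ 2 := by positivity
  unfold WB
  rw [if_neg huv]
  constructor
  · rw [le_div_iff₀ hm2, one_mul]
    exact G_lower σ _ _
  · rw [div_le_iff₀ hm2]
    have := G_upper σ (c u) (c v)
    nlinarith

theorem WB_nonneg (hm : 0 < m) (c : Fin n → Option (U m k)) (σ : ℕ → ℕ → Fin 3 → Fin k → Bool)
    (u v : Fin n) : 0 ≤ WB c σ u v := by
  by_cases h : u = v
  · unfold WB
    rw [if_pos h]
  · linarith [(WB_bd hm c σ h).1]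

theorem WB_tri (hm : 0 < m) (c : Fin n → Option (U m k)) (σ : ℕ → ℕ → Fin 3 → Fin k → Bool)
    (u v w : Fin n) : WB c σ u w ≤ WB c σ u v + WB c σ v w := by
  by_cases h1 : u = v
  · subst h1
    have : WB c σ u u = 0 := by simp [WB]
    linarith
  by_cases h2 : v = w
  · subst h2
    have : WB c σ v v = 0 := by simp [WB]
    linarith
  by_cases h3 : u = w
  · subst h3
    have : WB c σ u u = 0 := by simp [WB]
    rw [this]
    exact add_nonneg (WB_nonneg hm c σ _ _) (WB_nonneg hm c σ _ _)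
  · unfold WB
    rw [if_neg h1, if_neg h2, if_neg h3, ← add_div]
    exact div_le_div_of_nonneg_right (G_tri σ _ _ _) (by positivity)

theorem WB_le_walk (hm : 0 < m) (c : Fin n → Option (U m k)) (σ : ℕ → ℕ → Fin 3 → Fin k → Bool)
    (l : List (Fin n)) : ∀ u v, WB c σ u v ≤ walkWeight (WB c σ) u l v := by
  induction l with
  | nil => exact fun u v => le_rfl
  | cons x l ih =>
    intro u v
    exact (WB_tri hm c σ u x v).trans (add_le_add le_rfl (ih x v))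

theorem dist_WB (hm : 0 < m) (c : Fin n → Option (U m k)) (σ : ℕ → ℕ → Fin 3 → Fin k → Bool)
    {u v : Fin n} (huv : u ≠ v) : dist (WB c σ) u v = WB c σ u v := by
  refine le_antisymm (dist_le_walk (WB_nonneg hm c σ) huv []) ?_
  unfold Pool.Agent.APM54.dist
  rw [if_neg huv]
  exact le_ciInf fun l => WB_le_walk hm c σ l u v

end Pool.Agent.H98.AM
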