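import Pool.Agent.H98.AMCount
import Pool.Agent.H98.ALMain

/-!
# H98.AM: nonnegative factorizations of slack matrices on a dense set of cuts
-/

set_option autoImplicit false

namespace Pool.Agent.H98.AM

open Finset Pool.Agent.H98.AL

variable {n : ℕ}

/-- the weights have a small inner product with nonnegative matrices of rank one -/
theorem wgt_boxd {θ : ℝ} {I : Finset (Fin n)} {𝒮 : Finset (Fin n → Bool)} (hd : Dense θ I 𝒮)
    (hθ0 : 0 ≤ θ) (hθ1 : 2 * θ ≤ Real.exp (1 / 42)) (hθ2 : 2 * θ ≤ 2) {c γ : ℝ} (hc : 0 < c)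
    (hγ : 0 < γ) (hcγ : c / (1 + c) = 1 / 2 + γ) (hθγ : 2 * θ ≤ Real.exp (γ ^ 2))
    (𝒯 : Finset (Fin 3 ↪ Fin n)) (hI : ∀ t ∈ 𝒯, ∀ δ, t δ ∉ I)
    (S : Finset (Fin n → Bool)) (hS𝒮 : S ⊆ 𝒮) :
    ∑ t ∈ 𝒯, max 0 (∑ s ∈ S, wgt c t s) ≤ 20000 * 𝒮.card * (1 + c) / γ := by
  classical
  have hc1 : 0 < 1 + c := by linarith
  rcases S.eq_empty_or_nonempty with hS | hS
  · rw [hS]
    simp only [Finset.sum_empty, max_self, Finset.sum_const_zero]
    positivity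
  have hS0 : (0 : ℝ) < S.card := by exact_mod_cast hS.card_pos
  set y : (Fin 3 ↪ Fin n) → ℝ := fun t =>
    ((S.filter fun s => s (t 0) ≠ s (t 1) ∧ s (t 2) ≠ s (t 1)).card : ℝ) / S.card - 1 / 2 with hy
  have h3 : ∀ t : Fin 3 ↪ Fin n, ∑ s ∈ S, wgt c t s = S.card * (1 + c) * (y t - γ) := by
    intro t
    have h4 : ∀ s : Fin n → Bool, wgt c t s = (1 + c) *
        (if s (t 0) ≠ s (t 1) ∧ s (t 2) ≠ s (t 1) then (1 : ℝ) else 0) - c := by
      intro s
      unfold wgt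
      split <;> ring
    rw [Finset.sum_congr rfl fun s _ => h4 s, Finset.sum_sub_distrib, ← Finset.mul_sum,
      Finset.sum_boole, Finset.sum_const, nsmul_eq_mul]
    have h5 : c = (1 + c) * (1 / 2 + γ) := by
      rw [← hcγ]
      field_simp
    simp only [hy]
    rw [show (S.card : ℝ) * (1 + c) * (((S.filter fun s => s (t 0) ≠ s (t 1) ∧
        s (t 2) ≠ s (t 1)).card : ℝ) / S.card - 1 / 2 - γ) = (1 + c) *
        ((S.card : ℝ) * (((S.filter fun s => s (t 0) ≠ s (t 1) ∧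
        s (t 2) ≠ s (t 1)).card : ℝ) / S.card)) - S.card * ((1 + c) * (1 / 2 + γ)) from by ring,
      ← h5, mul_div_cancel₀ _ hS0.ne']
  set 𝒯' := 𝒯.filter fun t : Fin 3 ↪ Fin n => γ < y t with h𝒯'
  have h1 : ∑ t ∈ 𝒯, max 0 (∑ s ∈ S, wgt c t s) ≤
      S.card * (1 + c) * ∑ t ∈ 𝒯', (y t - γ) := by
    rw [Finset.mul_sum, h𝒯', Finset.sum_filter]
    refine Finset.sum_le_sum fun t _ => ?_
    rw [h3]
    by_cases h : γ < y t
    · rw [if_pos h, max_eq_right]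
      have : 0 < y t - γ := by linarith
      positivity
    · rw [if_neg h, max_eq_left]
      have : y t - γ ≤ 0 := by linarith
      exact mul_nonpos_of_nonneg_of_nonpos (by positivity) this
  have hcount : ∀ x : ℝ, γ ≤ x → ((𝒯'.filter fun t => x ≤ y t).card : ℝ) ≤
      (20000 * 𝒮.card / S.card) / x ^ 2 := by
    intro x hx
    have hx0 : 0 < x := hγ.trans_le hx
    have h4 := combd hd hθ0 hθ1 hθ2 hx0 (hθγ.trans (Real.exp_le_exp.2
      (pow_le_pow_left₀ hγ.le hx 2))) S hS𝒮 (𝒯'.filter fun t => x ≤ y t) (by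
      intro t ht
      exact hI t (Finset.mem_filter.1 (Finset.mem_filter.1 ht).1).1) (by
      intro t ht
      have h5 := (Finset.mem_filter.1 ht).2
      simp only [hy] at h5
      have h6 : 1 / 2 + x ≤ ((S.filter fun s => s (t 0) ≠ s (t 1) ∧
        s (t 2) ≠ s (t 1)).card : ℝ) / S.card := by linarith
      rwa [le_div_iff₀ hS0] at h6)
    rw [div_div, mul_comm (S.card : ℝ) (x ^ 2), ← div_div, le_div_iff₀ hS0]
    exact h4
  have h2 : ∑ t ∈ 𝒯', (y t - γ) ≤ (20000 * 𝒮.card / S.card) / γ := by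
    refine layer (by positivity) hγ y 𝒯' (fun t ht => hγ.trans (Finset.mem_filter.1 ht).2) ?_
    intro x hx
    rcases le_total γ x with hγx | hγx
    · exact hcount x hγx
    · have h4 : (𝒯'.filter fun t => x ≤ y t) ⊆ 𝒯'.filter fun t => γ ≤ y t := by
        intro t ht
        exact Finset.mem_filter.2 ⟨(Finset.mem_filter.1 ht).1,
          (Finset.mem_filter.1 (Finset.mem_filter.1 ht).1).2.le⟩
      have h5 : ((𝒯'.filter fun t => x ≤ y t).card : ℝ) ≤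
          ((𝒯'.filter fun t => γ ≤ y t).card : ℝ) := by
        exact_mod_cast Finset.card_le_card h4
      refine (h5.trans (hcount γ le_rfl)).trans ?_
      exact div_le_div_of_nonneg_left (by positivity) (by positivity)
        (pow_le_pow_left₀ hx.le hγx 2)
  refine h1.trans ?_
  calc S.card * (1 + c) * ∑ t ∈ 𝒯', (y t - γ)
      ≤ S.card * (1 + c) * ((20000 * 𝒮.card / S.card) / γ) :=
        mul_le_mul_of_nonneg_left h2 (by positivity)
    _ = 20000 * 𝒮.card * (1 + c) / γ := by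
        field_simp

/-- the relative density used below -/
noncomputable def th (ρ : ℝ) : ℝ := 1 / 2 + 1 / (300 * ρ ^ 2)

theorem two_th (ρ : ℝ) : 2 * th ρ = 1 + 1 / (150 * ρ ^ 2) := by
  unfold th
  ring

theorem th_bd {ρ : ℝ} (hρ : 1 ≤ ρ) : 0 < 1 / (150 * ρ ^ 2) ∧ 1 / (150 * ρ ^ 2) ≤ 1 / 150 := by
  have : 1 ≤ ρ ^ 2 := one_le_pow₀ hρ
  refine ⟨by positivity, one_div_le_one_div_of_le (by norm_num) (by linarith)⟩

/-- separated triples -/
theorem sep_density {ρ : ℝ} (hρ : 1 ≤ ρ) {I : Finset (Fin n)} {𝒮 : Finset (Fin n → Bool)}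
    (hd : Dense (th ρ) I 𝒮) (t : Fin 3 ↪ Fin n) (hI : ∀ δ, t δ ∉ I) :
    (1 / 4 - 16 / (1000 * ρ)) * 𝒮.card ≤
      ((𝒮.filter fun s => s (t 0) ≠ s (t 1) ∧ s (t 2) ≠ s (t 1)).card : ℝ) := by
  classical
  have h01 : t 0 ≠ t 1 := fun h => by simpa using t.injective h
  have h21 : t 2 ≠ t 1 := fun h => by simpa using t.injective h
  have h02 : t 0 ≠ t 2 := fun h => by simpa using t.injective h
  have hJ : Disjoint I (Finset.univ.image t) := by
    rw [Finset.disjoint_right]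
    intro x hx
    obtain ⟨δ, -, rfl⟩ := Finset.mem_image.1 hx
    exact hI δ
  have h1 := hd.card_le hJ (fun s => ¬ (s (t 0) ≠ s (t 1) ∧ s (t 2) ≠ s (t 1))) (by
    intro s s' h
    have hδ : ∀ δ, s (t δ) = s' (t δ) := fun δ => h _ (Finset.mem_image_of_mem _
      (Finset.mem_univ _))
    rw [hδ 0, hδ 1, hδ 2])
  rw [Finset.card_image_of_injective _ t.injective, Finset.card_univ, Fintype.card_fin,
    two_th] at h1
  have h2 : ((Finset.univ.filter fun s : Fin n → Bool =>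
      ¬ (s (t 0) ≠ s (t 1) ∧ s (t 2) ≠ s (t 1))).card : ℝ) = 2 ^ n * (3 / 4) := by
    have h3 := sum_sep (n := n) h01 h21 h02
    rw [Finset.sum_boole] at h3
    have h4 := Finset.card_filter_add_card_filter_not (s := (Finset.univ : Finset (Fin n → Bool)))
      (fun s => s (t 0) ≠ s (t 1) ∧ s (t 2) ≠ s (t 1))
    rw [Finset.card_univ, Fintype.card_fun, Fintype.card_bool, Fintype.card_fin] at h4
    have h5 : (((Finset.univ.filter fun s : Fin n → Bool =>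
      (s (t 0) ≠ s (t 1) ∧ s (t 2) ≠ s (t 1))).card : ℝ)) +
      ((Finset.univ.filter fun s : Fin n → Bool =>
      ¬ (s (t 0) ≠ s (t 1) ∧ s (t 2) ≠ s (t 1))).card : ℝ) = 2 ^ n := by exact_mod_cast h4
    linarith
  rw [h2] at h1
  have h6 : ((𝒮.filter fun s => (s (t 0) ≠ s (t 1) ∧ s (t 2) ≠ s (t 1))).card : ℝ) +
      ((𝒮.filter fun s => ¬ (s (t 0) ≠ s (t 1) ∧ s (t 2) ≠ s (t 1))).card : ℝ) = 𝒮.card := by
    exact_mod_cast Finset.card_filter_add_card_filter_not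
      (s := 𝒮) (fun s => s (t 0) ≠ s (t 1) ∧ s (t 2) ≠ s (t 1))
  obtain ⟨hx0, hx1⟩ := th_bd hρ
  set x : ℝ := 1 / (150 * ρ ^ 2) with hx
  have h7 : (1 + x) ^ 3 * (3 / 4) ≤ 3 / 4 + 16 / (1000 * ρ) := by
    have h8 : x ≤ 1 / (150 * ρ) := by
      refine one_div_le_one_div_of_le (by positivity) ?_
      nlinarith
    have h9 : (1 + x) ^ 3 ≤ 1 + 32 / 10 * x := by nlinarith [sq_nonneg x]
    have h10 : 16 / (1000 * ρ) = 24 / 10 * (1 / (150 * ρ)) := by
      field_simp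
      norm_num
    rw [h10]
    linarith
  have hp : (0 : ℝ) < 2 ^ n := by positivity
  have h𝒮 : (0 : ℝ) ≤ 𝒮.card := Nat.cast_nonneg _
  have h8 : ((𝒮.filter fun s => ¬ (s (t 0) ≠ s (t 1) ∧ s (t 2) ≠ s (t 1))).card : ℝ) ≤
      (3 / 4 + 16 / (1000 * ρ)) * 𝒮.card := by
    have h9 : 2 ^ n * ((𝒮.filter fun s => ¬ (s (t 0) ≠ s (t 1) ∧ s (t 2) ≠ s (t 1))).card : ℝ) ≤
        2 ^ n * ((3 / 4 + 16 / (1000 * ρ)) * 𝒮.card) := by
      refine h1.trans ?_
      calc (1 + x) ^ 3 * 𝒮.card * (2 ^ n * (3 / 4)) = 2 ^ n * ((1 + x) ^ 3 * (3 / 4) * 𝒮.card) := by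
            ring
        _ ≤ _ := mul_le_mul_of_nonneg_left (mul_le_mul_of_nonneg_right h7 h𝒮) hp.le
    exact le_of_mul_le_mul_left h9 hp
  linarith

/-- pairs with different values -/
theorem ne_density {ρ : ℝ} (hρ : 1 ≤ ρ) {I : Finset (Fin n)} {𝒮 : Finset (Fin n → Bool)}
    (hd : Dense (th ρ) I 𝒮) {i j : Fin n} (hij : i ≠ j) (hi : i ∉ I) (hj : j ∉ I) :
    ((𝒮.filter fun s => s i ≠ s j).card : ℝ) ≤ (1 / 2 + 7 / (1000 * ρ)) * 𝒮.card := by
  classical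
  have hJ : Disjoint I {i, j} := by
    rw [Finset.disjoint_right]
    intro x hx
    rcases Finset.mem_insert.1 hx with rfl | hx
    · exact hi
    · rw [Finset.mem_singleton] at hx
      rw [hx]
      exact hj
  have h1 := hd.card_le hJ (fun s => s i ≠ s j) (by
    intro s s' h
    rw [h i (by simp), h j (by simp)])
  rw [Finset.card_pair hij, two_th] at h1
  have h2 : ((Finset.univ.filter fun s : Fin n → Bool => s i ≠ s j).card : ℝ) = 2 ^ n / 2 := by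
    have h3 := sum_ne (n := n) hij
    rwa [Finset.sum_boole] at h3
  rw [h2] at h1
  obtain ⟨hx0, hx1⟩ := th_bd hρ
  set x : ℝ := 1 / (150 * ρ ^ 2) with hx
  have h7 : (1 + x) ^ 2 / 2 ≤ 1 / 2 + 7 / (1000 * ρ) := by
    have h8 : x ≤ 1 / (150 * ρ) := by
      refine one_div_le_one_div_of_le (by positivity) ?_
      nlinarith
    have h9 : (1 + x) ^ 2 ≤ 1 + 201 / 100 * x := by nlinarith [sq_nonneg x]
    have h10 : 7 / (1000 * ρ) = 105 / 100 * (1 / (150 * ρ)) := by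
      field_simp
      norm_num
    rw [h10]
    linarith
  have hp : (0 : ℝ) < 2 ^ n := by positivity
  have h𝒮 : (0 : ℝ) ≤ 𝒮.card := Nat.cast_nonneg _
  have h9 : 2 ^ n * ((𝒮.filter fun s => s i ≠ s j).card : ℝ) ≤
      2 ^ n * ((1 / 2 + 7 / (1000 * ρ)) * 𝒮.card) := by
    refine h1.trans ?_
    calc (1 + x) ^ 2 * 𝒮.card * (2 ^ n / 2) = 2 ^ n * ((1 + x) ^ 2 / 2 * 𝒮.card) := by
          ring
      _ ≤ _ := mul_le_mul_of_nonneg_left (mul_le_mul_of_nonneg_right h7 h𝒮) hp.le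
  exact le_of_mul_le_mul_left h9 hp

/-- **The main bound**, for a nonnegative factorization of a slack matrix on a dense set. -/
theorem core0d {ι : Type*} [Fintype ι] {ρ Λ : ℝ} (hρ : 1 ≤ ρ) (hΛ : 10 * ρ ≤ Λ)
    {I : Finset (Fin n)} {𝒮 : Finset (Fin n → Bool)} (hd : Dense (th ρ) I 𝒮)
    (hne : 𝒮.Nonempty) (𝒯 : Finset (Fin 3 ↪ Fin n)) (hI : ∀ t ∈ 𝒯, ∀ δ, t δ ∉ I)
    (u : (Fin 3 ↪ Fin n) → ι → ℝ) (v : ι → (Fin n → Bool) → ℝ) (hu : ∀ t l, 0 ≤ u t l)
    (hv : ∀ l s, 0 ≤ v l s) (hmax : ∀ t ∈ 𝒯, ∀ s ∈ 𝒮, ∑ l, u t l * v l s ≤ 2 * ρ * Λ)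
    (hA : ∀ t ∈ 𝒯, ∀ s ∈ 𝒮, s (t 0) ≠ s (t 1) ∧ s (t 2) ≠ s (t 1) →
      2 * ρ * Λ - ρ ≤ ∑ l, u t l * v l s)
    (hE : ∀ t ∈ 𝒯, ∀ s ∈ 𝒮, s (t 0) = s (t 1) → s (t 2) = s (t 1) →
      ∑ l, u t l * v l s ≤ 2 * ρ - 1)
    (hB : ∀ t ∈ 𝒯, ∀ s ∈ 𝒮, s (t 0) ≠ s (t 2) → ∑ l, u t l * v l s ≤ (ρ - 1) * Λ + ρ) :
    (𝒯.card : ℝ) ≤ 10 ^ 7 * ρ ^ 2 * Fintype.card ι := by
  classical
  have hρ0 : 0 < ρ := by linarith
  have hΛ0 : 0 < Λ := by linarith
  have h𝒮0 : (0 : ℝ) < 𝒮.card := by exact_mod_cast hne.card_pos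
  set c : ℝ := 1 + 2 / (5 * ρ) with hc
  set γ : ℝ := 1 / (10 * ρ + 2) with hγ
  have hc0 : 0 < c := by positivity
  have hγ0 : 0 < γ := by positivity
  have hcγ : c / (1 + c) = 1 / 2 + γ := by
    rw [hc, hγ]
    field_simp
    ring
  obtain ⟨hx0, hx1⟩ := th_bd hρ
  have hθ0 : 0 ≤ th ρ := by
    unfold th
    positivity
  have hθ1 : 2 * th ρ ≤ Real.exp (1 / 42) := by
    rw [two_th]
    have := Real.add_one_le_exp (1 / 42 : ℝ)
    linarith
  have hθ2 : 2 * th ρ ≤ 2 := by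
    rw [two_th]
    linarith
  have hθγ : 2 * th ρ ≤ Real.exp (γ ^ 2) := by
    rw [two_th]
    have h1 := Real.add_one_le_exp (γ ^ 2)
    have h2 : 1 / (150 * ρ ^ 2) ≤ γ ^ 2 := by
      rw [hγ, div_pow, one_pow]
      refine one_div_le_one_div_of_le (by positivity) ?_
      nlinarith
    linarith
  set Bd : ℝ := 20000 * 𝒮.card * (1 + c) / γ with hBd
  -- the upper bound
  have hterm : ∀ l : ι, ∑ t : {t // t ∈ 𝒯}, ∑ s : {s // s ∈ 𝒮}, wgt c t.1 s.1 *
      (u t.1 l * v l s.1) ≤ 2 * ρ * Λ * Bd := by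
    intro l
    refine bil (fun (t : {t // t ∈ 𝒯}) (s : {s // s ∈ 𝒮}) => wgt c t.1 s.1) _ (fun S => ?_)
      (fun t => u t.1 l) (fun s => v l s.1) (fun t => hu t.1 l) (fun s => hv l s.1)
      (2 * ρ * Λ) (by positivity) ?_
    · have h1 := wgt_boxd hd hθ0 hθ1 hθ2 hc0 hγ0 hcγ hθγ 𝒯 hI
        (S.map (Function.Embedding.subtype _)) (by
          intro s hs
          obtain ⟨s', -, rfl⟩ := Finset.mem_map.1 hs
          exact s'.2)
      refine le_trans (le_of_eq ?_) h1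
      rw [← Finset.sum_coe_sort 𝒯]
      refine Finset.sum_congr rfl fun t _ => ?_
      rw [Finset.sum_map]
      rfl
    · intro t s
      exact (Finset.single_le_sum (f := fun l => u t.1 l * v l s.1)
        (fun l _ => mul_nonneg (hu t.1 l) (hv l s.1)) (Finset.mem_univ l)).trans
          (hmax t.1 t.2 s.1 s.2)
  have hsum : ∑ t ∈ 𝒯, ∑ s ∈ 𝒮, wgt c t s * ∑ l, u t l * v l s ≤
      Fintype.card ι * (2 * ρ * Λ * Bd) := by
    have h1 : ∑ t ∈ 𝒯, ∑ s ∈ 𝒮, wgt c t s * ∑ l, u t l * v l s =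
        ∑ l, ∑ t : {t // t ∈ 𝒯}, ∑ s : {s // s ∈ 𝒮}, wgt c t.1 s.1 * (u t.1 l * v l s.1) := by
      rw [← Finset.sum_coe_sort 𝒯]
      symm
      rw [Finset.sum_comm]
      refine Finset.sum_congr rfl fun t _ => ?_
      rw [Finset.sum_comm, ← Finset.sum_coe_sort 𝒮]
      refine Finset.sum_congr rfl fun s _ => ?_
      rw [Finset.mul_sum]
    rw [h1]
    calc _ ≤ ∑ _l : ι, 2 * ρ * Λ * Bd := Finset.sum_le_sum fun l _ => hterm l
      _ = _ := by rw [Finset.sum_const, nsmul_eq_mul, Finset.card_univ]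
  -- the lower bound
  set e₁ : ℝ := 2 * ρ * Λ - ρ with he₁
  set e₂ : ℝ := (ρ - 1) * Λ + ρ with he₂
  set e₃ : ℝ := 2 * ρ - 1 with he₃
  have hcle : c ≤ 7 / 5 := by
    rw [hc]
    have : 2 / (5 * ρ) ≤ 2 / 5 := by
      rw [div_le_div_iff₀ (by positivity) (by norm_num)]
      linarith
    linarith
  have hlow : ∀ t ∈ 𝒯, 𝒮.card * (1 / 8 * Λ) ≤
      ∑ s ∈ 𝒮, wgt c t s * ∑ l, u t l * v l s := by
    intro t ht
    have h01 : t 0 ≠ t 1 := fun h => by simpa using t.injective h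
    have h21 : t 2 ≠ t 1 := fun h => by simpa using t.injective h
    have h02 : t 0 ≠ t 2 := fun h => by simpa using t.injective h
    have h1 : ∀ s ∈ 𝒮,
        (e₁ + c * e₃) * (if s (t 0) ≠ s (t 1) ∧ s (t 2) ≠ s (t 1) then (1 : ℝ) else 0) -
          (c * e₂ - c * e₃) * (if s (t 0) ≠ s (t 2) then (1 : ℝ) else 0) - c * e₃ ≤
        wgt c t s * ∑ l, u t l * v l s := by
      intro s hs𝒮
      by_cases hs : s (t 0) ≠ s (t 2)
      · have h2 : ¬ (s (t 0) ≠ s (t 1) ∧ s (t 2) ≠ s (t 1)) := by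
          cases hs0 : s (t 0) <;> cases hs1 : s (t 1) <;> cases hs2 : s (t 2) <;> simp_all
        unfold wgt
        rw [if_neg h2, if_neg h2, if_pos hs]
        have h3 := mul_le_mul_of_nonneg_left (hB t ht s hs𝒮 hs) hc0.le
        linarith
      · by_cases h2 : s (t 0) ≠ s (t 1) ∧ s (t 2) ≠ s (t 1)
        · unfold wgt
          rw [if_pos h2, if_neg hs, if_pos h2]
          have h3 := hA t ht s hs𝒮 h2
          linarith
        · have h4 : s (t 0) = s (t 1) ∧ s (t 2) = s (t 1) := by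
            cases hs0 : s (t 0) <;> cases hs1 : s (t 1) <;> cases hs2 : s (t 2) <;> simp_all
          unfold wgt
          rw [if_neg h2, if_neg hs, if_neg h2]
          have h3 := mul_le_mul_of_nonneg_left (hE t ht s hs𝒮 h4.1 h4.2) hc0.le
          linarith
    refine le_trans ?_ (Finset.sum_le_sum h1)
    rw [Finset.sum_sub_distrib, Finset.sum_sub_distrib, ← Finset.mul_sum, ← Finset.mul_sum,
      Finset.sum_boole, Finset.sum_boole, Finset.sum_const, nsmul_eq_mul]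
    have hsep := sep_density hρ hd t (hI t ht)
    have hnee := ne_density hρ hd h02 (hI t ht 0) (hI t ht 2)
    set A : ℝ := ((𝒮.filter fun s => s (t 0) ≠ s (t 1) ∧ s (t 2) ≠ s (t 1)).card : ℝ) with hAdef
    set N : ℝ := ((𝒮.filter fun s => s (t 0) ≠ s (t 2)).card : ℝ) with hNdef
    have h5 : (7 : ℝ) / 40 * Λ ≤ (e₁ + c * e₃) / 4 - (c * e₂ - c * e₃) / 2 - c * e₃ := by
      have h6 : (e₁ + c * e₃) / 4 - (c * e₂ - c * e₃) / 2 - c * e₃ =
          (Λ * (3 / 5 + 2 / (5 * ρ)) - ρ / 2 - (2 * ρ + 3 / 10 - 1 / (5 * ρ))) / 2 := by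
        rw [he₁, he₂, he₃, hc]
        field_simp
        ring
      rw [h6]
      have h7 : 0 < 1 / (5 * ρ) := by positivity
      have h8 : 4 ≤ Λ * (2 / (5 * ρ)) := by
        rw [mul_div_assoc', le_div_iff₀ (by positivity)]
        linarith
      linarith
    have hp1 : 0 ≤ e₁ + c * e₃ := by
      have : 0 ≤ c * e₃ := mul_nonneg hc0.le (by rw [he₃]; linarith)
      have : 0 ≤ e₁ := by
        rw [he₁]
        nlinarith
      linarith
    have hp1' : e₁ + c * e₃ ≤ 22 / 10 * ρ * Λ := by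
      have h6 : c * e₃ ≤ 7 / 5 * (2 * ρ) := by
        refine mul_le_mul hcle (by rw [he₃]; linarith) (by rw [he₃]; linarith) (by norm_num)
      rw [he₁]
      nlinarith
    have hp2 : 0 ≤ c * e₂ - c * e₃ := by
      have : 0 ≤ e₂ - e₃ := by
        rw [he₂, he₃]
        have : 0 ≤ (ρ - 1) * (Λ - 1) := mul_nonneg (by linarith) (by linarith)
        linarith
      have := mul_nonneg hc0.le this
      linarith
    have hp2' : c * e₂ - c * e₃ ≤ 7 / 5 * ρ * Λ := by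
      have h6 : c * (e₂ - e₃) ≤ 7 / 5 * (ρ * Λ) := by
        refine mul_le_mul hcle ?_ ?_ (by norm_num)
        · rw [he₂, he₃]
          nlinarith
        · rw [he₂, he₃]
          have : 0 ≤ (ρ - 1) * (Λ - 1) := mul_nonneg (by linarith) (by linarith)
          linarith
      linarith
    have h7 : (e₁ + c * e₃) * ((1 / 4 - 16 / (1000 * ρ)) * 𝒮.card) ≤ (e₁ + c * e₃) * A :=
      mul_le_mul_of_nonneg_left hsep hp1
    have h8 : (c * e₂ - c * e₃) * N ≤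
        (c * e₂ - c * e₃) * ((1 / 2 + 7 / (1000 * ρ)) * 𝒮.card) :=
      mul_le_mul_of_nonneg_left hnee hp2
    have h9 : (e₁ + c * e₃) * (16 / (1000 * ρ)) ≤ 352 / 10000 * Λ := by
      calc (e₁ + c * e₃) * (16 / (1000 * ρ)) ≤ (22 / 10 * ρ * Λ) * (16 / (1000 * ρ)) :=
            mul_le_mul_of_nonneg_right hp1' (by positivity)
        _ = 352 / 10000 * Λ := by
            field_simp
            ring
    have h10 : (c * e₂ - c * e₃) * (7 / (1000 * ρ)) ≤ 98 / 10000 * Λ := by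
      calc (c * e₂ - c * e₃) * (7 / (1000 * ρ)) ≤ (7 / 5 * ρ * Λ) * (7 / (1000 * ρ)) :=
            mul_le_mul_of_nonneg_right hp2' (by positivity)
        _ = 98 / 10000 * Λ := by
            field_simp
            ring
    have h11 : 1 / 8 * Λ ≤ (e₁ + c * e₃) * (1 / 4 - 16 / (1000 * ρ)) -
        (c * e₂ - c * e₃) * (1 / 2 + 7 / (1000 * ρ)) - c * e₃ := by
      have e1 : (e₁ + c * e₃) * (1 / 4 - 16 / (1000 * ρ)) -
        (c * e₂ - c * e₃) * (1 / 2 + 7 / (1000 * ρ)) - c * e₃ =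
        ((e₁ + c * e₃) / 4 - (c * e₂ - c * e₃) / 2 - c * e₃) -
        (e₁ + c * e₃) * (16 / (1000 * ρ)) - (c * e₂ - c * e₃) * (7 / (1000 * ρ)) := by ring
      rw [e1]
      linarith
    have h12 := mul_le_mul_of_nonneg_left h11 h𝒮0.le
    linarith
  have hlow' : (𝒯.card : ℝ) * (𝒮.card * (1 / 8 * Λ)) ≤
      ∑ t ∈ 𝒯, ∑ s ∈ 𝒮, wgt c t s * ∑ l, u t l * v l s := by
    rw [← nsmul_eq_mul, ← Finset.sum_const]
    exact Finset.sum_le_sum hlow
  have hcγ' : (1 + c) / γ ≤ 144 / 5 * ρ := by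
    have e1 : (1 + c) / γ = (10 * ρ + 2) ^ 2 / (5 * ρ) := by
      rw [hc, hγ]
      field_simp
      ring
    rw [e1, div_le_iff₀ (by positivity)]
    nlinarith
  have hcard : (0 : ℝ) ≤ Fintype.card ι := Nat.cast_nonneg _
  have h6 : (𝒯.card : ℝ) * (𝒮.card * (1 / 8 * Λ)) ≤
      Fintype.card ι * (2 * ρ * Λ * (20000 * 𝒮.card * (144 / 5 * ρ))) := by
    calc (𝒯.card : ℝ) * (𝒮.card * (1 / 8 * Λ))
        ≤ Fintype.card ι * (2 * ρ * Λ * Bd) := hlow'.trans hsum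
      _ = Fintype.card ι * (2 * ρ * Λ * (20000 * 𝒮.card * ((1 + c) / γ))) := by
          rw [hBd]
          ring
      _ ≤ _ := by
          refine mul_le_mul_of_nonneg_left ?_ hcard
          refine mul_le_mul_of_nonneg_left ?_ (by positivity)
          exact mul_le_mul_of_nonneg_left hcγ' (by positivity)
  have h7 : 𝒮.card * Λ / 8 * (𝒯.card : ℝ) ≤
      𝒮.card * Λ / 8 * (9216000 * ρ ^ 2 * Fintype.card ι) := by
    calc 𝒮.card * Λ / 8 * (𝒯.card : ℝ)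
        = (𝒯.card : ℝ) * (𝒮.card * (1 / 8 * Λ)) := by ring
      _ ≤ _ := h6
      _ = _ := by ring
  have h8 := le_of_mul_le_mul_left h7 (by positivity)
  refine h8.trans ?_
  have h9 : 0 ≤ ρ ^ 2 * Fintype.card ι := by positivity
  nlinarith

end Pool.Agent.H98.AM
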