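import Pool.Agent.H98.AMDense
import Pool.Agent.H98.ALSun

/-!
# H98.AM: separated triples in dense sets

The estimates of `ALSun` inside a dense set `𝒮`.
-/

set_option autoImplicit false

namespace Pool.Agent.H98.AM

open Finset Pool.Agent.H98.AL

variable {n : ℕ}

/-- **Leaf lemma** in a dense set. -/
theorem leafd {θ : ℝ} {I : Finset (Fin n)} {𝒮 : Finset (Fin n → Bool)} (hd : Dense θ I 𝒮)
    (hθ0 : 0 ≤ θ) (hθ1 : 2 * θ ≤ 2) {γ : ℝ} (hγ : 0 ≤ γ) (hθγ : 2 * θ ≤ Real.exp (γ ^ 2))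
    (A : Finset (Fin n)) (k : Fin n) (hk : k ∉ A) (hI : Disjoint I (insert k A))
    (S : Finset (Fin n → Bool)) (hS : S ⊆ 𝒮)
    (h : ∀ x ∈ A, (1 / 2 + γ) * S.card ≤ ((S.filter fun s => s x ≠ s k).card : ℝ)) :
    (S.card : ℝ) ≤ 2 * 𝒮.card * Real.exp (-(γ ^ 2 * A.card)) := by
  classical
  set e : Fin n → (Fin n → Bool) → ℝ := fun x s => sg (xor (s x) (s k)) with he
  set Y : (Fin n → Bool) → ℝ := fun s => ∑ x ∈ A, e x s with hY
  have h1 : ∀ x ∈ A, 2 * γ * S.card ≤ ∑ s ∈ S, e x s := by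
    intro x hx
    have h2 : ∀ s : Fin n → Bool, e x s = 2 * (if s x ≠ s k then (1 : ℝ) else 0) - 1 := by
      intro s
      simp only [he]
      cases s x <;> cases s k <;> norm_num [sg]
    rw [Finset.sum_congr rfl fun s _ => h2 s, Finset.sum_sub_distrib, ← Finset.mul_sum,
      Finset.sum_boole, Finset.sum_const, nsmul_eq_mul, mul_one]
    have := h x hx
    linarith
  have h2 : 2 * γ * A.card * S.card ≤ ∑ s ∈ S, Y s := by
    rw [hY, Finset.sum_comm]
    have : ∑ _x ∈ A, 2 * γ * (S.card : ℝ) ≤ ∑ x ∈ A, ∑ s ∈ S, e x s := Finset.sum_le_sum h1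
    rw [Finset.sum_const, nsmul_eq_mul] at this
    linarith
  set m : ℝ := 2 * γ * A.card with hm
  have h3 : Real.exp (2 * γ * m) * S.card ≤ ∑ s ∈ S, Real.exp (2 * γ * Y s) := by
    have h4 : ∀ s ∈ S, Real.exp (2 * γ * m) * (1 + 2 * γ * (Y s - m)) ≤ Real.exp (2 * γ * Y s) := by
      intro s _
      have h5 : Real.exp (2 * γ * Y s) = Real.exp (2 * γ * m) * Real.exp (2 * γ * (Y s - m)) := by
        rw [← Real.exp_add]
        congr 1
        ring
      rw [h5]
      refine mul_le_mul_of_nonneg_left ?_ (Real.exp_pos _).le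
      have := Real.add_one_le_exp (2 * γ * (Y s - m))
      linarith
    refine le_trans ?_ (Finset.sum_le_sum h4)
    rw [← Finset.mul_sum]
    refine mul_le_mul_of_nonneg_left ?_ (Real.exp_pos _).le
    rw [Finset.sum_add_distrib, Finset.sum_const, nsmul_eq_mul, mul_one, ← Finset.mul_sum,
      Finset.sum_sub_distrib, Finset.sum_const, nsmul_eq_mul]
    have h6 : 0 ≤ 2 * γ * (∑ s ∈ S, Y s - S.card * m) := by
      refine mul_nonneg (by linarith) ?_
      linarith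
    linarith
  have h7 : ∑ s ∈ S, Real.exp (2 * γ * Y s) ≤ ∑ s ∈ 𝒮, Real.exp (2 * γ * Y s) :=
    Finset.sum_le_sum_of_subset_of_nonneg hS fun _ _ _ => (Real.exp_pos _).le
  have h7' := hd.sum_le hI (fun s => Real.exp (2 * γ * Y s)) (fun s => (Real.exp_pos _).le) (by
    intro s s' hss
    have : Y s = Y s' := by
      refine Finset.sum_congr rfl fun x hx => ?_
      simp only [he]
      rw [hss x (Finset.mem_insert_of_mem hx), hss k (Finset.mem_insert_self _ _)]
    simp only [this])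
  have h8 : ∑ s, Real.exp (2 * γ * Y s) =
      ∑ s : Fin n → Bool, Real.exp (2 * γ * ∑ x ∈ A, sg (s x)) := by
    rw [← Equiv.sum_comp (mixPerm A (fun _ => k) fun _ _ => hk)
      (fun s : Fin n → Bool => Real.exp (2 * γ * ∑ x ∈ A, sg (s x)))]
    refine Finset.sum_congr rfl fun s _ => ?_
    congr 2
    refine Finset.sum_congr rfl fun x hx => ?_
    rw [mixPerm_apply A (fun _ => k) (fun _ _ => hk) s hx]
  have h9 := moment A (2 * γ)
  have hp : (0 : ℝ) < 2 ^ n := by positivity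
  have hpow : (2 * θ) ^ (insert k A).card ≤ 2 * Real.exp (γ ^ 2 * A.card) := by
    rw [Finset.card_insert_of_notMem hk, pow_succ, mul_comm]
    refine mul_le_mul hθ1 ?_ (by positivity) (by norm_num)
    calc (2 * θ) ^ A.card ≤ Real.exp (γ ^ 2) ^ A.card := pow_le_pow_left₀ (by positivity) hθγ _
      _ = Real.exp (γ ^ 2 * A.card) := by
        rw [← Real.exp_nat_mul, mul_comm]
  have h10 : 2 ^ n * (Real.exp (2 * γ * m) * S.card) ≤
      2 ^ n * (2 * Real.exp (γ ^ 2 * A.card) * 𝒮.card * Real.exp ((2 * γ) ^ 2 / 2 * A.card)) := by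
    calc 2 ^ n * (Real.exp (2 * γ * m) * S.card)
        ≤ 2 ^ n * ∑ s ∈ 𝒮, Real.exp (2 * γ * Y s) :=
          mul_le_mul_of_nonneg_left (h3.trans h7) hp.le
      _ ≤ _ := h7'
      _ ≤ (2 * Real.exp (γ ^ 2 * A.card)) * 𝒮.card *
          (2 ^ n * Real.exp ((2 * γ) ^ 2 / 2 * A.card)) := by
          rw [h8]
          refine mul_le_mul ?_ h9 (Finset.sum_nonneg fun _ _ => (Real.exp_pos _).le) (by positivity)
          exact mul_le_mul_of_nonneg_right hpow (Nat.cast_nonneg _)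
      _ = _ := by ring
  have h10' := le_of_mul_le_mul_left h10 hp
  have h11 : (S.card : ℝ) = Real.exp (-(2 * γ * m)) * (Real.exp (2 * γ * m) * S.card) := by
    rw [← mul_assoc, ← Real.exp_add]
    simp
  rw [h11]
  refine (mul_le_mul_of_nonneg_left h10' (Real.exp_pos _).le).trans (le_of_eq ?_)
  have h12 : Real.exp (-(γ ^ 2 * A.card)) = Real.exp (-(2 * γ * m)) *
      Real.exp (γ ^ 2 * A.card) * Real.exp ((2 * γ) ^ 2 / 2 * A.card) := by
    rw [← Real.exp_add, ← Real.exp_add]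
    congr 1
    rw [hm]
    ring
  rw [h12]
  ring

/-- **Sunflower lemma** in a dense set. -/
theorem sunflowerd {θ : ℝ} {I : Finset (Fin n)} {𝒮 : Finset (Fin n → Bool)} (hd : Dense θ I 𝒮)
    (hθ0 : 0 ≤ θ) (hθ1 : 2 * θ ≤ Real.exp (1 / 42)) (M : Finset (Fin 3 ↪ Fin n)) (hM : Sun M)
    (hI : ∀ t ∈ M, ∀ δ, t δ ∉ I) (S : Finset (Fin n → Bool)) (hS : S ⊆ 𝒮)
    (h : ∀ t ∈ M, (1 / 2 : ℝ) * S.card ≤
      ((S.filter fun s => s (t 0) ≠ s (t 1) ∧ s (t 2) ≠ s (t 1)).card : ℝ)) :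
    (S.card : ℝ) ≤ 𝒮.card * Real.exp (-((M.card : ℝ) / 14)) := by
  classical
  set l : ℝ := Real.log 3 with hl
  have hl0 : 0 ≤ l := Real.log_nonneg (by norm_num)
  have hexpl : Real.exp l = 3 := Real.exp_log (by norm_num)
  set Y : (Fin n → Bool) → ℝ := fun s => ∑ t ∈ M, ind3 t s with hY
  have h1 : ∀ s, Real.exp (l * Y s) = ∏ t ∈ M, (1 + 2 * ind3 t s) := by
    intro s
    rw [hY, Finset.mul_sum, Real.exp_sum]
    refine Finset.prod_congr rfl fun t _ => ?_
    unfold ind3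
    split
    · rw [mul_one, hexpl]
      norm_num
    · simp
  have h2 : (M.card : ℝ) / 2 * S.card ≤ ∑ s ∈ S, Y s := by
    rw [hY, Finset.sum_comm]
    have h3 : ∑ _t ∈ M, (1 / 2 : ℝ) * S.card ≤ ∑ t ∈ M, ∑ s ∈ S, ind3 t s := by
      refine Finset.sum_le_sum fun t ht => (h t ht).trans (le_of_eq ?_)
      unfold ind3
      rw [Finset.sum_boole]
    rw [Finset.sum_const, nsmul_eq_mul] at h3
    linarith
  set m : ℝ := (M.card : ℝ) / 2 with hm
  have h3 : Real.exp (l * m) * S.card ≤ ∑ s ∈ S, Real.exp (l * Y s) := by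
    have h4 : ∀ s ∈ S, Real.exp (l * m) * (1 + l * (Y s - m)) ≤ Real.exp (l * Y s) := by
      intro s _
      have h5 : Real.exp (l * Y s) = Real.exp (l * m) * Real.exp (l * (Y s - m)) := by
        rw [← Real.exp_add]
        congr 1
        ring
      rw [h5]
      refine mul_le_mul_of_nonneg_left ?_ (Real.exp_pos _).le
      have := Real.add_one_le_exp (l * (Y s - m))
      linarith
    refine le_trans ?_ (Finset.sum_le_sum h4)
    rw [← Finset.mul_sum]
    refine mul_le_mul_of_nonneg_left ?_ (Real.exp_pos _).le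
    rw [Finset.sum_add_distrib, Finset.sum_const, nsmul_eq_mul, mul_one, ← Finset.mul_sum,
      Finset.sum_sub_distrib, Finset.sum_const, nsmul_eq_mul]
    have h6 : 0 ≤ l * (∑ s ∈ S, Y s - S.card * m) := by
      refine mul_nonneg hl0 ?_
      linarith
    linarith
  have h7 : ∑ s ∈ S, Real.exp (l * Y s) ≤ ∑ s ∈ 𝒮, Real.exp (l * Y s) :=
    Finset.sum_le_sum_of_subset_of_nonneg hS fun _ _ _ => (Real.exp_pos _).le
  set J : Finset (Fin n) := M.biUnion fun t => Finset.univ.image t with hJ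
  have hJI : Disjoint I J := by
    rw [Finset.disjoint_right]
    intro x hx
    obtain ⟨t, ht, hxt⟩ := Finset.mem_biUnion.1 hx
    obtain ⟨δ, -, rfl⟩ := Finset.mem_image.1 hxt
    exact hI t ht δ
  have hJc : J.card ≤ M.card * 3 := by
    refine Finset.card_biUnion_le.trans ?_
    rw [← smul_eq_mul, ← Finset.sum_const]
    refine Finset.sum_le_sum fun t _ => ?_
    rw [Finset.card_image_of_injective _ t.injective, Finset.card_univ, Fintype.card_fin]
  have h7' := hd.sum_le hJI (fun s => Real.exp (l * Y s)) (fun s => (Real.exp_pos _).le) (by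
    intro s s' hss
    have : Y s = Y s' := by
      refine Finset.sum_congr rfl fun t ht => ?_
      have hδ : ∀ δ, s (t δ) = s' (t δ) := fun δ => hss _ (Finset.mem_biUnion.2
        ⟨t, ht, Finset.mem_image_of_mem _ (Finset.mem_univ _)⟩)
      unfold ind3
      rw [hδ 0, hδ 1, hδ 2]
    simp only [this])
  have h8 : ∑ s, Real.exp (l * Y s) = 2 ^ n * (1 + 2 / 4) ^ M.card := by
    rw [Finset.sum_congr rfl fun s _ => h1 s, moment3 M hM]
  have hp : (0 : ℝ) < 2 ^ n := by positivity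
  have hpow : (2 * θ) ^ J.card ≤ Real.exp ((M.card : ℝ) / 14) := by
    calc (2 * θ) ^ J.card ≤ Real.exp (1 / 42) ^ J.card := pow_le_pow_left₀ (by positivity) hθ1 _
      _ = Real.exp (J.card * (1 / 42)) := by rw [← Real.exp_nat_mul]
      _ ≤ Real.exp ((M.card : ℝ) / 14) := by
        refine Real.exp_le_exp.2 ?_
        have : (J.card : ℝ) ≤ M.card * 3 := by exact_mod_cast hJc
        linarith
  have h9 : Real.exp (l * m) * S.card ≤
      Real.exp ((M.card : ℝ) / 14) * 𝒮.card * (1 + 2 / 4) ^ M.card := by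
    have h10 : 2 ^ n * (Real.exp (l * m) * S.card) ≤
        2 ^ n * (Real.exp ((M.card : ℝ) / 14) * 𝒮.card * (1 + 2 / 4) ^ M.card) := by
      calc 2 ^ n * (Real.exp (l * m) * S.card)
          ≤ 2 ^ n * ∑ s ∈ 𝒮, Real.exp (l * Y s) :=
            mul_le_mul_of_nonneg_left (h3.trans h7) hp.le
        _ ≤ _ := h7'
        _ ≤ Real.exp ((M.card : ℝ) / 14) * 𝒮.card * (2 ^ n * (1 + 2 / 4) ^ M.card) := by
            rw [h8]
            refine mul_le_mul_of_nonneg_right ?_ (by positivity)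
            exact mul_le_mul_of_nonneg_right hpow (Nat.cast_nonneg _)
        _ = _ := by ring
    exact le_of_mul_le_mul_left h10 hp
  -- numbers
  have h10 : Real.exp (2 / 7) ≤ 4 / 3 := by
    have e1 : Real.exp (2 / 7) ^ 7 ≤ (4 / 3 : ℝ) ^ 7 := by
      rw [← Real.exp_nat_mul]
      have e2 : ((7 : ℕ) : ℝ) * (2 / 7) = 1 + 1 := by norm_num
      rw [e2, Real.exp_add]
      have e3 := Real.exp_one_lt_d9
      have e4 := Real.exp_pos 1
      nlinarith
    exact (pow_le_pow_iff_left₀ (Real.exp_pos _).le (by norm_num) (by norm_num)).1 e1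
  have h11 : (1 + 2 / 4 : ℝ) ^ M.card ≤ Real.exp (l * m) * Real.exp (-((M.card : ℝ) / 7)) := by
    have e1 : (1 + 2 / 4 : ℝ) ≤ Real.exp (l / 2 - 1 / 7) := by
      have e2 : (1 + 2 / 4 : ℝ) ^ 2 ≤ Real.exp (l / 2 - 1 / 7) ^ 2 := by
        rw [← Real.exp_nat_mul]
        have e3 : ((2 : ℕ) : ℝ) * (l / 2 - 1 / 7) = l + -(2 / 7) := by
          push_cast
          ring
        rw [e3, Real.exp_add, hexpl, Real.exp_neg, ← div_eq_mul_inv, le_div_iff₀ (Real.exp_pos _)]
        linarith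
      exact (pow_le_pow_iff_left₀ (by norm_num) (Real.exp_pos _).le (by norm_num)).1 e2
    calc (1 + 2 / 4 : ℝ) ^ M.card ≤ Real.exp (l / 2 - 1 / 7) ^ M.card :=
          pow_le_pow_left₀ (by norm_num) e1 _
      _ = Real.exp (l * m) * Real.exp (-((M.card : ℝ) / 7)) := by
          rw [← Real.exp_nat_mul, ← Real.exp_add]
          congr 1
          rw [hm]
          ring
  have h12 : Real.exp (l * m) * S.card ≤
      Real.exp (l * m) * (𝒮.card * Real.exp (-((M.card : ℝ) / 14))) := by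
    have h13 : Real.exp ((M.card : ℝ) / 14) * Real.exp (-((M.card : ℝ) / 7)) =
        Real.exp (-((M.card : ℝ) / 14)) := by
      rw [← Real.exp_add]
      congr 1
      ring
    calc _ ≤ _ := h9
      _ ≤ Real.exp ((M.card : ℝ) / 14) * 𝒮.card *
          (Real.exp (l * m) * Real.exp (-((M.card : ℝ) / 7))) :=
          mul_le_mul_of_nonneg_left h11 (by positivity)
      _ = Real.exp (l * m) * (𝒮.card * (Real.exp ((M.card : ℝ) / 14) *
          Real.exp (-((M.card : ℝ) / 7)))) := by ring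
      _ = _ := by rw [h13]
  exact le_of_mul_le_mul_left h12 (Real.exp_pos _)

private theorem fin3_cover : ∀ α β δ x : Fin 3, α ≠ β → δ ≠ α → δ ≠ β →
    x = α ∨ x = β ∨ x = δ := by decide

private theorem fin3_cases : ∀ α β : Fin 3, α ≠ β → (α = 1 ∧ β = 2) ∨ (α = 2 ∧ β = 1) ∨
    (α = 0 ∧ β = 1) ∨ (α = 1 ∧ β = 0) ∨ (α = 0 ∧ β = 2) ∨ (α = 2 ∧ β = 0) := by decide

/-- **Few triples are separated more often than by chance**, in a dense set. -/
theorem combd {θ : ℝ} {I : Finset (Fin n)} {𝒮 : Finset (Fin n → Bool)} (hd : Dense θ I 𝒮)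
    (hθ0 : 0 ≤ θ) (hθ1 : 2 * θ ≤ Real.exp (1 / 42)) (hθ2 : 2 * θ ≤ 2) {γ : ℝ} (hγ : 0 < γ)
    (hθγ : 2 * θ ≤ Real.exp (γ ^ 2)) (S : Finset (Fin n → Bool)) (hS : S ⊆ 𝒮)
    (𝒯 : Finset (Fin 3 ↪ Fin n)) (hI : ∀ t ∈ 𝒯, ∀ δ, t δ ∉ I)
    (h𝒯 : ∀ t ∈ 𝒯, (1 / 2 + γ) * S.card ≤
      ((S.filter fun s => s (t 0) ≠ s (t 1) ∧ s (t 2) ≠ s (t 1)).card : ℝ)) :
    (𝒯.card : ℝ) * S.card ≤ 20000 * 𝒮.card / γ ^ 2 := by
  classical
  have hhalf : ∀ t ∈ 𝒯, (1 / 2 : ℝ) * S.card ≤
      ((S.filter fun s => s (t 0) ≠ s (t 1) ∧ s (t 2) ≠ s (t 1)).card : ℝ) := by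
    intro t ht
    refine le_trans ?_ (h𝒯 t ht)
    have : (0 : ℝ) ≤ γ * S.card := by positivity
    linarith
  have hScard : (S.card : ℝ) ≤ 𝒮.card := by exact_mod_cast Finset.card_le_card hS
  set N : Fin n → Finset (Fin n) := fun k => Finset.univ.filter fun x =>
    (x ≠ k ∧ x ∉ I ∧ k ∉ I) ∧
      (1 / 2 + γ) * S.card ≤ ((S.filter fun s => s x ≠ s k).card : ℝ) with hN
  -- neighbours
  have hmem : ∀ t ∈ 𝒯, t 0 ∈ N (t 1) ∧ t 2 ∈ N (t 1) ∧ t 1 ∈ N (t 0) := by
    intro t ht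
    have h1 := h𝒯 t ht
    refine ⟨?_, ?_, ?_⟩
    · refine Finset.mem_filter.2 ⟨Finset.mem_univ _, ⟨fun h => ?_, hI t ht _, hI t ht _⟩,
        h1.trans ?_⟩
      · have := t.injective h
        simp at this
      · exact_mod_cast Finset.card_le_card fun s hs => by
          rw [Finset.mem_filter] at hs ⊢
          exact ⟨hs.1, hs.2.1⟩
    · refine Finset.mem_filter.2 ⟨Finset.mem_univ _, ⟨fun h => ?_, hI t ht _, hI t ht _⟩,
        h1.trans ?_⟩
      · have := t.injective h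
        simp at this
      · exact_mod_cast Finset.card_le_card fun s hs => by
          rw [Finset.mem_filter] at hs ⊢
          exact ⟨hs.1, hs.2.2⟩
    · refine Finset.mem_filter.2 ⟨Finset.mem_univ _, ⟨fun h => ?_, hI t ht _, hI t ht _⟩,
        h1.trans ?_⟩
      · have := t.injective h
        simp at this
      · exact_mod_cast Finset.card_le_card fun s hs => by
          rw [Finset.mem_filter] at hs ⊢
          exact ⟨hs.1, fun h => hs.2.1 h.symm⟩
  rcases isEmpty_or_nonempty (Fin n) with hn | hn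
  · have h0 : 𝒯 = ∅ := by
      rw [Finset.eq_empty_iff_forall_notMem]
      intro t _
      exact hn.elim (t 0)
    rw [h0]
    simp
    positivity
  -- the largest neighbourhood
  obtain ⟨a, ha1, ha2⟩ : ∃ a : ℕ, (∀ k, (N k).card ≤ a) ∧
      (S.card : ℝ) ≤ 2 * 𝒮.card * Real.exp (-(γ ^ 2 * a)) := by
    obtain ⟨k, -, hk⟩ := Finset.exists_max_image Finset.univ (fun k => (N k).card)
      Finset.univ_nonempty
    refine ⟨(N k).card, fun k' => hk k' (Finset.mem_univ _), ?_⟩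
    rcases (N k).eq_empty_or_nonempty with hNk | ⟨x₀, hx₀⟩
    · rw [hNk]
      simp only [Finset.card_empty, Nat.cast_zero, mul_zero, neg_zero, Real.exp_zero, mul_one]
      have : (0 : ℝ) ≤ 𝒮.card := Nat.cast_nonneg _
      linarith
    · refine leafd hd hθ0 hθ2 hγ.le hθγ (N k) k ?_ ?_ S hS ?_
      · intro h
        exact (Finset.mem_filter.1 h).2.1.1 rfl
      · rw [Finset.disjoint_right]
        intro x hx
        rcases Finset.mem_insert.1 hx with rfl | hx
        · exact (Finset.mem_filter.1 hx₀).2.1.2.2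
        · exact (Finset.mem_filter.1 hx).2.1.2.1
      · intro x hx
        exact (Finset.mem_filter.1 hx).2.2
  -- disjoint triples
  obtain ⟨M₀, hM₀, hsun₀, V₀, hV₀, hV₀'⟩ := maxsun 𝒯 ∅ (by simp) (by simp)
  have hS₀ := sunflowerd hd hθ0 hθ1 M₀ hsun₀ (fun t ht => hI t (hM₀ ht)) S hS
    fun t ht => hhalf t (hM₀ ht)
  -- sunflowers with a kernel
  have hker : ∀ v, ∃ M ⊆ 𝒯, Sun M ∧ ∃ V : Finset (Fin n), V.card ≤ 2 * M.card ∧
      ∀ t ∈ 𝒯, (∃ α, t α = v) → ∃ β, t β ∈ V ∧ t β ≠ v := by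
    intro v
    obtain ⟨M, hM, hsun, V, hV, hV'⟩ := maxsun (𝒯.filter fun t => ∃ α, t α = v) {v} (by simp) (by
      intro t ht
      obtain ⟨α, hα⟩ := (Finset.mem_filter.1 ht).2
      rw [Finset.singleton_subset_iff]
      exact Finset.mem_image.2 ⟨α, Finset.mem_univ _, hα⟩)
    refine ⟨M, hM.trans (Finset.filter_subset _ _), hsun, V, ?_, ?_⟩
    · simpa using hV
    · intro t ht hα
      obtain ⟨β, hβ1, hβ2⟩ := hV' t (Finset.mem_filter.2 ⟨ht, hα⟩)
      exact ⟨β, hβ1, fun h => hβ2 (Finset.mem_singleton.2 h)⟩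
  choose M hM hsun V hV hV' using hker
  obtain ⟨b, hb1, hb2⟩ : ∃ b : ℕ, (∀ v, (M v).card ≤ b) ∧
      (S.card : ℝ) ≤ 𝒮.card * Real.exp (-((b : ℝ) / 14)) := by
    obtain ⟨v, -, hv⟩ := Finset.exists_max_image Finset.univ (fun v => (M v).card)
      Finset.univ_nonempty
    exact ⟨(M v).card, fun v' => hv v' (Finset.mem_univ _),
      sunflowerd hd hθ0 hθ1 (M v) (hsun v) (fun t ht => hI t (hM v ht)) S hS
        fun t ht => hhalf t (hM v ht)⟩
  -- two vertices of a triple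
  have hpair : ∀ α β : Fin 3, α ≠ β → ∀ v w : Fin n,
      (𝒯.filter fun t => t α = v ∧ t β = w).card ≤ a := by
    intro α β hαβ v w
    have hinj : ∀ (δ : Fin 3) (y : Fin n), δ ≠ α → δ ≠ β →
        (∀ t ∈ 𝒯.filter (fun t => t α = v ∧ t β = w), t δ ∈ N y) →
        (𝒯.filter fun t => t α = v ∧ t β = w).card ≤ a := by
      intro δ y hδα hδβ hin
      refine le_trans ?_ (ha1 y)
      refine Finset.card_le_card_of_injOn (fun t => t δ) (fun t ht => hin t ht) ?_
      intro t ht t' ht' htt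
      have h1 := (Finset.mem_filter.1 (Finset.mem_coe.1 ht)).2
      have h2 := (Finset.mem_filter.1 (Finset.mem_coe.1 ht')).2
      have h3 : ∀ x : Fin 3, x = α ∨ x = β ∨ x = δ := fun x => fin3_cover α β δ x hαβ hδα hδβ
      ext x
      rcases h3 x with rfl | rfl | rfl
      · rw [h1.1, h2.1]
      · rw [h1.2, h2.2]
      · exact congrArg Fin.val htt
    have hcases : (α = 1 ∧ β = 2) ∨ (α = 2 ∧ β = 1) ∨ (α = 0 ∧ β = 1) ∨ (α = 1 ∧ β = 0) ∨
        (α = 0 ∧ β = 2) ∨ (α = 2 ∧ β = 0) := fin3_cases α β hαβ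
    rcases hcases with ⟨rfl, rfl⟩ | ⟨rfl, rfl⟩ | ⟨rfl, rfl⟩ | ⟨rfl, rfl⟩ | ⟨rfl, rfl⟩ | ⟨rfl, rfl⟩
    · refine hinj 0 v (by decide) (by decide) fun t ht => ?_
      obtain ⟨h1, h2, h3⟩ := Finset.mem_filter.1 ht
      rw [← h2]
      exact (hmem t h1).1
    · refine hinj 0 w (by decide) (by decide) fun t ht => ?_
      obtain ⟨h1, h2, h3⟩ := Finset.mem_filter.1 ht
      rw [← h3]
      exact (hmem t h1).1
    · refine hinj 2 w (by decide) (by decide) fun t ht => ?_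
      obtain ⟨h1, h2, h3⟩ := Finset.mem_filter.1 ht
      rw [← h3]
      exact (hmem t h1).2.1
    · refine hinj 2 v (by decide) (by decide) fun t ht => ?_
      obtain ⟨h1, h2, h3⟩ := Finset.mem_filter.1 ht
      rw [← h2]
      exact (hmem t h1).2.1
    · refine hinj 1 v (by decide) (by decide) fun t ht => ?_
      obtain ⟨h1, h2, h3⟩ := Finset.mem_filter.1 ht
      rw [← h2]
      exact (hmem t h1).2.2
    · refine hinj 1 w (by decide) (by decide) fun t ht => ?_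
      obtain ⟨h1, h2, h3⟩ := Finset.mem_filter.1 ht
      rw [← h3]
      exact (hmem t h1).2.2
  -- counting
  have hcard : 𝒯.card ≤ 6 * (3 * M₀.card * (2 * b * a)) := by
    set P := (Finset.univ : Finset (Fin 3 × Fin 3)).filter (fun z => z.1 ≠ z.2) with hP
    have hPcard : P.card = 6 := by rw [hP]; decide
    have h1 : 𝒯 ⊆ P.biUnion fun z => V₀.biUnion fun v => (V v).biUnion fun w =>
        𝒯.filter fun t => t z.1 = v ∧ t z.2 = w := by
      intro t ht
      obtain ⟨α, hα, -⟩ := hV₀' t ht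
      obtain ⟨β, hβ, hβ'⟩ := hV' (t α) t ht ⟨α, rfl⟩
      have hαβ : α ≠ β := fun h => hβ' (by rw [h])
      refine Finset.mem_biUnion.2 ⟨(α, β), Finset.mem_filter.2 ⟨Finset.mem_univ _, hαβ⟩, ?_⟩
      refine Finset.mem_biUnion.2 ⟨t α, hα, ?_⟩
      refine Finset.mem_biUnion.2 ⟨t β, hβ, ?_⟩
      exact Finset.mem_filter.2 ⟨ht, rfl, rfl⟩
    refine (Finset.card_le_card h1).trans ?_
    refine Finset.card_biUnion_le.trans ?_
    have h2 : ∀ z ∈ P, (V₀.biUnion fun v => (V v).biUnion fun w =>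
        𝒯.filter fun t => t z.1 = v ∧ t z.2 = w).card ≤ 3 * M₀.card * (2 * b * a) := by
      intro z hz
      refine Finset.card_biUnion_le.trans ?_
      have h3 : ∀ v ∈ V₀, ((V v).biUnion fun w =>
          𝒯.filter fun t => t z.1 = v ∧ t z.2 = w).card ≤ 2 * b * a := by
        intro v _
        refine Finset.card_biUnion_le.trans ?_
        refine (Finset.sum_le_sum fun w _ => hpair z.1 z.2 (Finset.mem_filter.1 hz).2 v w).trans ?_
        rw [Finset.sum_const, smul_eq_mul]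
        exact Nat.mul_le_mul_right a ((hV v).trans (Nat.mul_le_mul_left 2 (hb1 v)))
      refine (Finset.sum_le_sum h3).trans ?_
      rw [Finset.sum_const, smul_eq_mul]
      refine Nat.mul_le_mul_right _ ?_
      simpa using hV₀
    refine (Finset.sum_le_sum h2).trans (le_of_eq ?_)
    rw [Finset.sum_const, smul_eq_mul, hPcard]
  -- the largest of the three numbers
  have h𝒮0 : (0 : ℝ) ≤ 𝒮.card := Nat.cast_nonneg _
  obtain ⟨y, hy0, hy1, hy2, hy3, hy4⟩ : ∃ y : ℝ, 0 ≤ y ∧ (M₀.card : ℝ) ≤ 14 * y ∧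
      (b : ℝ) ≤ 14 * y ∧ γ ^ 2 * a ≤ y ∧ (S.card : ℝ) ≤ 2 * 𝒮.card * Real.exp (-y) := by
    have hmax : ∀ u v : ℝ, (S.card : ℝ) ≤ 2 * 𝒮.card * Real.exp (-u) →
        (S.card : ℝ) ≤ 2 * 𝒮.card * Real.exp (-v) →
        (S.card : ℝ) ≤ 2 * 𝒮.card * Real.exp (-(max u v)) := by
      intro u v h1 h2
      rcases le_total u v with h | h
      · rw [max_eq_right h]
        exact h2
      · rw [max_eq_left h]
        exact h1
    have hdbl : ∀ u : ℝ, (S.card : ℝ) ≤ 𝒮.card * Real.exp (-u) →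
        (S.card : ℝ) ≤ 2 * 𝒮.card * Real.exp (-u) := by
      intro u h1
      have h2 : 0 ≤ 𝒮.card * Real.exp (-u) := mul_nonneg h𝒮0 (Real.exp_pos _).le
      linarith
    refine ⟨max (max ((M₀.card : ℝ) / 14) ((b : ℝ) / 14)) (γ ^ 2 * a), ?_, ?_, ?_, ?_, ?_⟩
    · exact le_max_of_le_right (by positivity)
    · have : (M₀.card : ℝ) / 14 ≤ max (max ((M₀.card : ℝ) / 14) ((b : ℝ) / 14)) (γ ^ 2 * a) :=
        (le_max_left _ _).trans (le_max_left _ _)
      linarith
    · have : (b : ℝ) / 14 ≤ max (max ((M₀.card : ℝ) / 14) ((b : ℝ) / 14)) (γ ^ 2 * a) :=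
        (le_max_right _ _).trans (le_max_left _ _)
      linarith
    · exact le_max_right _ _
    · exact hmax _ _ (hmax _ _ (hdbl _ hS₀) (hdbl _ hb2)) ha2
  have hcard' : (𝒯.card : ℝ) ≤ 36 * M₀.card * b * a := by
    have : (𝒯.card : ℝ) ≤ 6 * (3 * M₀.card * (2 * b * a)) := by exact_mod_cast hcard
    linarith
  have hγ2 : 0 < γ ^ 2 := by positivity
  have h1 : (𝒯.card : ℝ) * γ ^ 2 ≤ 7056 * y ^ 3 := by
    have e1 : (M₀.card : ℝ) * b ≤ 14 * y * (14 * y) :=
      mul_le_mul hy1 hy2 (Nat.cast_nonneg _) (by positivity)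
    have e2 : (M₀.card : ℝ) * b * (γ ^ 2 * a) ≤ 14 * y * (14 * y) * y :=
      mul_le_mul e1 hy3 (by positivity) (by positivity)
    calc (𝒯.card : ℝ) * γ ^ 2 ≤ (36 * M₀.card * b * a) * γ ^ 2 :=
          mul_le_mul_of_nonneg_right hcard' hγ2.le
      _ = 36 * ((M₀.card : ℝ) * b * (γ ^ 2 * a)) := by ring
      _ ≤ 36 * (14 * y * (14 * y) * y) := by linarith
      _ = 7056 * y ^ 3 := by ring
  -- `y ^ 3 ≤ 27 exp (y - 3)`
  have h2 : y ^ 3 * Real.exp (-y) ≤ 27 / 20 := by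
    have e1 : y / 3 ≤ Real.exp (y / 3 - 1) := by
      have := Real.add_one_le_exp (y / 3 - 1)
      linarith
    have e2 : (y / 3) ^ 3 ≤ Real.exp (y / 3 - 1) ^ 3 := pow_le_pow_left₀ (by positivity) e1 3
    rw [← Real.exp_nat_mul] at e2
    have e3 : ((3 : ℕ) : ℝ) * (y / 3 - 1) = y + -3 := by
      push_cast
      ring
    rw [e3, Real.exp_add] at e2
    have e4 : (20 : ℝ) ≤ Real.exp 3 := by
      have e5 : Real.exp 3 = Real.exp 1 * Real.exp 1 * Real.exp 1 := by
        rw [← Real.exp_add, ← Real.exp_add]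
        norm_num
      have e6 := Real.exp_one_gt_d9
      rw [e5]
      nlinarith
    have e7 : Real.exp (-3) ≤ 1 / 20 := by
      rw [Real.exp_neg, inv_eq_one_div]
      exact one_div_le_one_div_of_le (by norm_num) e4
    have e8 : y ^ 3 ≤ 27 * (Real.exp y * Real.exp (-3)) := by
      have : (y / 3) ^ 3 = y ^ 3 / 27 := by ring
      rw [this] at e2
      linarith
    have e9 : Real.exp y * Real.exp (-y) = 1 := by rw [← Real.exp_add]; simp
    calc y ^ 3 * Real.exp (-y) ≤ 27 * (Real.exp y * Real.exp (-3)) * Real.exp (-y) :=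
          mul_le_mul_of_nonneg_right e8 (Real.exp_pos _).le
      _ = 27 * (Real.exp y * Real.exp (-y)) * Real.exp (-3) := by ring
      _ = 27 * Real.exp (-3) := by rw [e9]; ring
      _ ≤ 27 / 20 := by linarith
  rw [le_div_iff₀ hγ2]
  calc (𝒯.card : ℝ) * S.card * γ ^ 2 = ((𝒯.card : ℝ) * γ ^ 2) * S.card := by ring
    _ ≤ 7056 * y ^ 3 * (2 * 𝒮.card * Real.exp (-y)) :=
        mul_le_mul h1 hy4 (Nat.cast_nonneg _) (by positivity)
    _ = 14112 * 𝒮.card * (y ^ 3 * Real.exp (-y)) := by ring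
    _ ≤ 14112 * 𝒮.card * (27 / 20) := mul_le_mul_of_nonneg_left h2 (by positivity)
    _ ≤ 20000 * 𝒮.card := by linarith

end Pool.Agent.H98.AM
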