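import Pool.Agent.H98.ALCount

/-!
# H98.AM: density restoration

A set of zero-one vectors which is not too small becomes, after some coordinates are fixed, dense on
all sets of other coordinates.
-/

set_option autoImplicit false

namespace Pool.Agent.H98.AM

open Finset

variable {n : ℕ}

/-- every pattern on a set `J` of coordinates outside of `I` has relative density at most
`θ ^ |J|` in `𝒮` -/
def Dense (θ : ℝ) (I : Finset (Fin n)) (𝒮 : Finset (Fin n → Bool)) : Prop :=
  ∀ J : Finset (Fin n), Disjoint I J → ∀ α : Fin n → Bool,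
    ((𝒮.filter fun s => ∀ x ∈ J, s x = α x).card : ℝ) ≤ θ ^ J.card * 𝒮.card

theorem dense {θ : ℝ} (hθ : 0 ≤ θ) (𝒮 : Finset (Fin n → Bool)) :
    ∃ (I : Finset (Fin n)) (α : Fin n → Bool),
      θ ^ I.card * 𝒮.card ≤ (𝒮.filter fun s => ∀ x ∈ I, s x = α x).card ∧
      Dense θ I (𝒮.filter fun s => ∀ x ∈ I, s x = α x) := by
  classical
  let Good : Finset (Fin n) → Prop := fun I => ∃ α : Fin n → Bool,
    θ ^ I.card * 𝒮.card ≤ (𝒮.filter fun s => ∀ x ∈ I, s x = α x).card
  have h0 : Good ∅ := ⟨fun _ => false, by simp⟩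
  obtain ⟨I, hI, hmax⟩ := Finset.exists_max_image (Finset.univ.filter Good) Finset.card
    ⟨∅, Finset.mem_filter.2 ⟨Finset.mem_univ _, h0⟩⟩
  obtain ⟨β, hβ⟩ := (Finset.mem_filter.1 hI).2
  refine ⟨I, β, hβ, fun J hJ α => ?_⟩
  by_contra hlt
  rw [not_le] at hlt
  rcases J.eq_empty_or_nonempty with rfl | hne
  · simp at hlt
  · have hG : Good (I ∪ J) := by
      refine ⟨fun x => if x ∈ I then β x else α x, ?_⟩
      rw [Finset.card_union_of_disjoint hJ, pow_add]
      have e : (𝒮.filter fun s => ∀ x ∈ I ∪ J, s x = if x ∈ I then β x else α x) =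
          ((𝒮.filter fun s => ∀ x ∈ I, s x = β x).filter fun s => ∀ x ∈ J, s x = α x) := by
        ext s
        simp only [Finset.mem_filter, Finset.mem_union, and_assoc, and_congr_right_iff]
        intro _
        constructor
        · intro h
          refine ⟨fun x hx => ?_, fun x hx => ?_⟩
          · have h2 := h x (Or.inl hx)
            rwa [if_pos hx] at h2
          · have h2 := h x (Or.inr hx)
            rwa [if_neg (Finset.disjoint_right.1 hJ hx)] at h2
        · rintro ⟨h1, h2⟩ x hx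
          by_cases hxI : x ∈ I
          · rw [if_pos hxI]
            exact h1 x hxI
          · rw [if_neg hxI]
            exact h2 x (hx.resolve_left hxI)
      rw [e]
      refine le_trans ?_ hlt.le
      calc θ ^ I.card * θ ^ J.card * 𝒮.card
          = θ ^ J.card * (θ ^ I.card * 𝒮.card) := by ring
        _ ≤ _ := mul_le_mul_of_nonneg_left hβ (by positivity)
    have h1 := hmax (I ∪ J) (Finset.mem_filter.2 ⟨Finset.mem_univ _, hG⟩)
    rw [Finset.card_union_of_disjoint hJ] at h1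
    have h2 := hne.card_pos
    omega

/-- the number of vectors with a given pattern -/
theorem card_pattern (J : Finset (Fin n)) (α : Fin n → Bool) :
    ((Finset.univ.filter fun s : Fin n → Bool => ∀ x ∈ J, s x = α x).card : ℝ) =
      2 ^ n / 2 ^ J.card := by
  classical
  have hsub : (Finset.univ.filter fun s : Fin n → Bool => ∀ x ∈ J, s x = α x) =
      Fintype.piFinset (fun x => if x ∈ J then {α x} else (Finset.univ : Finset Bool)) := by
    ext s
    rw [Fintype.mem_piFinset, Finset.mem_filter]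
    constructor
    · rintro ⟨-, hs⟩ x
      by_cases hx : x ∈ J
      · rw [if_pos hx, Finset.mem_singleton]
        exact hs x hx
      · rw [if_neg hx]
        exact Finset.mem_univ _
    · intro hs
      refine ⟨Finset.mem_univ _, fun x hx => ?_⟩
      have := hs x
      rwa [if_pos hx, Finset.mem_singleton] at this
  rw [hsub, Fintype.card_piFinset]
  have h2 : ∀ x : Fin n, (if x ∈ J then {α x} else (Finset.univ : Finset Bool)).card =
      if x ∈ J then 1 else 2 := by
    intro x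
    by_cases hx : x ∈ J
    · simp [hx]
    · simp [hx]
  rw [Finset.prod_congr rfl fun x _ => h2 x, Finset.prod_ite, Finset.prod_const_one, one_mul,
    Finset.prod_const]
  have h3 : (Finset.univ.filter fun x : Fin n => x ∉ J) = Jᶜ := by
    ext x
    simp
  have hkn : J.card ≤ n := by
    have := Finset.card_le_univ J
    rwa [Fintype.card_fin] at this
  rw [h3, Finset.card_compl, Fintype.card_fin, eq_div_iff (by positivity)]
  push_cast
  rw [← pow_add]
  congr 1
  omega

/-- Sums of nonnegative functions of the coordinates in `J` over a dense set. -/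
theorem Dense.sum_le {θ : ℝ} {I : Finset (Fin n)} {𝒮 : Finset (Fin n → Bool)}
    (hd : Dense θ I 𝒮) {J : Finset (Fin n)} (hJ : Disjoint I J) (F : (Fin n → Bool) → ℝ)
    (hF : ∀ s, 0 ≤ F s) (hFJ : ∀ s s', (∀ x ∈ J, s x = s' x) → F s = F s') :
    2 ^ n * ∑ s ∈ 𝒮, F s ≤ (2 * θ) ^ J.card * 𝒮.card * ∑ s, F s := by
  classical
  have h1 : (2 ^ n / 2 ^ J.card : ℝ) * ∑ s ∈ 𝒮, F s =
      ∑ s', F s' * ((𝒮.filter fun s => ∀ x ∈ J, s x = s' x).card : ℝ) := by
    have h2 : ∀ s', F s' * ((𝒮.filter fun s => ∀ x ∈ J, s x = s' x).card : ℝ) =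
        ∑ s ∈ 𝒮, if (∀ x ∈ J, s x = s' x) then F s else 0 := by
      intro s'
      rw [← Finset.sum_filter]
      have h3 : ∑ s ∈ 𝒮.filter (fun s => ∀ x ∈ J, s x = s' x), F s =
          ∑ _s ∈ 𝒮.filter (fun s => ∀ x ∈ J, s x = s' x), F s' := by
        refine Finset.sum_congr rfl fun s hs => ?_
        exact hFJ s s' (Finset.mem_filter.1 hs).2
      rw [h3, Finset.sum_const, nsmul_eq_mul, mul_comm]
    rw [Finset.sum_congr rfl fun s' _ => h2 s', Finset.sum_comm, Finset.mul_sum]
    refine Finset.sum_congr rfl fun s _ => ?_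
    rw [← Finset.sum_filter, Finset.sum_const, nsmul_eq_mul]
    congr 1
    rw [← card_pattern J s]
    congr 2
    refine Finset.filter_congr fun s' _ => ?_
    exact forall₂_congr fun x _ => eq_comm
  have h4 : ∑ s', F s' * ((𝒮.filter fun s => ∀ x ∈ J, s x = s' x).card : ℝ) ≤
      ∑ s', F s' * (θ ^ J.card * 𝒮.card) :=
    Finset.sum_le_sum fun s' _ => mul_le_mul_of_nonneg_left (hd J hJ s') (hF s')
  rw [← h1, ← Finset.sum_mul] at h4
  have h5 : (0 : ℝ) < 2 ^ J.card := by positivity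
  calc 2 ^ n * ∑ s ∈ 𝒮, F s = 2 ^ J.card * ((2 ^ n / 2 ^ J.card : ℝ) * ∑ s ∈ 𝒮, F s) := by
        field_simp
    _ ≤ 2 ^ J.card * ((∑ s', F s') * (θ ^ J.card * 𝒮.card)) :=
        mul_le_mul_of_nonneg_left h4 h5.le
    _ = (2 * θ) ^ J.card * 𝒮.card * ∑ s, F s := by
        rw [mul_pow]
        ring

/-- the same for events -/
theorem Dense.card_le {θ : ℝ} {I : Finset (Fin n)} {𝒮 : Finset (Fin n → Bool)}
    (hd : Dense θ I 𝒮) {J : Finset (Fin n)} (hJ : Disjoint I J) (p : (Fin n → Bool) → Prop)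
    [DecidablePred p] (hp : ∀ s s', (∀ x ∈ J, s x = s' x) → (p s ↔ p s')) :
    2 ^ n * ((𝒮.filter p).card : ℝ) ≤ (2 * θ) ^ J.card * 𝒮.card *
      ((Finset.univ.filter p).card : ℝ) := by
  have h := hd.sum_le hJ (fun s => if p s then (1 : ℝ) else 0)
    (fun s => by split_ifs <;> norm_num)
    (fun s s' h => by simp only [hp s s' h])
  rwa [Finset.sum_boole, Finset.sum_boole] at h

/-- few coordinates are fixed -/
theorem card_fixed {θ : ℝ} (hθ : 0 ≤ θ) {q : ℕ} (𝒮 : Finset (Fin n → Bool))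
    (hS : (2 : ℝ) ^ n ≤ 2 ^ q * 𝒮.card) (I : Finset (Fin n)) (α : Fin n → Bool)
    (h : θ ^ I.card * 𝒮.card ≤ (𝒮.filter fun s => ∀ x ∈ I, s x = α x).card) :
    (2 * θ) ^ I.card ≤ 2 ^ q := by
  classical
  have h1 : ((𝒮.filter fun s => ∀ x ∈ I, s x = α x).card : ℝ) ≤ 2 ^ n / 2 ^ I.card := by
    rw [← card_pattern I α]
    exact_mod_cast Finset.card_le_card (Finset.filter_subset_filter _ (Finset.subset_univ _))
  have h2 : θ ^ I.card * 2 ^ n ≤ 2 ^ q * (2 ^ n / 2 ^ I.card) := by
    calc θ ^ I.card * 2 ^ n ≤ θ ^ I.card * (2 ^ q * 𝒮.card) :=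
          mul_le_mul_of_nonneg_left hS (by positivity)
      _ = 2 ^ q * (θ ^ I.card * 𝒮.card) := by ring
      _ ≤ 2 ^ q * (2 ^ n / 2 ^ I.card) := mul_le_mul_of_nonneg_left (h.trans h1) (by positivity)
  have h3 : (0 : ℝ) < 2 ^ n := by positivity
  have h4 : (0 : ℝ) < 2 ^ I.card := by positivity
  have h5 : (2 * θ) ^ I.card * 2 ^ n ≤ 2 ^ q * 2 ^ n := by
    rw [mul_pow]
    calc 2 ^ I.card * θ ^ I.card * 2 ^ n = 2 ^ I.card * (θ ^ I.card * 2 ^ n) := by ring
      _ ≤ 2 ^ I.card * (2 ^ q * (2 ^ n / 2 ^ I.card)) := mul_le_mul_of_nonneg_left h2 h4.le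
      _ = 2 ^ q * 2 ^ n := by
        field_simp
  exact le_of_mul_le_mul_right h5 h3

end Pool.Agent.H98.AM
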