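import Pool.Agent.H98.ALFinal
import Mathlib

/-!
# H98.AM: directed graphs which are glued from many cuts

Let `S` be a set of natural numbers without arithmetic progressions of length 3. The vertices are
blocks `A x`, `C y` and `B z` of `k` vertices each, and some other vertices. For every `x` and every
`a ∈ S` there is a cut of `A x ∪ C (x + a) ∪ B (x + 2 a)`, and all these cuts are independent. Short
edges go from `A` to `C`, from `C` to `B` and from `A` to `B`.
-/

set_option autoImplicit false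

namespace Pool.Agent.H98.AM

open Finset Pool.Agent.APM54 Pool.Agent.H98.AL

/-- the vertices in the blocks: `A x`, `C y`, `B z` -/
abbrev UD (ν k : ℕ) : Type := (Fin ν × Fin k) ⊕ ((Fin (2 * ν) × Fin k) ⊕ (Fin (3 * ν) × Fin k))

variable {ν k : ℕ}

/-- the short edges -/
def rel (S : Finset ℕ) (σ : ℕ → ℕ → Fin 3 → Fin k → Bool) :
    Option (UD ν k) → Option (UD ν k) → Prop
  | some (Sum.inl p), some (Sum.inr (Sum.inl z)) =>
      ∃ a ∈ S, (z.1 : ℕ) = p.1 + a ∧ σ p.1 a 0 p.2 = σ p.1 a 1 z.2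
  | some (Sum.inr (Sum.inl z)), some (Sum.inr (Sum.inr w)) =>
      ∃ x, ∃ a ∈ S, (z.1 : ℕ) = x + a ∧ (w.1 : ℕ) = x + 2 * a ∧ σ x a 1 z.2 = σ x a 2 w.2
  | some (Sum.inl p), some (Sum.inr (Sum.inr w)) =>
      ∃ a ∈ S, (w.1 : ℕ) = p.1 + 2 * a ∧ σ p.1 a 0 p.2 = σ p.1 a 2 w.2
  | _, _ => False

/-- the layer of a vertex -/
def lev : Option (UD ν k) → ℕ
  | some (Sum.inl _) => 0
  | some (Sum.inr (Sum.inl _)) => 1
  | some (Sum.inr (Sum.inr _)) => 2
  | none => 3

theorem rel_lev {S : Finset ℕ} {σ : ℕ → ℕ → Fin 3 → Fin k → Bool} {o o' : Option (UD ν k)}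
    (h : rel S σ o o') : lev o < lev o' ∧ lev o' ≤ 2 := by
  rcases o with _ | p | p | p <;> rcases o' with _ | p' | p' | p'
  all_goals first
    | exact absurd h id
    | exact ⟨by decide, by decide⟩
    | (simp only [lev]; omega)

/-- a path with two short edges between the ends of a critical pair has all its vertices on the
same side of the cut -/
theorem rel_two {S : Finset ℕ} (hS : ThreeAPFree (S : Set ℕ))
    {σ : ℕ → ℕ → Fin 3 → Fin k → Bool} {p : Fin ν × Fin k} {w : Fin (3 * ν) × Fin k} {a : ℕ}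
    (ha : a ∈ S) (hw : (w.1 : ℕ) = p.1 + 2 * a) {o : Option (UD ν k)}
    (h1 : rel S σ (some (Sum.inl p)) o) (h2 : rel S σ o (some (Sum.inr (Sum.inr w)))) :
    rel S σ (some (Sum.inl p) : Option (UD ν k)) (some (Sum.inr (Sum.inr w))) := by
  rcases o with _ | z | z | z
  · exact absurd h1 id
  · exact absurd h1 id
  · obtain ⟨a₁, ha₁, e1, e2⟩ := h1
    obtain ⟨x₂, a₂, ha₂, e3, e4, e5⟩ := h2
    have h3 : a₁ + a₂ = a + a := by omega
    have h4 : a₁ = a := hS ha₁ ha ha₂ h3
    have h5 : a₂ = a := by omega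
    have h6 : x₂ = p.1 := by omega
    subst h4
    rw [h5, h6] at e5
    exact ⟨a₁, ha₁, hw, e2.trans e5⟩
  · exact absurd h2 id

variable {n : ℕ}

open Classical in
/-- the weights; `c` gives the positions of the vertices -/
noncomputable def WD (S : Finset ℕ) (L : ℝ) (c : Fin n → Option (UD ν k))
    (σ : ℕ → ℕ → Fin 3 → Fin k → Bool) (u v : Fin n) : ℝ :=
  if u = v then 0 else if rel S σ (c u) (c v) then 1 else L

theorem WD_bd {S : Finset ℕ} {L : ℝ} (hL : 1 ≤ L) (c : Fin n → Option (UD ν k))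
    (σ : ℕ → ℕ → Fin 3 → Fin k → Bool) {u v : Fin n} (huv : u ≠ v) :
    1 ≤ WD S L c σ u v ∧ WD S L c σ u v ≤ L := by
  unfold WD
  rw [if_neg huv]
  split_ifs
  · exact ⟨le_rfl, hL⟩
  · exact ⟨hL, le_rfl⟩

theorem WD_nonneg {S : Finset ℕ} {L : ℝ} (hL : 1 ≤ L) (c : Fin n → Option (UD ν k))
    (σ : ℕ → ℕ → Fin 3 → Fin k → Bool) (u v : Fin n) : 0 ≤ WD S L c σ u v := by
  by_cases h : u = v
  · unfold WD
    rw [if_pos h]
  · linarith [(WD_bd (S := S) hL c σ h).1]

theorem WD_walk_one {S : Finset ℕ} {L : ℝ} (hL : 1 ≤ L) (c : Fin n → Option (UD ν k))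
    (σ : ℕ → ℕ → Fin 3 → Fin k → Bool) (l : List (Fin n)) (v : Fin n) :
    ∀ u, u ≠ v → 1 ≤ walkWeight (WD S L c σ) u l v := by
  induction l with
  | nil => exact fun u huv => (WD_bd hL c σ huv).1
  | cons x l ih =>
    intro u huv
    show 1 ≤ WD S L c σ u x + walkWeight (WD S L c σ) x l v
    by_cases hux : u = x
    · subst hux
      have h1 := ih u huv
      have h2 := WD_nonneg (S := S) hL c σ u u
      linarith
    · have h1 := (WD_bd (S := S) hL c σ hux).1
      have h2 := walkWeight_nonneg (WD_nonneg (S := S) hL c σ) l x v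
      linarith

theorem WD_walk_L {S : Finset ℕ} {L : ℝ} (hL : 1 ≤ L) (c : Fin n → Option (UD ν k))
    (σ : ℕ → ℕ → Fin 3 → Fin k → Bool) (l : List (Fin n)) (v : Fin n) :
    ∀ u, u ≠ v → ¬ rel S σ (c u) (c v) → (¬ ∃ w, rel S σ (c u) (c w) ∧ rel S σ (c w) (c v)) →
      L ≤ walkWeight (WD S L c σ) u l v := by
  induction l with
  | nil =>
    intro u huv h1 _
    show L ≤ WD S L c σ u v
    unfold WD
    rw [if_neg huv, if_neg h1]
  | cons x l ih =>
    intro u huv h1 h2
    show L ≤ WD S L c σ u x + walkWeight (WD S L c σ) x l v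
    by_cases hux : u = x
    · subst hux
      have h3 := ih u huv h1 h2
      have h4 := WD_nonneg (S := S) hL c σ u u
      linarith
    · by_cases hr : rel S σ (c u) (c x)
      · have h3 := ih x (fun h => h1 (h ▸ hr)) (fun h => h2 ⟨x, hr, h⟩) (by
          rintro ⟨w, hw1, hw2⟩
          have l1 := rel_lev hr
          have l2 := rel_lev hw1
          have l3 := rel_lev hw2
          omega)
        have h4 := WD_nonneg (S := S) hL c σ u x
        linarith
      · have h3 : WD S L c σ u x = L := by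
          unfold WD
          rw [if_neg hux, if_neg hr]
        have h4 := walkWeight_nonneg (WD_nonneg (S := S) hL c σ) l x v
        linarith

/-- the distances of critical pairs -/
theorem dist_WD {S : Finset ℕ} (hS : ThreeAPFree (S : Set ℕ)) {L : ℝ} (hL : 1 ≤ L)
    (c : Fin n → Option (UD ν k)) (σ : ℕ → ℕ → Fin 3 → Fin k → Bool) {u v : Fin n} (huv : u ≠ v)
    {p : Fin ν × Fin k} {w : Fin (3 * ν) × Fin k} {a : ℕ} (ha : a ∈ S)
    (hw : (w.1 : ℕ) = p.1 + 2 * a) (hu : c u = some (Sum.inl p))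
    (hv : c v = some (Sum.inr (Sum.inr w))) : dist (WD S L c σ) u v = WD S L c σ u v := by
  refine le_antisymm (dist_le_walk (WD_nonneg hL c σ) huv []) ?_
  unfold Pool.Agent.APM54.dist
  rw [if_neg huv]
  refine le_ciInf fun l => ?_
  by_cases hr : rel S σ (c u) (c v)
  · have h1 : WD S L c σ u v = 1 := by
      unfold WD
      rw [if_neg huv, if_pos hr]
    rw [h1]
    exact WD_walk_one hL c σ l v u huv
  · have h1 : WD S L c σ u v = L := by
      unfold WD
      rw [if_neg huv, if_neg hr]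
    rw [h1]
    refine WD_walk_L hL c σ l v u huv hr ?_
    rintro ⟨y, hy1, hy2⟩
    apply hr
    rw [hu] at hy1 ⊢
    rw [hv] at hy2 ⊢
    exact rel_two hS ha hw hy1 hy2

end Pool.Agent.H98.AM
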