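import Pool.Agent.H98.AMPiece
import Pool.Agent.H98.ALFinal

/-!
# H98.AM: the bound for mixed-integer linear programs which approximate all distances
-/

set_option autoImplicit false

namespace Pool.Agent.H98.AM

open Finset Pool.Agent.APM54 Pool.Agent.H98.AL

variable {n : ℕ}

/-- from triples of free vertices to the number of inequalities -/
theorem free_bound {ρ R : ℝ} (hρ : 1 ≤ ρ) (hR : (n : ℝ) ^ 2 ≤ R) (I : Finset (Fin n))
    (hI : 4 * (I.card : ℝ) ≤ n)
    (h : (((Finset.univ : Finset (Fin 3 ↪ Fin n)).filter fun t => ∀ δ, t δ ∉ I).card : ℝ) ≤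
      10 ^ 7 * ρ ^ 2 * R) : (n : ℝ) ^ 3 ≤ 3 * 10 ^ 7 * ρ ^ 2 * R := by
  have hρ2 : 1 ≤ ρ ^ 2 := one_le_pow₀ hρ
  have hR0 : 0 ≤ R := le_trans (by positivity) hR
  have hρR : R ≤ ρ ^ 2 * R := by nlinarith
  rcases lt_or_ge n 20 with hn | hn
  · have h1 : (n : ℝ) ≤ 20 := by exact_mod_cast hn.le
    calc (n : ℝ) ^ 3 = n * n ^ 2 := by ring
      _ ≤ 20 * R := mul_le_mul h1 hR (by positivity) (by norm_num)
      _ ≤ 3 * 10 ^ 7 * (ρ ^ 2 * R) := by linarith
      _ = _ := by ring
  · have hn' : (20 : ℝ) ≤ n := by exact_mod_cast hn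
    have h1 := (card_free I).trans h
    rw [descFactorial_three] at h1
    have hIn : I.card ≤ n := by
      have := Finset.card_le_univ I
      rwa [Fintype.card_fin] at this
    rw [Nat.cast_sub hIn] at h1
    have h2 : 3 / 4 * (n : ℝ) ≤ n - I.card := by linarith
    have h3 : (3 / 4 * (n : ℝ)) * (7 / 10 * n) * (65 / 100 * n) ≤
        ((n : ℝ) - I.card) * ((n : ℝ) - I.card - 1) * ((n : ℝ) - I.card - 2) := by
      refine mul_le_mul (mul_le_mul h2 (by linarith) (by positivity) (by linarith)) (by linarith)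
        (by positivity) ?_
      exact mul_nonneg (by linarith) (by linarith)
    have h4 : (3 / 4 * (n : ℝ)) * (7 / 10 * n) * (65 / 100 * n) = 273 / 800 * n ^ 3 := by ring
    rw [h4] at h3
    have h5 : 273 / 800 * (n : ℝ) ^ 3 ≤ 10 ^ 7 * (ρ ^ 2 * R) := by
      calc _ ≤ _ := h3
        _ ≤ _ := h1
        _ = _ := by ring
    have h6 : 0 ≤ ρ ^ 2 * R := by positivity
    linarith

theorem milp_approx {r q : ℕ} {ρ L : ℝ} (hρ : 1 ≤ ρ) (hL : 10 * ρ ≤ L)
    (hq : 420 * ρ ^ 2 * q ≤ n) (P : Milp n r q)
    (h : ∀ W : Fin n → Fin n → ℝ, (∀ u, W u u = 0) → (∀ u v, W u v = W v u) →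
      (∀ u v, u ≠ v → 1 ≤ W u v ∧ W u v ≤ L) → P.Correct ρ W) :
    (n : ℝ) ^ 3 ≤ 3 * 10 ^ 7 * ρ ^ 2 * (r + n ^ 2 + 1) := by
  classical
  have hL1 : 1 ≤ L := by linarith
  have hcut : ∀ s : Fin n → Bool, P.Correct ρ (cutW L s) := by
    intro s
    refine h _ (fun u => by simp [cutW]) (fun u v => ?_) fun u v huv => ?_
    · unfold cutW
      simp only [eq_comm]
    · unfold cutW
      rw [if_neg huv]
      split_ifs
      · exact ⟨le_rfl, hL1⟩
      · exact ⟨hL1, le_rfl⟩
  choose hc1 x hx1 hx2 using hcut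
  have key := core1d (N := n) (X := (Fin n → Fin n → ℝ) × P.X)
    (κ := P.E ⊕ (Fin q ⊕ (Fin n × Fin n))) (ι := Fin r ⊕ ({p : Fin n × Fin n // p.1 < p.2} × Bool))
    (M := Fin q → Bool) (q := q) (by simp)
    (fun m => Sum.elim P.eqn (Sum.elim P.bin
      (fun p => if p.1 = p.2 then evW p.1 p.1 else evW p.1 p.2 - evW p.2 p.1)))
    (fun m => Sum.elim P.rhs (Sum.elim (fun j => (if m j then 1 else 0) - P.bin₀ j) fun _ => 0))
    (fun _ => Sum.elim P.ineq (fun p => if p.2 then evW p.1.1.1 p.1.1.2 else - evW p.1.1.1 p.1.1.2))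
    (fun _ => Sum.elim P.off (fun p => if p.2 then -1 else L))
    (fun t => ρ • (evW (t 0) (t 1) + evW (t 1) (t 2)) - (evM (t 0) (t 2)).comp P.out)
    (fun t => - P.out₀ (t 0) (t 2)) Finset.univ hρ hL ?_ ?_
  · obtain ⟨I, hI1, hI2⟩ := key
    refine free_bound hρ ?_ I ?_ ?_
    · have : (0 : ℝ) ≤ r := Nat.cast_nonneg _
      linarith
    · linarith
    · refine hI2.trans ?_
      refine mul_le_mul_of_nonneg_left ?_ (by positivity)
      rw [Fintype.card_sum, Fintype.card_prod, Fintype.card_bool, Fintype.card_fin]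
      have h1 : ((Fintype.card {p : Fin n × Fin n // p.1 < p.2} * 2 : ℕ) : ℝ) ≤ ((n ^ 2 : ℕ) : ℝ) :=
        Nat.cast_le.2 card_pairs
      push_cast at h1 ⊢
      linarith
  · intro s
    refine ⟨fun j => decide (P.bin j (cutW L s, x s) + P.bin₀ j = 1), (cutW L s, x s), ?_, ?_, ?_⟩
    · rintro (e | j | p)
      · exact (hx1 s).1 e
      · simp only [Sum.elim_inr, Sum.elim_inl]
        rcases (hx1 s).2.2 j with h1 | h1
        · have h2 : ¬ (P.bin j (cutW L s, x s) + P.bin₀ j = 1) := by
            rw [h1]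
            norm_num
          simp only [decide_eq_true_eq]
          rw [if_neg h2]
          linarith
        · simp only [decide_eq_true_eq]
          rw [if_pos h1]
          linarith
      · simp only [Sum.elim_inr]
        split_ifs with hp
        · simp [evW, cutW]
        · simp only [evW, LinearMap.sub_apply, LinearMap.coe_mk, AddHom.coe_mk, cutW]
          simp only [eq_comm, sub_self]
    · rintro (l | ⟨⟨p, hp⟩, c⟩)
      · exact (hx1 s).2.1 l
      · have hp' : p.1 ≠ p.2 := ne_of_lt hp
        cases c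
        · simp only [Sum.elim_inr, Bool.false_eq_true, if_false, LinearMap.neg_apply, evW,
            LinearMap.coe_mk, AddHom.coe_mk, cutW, if_neg hp']
          split_ifs <;> linarith
        · simp only [Sum.elim_inr, if_true, evW, LinearMap.coe_mk, AddHom.coe_mk, cutW, if_neg hp']
          split_ifs <;> linarith
    · intro t _
      have h01 : t 0 ≠ t 1 := fun h => by simpa using t.injective h
      have h12 : t 1 ≠ t 2 := fun h => by simpa using t.injective h
      have h02 : t 0 ≠ t 2 := fun h => by simpa using t.injective h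
      rw [fun_val]
      have hlo := hx2 s (t 0) (t 2) h02
      have hup := hc1 s (x s) (hx1 s) (t 0) (t 2) h02
      rw [dist_cutW hL1 s h02] at hlo hup
      have hLL : 0 ≤ ρ * (L - 1) := mul_nonneg (by linarith) (by linarith)
      unfold cutW at hlo hup ⊢
      rw [if_neg h02] at hlo hup
      rw [if_neg h01, if_neg h12]
      refine ⟨?_, ?_, ?_, ?_⟩
      · have h5 : (1 : ℝ) ≤ P.output (fun u v => if u = v then 0 else if s u = s v then 1 else L)
            (x s) (t 0) (t 2) := by
          refine le_trans ?_ hlo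
          split_ifs <;> linarith
        split_ifs <;> nlinarith
      · rintro ⟨h3, h4⟩
        have h6 : s (t 0) = s (t 2) := by
          cases hs0 : s (t 0) <;> cases hs1 : s (t 1) <;> cases hs2 : s (t 2) <;> simp_all
        rw [if_pos h6] at hup
        rw [if_neg h3, if_neg (Ne.symm h4)]
        linarith
      · intro h3 h4
        have h6 : s (t 0) = s (t 2) := h3.trans h4.symm
        rw [if_pos h6] at hlo
        rw [if_pos h3, if_pos h4.symm]
        linarith
      · intro h3
        rw [if_neg h3] at hlo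
        by_cases h4 : s (t 0) = s (t 1)
        · have h5 : s (t 1) ≠ s (t 2) := fun h => h3 (h4.trans h)
          rw [if_pos h4, if_neg h5]
          linarith
        · have h5 : s (t 1) = s (t 2) := by
            cases hs0 : s (t 0) <;> cases hs1 : s (t 1) <;> cases hs2 : s (t 2) <;> simp_all
          rw [if_neg h4, if_pos h5]
          linarith
  · rintro m ⟨W, y⟩ heq hineq t _
    have h01 : t 0 ≠ t 1 := fun h => by simpa using t.injective h
    have h12 : t 1 ≠ t 2 := fun h => by simpa using t.injective h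
    have h02 : t 0 ≠ t 2 := fun h => by simpa using t.injective h
    have hdiag : ∀ u, W u u = 0 := by
      intro u
      have := heq (Sum.inr (Sum.inr (u, u)))
      simpa [evW] using this
    have hsymm : ∀ u v, W u v = W v u := by
      intro u v
      by_cases huv : u = v
      · rw [huv]
      · have := heq (Sum.inr (Sum.inr (u, v)))
        simp only [Sum.elim_inr, if_neg huv, evW, LinearMap.sub_apply, LinearMap.coe_mk,
          AddHom.coe_mk] at this
        linarith
    have hlt : ∀ u v, u < v → 1 ≤ W u v ∧ W u v ≤ L := by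
      intro u v huv
      have h1 := hineq (Sum.inr (⟨(u, v), huv⟩, true))
      have h2 := hineq (Sum.inr (⟨(u, v), huv⟩, false))
      simp only [Sum.elim_inr, if_true, Bool.false_eq_true, if_false, evW, LinearMap.neg_apply,
        LinearMap.coe_mk, AddHom.coe_mk] at h1 h2
      exact ⟨by linarith, by linarith⟩
    have hbox : ∀ u v, u ≠ v → 1 ≤ W u v ∧ W u v ≤ L := by
      intro u v huv
      rcases lt_or_gt_of_ne huv with h1 | h1
      · exact hlt u v h1
      · rw [hsymm u v]
        exact hlt v u h1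
    have hW0 : ∀ u v, 0 ≤ W u v := by
      intro u v
      by_cases huv : u = v
      · rw [huv, hdiag]
      · linarith [(hbox u v huv).1]
    have hfeas : P.Feasible W y := by
      refine ⟨fun e => heq (Sum.inl e), fun l => hineq (Sum.inl l), fun j => ?_⟩
      have h1 := heq (Sum.inr (Sum.inl j))
      simp only [Sum.elim_inr, Sum.elim_inl] at h1
      rw [h1]
      cases m j
      · left; simp
      · right; simp
    have h1 := (h W hdiag hsymm hbox).1 y hfeas (t 0) (t 2) h02
    have h2 := dist_le_walk hW0 h02 [t 1]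
    simp only [walkWeight] at h2
    have h3 : ρ * dist W (t 0) (t 2) ≤ ρ * (W (t 0) (t 1) + W (t 1) (t 2)) :=
      mul_le_mul_of_nonneg_left h2 (by linarith)
    rw [fun_val]
    linarith

end Pool.Agent.H98.AM
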