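import Pool.Agent.H98.AMBlock

/-!
# H98.AM: the tradeoff between inequalities and binary variables
-/

set_option autoImplicit false

namespace Pool.Agent.H98.AM

open Finset Pool.Agent.APM54 Pool.Agent.H98.AL

/-- names of the bits -/
abbrev Bit (m k : ℕ) : Type := (Fin m × Fin m) × (Fin 3 × Fin k)

/-- names of the critical triples -/
abbrev Q (m k : ℕ) : Type := (Fin m × Fin m) × (Fin k × Fin k × Fin k)

variable {m k : ℕ}

/-- numbering of the bits -/
noncomputable def eB (m k : ℕ) : Bit m k ≃ Fin (Fintype.card (Bit m k)) :=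
  Fintype.equivFin _

/-- the cuts given by the bits -/
noncomputable def sig (s : Fin (Fintype.card (Bit m k)) → Bool) (i j : ℕ) (δ : Fin 3)
    (a : Fin k) : Bool :=
  if h : i < m ∧ j < m then s (eB m k ((⟨i, h.1⟩, ⟨j, h.2⟩), (δ, a))) else false

/-- the three bits of a critical triple -/
noncomputable def emb (z : Q m k) : Fin 3 ↪ Fin (Fintype.card (Bit m k)) :=
  ⟨fun δ => eB m k (z.1, (δ, ![z.2.1, z.2.2.1, z.2.2.2] δ)), fun δ δ' h => by
    have := (eB m k).injective h
    simp only [Prod.mk.injEq, true_and] at this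
    exact this.1⟩

theorem emb_apply (z : Q m k) (δ : Fin 3) :
    emb z δ = eB m k (z.1, (δ, ![z.2.1, z.2.2.1, z.2.2.2] δ)) := rfl

/-- decoding -/
noncomputable def dec (t : Fin 3 ↪ Fin (Fintype.card (Bit m k))) : Q m k :=
  (((eB m k).symm (t 0)).1, (((eB m k).symm (t 0)).2.2, ((eB m k).symm (t 1)).2.2,
    ((eB m k).symm (t 2)).2.2))

theorem dec_emb (z : Q m k) : dec (emb z) = z := by
  unfold dec
  simp [emb_apply]

theorem emb_injective : Function.Injective (emb : Q m k → _) :=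
  Function.LeftInverse.injective dec_emb

/-- the critical triples -/
noncomputable def crit (m k : ℕ) : Finset (Fin 3 ↪ Fin (Fintype.card (Bit m k))) :=
  Finset.univ.map ⟨emb, emb_injective⟩

theorem sig_emb (s : Fin (Fintype.card (Bit m k)) → Bool) (z : Q m k) (δ : Fin 3) :
    sig s z.1.1 z.1.2 δ (![z.2.1, z.2.2.1, z.2.2.2] δ) = s (emb z δ) := by
  unfold sig
  rw [dif_pos ⟨z.1.1.2, z.1.2.2⟩]
  rfl

/-- the number of the free critical triples -/
theorem card_crit (I : Finset (Fin (Fintype.card (Bit m k)))) :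
    m ^ 2 * k ^ 3 ≤ ((crit m k).filter fun t => ∀ δ, t δ ∉ I).card + 3 * (k ^ 2 * I.card) := by
  classical
  set F := (Finset.univ : Finset (Q m k)).filter fun z => ∀ δ, emb z δ ∉ I with hF
  have h1 : ((crit m k).filter fun t => ∀ δ, t δ ∉ I).card = F.card := by
    unfold crit
    rw [Finset.filter_map, Finset.card_map]
    rfl
  set B : Fin 3 → Finset (Q m k) := fun δ => Finset.univ.filter fun z => emb z δ ∈ I with hB
  have h2 : (Finset.univ : Finset (Q m k)) ⊆ F ∪ (B 0 ∪ (B 1 ∪ B 2)) := by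
    intro z _
    by_cases h : ∀ δ, emb z δ ∉ I
    · exact Finset.mem_union_left _ (Finset.mem_filter.2 ⟨Finset.mem_univ _, h⟩)
    · push Not at h
      obtain ⟨δ, hδ⟩ := h
      refine Finset.mem_union_right _ ?_
      fin_cases δ
      · exact Finset.mem_union_left _ (Finset.mem_filter.2 ⟨Finset.mem_univ _, hδ⟩)
      · exact Finset.mem_union_right _ (Finset.mem_union_left _
          (Finset.mem_filter.2 ⟨Finset.mem_univ _, hδ⟩))
      · exact Finset.mem_union_right _ (Finset.mem_union_right _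
          (Finset.mem_filter.2 ⟨Finset.mem_univ _, hδ⟩))
  have hBc : ∀ δ, (B δ).card ≤ k ^ 2 * I.card := by
    intro δ
    have h3 : (I ×ˢ (Finset.univ : Finset (Fin k × Fin k))).card = k ^ 2 * I.card := by
      have hc2 : (Finset.univ : Finset (Fin k × Fin k)).card = k ^ 2 := by
        rw [Finset.card_univ, Fintype.card_prod, Fintype.card_fin, pow_two]
      rw [Finset.card_product, hc2, mul_comm]
    rw [← h3]
    refine Finset.card_le_card_of_injOn (fun z => (emb z δ,
      ((![z.2.1, z.2.2.1, z.2.2.2] (δ + 1)), (![z.2.1, z.2.2.1, z.2.2.2] (δ + 2))))) ?_ ?_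
    · intro z hz
      exact Finset.mem_coe.2 (Finset.mem_product.2 ⟨(Finset.mem_filter.1 (Finset.mem_coe.1 hz)).2,
        Finset.mem_univ _⟩)
    · rintro ⟨ij, a, x, b⟩ _ ⟨ij', a', x', b'⟩ _ h
      simp only [Prod.mk.injEq] at h
      obtain ⟨h4, h5, h6⟩ := h
      rw [emb_apply, emb_apply] at h4
      have h7 := (eB m k).injective h4
      simp only [Prod.mk.injEq, true_and] at h7
      obtain ⟨h8, h9⟩ := h7
      subst h8
      fin_cases δ
      · simp at h5 h6 h9
        rw [h5, h6, h9]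
      · simp at h5 h6 h9
        rw [h5, h9]
        simp [h6]
      · simp at h5 h6 h9
        rw [h9]
        simp [h5, h6]
  have h4 := Finset.card_le_card h2
  rw [Finset.card_univ, Fintype.card_prod, Fintype.card_prod, Fintype.card_prod,
    Fintype.card_prod, Fintype.card_fin, Fintype.card_fin] at h4
  have h5 := Finset.card_union_le F (B 0 ∪ (B 1 ∪ B 2))
  have h6 := Finset.card_union_le (B 0) (B 1 ∪ B 2)
  have h7 := Finset.card_union_le (B 1) (B 2)
  have h8 := hBc 0
  have h9 := hBc 1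
  have h10 := hBc 2
  rw [h1]
  have h11 : m ^ 2 * k ^ 3 = m * m * (k * (k * k)) := by ring
  rw [h11]
  omega

variable {n : ℕ}

theorem fun_valB {r q : ℕ} (P : Milp n r q) (κ : ℝ) (a x b : Fin n) (W : Fin n → Fin n → ℝ)
    (y : P.X) : ((κ • (evW a x + evW x b - (evM a b).comp P.out) :
      ((Fin n → Fin n → ℝ) × P.X) →ₗ[ℝ] ℝ) (W, y)) + - (κ * P.out₀ a b) =
      κ * (W a x + W x b - P.output W y a b) := by
  simp only [evW, evM, Milp.output, LinearMap.sub_apply, LinearMap.smul_apply,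
    LinearMap.add_apply, LinearMap.comp_apply, LinearMap.coe_mk, AddHom.coe_mk,
    smul_eq_mul, Pi.add_apply]
  ring

theorem milp_block {r q : ℕ} (hm : 0 < m) (hn : 4 * m * k ≤ n) (hq : 630 * q ≤ m ^ 2 * k)
    (P : Milp n r q)
    (h : ∀ W : Fin n → Fin n → ℝ, (∀ u, W u u = 0) → (∀ u v, W u v = W v u) →
      (∀ u v, u ≠ v → 1 ≤ W u v ∧ W u v ≤ 3) → P.Correct 1 W) :
    ((m : ℝ) ^ 2 * (k : ℝ) ^ 3 : ℝ) ≤ 2 * 10 ^ 7 * (r + n ^ 2 + 1) := by
  classical
  -- positions
  obtain ⟨ιU⟩ : Nonempty (U m k ↪ Fin n) := by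
    refine Function.Embedding.nonempty_of_card_le ?_
    rw [Fintype.card_sum, Fintype.card_sum, Fintype.card_prod, Fintype.card_prod,
      Fintype.card_fin, Fintype.card_fin, Fintype.card_fin, Fintype.card_fin]
    calc m * k + (m * k + 2 * m * k) = 4 * m * k := by ring
      _ ≤ n := hn
  obtain ⟨c, hc⟩ : ∃ c : Fin n → Option (U m k), ∀ u, c (ιU u) = some u := by
    refine ⟨fun v => if h : ∃ u, ιU u = v then some h.choose else none, fun u => ?_⟩
    have h1 : ∃ u', ιU u' = ιU u := ⟨u, rfl⟩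
    dsimp only
    rw [dif_pos h1]
    exact congrArg some (ιU.injective h1.choose_spec)
  have hcut : ∀ s : Fin (Fintype.card (Bit m k)) → Bool, P.Correct 1 (WB c (sig s)) := fun s =>
    h _ (fun u => by simp [WB]) (WB_symm c _) fun u v huv => WB_bd hm c _ huv
  choose hc1 x hx1 hx2 using hcut
  have hout : ∀ s u v, u ≠ v → P.output (WB c (sig s)) (x s) u v = WB c (sig s) u v := by
    intro s u v huv
    have h1 := hc1 s (x s) (hx1 s) u v huv
    have h2 := hx2 s u v huv
    rw [dist_WB hm c _ huv] at h1 h2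
    linarith
  set pa : Q m k → Fin n := fun z => ιU (Sum.inl (z.1.1, z.2.1)) with hpa
  set px : Q m k → Fin n := fun z => ιU (Sum.inr (Sum.inr
    (⟨z.1.1 + z.1.2, by have := z.1.1.2; have := z.1.2.2; omega⟩, z.2.2.1))) with hpx
  set pb : Q m k → Fin n := fun z => ιU (Sum.inr (Sum.inl (z.1.2, z.2.2.2))) with hpb
  have hax : ∀ z, pa z ≠ px z := fun z h => by simpa using ιU.injective h
  have hxb : ∀ z, px z ≠ pb z := fun z h => by simpa using ιU.injective h
  have hab : ∀ z, pa z ≠ pb z := fun z h => by simpa using ιU.injective h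
  have hm' : (0 : ℝ) < m := by exact_mod_cast hm
  set κ : ℝ := 10 * (19 * (m : ℝ) ^ 2) with hκ
  have hκ0 : 0 ≤ κ := by positivity
  -- values at the cuts
  have hval : ∀ s (z : Q m k), κ * (WB c (sig s) (pa z) (px z) + WB c (sig s) (px z) (pb z) -
      P.output (WB c (sig s)) (x s) (pa z) (pb z)) =
      10 * (dl (s (emb z 0)) (s (emb z 1)) + dl (s (emb z 1)) (s (emb z 2)) -
        dl (s (emb z 0)) (s (emb z 2))) := by
    intro s z
    rw [hout s _ _ (hab z)]
    unfold WB
    rw [if_neg (hax z), if_neg (hxb z), if_neg (hab z), hc, hc, hc]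
    have e1 : G (sig s) (some (Sum.inl (z.1.1, z.2.1)) : Option (U m k)) (some (Sum.inr (Sum.inr
      (⟨z.1.1 + z.1.2, by have := z.1.1.2; have := z.1.2.2; omega⟩, z.2.2.1)))) =
      wAC m (sig s) z.1.1 z.2.1 (z.1.1 + z.1.2 : ℕ) z.2.2.1 := rfl
    have e2 : G (sig s) (some (Sum.inr (Sum.inr (⟨z.1.1 + z.1.2, by
      have := z.1.1.2; have := z.1.2.2; omega⟩, z.2.2.1))) : Option (U m k))
      (some (Sum.inr (Sum.inl (z.1.2, z.2.2.2)))) =
      wCB m (sig s) (z.1.1 + z.1.2 : ℕ) z.2.2.1 z.1.2 z.2.2.2 := rfl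
    have e3 : G (sig s) (some (Sum.inl (z.1.1, z.2.1)) : Option (U m k))
      (some (Sum.inr (Sum.inl (z.1.2, z.2.2.2)))) =
      wAB m (sig s) z.1.1 z.2.1 z.1.2 z.2.2.2 := rfl
    rw [e1, e2, e3, ← sub_eq_zero]
    have e4 := wAB_eq (m := m) (sig s) z.1.1 z.1.2 z.2.1 z.2.2.2 z.2.2.1
    have e5 := sig_emb s z 0
    have e6 := sig_emb s z 1
    have e7 := sig_emb s z 2
    simp only [Matrix.cons_val_zero, Matrix.cons_val_one, Matrix.cons_val] at e5 e6 e7
    rw [e5, e6, e7] at e4
    rw [hκ, ← e4]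
    field_simp
    ring
  have key := core1d (N := Fintype.card (Bit m k)) (X := (Fin n → Fin n → ℝ) × P.X)
    (κ := P.E ⊕ (Fin q ⊕ (Fin n × Fin n))) (ι := Fin r ⊕ ({p : Fin n × Fin n // p.1 < p.2} × Bool))
    (M := Fin q → Bool) (q := q) (by simp)
    (fun m => Sum.elim P.eqn (Sum.elim P.bin
      (fun p => if p.1 = p.2 then evW p.1 p.1 else evW p.1 p.2 - evW p.2 p.1)))
    (fun m => Sum.elim P.rhs (Sum.elim (fun j => (if m j then 1 else 0) - P.bin₀ j) fun _ => 0))
    (fun _ => Sum.elim P.ineq (fun p => if p.2 then evW p.1.1.1 p.1.1.2 else - evW p.1.1.1 p.1.1.2))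
    (fun _ => Sum.elim P.off (fun p => if p.2 then -1 else 3))
    (fun t => κ • (evW (pa (dec t)) (px (dec t)) + evW (px (dec t)) (pb (dec t)) -
      (evM (pa (dec t)) (pb (dec t))).comp P.out))
    (fun t => - (κ * P.out₀ (pa (dec t)) (pb (dec t)))) (crit m k) (ρ := 1) (Λ := 10) le_rfl
    (by norm_num) ?_ ?_
  · obtain ⟨I, hI1, hI2⟩ := key
    have h1 := card_crit I
    have h2 : (m : ℝ) ^ 2 * k ^ 3 ≤ (((crit m k).filter fun t => ∀ δ, t δ ∉ I).card : ℝ) +
        3 * (k ^ 2 * I.card) := by exact_mod_cast h1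
    have h3 : 630 * (q : ℝ) ≤ m ^ 2 * k := by exact_mod_cast hq
    have h4 : 3 * ((k : ℝ) ^ 2 * I.card) ≤ m ^ 2 * k ^ 3 / 2 := by
      have h5 : (I.card : ℝ) ≤ m ^ 2 * k / 6 := by linarith
      have h6 : (k : ℝ) ^ 2 * I.card ≤ k ^ 2 * (m ^ 2 * k / 6) :=
        mul_le_mul_of_nonneg_left h5 (by positivity)
      have h8 : 3 * ((k : ℝ) ^ 2 * ((m : ℝ) ^ 2 * k / 6)) = (m : ℝ) ^ 2 * (k : ℝ) ^ 3 / 2 := by
        ring
      linarith
    have h7 : (((crit m k).filter fun t => ∀ δ, t δ ∉ I).card : ℝ) ≤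
        10 ^ 7 * (r + n ^ 2 + 1) := by
      refine hI2.trans ?_
      rw [one_pow, mul_one]
      refine mul_le_mul_of_nonneg_left ?_ (by positivity)
      rw [Fintype.card_sum, Fintype.card_prod, Fintype.card_bool, Fintype.card_fin]
      have h1 : ((Fintype.card {p : Fin n × Fin n // p.1 < p.2} * 2 : ℕ) : ℝ) ≤ ((n ^ 2 : ℕ) : ℝ) :=
        Nat.cast_le.2 card_pairs
      push_cast at h1 ⊢
      linarith
    linarith
  · intro s
    refine ⟨fun j => decide (P.bin j (WB c (sig s), x s) + P.bin₀ j = 1), (WB c (sig s), x s),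
      ?_, ?_, ?_⟩
    · rintro (e | j | p)
      · exact (hx1 s).1 e
      · simp only [Sum.elim_inr, Sum.elim_inl]
        rcases (hx1 s).2.2 j with h1 | h1
        · have h2 : ¬ (P.bin j (WB c (sig s), x s) + P.bin₀ j = 1) := by
            rw [h1]
            norm_num
          simp only [decide_eq_true_eq]
          rw [if_neg h2]
          linarith
        · simp only [decide_eq_true_eq]
          rw [if_pos h1]
          linarith
      · simp only [Sum.elim_inr]
        split_ifs with hp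
        · simp [evW, WB]
        · simp only [evW, LinearMap.sub_apply, LinearMap.coe_mk, AddHom.coe_mk]
          rw [WB_symm c _ p.1 p.2, sub_self]
    · rintro (l | ⟨⟨p, hp⟩, b⟩)
      · exact (hx1 s).2.1 l
      · have hp' : p.1 ≠ p.2 := ne_of_lt hp
        have hbd := WB_bd hm c (sig s) hp'
        cases b
        · simp only [Sum.elim_inr, Bool.false_eq_true, if_false, LinearMap.neg_apply, evW,
            LinearMap.coe_mk, AddHom.coe_mk]
          linarith
        · simp only [Sum.elim_inr, if_true, evW, LinearMap.coe_mk, AddHom.coe_mk]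
          linarith
    · intro t ht
      obtain ⟨z, -, rfl⟩ := Finset.mem_map.1 ht
      simp only [Function.Embedding.coeFn_mk]
      rw [dec_emb, fun_valB, hval]
      refine ⟨?_, ?_, ?_, ?_⟩
      · have h1 := dl_le (s (emb z 0)) (s (emb z 1))
        have h2 := dl_le (s (emb z 1)) (s (emb z 2))
        have h3 := dl_nonneg (s (emb z 0)) (s (emb z 2))
        linarith
      · rintro ⟨h3, h4⟩
        have h6 : s (emb z 0) = s (emb z 2) := by
          cases hs0 : s (emb z 0) <;> cases hs1 : s (emb z 1) <;> cases hs2 : s (emb z 2) <;>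
            simp_all
        unfold dl
        rw [if_neg h3, if_neg (Ne.symm h4), if_pos h6]
        norm_num
      · intro h3 h4
        unfold dl
        rw [if_pos h3, if_pos h4.symm, if_pos (h3.trans h4.symm)]
        norm_num
      · intro h3
        unfold dl
        rw [if_neg h3]
        by_cases h4 : s (emb z 0) = s (emb z 1)
        · have h5 : s (emb z 1) ≠ s (emb z 2) := fun h => h3 (h4.trans h)
          rw [if_pos h4, if_neg h5]
          norm_num
        · have h5 : s (emb z 1) = s (emb z 2) := by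
            cases hs0 : s (emb z 0) <;> cases hs1 : s (emb z 1) <;> cases hs2 : s (emb z 2) <;>
              simp_all
          rw [if_neg h4, if_pos h5]
          norm_num
  · rintro b ⟨W, y⟩ heq hineq t ht
    obtain ⟨z, -, rfl⟩ := Finset.mem_map.1 ht
    simp only [Function.Embedding.coeFn_mk]
    rw [dec_emb, fun_valB]
    have hdiag : ∀ u, W u u = 0 := by
      intro u
      have := heq (Sum.inr (Sum.inr (u, u)))
      simpa [evW] using this
    have hsymm : ∀ u v, W u v = W v u := by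
      intro u v
      by_cases huv : u = v
      · rw [huv]
      · have := heq (Sum.inr (Sum.inr (u, v)))
        simp only [Sum.elim_inr, if_neg huv, evW, LinearMap.sub_apply, LinearMap.coe_mk,
          AddHom.coe_mk] at this
        linarith
    have hlt : ∀ u v, u < v → 1 ≤ W u v ∧ W u v ≤ 3 := by
      intro u v huv
      have h1 := hineq (Sum.inr (⟨(u, v), huv⟩, true))
      have h2 := hineq (Sum.inr (⟨(u, v), huv⟩, false))
      simp only [Sum.elim_inr, if_true, Bool.false_eq_true, if_false, evW, LinearMap.neg_apply,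
        LinearMap.coe_mk, AddHom.coe_mk] at h1 h2
      exact ⟨by linarith, by linarith⟩
    have hbox : ∀ u v, u ≠ v → 1 ≤ W u v ∧ W u v ≤ 3 := by
      intro u v huv
      rcases lt_or_gt_of_ne huv with h1 | h1
      · exact hlt u v h1
      · rw [hsymm u v]
        exact hlt v u h1
    have hW0 : ∀ u v, 0 ≤ W u v := by
      intro u v
      by_cases huv : u = v
      · rw [huv, hdiag]
      · linarith [(hbox u v huv).1]
    have hfeas : P.Feasible W y := by
      refine ⟨fun e => heq (Sum.inl e), fun l => hineq (Sum.inl l), fun j => ?_⟩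
      have h1 := heq (Sum.inr (Sum.inl j))
      simp only [Sum.elim_inr, Sum.elim_inl] at h1
      rw [h1]
      cases b j
      · left; simp
      · right; simp
    have h1 := (h W hdiag hsymm hbox).1 y hfeas (pa z) (pb z) (hab z)
    have h2 := dist_le_walk hW0 (hab z) [px z]
    simp only [walkWeight] at h2
    refine mul_nonneg hκ0 ?_
    linarith

/-- **The tradeoff.** -/
theorem milp_tradeoff {r q : ℕ} (P : Milp n r q)
    (h : ∀ W : Fin n → Fin n → ℝ, (∀ u, W u u = 0) → (∀ u v, W u v = W v u) →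
      (∀ u v, u ≠ v → 1 ≤ W u v ∧ W u v ≤ 3) → P.Correct 1 W) :
    (n : ℝ) ^ 4 ≤ 10 ^ 14 * ((n + q) * (r + n ^ 2 + 1)) := by
  have hR : (n : ℝ) ^ 2 ≤ r + n ^ 2 + 1 := by
    have : (0 : ℝ) ≤ r := Nat.cast_nonneg _
    linarith
  have hq0 : (0 : ℝ) ≤ q := Nat.cast_nonneg _
  have hn0 : (0 : ℝ) ≤ n := Nat.cast_nonneg _
  have hR0 : (0 : ℝ) ≤ r + n ^ 2 + 1 := by positivity
  -- a simple case
  have easy : (n : ℝ) ^ 2 ≤ 40320 * (n + q) → (n : ℝ) ^ 4 ≤
      10 ^ 14 * ((n + q) * (r + n ^ 2 + 1)) := by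
    intro h1
    have h2 : (n : ℝ) ^ 2 * n ^ 2 ≤ (40320 * (n + q)) * (r + n ^ 2 + 1) :=
      mul_le_mul h1 hR (by positivity) (by positivity)
    have h3 : 0 ≤ ((n : ℝ) + q) * (r + n ^ 2 + 1) := by positivity
    calc (n : ℝ) ^ 4 = n ^ 2 * n ^ 2 := by ring
      _ ≤ _ := h2
      _ ≤ _ := by nlinarith
  rcases lt_or_ge n 8 with hn | hn
  · refine easy ?_
    have : (n : ℝ) ≤ 8 := by exact_mod_cast hn.le
    nlinarith
  rcases lt_or_ge (n ^ 2) (40320 * q) with hq | hq
  · refine easy ?_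
    have : (n : ℝ) ^ 2 ≤ 40320 * q := by exact_mod_cast hq.le
    nlinarith
  set m := 5040 * q / n + 1 with hm
  have hn1 : 0 < n := by omega
  have h1 : 5040 * q < n * m := by
    rw [hm]
    exact Nat.lt_mul_div_succ _ hn1
  have h2 : n * m ≤ 5040 * q + n := by
    rw [hm, mul_add, mul_one]
    exact Nat.add_le_add_right (Nat.mul_div_le (5040 * q) n) n
  have h3 : 4 * m ≤ n := by
    by_contra hcon
    rw [not_le] at hcon
    have h4 : n * n < n * (4 * m) := Nat.mul_lt_mul_of_pos_left hcon hn1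
    have h5 : n * (4 * m) ≤ 4 * (5040 * q + n) := by
      calc n * (4 * m) = 4 * (n * m) := by ring
        _ ≤ _ := Nat.mul_le_mul_left 4 h2
    have h6 : 8 * n ≤ n * n := Nat.mul_le_mul_right n hn
    rw [pow_two] at hq
    have h7 := h4.trans_le h5
    generalize n * n = N at h6 h7 hq
    omega
  set k := n / (4 * m) with hk
  have hmpos : 0 < m := Nat.succ_pos _
  have h4 : 4 * m * k ≤ n := by
    rw [hk]
    exact Nat.mul_div_le n (4 * m)
  have hk1 : 1 ≤ k := by
    rw [hk]
    exact Nat.div_pos h3 (by omega)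
  have h5 : n ≤ 8 * (m * k) := by
    have h6 : n < 4 * m * (k + 1) := by
      rw [hk]
      exact Nat.lt_mul_div_succ n (by omega)
    have h7 : 4 * m * (k + 1) ≤ 8 * (m * k) := by
      have : m ≤ m * k := Nat.le_mul_of_pos_right m hk1
      calc 4 * m * (k + 1) = 4 * (m * k) + 4 * m := by ring
        _ ≤ 4 * (m * k) + 4 * (m * k) := by omega
        _ = _ := by ring
    exact h6.le.trans h7
  have h6 : 630 * q ≤ m ^ 2 * k := by
    have h7 : n * m ≤ 8 * (m ^ 2 * k) := by
      calc n * m ≤ 8 * (m * k) * m := Nat.mul_le_mul_right m h5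
        _ = _ := by ring
    omega
  have key := milp_block hmpos h4 h6 P h
  have h5' : (n : ℝ) ≤ 8 * (m * k) := by exact_mod_cast h5
  have h2' : (n : ℝ) * m ≤ 5040 * q + n := by exact_mod_cast h2
  have hm0 : (0 : ℝ) ≤ m := Nat.cast_nonneg _
  have h7 : (n : ℝ) ^ 3 ≤ 512 * m * (m ^ 2 * k ^ 3) := by
    calc (n : ℝ) ^ 3 ≤ (8 * (m * k)) ^ 3 := pow_le_pow_left₀ hn0 h5' 3
      _ = _ := by ring
  have h8 : 512 * (m : ℝ) * (m ^ 2 * k ^ 3) ≤ 512 * m * (2 * 10 ^ 7 * (r + n ^ 2 + 1)) :=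
    mul_le_mul_of_nonneg_left key (by positivity)
  have e1 : (n : ℝ) ^ 4 ≤ n * (512 * m * (2 * 10 ^ 7 * (r + n ^ 2 + 1))) := by
    have e2 : (n : ℝ) * n ^ 3 ≤ n * (512 * m * (2 * 10 ^ 7 * (r + n ^ 2 + 1))) :=
      mul_le_mul_of_nonneg_left (h7.trans h8) hn0
    calc (n : ℝ) ^ 4 = n * n ^ 3 := by ring
      _ ≤ _ := e2
  refine e1.trans ?_
  have e3 : ((n : ℝ) * m) * (r + n ^ 2 + 1) ≤ (5040 * q + n) * (r + n ^ 2 + 1) :=
    mul_le_mul_of_nonneg_right h2' hR0
  have e4 : (5040 * (q : ℝ) + n) * (r + n ^ 2 + 1) ≤ (5040 * (n + q)) * (r + n ^ 2 + 1) :=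
    mul_le_mul_of_nonneg_right (by linarith) hR0
  have e5 : 0 ≤ ((n : ℝ) + q) * (r + n ^ 2 + 1) := by positivity
  have e6 : (n : ℝ) * (512 * m * (2 * 10 ^ 7 * (r + n ^ 2 + 1))) =
      1024 * 10 ^ 7 * ((n * m) * (r + n ^ 2 + 1)) := by ring
  rw [e6]
  have e7 : (5040 * ((n : ℝ) + q)) * (r + n ^ 2 + 1) =
      5040 * (((n : ℝ) + q) * (r + n ^ 2 + 1)) := by ring
  rw [e7] at e4
  linarith

end Pool.Agent.H98.AM
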