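import Pool.Agent.H98.AMPiece

/-!
# H98.AM: numbering of the bits of a family of cuts

A cut of `3 k` vertices for every element of `Γ`.
-/

set_option autoImplicit false

namespace Pool.Agent.H98.AM

open Finset

namespace Ix

variable {Γ : Type} [Fintype Γ] {k : ℕ}

/-- numbering of the bits -/
noncomputable def eB (Γ : Type) [Fintype Γ] (k : ℕ) :
    (Γ × (Fin 3 × Fin k)) ≃ Fin (Fintype.card (Γ × (Fin 3 × Fin k))) :=
  Fintype.equivFin _

/-- the three bits of a critical triple -/
noncomputable def emb (z : Γ × (Fin k × Fin k × Fin k)) :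
    Fin 3 ↪ Fin (Fintype.card (Γ × (Fin 3 × Fin k))) :=
  ⟨fun δ => eB Γ k (z.1, (δ, ![z.2.1, z.2.2.1, z.2.2.2] δ)), fun δ δ' h => by
    have := (eB Γ k).injective h
    simp only [Prod.mk.injEq, true_and] at this
    exact this.1⟩

theorem emb_apply (z : Γ × (Fin k × Fin k × Fin k)) (δ : Fin 3) :
    emb z δ = eB Γ k (z.1, (δ, ![z.2.1, z.2.2.1, z.2.2.2] δ)) := rfl

/-- decoding -/
noncomputable def dec (t : Fin 3 ↪ Fin (Fintype.card (Γ × (Fin 3 × Fin k)))) :
    Γ × (Fin k × Fin k × Fin k) :=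
  (((eB Γ k).symm (t 0)).1, (((eB Γ k).symm (t 0)).2.2, ((eB Γ k).symm (t 1)).2.2,
    ((eB Γ k).symm (t 2)).2.2))

theorem dec_emb (z : Γ × (Fin k × Fin k × Fin k)) : dec (emb z) = z := by
  unfold dec
  simp [emb_apply]

theorem emb_injective : Function.Injective (emb : Γ × (Fin k × Fin k × Fin k) → _) :=
  Function.LeftInverse.injective dec_emb

/-- the critical triples -/
noncomputable def crit (Γ : Type) [Fintype Γ] (k : ℕ) :
    Finset (Fin 3 ↪ Fin (Fintype.card (Γ × (Fin 3 × Fin k)))) :=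
  Finset.univ.map ⟨emb, emb_injective⟩

/-- the number of the free critical triples -/
theorem card_crit (I : Finset (Fin (Fintype.card (Γ × (Fin 3 × Fin k))))) :
    Fintype.card Γ * k ^ 3 ≤
      ((crit Γ k).filter fun t => ∀ δ, t δ ∉ I).card + 3 * (k ^ 2 * I.card) := by
  classical
  set F := (Finset.univ : Finset (Γ × (Fin k × Fin k × Fin k))).filter
    fun z => ∀ δ, emb z δ ∉ I with hF
  have h1 : ((crit Γ k).filter fun t => ∀ δ, t δ ∉ I).card = F.card := by
    unfold crit
    rw [Finset.filter_map, Finset.card_map]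
    rfl
  set B : Fin 3 → Finset (Γ × (Fin k × Fin k × Fin k)) :=
    fun δ => Finset.univ.filter fun z => emb z δ ∈ I with hB
  have h2 : (Finset.univ : Finset (Γ × (Fin k × Fin k × Fin k))) ⊆ F ∪ (B 0 ∪ (B 1 ∪ B 2)) := by
    intro z _
    by_cases h : ∀ δ, emb z δ ∉ I
    · exact Finset.mem_union_left _ (Finset.mem_filter.2 ⟨Finset.mem_univ _, h⟩)
    · push Not at h
      obtain ⟨δ, hδ⟩ := h
      refine Finset.mem_union_right _ ?_
      fin_cases δ
      · exact Finset.mem_union_left _ (Finset.mem_filter.2 ⟨Finset.mem_univ _, hδ⟩)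
      · exact Finset.mem_union_right _ (Finset.mem_union_left _
          (Finset.mem_filter.2 ⟨Finset.mem_univ _, hδ⟩))
      · exact Finset.mem_union_right _ (Finset.mem_union_right _
          (Finset.mem_filter.2 ⟨Finset.mem_univ _, hδ⟩))
  have hBc : ∀ δ, (B δ).card ≤ k ^ 2 * I.card := by
    intro δ
    have h3 : (I ×ˢ (Finset.univ : Finset (Fin k × Fin k))).card = k ^ 2 * I.card := by
      have hc2 : (Finset.univ : Finset (Fin k × Fin k)).card = k ^ 2 := by
        rw [Finset.card_univ, Fintype.card_prod, Fintype.card_fin, pow_two]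
      rw [Finset.card_product, hc2, mul_comm]
    rw [← h3]
    refine Finset.card_le_card_of_injOn (fun z => (emb z δ,
      ((![z.2.1, z.2.2.1, z.2.2.2] (δ + 1)), (![z.2.1, z.2.2.1, z.2.2.2] (δ + 2))))) ?_ ?_
    · intro z hz
      exact Finset.mem_coe.2 (Finset.mem_product.2 ⟨(Finset.mem_filter.1 (Finset.mem_coe.1 hz)).2,
        Finset.mem_univ _⟩)
    · rintro ⟨ij, a, x, b⟩ _ ⟨ij', a', x', b'⟩ _ h
      simp only [Prod.mk.injEq] at h
      obtain ⟨h4, h5, h6⟩ := h
      rw [emb_apply, emb_apply] at h4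
      have h7 := (eB Γ k).injective h4
      simp only [Prod.mk.injEq, true_and] at h7
      obtain ⟨h8, h9⟩ := h7
      subst h8
      fin_cases δ
      · simp at h5 h6 h9
        rw [h5, h6, h9]
      · simp at h5 h6 h9
        rw [h5, h9]
        simp [h6]
      · simp at h5 h6 h9
        rw [h9]
        simp [h5, h6]
  have h4 := Finset.card_le_card h2
  rw [Finset.card_univ, Fintype.card_prod, Fintype.card_prod, Fintype.card_prod,
    Fintype.card_fin] at h4
  have h5 := Finset.card_union_le F (B 0 ∪ (B 1 ∪ B 2))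
  have h6 := Finset.card_union_le (B 0) (B 1 ∪ B 2)
  have h7 := Finset.card_union_le (B 1) (B 2)
  have h8 := hBc 0
  have h9 := hBc 1
  have h10 := hBc 2
  rw [h1]
  have h11 : Fintype.card Γ * k ^ 3 = Fintype.card Γ * (k * (k * k)) := by ring
  rw [h11]
  omega

end Ix

end Pool.Agent.H98.AM
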