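import Pool.Agent.H98.AMDir
import Pool.Agent.H98.AMIndex

/-!
# H98.AM: the tradeoff for approximate distances in directed graphs
-/

set_option autoImplicit false

namespace Pool.Agent.H98.AM

open Finset Pool.Agent.APM54 Pool.Agent.H98.AL

variable {ν k : ℕ}

/-- names of the cuts -/
abbrev Gm (ν : ℕ) (S : Finset ℕ) : Type := Fin ν × {a // a ∈ S}

/-- the cuts given by the bits -/
noncomputable def sigD {S : Finset ℕ}
    (s : Fin (Fintype.card (Gm ν S × (Fin 3 × Fin k))) → Bool) (x a : ℕ) (δ : Fin 3)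
    (i : Fin k) : Bool :=
  if h : x < ν ∧ a ∈ S then s (Ix.eB (Gm ν S) k ((⟨x, h.1⟩, ⟨a, h.2⟩), (δ, i))) else false

theorem sigD_emb {S : Finset ℕ} (s : Fin (Fintype.card (Gm ν S × (Fin 3 × Fin k))) → Bool)
    (z : Gm ν S × (Fin k × Fin k × Fin k)) (δ : Fin 3) :
    sigD s z.1.1 z.1.2 δ (![z.2.1, z.2.2.1, z.2.2.2] δ) = s (Ix.emb z δ) := by
  unfold sigD
  rw [dif_pos ⟨z.1.1.2, z.1.2.2⟩]
  rfl

variable {n : ℕ}

theorem fun_valD {r q : ℕ} (P : Milp n r q) (ρ : ℝ) (a x b : Fin n) (W : Fin n → Fin n → ℝ)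
    (y : P.X) : ((ρ • (evW a x + evW x b) - (evM a b).comp P.out :
      ((Fin n → Fin n → ℝ) × P.X) →ₗ[ℝ] ℝ) (W, y)) + - P.out₀ a b =
      ρ * (W a x + W x b) - P.output W y a b := by
  simp only [evW, evM, Milp.output, LinearMap.sub_apply, LinearMap.smul_apply,
    LinearMap.add_apply, LinearMap.comp_apply, LinearMap.coe_mk, AddHom.coe_mk,
    smul_eq_mul, Pi.add_apply]
  ring

theorem milp_dir {r q : ℕ} {ρ L : ℝ} (hρ : 1 ≤ ρ) (hL : 10 * ρ ≤ L) {S : Finset ℕ}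
    (hS : ThreeAPFree (S : Set ℕ)) (hSν : ∀ a ∈ S, a < ν) (hn : 6 * ν * k ≤ n)
    (hq : 630 * ρ ^ 2 * q ≤ (ν : ℝ) * S.card * k) (P : Milp n r q)
    (h : ∀ W : Fin n → Fin n → ℝ, (∀ u, W u u = 0) →
      (∀ u v, u ≠ v → 1 ≤ W u v ∧ W u v ≤ L) → P.Correct ρ W) :
    ((ν : ℝ) * S.card * (k : ℝ) ^ 3 : ℝ) ≤ 4 * 10 ^ 7 * ρ ^ 2 * (r + n ^ 2 + 1) := by
  classical
  have hL1 : 1 ≤ L := by linarith
  -- positions
  obtain ⟨ιU⟩ : Nonempty (UD ν k ↪ Fin n) := by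
    refine Function.Embedding.nonempty_of_card_le ?_
    rw [Fintype.card_sum, Fintype.card_sum, Fintype.card_prod, Fintype.card_prod,
      Fintype.card_prod, Fintype.card_fin, Fintype.card_fin, Fintype.card_fin, Fintype.card_fin,
      Fintype.card_fin]
    calc ν * k + (2 * ν * k + 3 * ν * k) = 6 * ν * k := by ring
      _ ≤ n := hn
  obtain ⟨c, hc⟩ : ∃ c : Fin n → Option (UD ν k), ∀ u, c (ιU u) = some u := by
    refine ⟨fun v => if h : ∃ u, ιU u = v then some h.choose else none, fun u => ?_⟩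
    have h1 : ∃ u', ιU u' = ιU u := ⟨u, rfl⟩
    dsimp only
    rw [dif_pos h1]
    exact congrArg some (ιU.injective h1.choose_spec)
  have hcut : ∀ s : Fin (Fintype.card (Gm ν S × (Fin 3 × Fin k))) → Bool,
      P.Correct ρ (WD S L c (sigD s)) := fun s =>
    h _ (fun u => by simp [WD]) fun u v huv => WD_bd hL1 c _ huv
  choose hc1 x hx1 hx2 using hcut
  set pa : Gm ν S × (Fin k × Fin k × Fin k) → Fin n :=
    fun z => ιU (Sum.inl (z.1.1, z.2.1)) with hpa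
  set px : Gm ν S × (Fin k × Fin k × Fin k) → Fin n := fun z => ιU (Sum.inr (Sum.inl
    (⟨z.1.1 + z.1.2, by have := z.1.1.2; have := hSν _ z.1.2.2; omega⟩, z.2.2.1))) with hpx
  set pb : Gm ν S × (Fin k × Fin k × Fin k) → Fin n := fun z => ιU (Sum.inr (Sum.inr
    (⟨z.1.1 + 2 * z.1.2, by have := z.1.1.2; have := hSν _ z.1.2.2; omega⟩, z.2.2.2))) with hpb
  have hax : ∀ z, pa z ≠ px z := fun z h => by simpa using ιU.injective h
  have hxb : ∀ z, px z ≠ pb z := fun z h => by simpa using ιU.injective h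
  have hab : ∀ z, pa z ≠ pb z := fun z h => by simpa using ιU.injective h
  -- the short edges of a critical triple
  have rax : ∀ s z, WD S L c (sigD s) (pa z) (px z) =
      if s (Ix.emb z 0) = s (Ix.emb z 1) then 1 else L := by
    intro s z
    unfold WD
    rw [if_neg (hax z), hc, hc]
    have e5 := sigD_emb s z 0
    have e6 := sigD_emb s z 1
    simp only [Matrix.cons_val_zero, Matrix.cons_val_one, Matrix.cons_val] at e5 e6
    rw [← e5, ← e6]
    congr 1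
    refine propext ⟨?_, fun h1 => ⟨z.1.2, z.1.2.2, rfl, h1⟩⟩
    rintro ⟨a, ha, e1, e2⟩
    have e3 : (z.1.1 : ℕ) + (z.1.2 : ℕ) = (z.1.1 : ℕ) + a := e1
    have e4 : a = (z.1.2 : ℕ) := by omega
    subst e4
    exact e2
  have rxb : ∀ s z, WD S L c (sigD s) (px z) (pb z) =
      if s (Ix.emb z 1) = s (Ix.emb z 2) then 1 else L := by
    intro s z
    unfold WD
    rw [if_neg (hxb z), hc, hc]
    have e5 := sigD_emb s z 1
    have e6 := sigD_emb s z 2
    simp only [Matrix.cons_val_one, Matrix.cons_val] at e5 e6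
    rw [← e5, ← e6]
    congr 1
    refine propext ⟨?_, fun h1 => ⟨z.1.1, z.1.2, z.1.2.2, rfl, rfl, h1⟩⟩
    rintro ⟨x₂, a, ha, e1, e2, e3⟩
    have e1' : (z.1.1 : ℕ) + (z.1.2 : ℕ) = x₂ + a := e1
    have e2' : (z.1.1 : ℕ) + 2 * (z.1.2 : ℕ) = x₂ + 2 * a := e2
    have e4 : a = (z.1.2 : ℕ) := by omega
    have e7 : x₂ = (z.1.1 : ℕ) := by omega
    subst e4
    subst e7
    exact e3
  have rab : ∀ s z, WD S L c (sigD s) (pa z) (pb z) =
      if s (Ix.emb z 0) = s (Ix.emb z 2) then 1 else L := by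
    intro s z
    unfold WD
    rw [if_neg (hab z), hc, hc]
    have e5 := sigD_emb s z 0
    have e6 := sigD_emb s z 2
    simp only [Matrix.cons_val_zero, Matrix.cons_val] at e5 e6
    rw [← e5, ← e6]
    congr 1
    refine propext ⟨?_, fun h1 => ⟨z.1.2, z.1.2.2, rfl, h1⟩⟩
    rintro ⟨a, ha, e1, e2⟩
    have e1' : (z.1.1 : ℕ) + 2 * (z.1.2 : ℕ) = z.1.1 + 2 * a := e1
    have e4 : a = (z.1.2 : ℕ) := by omega
    subst e4
    exact e2
  have hdist : ∀ (s : Fin (Fintype.card (Gm ν S × (Fin 3 × Fin k))) → Bool) z,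
      dist (WD S L c (sigD s)) (pa z) (pb z) = WD S L c (sigD s) (pa z) (pb z) := fun s z =>
    dist_WD hS hL1 c (sigD s) (hab z) z.1.2.2 rfl (hc _) (hc _)
  have key := core1d (N := Fintype.card (Gm ν S × (Fin 3 × Fin k)))
    (X := (Fin n → Fin n → ℝ) × P.X)
    (κ := P.E ⊕ (Fin q ⊕ Fin n)) (ι := Fin r ⊕ ({p : Fin n × Fin n // p.1 ≠ p.2} × Bool))
    (M := Fin q → Bool) (q := q) (by simp)
    (fun m => Sum.elim P.eqn (Sum.elim P.bin (fun u => evW u u)))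
    (fun m => Sum.elim P.rhs (Sum.elim (fun j => (if m j then 1 else 0) - P.bin₀ j) fun _ => 0))
    (fun _ => Sum.elim P.ineq (fun p => if p.2 then evW p.1.1.1 p.1.1.2 else - evW p.1.1.1 p.1.1.2))
    (fun _ => Sum.elim P.off (fun p => if p.2 then -1 else L))
    (fun t => ρ • (evW (pa (Ix.dec t)) (px (Ix.dec t)) + evW (px (Ix.dec t)) (pb (Ix.dec t))) -
      (evM (pa (Ix.dec t)) (pb (Ix.dec t))).comp P.out)
    (fun t => - P.out₀ (pa (Ix.dec t)) (pb (Ix.dec t))) (Ix.crit (Gm ν S) k) hρ hL ?_ ?_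
  · obtain ⟨I, hI1, hI2⟩ := key
    have h1 := Ix.card_crit (Γ := Gm ν S) I
    have hG : Fintype.card (Gm ν S) = ν * S.card := by
      rw [Fintype.card_prod, Fintype.card_fin, Fintype.card_coe]
    rw [hG] at h1
    have h2 : (ν : ℝ) * S.card * k ^ 3 ≤
        (((Ix.crit (Gm ν S) k).filter fun t => ∀ δ, t δ ∉ I).card : ℝ) +
        3 * (k ^ 2 * I.card) := by exact_mod_cast h1
    have h4 : 3 * ((k : ℝ) ^ 2 * I.card) ≤ ν * S.card * k ^ 3 / 2 := by
      have h5 : (I.card : ℝ) ≤ ν * S.card * k / 6 := by linarith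
      have h6 : (k : ℝ) ^ 2 * I.card ≤ k ^ 2 * (ν * S.card * k / 6) :=
        mul_le_mul_of_nonneg_left h5 (by positivity)
      have h8 : 3 * ((k : ℝ) ^ 2 * ((ν : ℝ) * S.card * k / 6)) =
        (ν : ℝ) * S.card * (k : ℝ) ^ 3 / 2 := by ring
      linarith
    have h7 : (((Ix.crit (Gm ν S) k).filter fun t => ∀ δ, t δ ∉ I).card : ℝ) ≤
        10 ^ 7 * ρ ^ 2 * (2 * (r + n ^ 2 + 1)) := by
      refine hI2.trans ?_
      refine mul_le_mul_of_nonneg_left ?_ (by positivity)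
      rw [Fintype.card_sum, Fintype.card_prod, Fintype.card_bool, Fintype.card_fin]
      have h1 : Fintype.card {p : Fin n × Fin n // p.1 ≠ p.2} ≤ n ^ 2 := by
        refine (Fintype.card_subtype_le _).trans ?_
        rw [Fintype.card_prod, Fintype.card_fin, pow_two]
      have h1' : ((Fintype.card {p : Fin n × Fin n // p.1 ≠ p.2} : ℕ) : ℝ) ≤ ((n ^ 2 : ℕ) : ℝ) :=
        Nat.cast_le.2 h1
      have hr : (0 : ℝ) ≤ r := Nat.cast_nonneg _
      push_cast at h1' ⊢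
      linarith
    have hρ2 : (0 : ℝ) ≤ ρ ^ 2 := sq_nonneg _
    linarith
  · intro s
    refine ⟨fun j => decide (P.bin j (WD S L c (sigD s), x s) + P.bin₀ j = 1),
      (WD S L c (sigD s), x s), ?_, ?_, ?_⟩
    · rintro (e | j | p)
      · exact (hx1 s).1 e
      · simp only [Sum.elim_inr, Sum.elim_inl]
        rcases (hx1 s).2.2 j with h1 | h1
        · have h2 : ¬ (P.bin j (WD S L c (sigD s), x s) + P.bin₀ j = 1) := by
            rw [h1]
            norm_num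
          simp only [decide_eq_true_eq]
          rw [if_neg h2]
          linarith
        · simp only [decide_eq_true_eq]
          rw [if_pos h1]
          linarith
      · simp [evW, WD]
    · rintro (l | ⟨⟨p, hp⟩, b⟩)
      · exact (hx1 s).2.1 l
      · have hbd := WD_bd (S := S) hL1 c (sigD s) hp
        cases b
        · simp only [Sum.elim_inr, Bool.false_eq_true, if_false, LinearMap.neg_apply, evW,
            LinearMap.coe_mk, AddHom.coe_mk]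
          linarith
        · simp only [Sum.elim_inr, if_true, evW, LinearMap.coe_mk, AddHom.coe_mk]
          linarith
    · intro t ht
      obtain ⟨z, -, rfl⟩ := Finset.mem_map.1 ht
      simp only [Function.Embedding.coeFn_mk]
      rw [Ix.dec_emb, fun_valD, rax, rxb]
      have hlo := hx2 s (pa z) (pb z) (hab z)
      have hup := hc1 s (x s) (hx1 s) (pa z) (pb z) (hab z)
      rw [hdist, rab] at hlo hup
      set D := P.output (WD S L c (sigD s)) (x s) (pa z) (pb z) with hD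
      have hLL : 0 ≤ ρ * (L - 1) := mul_nonneg (by linarith) (by linarith)
      refine ⟨?_, ?_, ?_, ?_⟩
      · have h5 : (1 : ℝ) ≤ D := by
          refine le_trans ?_ hlo
          split_ifs <;> linarith
        split_ifs <;> nlinarith
      · rintro ⟨h3, h4⟩
        have h6 : s (Ix.emb z 0) = s (Ix.emb z 2) := by
          cases hs0 : s (Ix.emb z 0) <;> cases hs1 : s (Ix.emb z 1) <;>
            cases hs2 : s (Ix.emb z 2) <;> simp_all
        rw [if_pos h6] at hup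
        rw [if_neg h3, if_neg (Ne.symm h4)]
        linarith
      · intro h3 h4
        have h6 : s (Ix.emb z 0) = s (Ix.emb z 2) := h3.trans h4.symm
        rw [if_pos h6] at hlo
        rw [if_pos h3, if_pos h4.symm]
        linarith
      · intro h3
        rw [if_neg h3] at hlo
        by_cases h4 : s (Ix.emb z 0) = s (Ix.emb z 1)
        · have h5 : s (Ix.emb z 1) ≠ s (Ix.emb z 2) := fun h => h3 (h4.trans h)
          rw [if_pos h4, if_neg h5]
          linarith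
        · have h5 : s (Ix.emb z 1) = s (Ix.emb z 2) := by
            cases hs0 : s (Ix.emb z 0) <;> cases hs1 : s (Ix.emb z 1) <;>
              cases hs2 : s (Ix.emb z 2) <;> simp_all
          rw [if_neg h4, if_pos h5]
          linarith
  · rintro b ⟨W, y⟩ heq hineq t ht
    obtain ⟨z, -, rfl⟩ := Finset.mem_map.1 ht
    simp only [Function.Embedding.coeFn_mk]
    rw [Ix.dec_emb, fun_valD]
    have hdiag : ∀ u, W u u = 0 := by
      intro u
      have := heq (Sum.inr (Sum.inr u))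
      simpa [evW] using this
    have hbox : ∀ u v, u ≠ v → 1 ≤ W u v ∧ W u v ≤ L := by
      intro u v huv
      have h1 := hineq (Sum.inr (⟨(u, v), huv⟩, true))
      have h2 := hineq (Sum.inr (⟨(u, v), huv⟩, false))
      simp only [Sum.elim_inr, if_true, Bool.false_eq_true, if_false, evW, LinearMap.neg_apply,
        LinearMap.coe_mk, AddHom.coe_mk] at h1 h2
      exact ⟨by linarith, by linarith⟩
    have hW0 : ∀ u v, 0 ≤ W u v := by
      intro u v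
      by_cases huv : u = v
      · rw [huv, hdiag]
      · linarith [(hbox u v huv).1]
    have hfeas : P.Feasible W y := by
      refine ⟨fun e => heq (Sum.inl e), fun l => hineq (Sum.inl l), fun j => ?_⟩
      have h1 := heq (Sum.inr (Sum.inl j))
      simp only [Sum.elim_inr, Sum.elim_inl] at h1
      rw [h1]
      cases b j
      · left; simp
      · right; simp
    have h1 := (h W hdiag hbox).1 y hfeas (pa z) (pb z) (hab z)
    have h2 := dist_le_walk hW0 (hab z) [px z]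
    simp only [walkWeight] at h2
    have h3 : ρ * dist W (pa z) (pb z) ≤ ρ * (W (pa z) (px z) + W (px z) (pb z)) :=
      mul_le_mul_of_nonneg_left h2 (by linarith)
    linarith

/-- few binary variables: a single cut -/
theorem milp_dir_one {r q : ℕ} {ρ L : ℝ} (hρ : 1 ≤ ρ) (hL : 10 * ρ ≤ L) (P : Milp n r q)
    (h : ∀ W : Fin n → Fin n → ℝ, (∀ u, W u u = 0) →
      (∀ u v, u ≠ v → 1 ≤ W u v ∧ W u v ≤ L) → P.Correct ρ W) (hn : 12 ≤ n)
    (hq : 7560 * ρ ^ 2 * q ≤ n) :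
    (n : ℝ) ^ 3 ≤ 10 ^ 11 * ρ ^ 2 * (r + n ^ 2 + 1) := by
  set k : ℕ := n / 6 with hk
  have h4 : 6 * 1 * k ≤ n := by omega
  have h5 : n ≤ 12 * k := by omega
  have h5' : (n : ℝ) ≤ 12 * k := by exact_mod_cast h5
  have hS : ThreeAPFree (({0} : Finset ℕ) : Set ℕ) := by
    intro a ha b hb c hc _
    simp only [Finset.coe_singleton, Set.mem_singleton_iff] at ha hb
    rw [ha, hb]
  have key := milp_dir (ν := 1) (k := k) hρ hL hS (by simp) h4 (by
    simp only [Nat.cast_one, Finset.card_singleton, one_mul]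
    linarith) P h
  simp only [Nat.cast_one, Finset.card_singleton, one_mul] at key
  have h7 : (n : ℝ) ^ 3 ≤ (12 * k) ^ 3 := pow_le_pow_left₀ (Nat.cast_nonneg _) h5' 3
  have h8 : (12 * (k : ℝ)) ^ 3 = 1728 * (k : ℝ) ^ 3 := by ring
  have h9 : 0 ≤ ρ ^ 2 * ((r : ℝ) + n ^ 2 + 1) := by positivity
  rw [h8] at h7
  have h10 : 4 * 10 ^ 7 * ρ ^ 2 * ((r : ℝ) + n ^ 2 + 1) =
    4 * 10 ^ 7 * (ρ ^ 2 * ((r : ℝ) + n ^ 2 + 1)) := by ring
  have h11 : 10 ^ 11 * ρ ^ 2 * ((r : ℝ) + n ^ 2 + 1) =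
    10 ^ 11 * (ρ ^ 2 * ((r : ℝ) + n ^ 2 + 1)) := by ring
  rw [h10] at key
  rw [h11]
  linarith

/-- **The tradeoff for approximate distances.** -/
theorem milp_dir_tradeoff {r q : ℕ} {ρ L : ℝ} (hρ : 1 ≤ ρ) (hL : 10 * ρ ≤ L) (P : Milp n r q)
    (h : ∀ W : Fin n → Fin n → ℝ, (∀ u, W u u = 0) →
      (∀ u v, u ≠ v → 1 ≤ W u v ∧ W u v ≤ L) → P.Correct ρ W) :
    (n : ℝ) ^ 4 ≤ 10 ^ 16 * ρ ^ 2 *
      ((n + ρ ^ 2 * Real.exp (8 * √(Real.log n)) * q) * (r + n ^ 2 + 1)) := by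
  have hR : (n : ℝ) ^ 2 ≤ r + n ^ 2 + 1 := by
    have : (0 : ℝ) ≤ r := Nat.cast_nonneg _
    linarith
  have hq0 : (0 : ℝ) ≤ q := Nat.cast_nonneg _
  have hn0 : (0 : ℝ) ≤ n := Nat.cast_nonneg _
  have hR0 : (0 : ℝ) ≤ r + n ^ 2 + 1 := by positivity
  have hρ2 : 1 ≤ ρ ^ 2 := one_le_pow₀ hρ
  set ℓ : ℝ := Real.exp (4 * √(Real.log n)) with hℓ
  have hℓ1 : 1 ≤ ℓ := Real.one_le_exp (by positivity)
  have hℓ2 : Real.exp (8 * √(Real.log n)) = ℓ ^ 2 := by
    rw [hℓ, ← Real.exp_nat_mul]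
    congr 1
    push_cast
    ring
  rw [hℓ2]
  set R : ℝ := r + n ^ 2 + 1 with hRdef
  have hX1 : 1 ≤ ρ ^ 2 * ℓ := by nlinarith
  have hX0 : 0 ≤ ρ ^ 2 * ℓ := by linarith
  have hXX : ρ ^ 2 * ℓ ≤ ρ ^ 4 * ℓ ^ 2 := by
    calc ρ ^ 2 * ℓ ≤ (ρ ^ 2 * ℓ) * (ρ ^ 2 * ℓ) := le_mul_of_one_le_right hX0 hX1
      _ = ρ ^ 4 * ℓ ^ 2 := by ring
  have hform : 10 ^ 16 * ρ ^ 2 * (((n : ℝ) + ρ ^ 2 * ℓ ^ 2 * q) * R) =
      10 ^ 16 * (ρ ^ 2 * (n * R)) + 10 ^ 16 * ((ρ ^ 4 * ℓ ^ 2) * (q * R)) := by ring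
  rw [hform]
  have hA0 : 0 ≤ ρ ^ 2 * ((n : ℝ) * R) := by positivity
  have hB0 : 0 ≤ (ρ ^ 4 * ℓ ^ 2) * ((q : ℝ) * R) := by positivity
  rcases lt_or_ge n 12 with hn | hn
  · have h1 : (n : ℝ) ≤ 12 := by exact_mod_cast hn.le
    have h2 : (n : ℝ) ^ 4 ≤ 12 * (n * R) := by
      calc (n : ℝ) ^ 4 = n * n * n ^ 2 := by ring
        _ ≤ 12 * n * R := mul_le_mul (mul_le_mul_of_nonneg_right h1 hn0) hR (by positivity)
            (by positivity)
        _ = 12 * (n * R) := by ring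
    have h3 : (n : ℝ) * R ≤ ρ ^ 2 * (n * R) := le_mul_of_one_le_left (by positivity) hρ2
    linarith
  rcases le_or_gt (7560 * ρ ^ 2 * q) (n : ℝ) with hq7 | hq7
  · have h1 := milp_dir_one hρ hL P h hn hq7
    rw [← hRdef] at h1
    have h2 : (n : ℝ) * n ^ 3 ≤ n * (10 ^ 11 * ρ ^ 2 * R) := mul_le_mul_of_nonneg_left h1 hn0
    have h3 : (n : ℝ) ^ 4 = n * n ^ 3 := by ring
    have h4 : (n : ℝ) * (10 ^ 11 * ρ ^ 2 * R) = 10 ^ 11 * (ρ ^ 2 * (n * R)) := by ring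
    rw [h3]
    rw [h4] at h2
    linarith
  rcases lt_or_ge ((n : ℝ) ^ 2) (90720 * (ρ ^ 2 * ℓ) * q) with hq | hq
  · have h2 : (n : ℝ) ^ 2 * n ^ 2 ≤ (90720 * (ρ ^ 2 * ℓ) * q) * R :=
      mul_le_mul hq.le hR (by positivity) (by positivity)
    have h3 : (ρ ^ 2 * ℓ) * ((q : ℝ) * R) ≤ (ρ ^ 4 * ℓ ^ 2) * (q * R) :=
      mul_le_mul_of_nonneg_right hXX (by positivity)
    have h5 : (n : ℝ) ^ 4 = (n : ℝ) ^ 2 * (n : ℝ) ^ 2 := by ring
    rw [h5]
    have h6 : (90720 * (ρ ^ 2 * ℓ) * (q : ℝ)) * R = 90720 * ((ρ ^ 2 * ℓ) * ((q : ℝ) * R)) := by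
      ring
    rw [h6] at h2
    linarith
  have hn12 : (12 : ℝ) ≤ n := by exact_mod_cast hn
  have hnpos : (0 : ℝ) < n := by linarith
  -- the number of the blocks
  set y : ℝ := 7560 * (ρ ^ 2 * ℓ) * q / n with hy
  have hy0 : 0 ≤ y := by positivity
  have hyn : y * n = 7560 * (ρ ^ 2 * ℓ) * q := by
    rw [hy]
    field_simp
  have hy1 : 1 ≤ y := by
    have h1 : 1 * (n : ℝ) ≤ y * n := by
      rw [hyn, one_mul]
      calc (n : ℝ) ≤ 7560 * ρ ^ 2 * q := hq7.le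
        _ ≤ 7560 * ρ ^ 2 * q * ℓ := le_mul_of_one_le_right (by positivity) hℓ1
        _ = _ := by ring
    exact le_of_mul_le_mul_right h1 hnpos
  set ν : ℕ := ⌊y⌋₊ + 1 with hν
  have hν1 : y < ν := by
    rw [hν]
    push_cast
    exact Nat.lt_floor_add_one y
  have hν2 : (ν : ℝ) ≤ 2 * y := by
    rw [hν]
    push_cast
    linarith [Nat.floor_le hy0]
  have hνpos : 0 < ν := Nat.succ_pos _
  have hν0 : (0 : ℝ) < ν := by exact_mod_cast hνpos
  have h6ν : (6 : ℝ) * ν ≤ n := by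
    have h1 : 12 * y ≤ n := by
      have h2 : 12 * y * n ≤ n * n := by
        calc 12 * y * n = 12 * (y * n) := by ring
          _ = 90720 * (ρ ^ 2 * ℓ) * q := by rw [hyn]; ring
          _ ≤ (n : ℝ) ^ 2 := hq
          _ = n * n := by ring
      exact le_of_mul_le_mul_right h2 hnpos
    linarith
  have h6ν' : 6 * ν ≤ n := by exact_mod_cast h6ν
  have hνn : ν ≤ n := by omega
  set k : ℕ := n / (6 * ν) with hk
  have h4 : 6 * ν * k ≤ n := by
    rw [hk]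
    exact Nat.mul_div_le n (6 * ν)
  have hk1 : 1 ≤ k := by
    rw [hk]
    exact Nat.div_pos h6ν' (by omega)
  have h5 : n ≤ 12 * (ν * k) := by
    have h6 : n < 6 * ν * (k + 1) := by
      rw [hk]
      exact Nat.lt_mul_div_succ n (by omega)
    have h7 : 6 * ν * (k + 1) ≤ 12 * (ν * k) := by
      have : ν ≤ ν * k := Nat.le_mul_of_pos_right ν hk1
      calc 6 * ν * (k + 1) = 6 * (ν * k) + 6 * ν := by ring
        _ ≤ 6 * (ν * k) + 6 * (ν * k) := by omega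
        _ = _ := by ring
    exact h6.le.trans h7
  have h5' : (n : ℝ) ≤ 12 * (ν * k) := by exact_mod_cast h5
  -- the set without progressions
  obtain ⟨S, hSsub, hScard, hSfree⟩ := rothNumberNat_spec ν
  have hSν : ∀ a ∈ S, a < ν := fun a ha => Finset.mem_range.1 (hSsub ha)
  have hScard' : (ν : ℝ) ≤ ℓ * S.card := by
    have h1 := Behrend.roth_lower_bound (N := ν)
    rw [← hScard] at h1
    have h2 : Real.exp (-4 * √(Real.log ν)) ≥ ℓ⁻¹ := by
      rw [hℓ, ← Real.exp_neg]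
      refine Real.exp_le_exp.2 ?_
      have h3 : √(Real.log ν) ≤ √(Real.log n) := Real.sqrt_le_sqrt
        (Real.log_le_log hν0 (by exact_mod_cast hνn))
      linarith
    have h3 : (ν : ℝ) * ℓ⁻¹ ≤ S.card := (mul_le_mul_of_nonneg_left h2 hν0.le).trans h1
    have hℓ0 : 0 < ℓ := by linarith
    calc (ν : ℝ) = ℓ * (ν * ℓ⁻¹) := by
          field_simp
      _ ≤ ℓ * S.card := mul_le_mul_of_nonneg_left h3 hℓ0.le
  have hℓ0 : 0 < ℓ := by linarith
  have hk0 : (0 : ℝ) ≤ k := Nat.cast_nonneg _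
  have hqq : 630 * ρ ^ 2 * q ≤ (ν : ℝ) * S.card * k := by
    have h1 : 7560 * (ρ ^ 2 * ℓ) * q ≤ ν * n := by
      rw [← hyn]
      exact mul_le_mul_of_nonneg_right hν1.le hn0
    have h2 : (ν : ℝ) * n ≤ ν * (12 * (ν * k)) := mul_le_mul_of_nonneg_left h5' hν0.le
    have h3 : (ν : ℝ) * (12 * (ν * k)) ≤ ν * (12 * ((ℓ * S.card) * k)) := by
      refine mul_le_mul_of_nonneg_left ?_ hν0.le
      refine mul_le_mul_of_nonneg_left ?_ (by norm_num)
      exact mul_le_mul_of_nonneg_right hScard' hk0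
    have h6 : (12 * ℓ) * (630 * ρ ^ 2 * q) ≤ (12 * ℓ) * ((ν : ℝ) * S.card * k) := by
      calc (12 * ℓ) * (630 * ρ ^ 2 * q) = 7560 * (ρ ^ 2 * ℓ) * q := by ring
        _ ≤ _ := h1.trans (h2.trans h3)
        _ = _ := by ring
    exact le_of_mul_le_mul_left h6 (by positivity)
  have key := milp_dir hρ hL hSfree hSν h4 hqq P h
  rw [← hRdef] at key
  have h7 : (n : ℝ) ^ 3 ≤ 1728 * ν * ((ν : ℝ) ^ 2 * k ^ 3) := by
    calc (n : ℝ) ^ 3 ≤ (12 * (ν * k)) ^ 3 := pow_le_pow_left₀ hn0 h5' 3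
      _ = _ := by ring
  have h8 : (ν : ℝ) ^ 2 * (k : ℝ) ^ 3 ≤ ℓ * (4 * 10 ^ 7 * ρ ^ 2 * R) := by
    have h9 : (ν : ℝ) * ν ≤ ν * (ℓ * S.card) := mul_le_mul_of_nonneg_left hScard' hν0.le
    calc (ν : ℝ) ^ 2 * (k : ℝ) ^ 3 = (ν * ν) * (k : ℝ) ^ 3 := by ring
      _ ≤ (ν * (ℓ * S.card)) * (k : ℝ) ^ 3 := mul_le_mul_of_nonneg_right h9 (by positivity)
      _ = ℓ * ((ν : ℝ) * S.card * (k : ℝ) ^ 3) := by ring
      _ ≤ _ := mul_le_mul_of_nonneg_left key hℓ0.le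
  have h10 : (n : ℝ) ^ 3 ≤ 1728 * ν * (ℓ * (4 * 10 ^ 7 * ρ ^ 2 * R)) :=
    h7.trans (mul_le_mul_of_nonneg_left h8 (by positivity))
  have h11 : (ν : ℝ) * n ≤ 15120 * (ρ ^ 2 * ℓ) * q := by
    have h12 : (ν : ℝ) * n ≤ (2 * y) * n := mul_le_mul_of_nonneg_right hν2 hn0
    have h13 : (2 * y) * (n : ℝ) = 15120 * (ρ ^ 2 * ℓ) * q := by
      rw [mul_assoc, hyn]
      ring
    rw [h13] at h12
    exact h12
  have e1 : (n : ℝ) ^ 4 ≤ n * (1728 * ν * (ℓ * (4 * 10 ^ 7 * ρ ^ 2 * R))) := by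
    have e2 : (n : ℝ) * n ^ 3 ≤ n * (1728 * ν * (ℓ * (4 * 10 ^ 7 * ρ ^ 2 * R))) :=
      mul_le_mul_of_nonneg_left h10 hn0
    calc (n : ℝ) ^ 4 = n * n ^ 3 := by ring
      _ ≤ _ := e2
  refine e1.trans ?_
  have e3 : (n : ℝ) * (1728 * ν * (ℓ * (4 * 10 ^ 7 * ρ ^ 2 * R))) =
      (ν * n) * (6912 * 10 ^ 7 * (ρ ^ 2 * ℓ) * R) := by ring
  have e4 : ((ν : ℝ) * n) * (6912 * 10 ^ 7 * (ρ ^ 2 * ℓ) * R) ≤
      (15120 * (ρ ^ 2 * ℓ) * q) * (6912 * 10 ^ 7 * (ρ ^ 2 * ℓ) * R) :=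
    mul_le_mul_of_nonneg_right h11 (by positivity)
  have e5 : (15120 * (ρ ^ 2 * ℓ) * (q : ℝ)) * (6912 * 10 ^ 7 * (ρ ^ 2 * ℓ) * R) =
      104509440 * 10 ^ 7 * ((ρ ^ 4 * ℓ ^ 2) * (q * R)) := by ring
  rw [e3]
  rw [e5] at e4
  linarith

end Pool.Agent.H98.AM
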