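import Pool.Agent.H98.AMCore

/-!
# H98.AM: unions of projections of polyhedra
-/

set_option autoImplicit false

namespace Pool.Agent.H98.AM

open Finset Pool.Agent.H98.AL

variable {N : ℕ}

/-- `(2 θ) ^ k ≤ 2 ^ q` bounds `k` -/
theorem fixed_le {ρ : ℝ} (hρ : 1 ≤ ρ) {k q : ℕ} (h : (2 * th ρ) ^ k ≤ 2 ^ q) :
    (k : ℝ) ≤ 105 * ρ ^ 2 * q := by
  have hρ2 : 1 ≤ ρ ^ 2 := one_le_pow₀ hρ
  rw [two_th] at h
  obtain ⟨hx0, hx1⟩ := th_bd hρ
  have h1 : Real.log ((1 + 1 / (150 * ρ ^ 2)) ^ k) ≤ Real.log (2 ^ q) :=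
    Real.log_le_log (by positivity) h
  rw [Real.log_pow, Real.log_pow] at h1
  have h2 : 1 / (151 * ρ ^ 2) ≤ Real.log (1 + 1 / (150 * ρ ^ 2)) := by
    refine le_trans ?_ (Real.one_sub_inv_le_log_of_pos (by positivity))
    have h3 : 1 - (1 + 1 / (150 * ρ ^ 2))⁻¹ = 1 / (150 * ρ ^ 2 + 1) := by
      field_simp
      ring
    rw [h3]
    exact one_div_le_one_div_of_le (by positivity) (by linarith)
  have h3 := Real.log_two_lt_d9
  have h4 : (k : ℝ) * (1 / (151 * ρ ^ 2)) ≤ q * 0.6931471808 := by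
    calc (k : ℝ) * (1 / (151 * ρ ^ 2)) ≤ k * Real.log (1 + 1 / (150 * ρ ^ 2)) :=
          mul_le_mul_of_nonneg_left h2 (Nat.cast_nonneg _)
      _ ≤ q * Real.log 2 := h1
      _ ≤ q * 0.6931471808 := mul_le_mul_of_nonneg_left h3.le (Nat.cast_nonneg _)
  have h5 : (k : ℝ) = k * (1 / (151 * ρ ^ 2)) * (151 * ρ ^ 2) := by
    field_simp
  rw [h5]
  have h6 : (k : ℝ) * (1 / (151 * ρ ^ 2)) * (151 * ρ ^ 2) ≤ q * 0.6931471808 * (151 * ρ ^ 2) :=
    mul_le_mul_of_nonneg_right h4 (by positivity)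
  refine h6.trans ?_
  have h7 : (0 : ℝ) ≤ ρ ^ 2 * q := by positivity
  nlinarith

/-- **The bound for unions of projections of polyhedra.** `M` is the set of pieces, at most `2 ^ q`
many; `x` ranges over a real vector space; `𝒯` is a set of triples of bits. -/
theorem core1d {X : Type*} [AddCommGroup X] [Module ℝ X] {κ ι M : Type*} [Fintype ι] [Fintype M]
    {q : ℕ} (hM : Fintype.card M ≤ 2 ^ q)
    (eqn : M → κ → X →ₗ[ℝ] ℝ) (rhs : M → κ → ℝ) (a : M → ι → X →ₗ[ℝ] ℝ) (b : M → ι → ℝ)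
    (φ : (Fin 3 ↪ Fin N) → X →ₗ[ℝ] ℝ) (φ₀ : (Fin 3 ↪ Fin N) → ℝ) (𝒯 : Finset (Fin 3 ↪ Fin N))
    {ρ Λ : ℝ} (hρ : 1 ≤ ρ) (hΛ : 10 * ρ ≤ Λ)
    (h : ∀ s : Fin N → Bool, ∃ m x, (∀ e, eqn m e x = rhs m e) ∧
      (∀ l, 0 ≤ a m l x + b m l) ∧ ∀ t ∈ 𝒯, φ t x + φ₀ t ≤ 2 * ρ * Λ ∧
        (s (t 0) ≠ s (t 1) ∧ s (t 2) ≠ s (t 1) → 2 * ρ * Λ - ρ ≤ φ t x + φ₀ t) ∧
        (s (t 0) = s (t 1) → s (t 2) = s (t 1) → φ t x + φ₀ t ≤ 2 * ρ - 1) ∧
        (s (t 0) ≠ s (t 2) → φ t x + φ₀ t ≤ (ρ - 1) * Λ + ρ))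
    (hS : ∀ m x, (∀ e, eqn m e x = rhs m e) → (∀ l, 0 ≤ a m l x + b m l) →
      ∀ t ∈ 𝒯, 0 ≤ φ t x + φ₀ t) :
    ∃ I : Finset (Fin N), (I.card : ℝ) ≤ 105 * ρ ^ 2 * q ∧
      ((𝒯.filter fun t => ∀ δ, t δ ∉ I).card : ℝ) ≤ 10 ^ 7 * ρ ^ 2 * (Fintype.card ι + 1) := by
  classical
  choose μ p hp1 hp2 hp3 using h
  have hMne : (Finset.univ : Finset M).Nonempty := ⟨μ fun _ => false, Finset.mem_univ _⟩
  -- the largest piece
  obtain ⟨m, hm⟩ : ∃ m, (2 : ℝ) ^ N ≤ 2 ^ q * ((Finset.univ.filter fun s => μ s = m).card : ℝ) := by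
    obtain ⟨m, -, hm⟩ := Finset.exists_max_image Finset.univ
      (fun m => (Finset.univ.filter fun s => μ s = m).card) hMne
    refine ⟨m, ?_⟩
    have h1 : (Finset.univ : Finset (Fin N → Bool)).card =
        ∑ m, (Finset.univ.filter fun s => μ s = m).card :=
      Finset.card_eq_sum_card_fiberwise fun s _ => Finset.mem_univ _
    rw [Finset.card_univ, Fintype.card_fun, Fintype.card_bool, Fintype.card_fin] at h1
    have h2 : ∑ m', (Finset.univ.filter fun s => μ s = m').card ≤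
        Fintype.card M * (Finset.univ.filter fun s => μ s = m).card := by
      rw [← Finset.card_univ, ← smul_eq_mul, ← Finset.sum_const]
      exact Finset.sum_le_sum hm
    have h3 : 2 ^ N ≤ 2 ^ q * (Finset.univ.filter fun s => μ s = m).card := by
      rw [h1]
      exact h2.trans (Nat.mul_le_mul_right _ hM)
    exact_mod_cast h3
  set 𝒮₀ := Finset.univ.filter fun s => μ s = m with h𝒮₀
  have hθ0 : 0 ≤ th ρ := by
    unfold th
    positivity
  have hθpos : 0 < th ρ := by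
    unfold th
    positivity
  obtain ⟨I, α, hI1, hI2⟩ := dense hθ0 𝒮₀
  set 𝒮 := 𝒮₀.filter fun s => ∀ x ∈ I, s x = α x with h𝒮
  refine ⟨I, fixed_le hρ (card_fixed hθ0 𝒮₀ hm I α hI1), ?_⟩
  have hne : 𝒮.Nonempty := by
    rw [← Finset.card_pos]
    have h1 : (0 : ℝ) < 𝒮₀.card := by
      have h2 : (0 : ℝ) < 2 ^ N := by positivity
      have h3 := h2.trans_le hm
      by_contra hcon
      have h4 : (𝒮₀.card : ℝ) = 0 := le_antisymm (not_lt.1 hcon) (Nat.cast_nonneg _)
      rw [h4, mul_zero] at h3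
      exact lt_irrefl _ h3
    have h2 : (0 : ℝ) < th ρ ^ I.card * 𝒮₀.card := by positivity
    exact_mod_cast h2.trans_le hI1
  have hμ : ∀ s ∈ 𝒮, μ s = m := fun s hs =>
    (Finset.mem_filter.1 (Finset.mem_filter.1 hs).1).2
  let e := (Fintype.equivFin ι).symm
  obtain ⟨s₀, hs₀⟩ := hne
  have hfark : ∀ t : Fin 3 ↪ Fin N, ∃ w : Option ι → ℝ, (∀ l, 0 ≤ w l) ∧
      (t ∈ 𝒯 → ∀ s, μ s = m → φ t (p s) + φ₀ t =
        w none + ∑ l, w (some l) * (a m l (p s) + b m l)) := by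
    intro t
    by_cases ht : t ∈ 𝒯
    · have hμs₀ := hμ s₀ hs₀
      have hp1' := hp1 s₀
      have hp2' := hp2 s₀
      rw [hμs₀] at hp1' hp2'
      obtain ⟨u₀, hu₀, u, hu, hall⟩ := affine_farkas (eqn m) (rhs m)
        (fun l => a m (e l)) (fun l => b m (e l)) (φ t) (φ₀ t) (p s₀)
        hp1' (fun l => hp2' _) (by
          intro x hx1 hx2
          refine hS m x hx1 (fun l => ?_) t ht
          have := hx2 (e.symm l)
          simpa using this)
      refine ⟨fun o => o.elim u₀ fun l => u (e.symm l), ?_, ?_⟩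
      · rintro (_ | l)
        · exact hu₀
        · exact hu _
      · intro _ s hs
        have h1 := hall (p s) (by rw [← hs]; exact hp1 s)
        rw [h1]
        simp only [Option.elim]
        congr 1
        rw [← Equiv.sum_comp e]
        simp
    · exact ⟨fun _ => 0, fun _ => le_rfl, fun h => absurd h ht⟩
  choose w hw hsl using hfark
  have hfac : ∀ t ∈ 𝒯, ∀ s ∈ 𝒮, ∑ l : Option ι, w t l * (if μ s = m then
        (l.elim 1 fun l' => a m l' (p s) + b m l') else 0) = φ t (p s) + φ₀ t := by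
    intro t ht s hs
    rw [Fintype.sum_option, hsl t ht s (hμ s hs)]
    simp [hμ s hs]
  have key := core0d hρ hΛ hI2 ⟨s₀, hs₀⟩ (𝒯.filter fun t => ∀ δ, t δ ∉ I)
    (fun t ht => (Finset.mem_filter.1 ht).2) w
    (fun (l : Option ι) s => if μ s = m then
        (l.elim 1 fun l' => a m l' (p s) + b m l') else 0)
    hw (by
      rintro o s
      split_ifs with hs
      · cases o with
        | none => exact zero_le_one
        | some l =>
          have := hp2 s l
          rw [hs] at this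
          exact this
      · exact le_rfl)
    (fun t ht s hs => by rw [hfac t (Finset.mem_filter.1 ht).1 s hs]
                         exact (hp3 s t (Finset.mem_filter.1 ht).1).1)
    (fun t ht s hs h1 => by rw [hfac t (Finset.mem_filter.1 ht).1 s hs]
                            exact (hp3 s t (Finset.mem_filter.1 ht).1).2.1 h1)
    (fun t ht s hs h1 h2 => by rw [hfac t (Finset.mem_filter.1 ht).1 s hs]
                               exact (hp3 s t (Finset.mem_filter.1 ht).1).2.2.1 h1 h2)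
    (fun t ht s hs h1 => by rw [hfac t (Finset.mem_filter.1 ht).1 s hs]
                            exact (hp3 s t (Finset.mem_filter.1 ht).1).2.2.2 h1)
  rw [Fintype.card_option] at key
  push_cast at key
  exact key

/-- the number of the triples outside of a set -/
theorem card_free (I : Finset (Fin N)) :
    ((N - I.card : ℕ).descFactorial 3 : ℝ) ≤
      (((Finset.univ : Finset (Fin 3 ↪ Fin N)).filter fun t => ∀ δ, t δ ∉ I).card : ℝ) := by
  classical
  have h1 : Fintype.card (Fin 3 ↪ {x // x ∉ I}) ≤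
      ((Finset.univ : Finset (Fin 3 ↪ Fin N)).filter fun t => ∀ δ, t δ ∉ I).card := by
    rw [← Finset.card_univ]
    refine Finset.card_le_card_of_injOn
      (fun t => t.trans (Function.Embedding.subtype _)) ?_ ?_
    · intro t _
      refine Finset.mem_coe.2 (Finset.mem_filter.2 ⟨Finset.mem_univ _, fun δ => (t δ).2⟩)
    · intro t _ t' _ h
      ext δ
      have := DFunLike.congr_fun h δ
      exact congrArg Fin.val this
  rw [Fintype.card_embedding_eq, Fintype.card_fin] at h1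
  have h2 : Fintype.card {x // x ∉ I} = N - I.card := by
    rw [Fintype.card_subtype_compl, Fintype.card_fin, Fintype.card_coe]
  rw [h2] at h1
  exact_mod_cast h1

theorem descFactorial_three (m : ℕ) : ((m.descFactorial 3 : ℕ) : ℝ) = m * (m - 1) * (m - 2) := by
  rcases m with _ | _ | m
  · simp [Nat.descFactorial]
  · simp [Nat.descFactorial]
  · have : (m + 2).descFactorial 3 = m * ((m + 1) * (m + 2)) := by
      simp [Nat.descFactorial]
    rw [this]
    push_cast
    ring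

end Pool.Agent.H98.AM
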