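import Pool.Agent.H98.CVFace

/-!
# H98.CV: fooling families of second-order cones and of cones of semidefinite matrices
-/

set_option autoImplicit false

namespace Pool.Agent.H98.CV

open Finset

/-! ### A relation on a small set -/

/-- if every two elements are joined by an arrow and every element has at most one outgoing
arrow, then there are at most three elements -/
theorem card_le_three {ι : Type*} (T : Finset ι) (R : ι → ι → Prop)
    (h1 : ∀ t ∈ T, ∀ t' ∈ T, t ≠ t' → R t t' ∨ R t' t)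
    (h2 : ∀ t ∈ T, ∀ a ∈ T, ∀ b ∈ T, t ≠ a → t ≠ b → R t a → R t b → a = b) : T.card ≤ 3 := by
  classical
  set A := T.offDiag.filter fun x => R x.1 x.2 with hA
  set B := T.offDiag.filter fun x => R x.2 x.1 with hB
  have h3 : T.offDiag ⊆ A ∪ B := by
    intro x hx
    have hx' := Finset.mem_offDiag.1 hx
    rcases h1 _ hx'.1 _ hx'.2.1 hx'.2.2 with h | h
    · exact Finset.mem_union_left _ (Finset.mem_filter.2 ⟨hx, h⟩)
    · exact Finset.mem_union_right _ (Finset.mem_filter.2 ⟨hx, h⟩)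
  have h4 : A.card ≤ T.card := by
    refine Finset.card_le_card_of_injOn (fun x => x.1) ?_ ?_
    · intro x hx
      exact (Finset.mem_offDiag.1 (Finset.mem_filter.1 hx).1).1
    · rintro ⟨a, b⟩ hx ⟨a', b'⟩ hy hxy
      dsimp only at hxy
      subst hxy
      have hx' := Finset.mem_filter.1 hx
      have hy' := Finset.mem_filter.1 hy
      have hx'' := Finset.mem_offDiag.1 hx'.1
      have hy'' := Finset.mem_offDiag.1 hy'.1
      rw [h2 a hx''.1 b hx''.2.1 b' hy''.2.1 hx''.2.2 hy''.2.2 hx'.2 hy'.2]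
  have h5 : B.card ≤ T.card := by
    refine Finset.card_le_card_of_injOn (fun x => x.2) ?_ ?_
    · intro x hx
      exact (Finset.mem_offDiag.1 (Finset.mem_filter.1 hx).1).2.1
    · rintro ⟨a, b⟩ hx ⟨a', b'⟩ hy hxy
      dsimp only at hxy
      subst hxy
      have hx' := Finset.mem_filter.1 hx
      have hy' := Finset.mem_filter.1 hy
      have hx'' := Finset.mem_offDiag.1 hx'.1
      have hy'' := Finset.mem_offDiag.1 hy'.1
      rw [h2 b hx''.2.1 a hx''.1 a' hy''.1 (Ne.symm hx''.2.2) (Ne.symm hy''.2.2) hx'.2 hy'.2]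
  have h6 := (Finset.card_le_card h3).trans (Finset.card_union_le _ _)
  rw [Finset.offDiag_card] at h6
  by_contra h7
  push Not at h7
  have h8 : 4 * T.card ≤ T.card * T.card := Nat.mul_le_mul_right _ h7
  omega

/-! ### Second-order cones -/

section

variable {E : Type*} [NormedAddCommGroup E] [InnerProductSpace ℝ E]

/-- the second-order cone -/
def Soc (E : Type*) [NormedAddCommGroup E] : Set (E × ℝ) := {p | ‖p.1‖ ≤ p.2}

theorem soc_convex : Convex ℝ (Soc E) := by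
  intro x hx y hy a b ha hb _
  change ‖a • x.1 + b • y.1‖ ≤ a * x.2 + b * y.2
  refine (norm_add_le _ _).trans ?_
  rw [norm_smul, norm_smul, Real.norm_eq_abs, Real.norm_eq_abs, abs_of_nonneg ha, abs_of_nonneg hb]
  exact add_le_add (mul_le_mul_of_nonneg_left hx ha) (mul_le_mul_of_nonneg_left hy hb)

theorem soc_smul {z : E × ℝ} (hz : z ∈ Soc E) {c : ℝ} (hc : 0 ≤ c) : c • z ∈ Soc E := by
  change ‖c • z.1‖ ≤ c * z.2
  rw [norm_smul, Real.norm_eq_abs, abs_of_nonneg hc]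
  exact mul_le_mul_of_nonneg_left hz hc

theorem soc_smul_face {z : E × ℝ} (hz : z ∈ Soc E) {c : ℝ} (hc : 0 ≤ c) :
    c • z ∈ Face (Soc E) z := by
  refine ⟨soc_smul hz hc, 1 / (1 + c), by positivity, ?_⟩
  have h1 : (1 + 1 / (1 + c)) • z - (1 / (1 + c)) • c • z = (2 / (1 + c)) • z := by
    rw [smul_smul, ← sub_smul]
    congr 1
    field_simp
    ring
  rw [h1]
  exact soc_smul hz (by positivity)

/-- the face of an interior point -/
theorem soc_interior {z y : E × ℝ} (hz : ‖z.1‖ < z.2) (hy : y ∈ Soc E) : y ∈ Face (Soc E) z := by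
  have hy' : ‖y.1‖ ≤ y.2 := hy
  have h0 := norm_nonneg y.1
  set r : ℝ := (z.2 - ‖z.1‖) / (‖y.1‖ + y.2 + 1) with hr
  have hr0 : 0 < r := div_pos (by linarith) (by linarith)
  refine ⟨hy, r, hr0, ?_⟩
  change ‖(1 + r) • z.1 - r • y.1‖ ≤ (1 + r) * z.2 - r * y.2
  refine (norm_sub_le _ _).trans ?_
  rw [norm_smul, norm_smul, Real.norm_eq_abs, Real.norm_eq_abs, abs_of_pos hr0,
    abs_of_pos (by linarith)]
  have h1 : r * (‖y.1‖ + y.2 + 1) = z.2 - ‖z.1‖ := by
    rw [hr]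
    exact div_mul_cancel₀ _ (by linarith)
  nlinarith

/-- the face of a boundary point is a ray -/
theorem soc_ray {z y : E × ℝ} (hz : ‖z.1‖ = z.2) (hy : y ∈ Face (Soc E) z) :
    z.2 • y = y.2 • z := by
  obtain ⟨hy1, r, hr, h⟩ := hy
  have hy1' : ‖y.1‖ ≤ y.2 := hy1
  have h' : ‖(1 + r) • z.1 - r • y.1‖ ≤ (1 + r) * z.2 - r * y.2 := h
  have hz0 : 0 ≤ z.2 := by rw [← hz]; exact norm_nonneg _
  have h1 : z.2 * y.2 ≤ inner ℝ y.1 z.1 := by
    have h2 : inner ℝ ((1 + r) • z.1 - r • y.1) z.1 ≤ ((1 + r) * z.2 - r * y.2) * z.2 := by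
      refine (real_inner_le_norm _ _).trans ?_
      rw [hz]
      exact mul_le_mul_of_nonneg_right h' hz0
    rw [inner_sub_left, real_inner_smul_left, real_inner_smul_left, real_inner_self_eq_norm_sq,
      hz] at h2
    have h3 : r * (z.2 * y.2) ≤ r * inner ℝ y.1 z.1 := by nlinarith
    exact le_of_mul_le_mul_left h3 hr
  have h2 : ‖z.2 • y.1 - y.2 • z.1‖ ^ 2 ≤ 0 := by
    rw [norm_sub_sq_real, norm_smul, norm_smul, real_inner_smul_left, real_inner_smul_right, hz,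
      mul_pow, mul_pow, Real.norm_eq_abs, Real.norm_eq_abs, sq_abs, sq_abs]
    have h3 : ‖y.1‖ ^ 2 ≤ y.2 ^ 2 := pow_le_pow_left₀ (norm_nonneg _) hy1' 2
    have hy0 : 0 ≤ y.2 := (norm_nonneg _).trans hy1'
    have h4 : 0 ≤ z.2 * y.2 := mul_nonneg hz0 hy0
    nlinarith [mul_le_mul_of_nonneg_left h3 (sq_nonneg z.2), mul_le_mul_of_nonneg_left h1 h4]
  have h3 : z.2 • y.1 - y.2 • z.1 = 0 := by
    rw [← norm_eq_zero]
    exact pow_eq_zero_iff (two_ne_zero) |>.1 (le_antisymm h2 (sq_nonneg _))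
  refine Prod.ext (sub_eq_zero.1 h3) ?_
  change z.2 * y.2 = y.2 * z.2
  ring

/-- the face of zero -/
theorem soc_zero {z y : E × ℝ} (hz : ‖z.1‖ = z.2) (hz0 : z.2 = 0) (hy : y ∈ Face (Soc E) z) :
    y = 0 := by
  obtain ⟨hy1, r, hr, h⟩ := hy
  have hy1' : ‖y.1‖ ≤ y.2 := hy1
  have h' : ‖(1 + r) • z.1 - r • y.1‖ ≤ (1 + r) * z.2 - r * y.2 := h
  have h1 := (norm_nonneg _).trans h'
  rw [hz0] at h1
  have h2 : y.2 ≤ 0 := by
    by_contra h3
    push Not at h3
    have := mul_pos hr h3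
    linarith
  have h3 : y.2 = 0 := le_antisymm h2 ((norm_nonneg _).trans hy1')
  have h4 : y.1 = 0 := by
    rw [← norm_le_zero_iff, ← h3]
    exact hy1'
  exact Prod.ext h4 h3

theorem ray_chain {V : Type*} [AddCommGroup V] [Module ℝ V] {za yb zt ya : V} {α β τ σ : ℝ}
    (hτ : τ ≠ 0) (hβ : β ≠ 0) (e1 : τ • ya = σ • zt) (e2 : τ • yb = β • zt)
    (e3 : α • yb = β • za) : α • ya = σ • za := by
  have h1 : (τ * β) • (α • ya) = (τ * β) • (σ • za) := by
    calc (τ * β) • (α • ya) = (α * β) • (τ • ya) := by module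
      _ = (α * σ) • (β • zt) := by rw [e1]; module
      _ = (τ * σ) • (α • yb) := by rw [← e2]; module
      _ = (τ * β) • (σ • za) := by rw [e3]; module
  exact smul_right_injective V (mul_ne_zero hτ hβ) h1

theorem fool_soc : Fool (Soc E) 3 := by
  intro ι T z y hz hy hne hft
  have hzb : ∀ t ∈ T, ‖(z t).1‖ = (z t).2 := by
    intro t ht
    by_contra h
    exact hne t ht (soc_interior (lt_of_le_of_ne (hz t ht) h) (hy t ht))
  have hy0 : ∀ t ∈ T, (y t).2 ≠ 0 := by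
    intro t ht h
    have h1 : (y t).1 = 0 := by
      rw [← norm_le_zero_iff, ← h]
      exact hy t ht
    have h2 : y t = (0 : ℝ) • z t := by
      rw [zero_smul]
      exact Prod.ext h1 h
    exact hne t ht (h2 ▸ soc_smul_face (hz t ht) le_rfl)
  have hypos : ∀ t ∈ T, 0 < (y t).2 := fun t ht =>
    lt_of_le_of_ne ((norm_nonneg _).trans (hy t ht)) (Ne.symm (hy0 t ht))
  have hzpos : ∀ t ∈ T, ∀ a ∈ T, y a ∈ Face (Soc E) (z t) → 0 < (z t).2 := by
    intro t ht a ha h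
    refine lt_of_le_of_ne ((norm_nonneg _).trans (hz t ht)) fun h0 => ?_
    have h1 := soc_zero (hzb t ht) h0.symm h
    exact hy0 a ha (by rw [h1]; rfl)
  have key : ∀ t ∈ T, ∀ a ∈ T, ∀ b ∈ T, y a ∈ Face (Soc E) (z t) → y b ∈ Face (Soc E) (z t) →
      ¬ y b ∈ Face (Soc E) (z a) := by
    intro t ht a ha b hb h1 h2 h3
    have e1 := soc_ray (hzb t ht) h1
    have e2 := soc_ray (hzb t ht) h2
    have e3 := soc_ray (hzb a ha) h3
    have p1 := hzpos t ht a ha h1
    have p3 := hzpos a ha b hb h3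
    have pa := hypos a ha
    have pb := hypos b hb
    refine hne a ha ?_
    have h4 : y a = ((y a).2 / (z a).2) • z a := by
      have h5 := ray_chain p1.ne' pb.ne' e1 e2 e3
      rw [div_eq_inv_mul, mul_smul, ← h5, smul_smul, inv_mul_cancel₀ p3.ne', one_smul]
    rw [h4]
    exact soc_smul_face (hz a ha) (by positivity)
  refine card_le_three T (fun t t' => y t' ∈ Face (Soc E) (z t))
    (fun t ht t' ht' htt => hft t ht t' ht' htt) ?_
  intro t ht a ha b hb _ _ h1 h2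
  by_contra hab
  rcases hft a ha b hb hab with h3 | h3
  · exact key t ht a ha b hb h1 h2 h3
  · exact key t ht b hb a ha h2 h1 h3

end

/-! ### Semidefinite matrices -/

section

open scoped MatrixOrder
open Matrix

variable {k : ℕ}

theorem psd_convex : Convex ℝ {A : Matrix (Fin k) (Fin k) ℝ | A.PosSemidef} := by
  intro A hA B hB a b ha hb _
  exact (Matrix.PosSemidef.smul hA ha).add (Matrix.PosSemidef.smul hB hb)

/-- if the kernel of `G` contains the kernel of `B`, then `G x` is bounded by `B x` -/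
theorem bound_of_ker {B G : Matrix (Fin k) (Fin k) ℝ} (h : ∀ x, B *ᵥ x = 0 → G *ᵥ x = 0) :
    ∃ c : ℝ, 0 ≤ c ∧ ∀ x, (G *ᵥ x) ⬝ᵥ (G *ᵥ x) ≤ c * ((B *ᵥ x) ⬝ᵥ (B *ᵥ x)) := by
  have h1 : ∃ M : (Fin k → ℝ) →ₗ[ℝ] (Fin k → ℝ), ∀ x, G *ᵥ x = M (B *ᵥ x) := by
    have hk : LinearMap.ker B.mulVecLin ≤ LinearMap.ker G.mulVecLin := by
      intro x hx
      rw [LinearMap.mem_ker, Matrix.mulVecLin_apply] at hx ⊢
      exact h x hx
    obtain ⟨M, hM⟩ := LinearMap.exists_extend
      (((LinearMap.ker B.mulVecLin).liftQ G.mulVecLin hk).comp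
        B.mulVecLin.quotKerEquivRange.symm.toLinearMap)
    refine ⟨M, fun x => ?_⟩
    have h2 := LinearMap.congr_fun hM ⟨B.mulVecLin x, LinearMap.mem_range_self _ x⟩
    simp only [LinearMap.comp_apply, Submodule.subtype_apply, Matrix.mulVecLin_apply,
      LinearEquiv.coe_coe] at h2
    rw [h2]
    have h3 : B.mulVecLin.quotKerEquivRange.symm
        ⟨B *ᵥ x, LinearMap.mem_range_self B.mulVecLin x⟩ =
        (LinearMap.ker B.mulVecLin).mkQ x := by
      rw [LinearEquiv.symm_apply_eq]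
      rfl
    rw [h3, Submodule.mkQ_apply, Submodule.liftQ_apply, Matrix.mulVecLin_apply]
  obtain ⟨M, hM⟩ := h1
  set A := LinearMap.toMatrix' M with hA
  refine ⟨∑ i, ∑ j, A i j ^ 2, Finset.sum_nonneg fun i _ => Finset.sum_nonneg fun j _ => sq_nonneg _,
    fun x => ?_⟩
  have h2 : ∀ i, (G *ᵥ x) i = ∑ j, A i j * (B *ᵥ x) j := by
    intro i
    rw [hM x]
    have : M (B *ᵥ x) = A *ᵥ (B *ᵥ x) := by
      rw [hA, LinearMap.toMatrix'_mulVec]
    rw [this]
    rfl
  simp only [dotProduct]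
  rw [Finset.sum_mul]
  refine Finset.sum_le_sum fun i _ => ?_
  rw [h2 i, ← pow_two]
  refine (Finset.sum_mul_sq_le_sq_mul_sq _ _ _).trans ?_
  simp_rw [pow_two]
  exact le_rfl

theorem psd_face {Z Y : Matrix (Fin k) (Fin k) ℝ} (hZ : Z.PosSemidef) (hY : Y.PosSemidef)
    (h : ∀ x, Z *ᵥ x = 0 → Y *ᵥ x = 0) :
    Y ∈ Face {A : Matrix (Fin k) (Fin k) ℝ | A.PosSemidef} Z := by
  obtain ⟨B, hB⟩ := CStarAlgebra.nonneg_iff_eq_star_mul_self.mp hZ.nonneg
  obtain ⟨G, hG⟩ := CStarAlgebra.nonneg_iff_eq_star_mul_self.mp hY.nonneg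
  rw [star_eq_conjTranspose] at hB hG
  obtain ⟨c, hc, hcB⟩ := bound_of_ker (B := B) (G := G) (by
    intro x hx
    rw [← Matrix.conjTranspose_mul_self_mulVec_eq_zero, ← hG]
    apply h
    rw [hB, Matrix.conjTranspose_mul_self_mulVec_eq_zero]
    exact hx)
  have hq : ∀ (M : Matrix (Fin k) (Fin k) ℝ) (x : Fin k → ℝ),
      star x ⬝ᵥ ((Mᴴ * M) *ᵥ x) = (M *ᵥ x) ⬝ᵥ (M *ᵥ x) := by
    intro M x
    rw [← Matrix.mulVec_mulVec, Matrix.dotProduct_mulVec, Matrix.vecMul_conjTranspose, star_star]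
    rfl
  refine ⟨hY, 1 / (1 + c), by positivity, ?_⟩
  refine Matrix.PosSemidef.of_dotProduct_mulVec_nonneg ?_ fun x => ?_
  · have h1 : ((1 + 1 / (1 + c)) • Z).PosSemidef := Matrix.PosSemidef.smul hZ (by positivity)
    have h2 : ((1 / (1 + c)) • Y).PosSemidef := Matrix.PosSemidef.smul hY (by positivity)
    exact h1.isHermitian.sub h2.isHermitian
  · rw [Matrix.sub_mulVec, Matrix.smul_mulVec, Matrix.smul_mulVec, dotProduct_sub,
      dotProduct_smul, dotProduct_smul, smul_eq_mul, smul_eq_mul, hB, hG, hq, hq]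
    have h1 := hcB x
    have h2 : 0 ≤ (B *ᵥ x) ⬝ᵥ (B *ᵥ x) := by
      rw [← hq]
      exact (Matrix.posSemidef_conjTranspose_mul_self B).dotProduct_mulVec_nonneg x
    have h3 : 1 / (1 + c) * ((G *ᵥ x) ⬝ᵥ (G *ᵥ x)) ≤ (B *ᵥ x) ⬝ᵥ (B *ᵥ x) := by
      rw [one_div, inv_mul_le_iff₀ (by positivity)]
      nlinarith
    have h4 : 0 ≤ 1 / (1 + c) * ((B *ᵥ x) ⬝ᵥ (B *ᵥ x)) := by positivity
    nlinarith

theorem psd_ker {Z Y : Matrix (Fin k) (Fin k) ℝ}
    (h : Y ∈ Face {A : Matrix (Fin k) (Fin k) ℝ | A.PosSemidef} Z) {x : Fin k → ℝ}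
    (hx : Z *ᵥ x = 0) : Y *ᵥ x = 0 := by
  obtain ⟨hY, r, hr, h1⟩ := h
  have hY' : Y.PosSemidef := hY
  have h1' : ((1 + r) • Z - r • Y).PosSemidef := h1
  rw [← hY'.dotProduct_mulVec_zero_iff]
  have h2 := h1'.dotProduct_mulVec_nonneg x
  have h3 := hY'.dotProduct_mulVec_nonneg x
  rw [Matrix.sub_mulVec, Matrix.smul_mulVec, Matrix.smul_mulVec, dotProduct_sub,
    dotProduct_smul, dotProduct_smul, hx, dotProduct_zero, smul_zero, zero_sub,
    smul_eq_mul] at h2
  refine le_antisymm ?_ h3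
  by_contra h4
  push Not at h4
  have := mul_pos hr h4
  linarith

theorem fool_psd : Fool {A : Matrix (Fin k) (Fin k) ℝ | A.PosSemidef} (k ^ 2) := by
  classical
  intro ι T z y hz hy hne hft
  have hex : ∀ t, ∃ p : Fin k → ℝ, t ∈ T → z t *ᵥ p = 0 ∧ y t *ᵥ p ≠ 0 := by
    intro t
    by_cases ht : t ∈ T
    · by_contra hcon
      push Not at hcon
      refine hne t ht (psd_face (hz t ht) (hy t ht) fun x hx => ?_)
      exact (hcon x).2 hx
    · exact ⟨0, fun h => absurd h ht⟩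
  choose p hp using hex
  have key := fooling_rank T p (fun t => y t *ᵥ p t) ?_ ?_
  · rw [Fintype.card_fin] at key
    exact key
  · intro t ht h
    have hY : (y t).PosSemidef := hy t ht
    refine (hp t ht).2 ((hY.dotProduct_mulVec_zero_iff (p t)).1 ?_)
    exact h
  · intro t ht t' ht' htt
    have hsymm : ∀ t ∈ T, ∀ t' : ι, y t *ᵥ p t' = 0 →
        ∑ a, p t' a * (y t *ᵥ p t) a = 0 := by
      intro t ht t' h
      have hY : (y t).PosSemidef := hy t ht
      have h1 : p t' ⬝ᵥ (y t *ᵥ p t) = 0 := by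
        have h2 : (y t)ᵀ = y t := by
          have := hY.isHermitian
          rwa [Matrix.IsHermitian, Matrix.conjTranspose_eq_transpose_of_trivial] at this
        rw [Matrix.dotProduct_mulVec, ← Matrix.mulVec_transpose, h2, h, zero_dotProduct]
      exact h1
    rcases hft t ht t' ht' htt with h | h
    · exact Or.inl (hsymm t' ht' t (psd_ker h (hp t ht).1))
    · exact Or.inr (hsymm t ht t' (psd_ker h (hp t' ht').1))

end

end Pool.Agent.H98.CV
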