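import Pool.Agent.H98.CVCone

/-!
# H98.CV: the counting argument
-/

set_option autoImplicit false

namespace Pool.Agent.H98.CV

open Finset Filter Topology

theorem avg_eval {Y V ι : Type*} [AddCommGroup Y] [Module ℝ Y] [AddCommGroup V] [Module ℝ V]
    (B : Y →ₗ[ℝ] V) (c : V) {Z : Finset ι} (hZ : Z.Nonempty) (y : ι → Y) :
    B ((Z.card : ℝ)⁻¹ • ∑ o ∈ Z, y o) + c = (Z.card : ℝ)⁻¹ • ∑ o ∈ Z, (B (y o) + c) := by
  have hc : (Z.card : ℝ) ≠ 0 := by
    have : 0 < Z.card := Finset.card_pos.2 hZ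
    exact_mod_cast this.ne'
  rw [map_smul, map_sum, Finset.sum_add_distrib, smul_add, Finset.sum_const,
    ← Nat.cast_smul_eq_nsmul ℝ, smul_smul, inv_mul_cancel₀ hc, one_smul]

theorem ext_eval {Y V : Type*} [AddCommGroup Y] [Module ℝ Y] [AddCommGroup V] [Module ℝ V]
    (B : Y →ₗ[ℝ] V) (c : V) (r : ℝ) (x y : Y) :
    B ((1 + r) • x - r • y) + c = (1 + r) • (B x + c) - r • (B y + c) := by
  rw [map_sub, map_smul, map_smul]
  module

theorem core {Y : Type*} [AddCommGroup Y] [Module ℝ Y] {Λ κ : Type*} [Fintype Λ] {q : ℕ}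
    {V : Λ → Type*} [∀ l, AddCommGroup (V l)] [∀ l, Module ℝ (V l)]
    (A : ∀ l, Y →ₗ[ℝ] V l) (c : ∀ l, V l) (K : ∀ l, Set (V l)) (hK : ∀ l, Convex ℝ (K l))
    (N : Λ → ℕ) (hN : ∀ l, Fool (K l) (N l))
    (eqn : κ → Y →ₗ[ℝ] ℝ) (rhs : κ → ℝ) (bin : Fin q → Y →ₗ[ℝ] ℝ) (bin₀ : Fin q → ℝ)
    {T : Type} [Fintype T] (pt : Option T → Y)
    (hpe : ∀ o e, eqn e (pt o) = rhs e) (hpK : ∀ o l, A l (pt o) + c l ∈ K l)
    (hpb : ∀ o j, bin j (pt o) + bin₀ j = 0 ∨ bin j (pt o) + bin₀ j = 1)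
    (φ : T → Y →ₗ[ℝ] ℝ) (φ₀ : T → ℝ)
    (h0 : ∀ t, φ t (pt none) + φ₀ t = 0)
    (hpos : ∀ t, 0 < φ t (pt (some t)) + φ₀ t)
    (hft : ∀ t t', t ≠ t' → φ t (pt (some t')) + φ₀ t = 0 ∨ φ t' (pt (some t)) + φ₀ t' = 0)
    (hval : ∀ Z : Finset (Option T), Z.Nonempty → ∀ t, ∃ r₀ : ℝ, 0 < r₀ ∧ ∀ r, 0 < r → r ≤ r₀ →
      ∀ y, y = (1 + r) • ((Z.card : ℝ)⁻¹ • ∑ o ∈ Z, pt o) - r • pt (some t) →
      (∀ e, eqn e y = rhs e) → (∀ l, A l y + c l ∈ K l) →
      (∀ j, bin j y + bin₀ j = 0 ∨ bin j y + bin₀ j = 1) → 0 ≤ φ t y + φ₀ t) :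
    Fintype.card T + 1 ≤ 2 ^ q * (∑ l, N l + 1) := by
  classical
  let μ : Option T → Fin q → Bool := fun o j => decide (bin j (pt o) + bin₀ j = 1)
  have hμ : ∀ o o', μ o = μ o' → ∀ j, bin j (pt o) + bin₀ j = bin j (pt o') + bin₀ j := by
    intro o o' h j
    have h1 := congrFun h j
    simp only [μ, decide_eq_decide] at h1
    rcases hpb o j with h2 | h2
    · rcases hpb o' j with h3 | h3
      · rw [h2, h3]
      · have := h1.2 h3
        rw [h2] at this
        norm_num at this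
    · rw [h2, h1.1 h2]
  let S : (Fin q → Bool) → Finset (Option T) := fun m => univ.filter fun o => μ o = m
  let Z : (Fin q → Bool) → T → Finset (Option T) := fun m t =>
    (S m).filter fun o => φ t (pt o) + φ₀ t = 0
  let av : Finset (Option T) → Y := fun Z => (Z.card : ℝ)⁻¹ • ∑ o ∈ Z, pt o
  have claim1 : ∀ m t, some t ∈ S m → (Z m t).Nonempty →
      ∃ l, A l (pt (some t)) + c l ∉ Face (K l) (A l (av (Z m t)) + c l) := by
    intro m t hts hZ
    by_contra hcon
    push Not at hcon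
    choose hmem r hr hrK using hcon
    obtain ⟨r₀, hr₀, hval'⟩ := hval (Z m t) hZ t
    have hev : ∀ᶠ x : ℝ in 𝓝[>] 0, 0 < x ∧ x ≤ r₀ ∧ ∀ l, x ≤ r l := by
      refine Filter.Eventually.and self_mem_nhdsWithin ?_
      refine Filter.Eventually.and ?_ ?_
      · exact nhdsWithin_le_nhds (Iic_mem_nhds hr₀)
      · rw [eventually_all]
        exact fun l => nhdsWithin_le_nhds (Iic_mem_nhds (hr l))
    obtain ⟨x, hx0, hxr, hxl⟩ := hev.exists
    have hZm : ∀ o ∈ Z m t, μ o = m := fun o ho =>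
      (Finset.mem_filter.1 (Finset.mem_filter.1 ho).1).2
    have h1 := hval' x hx0 hxr ((1 + x) • av (Z m t) - x • pt (some t)) rfl ?_ ?_ ?_
    · rw [ext_eval, avg_eval _ _ hZ, Finset.sum_eq_zero fun o ho => (Finset.mem_filter.1 ho).2,
        smul_zero, smul_zero, zero_sub, smul_eq_mul] at h1
      have := mul_pos hx0 (hpos t)
      linarith
    · intro e
      have h2 := ext_eval (eqn e) 0 x (av (Z m t)) (pt (some t))
      rw [avg_eval _ _ hZ] at h2
      simp only [add_zero] at h2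
      rw [h2, Finset.sum_congr rfl fun o _ => hpe o e, hpe, Finset.sum_const, nsmul_eq_mul,
        smul_eq_mul, smul_eq_mul, smul_eq_mul]
      have hc : ((Z m t).card : ℝ) ≠ 0 := by
        have : 0 < (Z m t).card := Finset.card_pos.2 hZ
        exact_mod_cast this.ne'
      rw [← mul_assoc ((Z m t).card : ℝ)⁻¹, inv_mul_cancel₀ hc]
      ring
    · intro l
      rw [ext_eval]
      refine face_small (hK l) ?_ hx0.le (hxl l) (hrK l)
      rw [avg_eval _ _ hZ]
      exact avg_mem (hK l) hZ _ fun o _ => hpK o l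
    · intro j
      have h2 : bin j (av (Z m t)) + bin₀ j = bin j (pt (some t)) + bin₀ j := by
        rw [avg_eval _ _ hZ, Finset.sum_congr rfl fun o ho => hμ o (some t)
          ((hZm o ho).trans (Finset.mem_filter.1 hts).2.symm) j, Finset.sum_const, nsmul_eq_mul,
          smul_eq_mul]
        have hc : ((Z m t).card : ℝ) ≠ 0 := by
          have : 0 < (Z m t).card := Finset.card_pos.2 hZ
          exact_mod_cast this.ne'
        rw [← mul_assoc, inv_mul_cancel₀ hc, one_mul]
      have h3 : bin j ((1 + x) • av (Z m t) - x • pt (some t)) + bin₀ j =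
          bin j (pt (some t)) + bin₀ j := by
        rw [ext_eval, h2, smul_eq_mul, smul_eq_mul]
        ring
      rw [h3]
      exact hpb (some t) j
  let R : (Fin q → Bool) → Finset T := fun m =>
    univ.filter fun t => some t ∈ S m ∧ (Z m t).Nonempty
  have claim2 : ∀ m, (R m).card ≤ ∑ l, N l := by
    intro m
    let Rl : Λ → Finset T := fun l => (R m).filter fun t =>
      A l (pt (some t)) + c l ∉ Face (K l) (A l (av (Z m t)) + c l)
    have h1 : R m ⊆ univ.biUnion Rl := by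
      intro t ht
      obtain ⟨h2, h3⟩ := (Finset.mem_filter.1 ht).2
      obtain ⟨l, hl⟩ := claim1 m t h2 h3
      exact Finset.mem_biUnion.2 ⟨l, Finset.mem_univ _, Finset.mem_filter.2 ⟨ht, hl⟩⟩
    refine (Finset.card_le_card h1).trans (Finset.card_biUnion_le.trans ?_)
    refine Finset.sum_le_sum fun l _ => ?_
    have hR : ∀ t ∈ Rl l, some t ∈ S m ∧ (Z m t).Nonempty := fun t ht =>
      (Finset.mem_filter.1 (Finset.mem_filter.1 ht).1).2
    refine hN l T (Rl l) (fun t => A l (av (Z m t)) + c l) (fun t => A l (pt (some t)) + c l)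
      ?_ ?_ ?_ ?_
    · intro t ht
      rw [avg_eval _ _ (hR t ht).2]
      exact avg_mem (hK l) (hR t ht).2 _ fun o _ => hpK o l
    · intro t _
      exact hpK (some t) l
    · intro t ht
      exact (Finset.mem_filter.1 ht).2
    · intro t ht t' ht' htt
      rw [avg_eval _ _ (hR t ht).2, avg_eval _ _ (hR t' ht').2]
      rcases hft t t' htt with h | h
      · left
        exact face_avg (hK l) (Z m t) (fun o => A l (pt o) + c l) (fun o _ => hpK o l)
          (Finset.mem_filter.2 ⟨(hR t' ht').1, h⟩)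
      · right
        exact face_avg (hK l) (Z m t') (fun o => A l (pt o) + c l) (fun o _ => hpK o l)
          (Finset.mem_filter.2 ⟨(hR t ht).1, h⟩)
  have claim3 : ∀ m, (S m).card ≤ (R m).card + 1 := by
    intro m
    have h1 : S m ⊆ (R m).image some ∪ (S m \ (R m).image some) := by
      intro o ho
      rw [Finset.mem_union, Finset.mem_sdiff]
      tauto
    have h2 : (S m \ (R m).image some).card ≤ 1 := by
      have hnot : ∀ t, some t ∈ S m \ (R m).image some → ¬ (Z m t).Nonempty := by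
        intro t ht hZ
        rw [Finset.mem_sdiff] at ht
        exact ht.2 (Finset.mem_image_of_mem _
          (Finset.mem_filter.2 ⟨Finset.mem_univ _, ht.1, hZ⟩))
      rw [Finset.card_le_one]
      rintro (_ | t) ho (_ | t') ho'
      · rfl
      · exact absurd ⟨none, Finset.mem_filter.2 ⟨(Finset.mem_sdiff.1 ho).1, h0 t'⟩⟩
          (hnot t' ho')
      · exact absurd ⟨none, Finset.mem_filter.2 ⟨(Finset.mem_sdiff.1 ho').1, h0 t⟩⟩
          (hnot t ho)
      · by_contra htt
        have htt' : t ≠ t' := fun h => htt (by rw [h])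
        rcases hft t t' htt' with h | h
        · exact hnot t ho ⟨some t', Finset.mem_filter.2 ⟨(Finset.mem_sdiff.1 ho').1, h⟩⟩
        · exact hnot t' ho' ⟨some t, Finset.mem_filter.2 ⟨(Finset.mem_sdiff.1 ho).1, h⟩⟩
    refine (Finset.card_le_card h1).trans ((Finset.card_union_le _ _).trans ?_)
    exact add_le_add Finset.card_image_le h2
  have h5 : Fintype.card (Option T) = ∑ m : Fin q → Bool, (S m).card := by
    rw [← Finset.card_univ]
    exact Finset.card_eq_sum_card_fiberwise (f := μ) (t := univ) fun _ _ => by simp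
  rw [Fintype.card_option] at h5
  rw [h5]
  calc ∑ m : Fin q → Bool, (S m).card ≤ ∑ _m : Fin q → Bool, (∑ l, N l + 1) :=
        Finset.sum_le_sum fun m _ => (claim3 m).trans (Nat.add_le_add_right (claim2 m) 1)
    _ = 2 ^ q * (∑ l, N l + 1) := by
        rw [Finset.sum_const, smul_eq_mul, Finset.card_univ, Fintype.card_fun, Fintype.card_bool,
          Fintype.card_fin]

end Pool.Agent.H98.CV
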