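import Pool.Agent.APM54.Defs

/-!
# MP_885423_lc: mixed-integer convex programs for all distances

Definitions used in the statement of `Pool.Agent.Results.MP_885423_lc.ConvexPrograms.result`.
Distances (`dist`, `walkWeight`) are those of `Pool.Agent.APM54.Defs`.
-/

set_option autoImplicit false

namespace Pool.Agent.H98.CV

open Pool.Agent.APM54

section

variable (Y : Type) [AddCommGroup Y] [Module ℝ Y]

/-- a second-order cone constraint `‖A y‖ ≤ B y` on the points `y` of a real vector space `Y`, with
affine functions `A` (with values in a Euclidean space) and `B` -/
structure SocCon where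
  /-- dimension of the space of the values of the left-hand side -/
  dim : ℕ
  /-- the left-hand side -/
  A : Y →ᵃ[ℝ] EuclideanSpace ℝ (Fin dim)
  /-- the right-hand side -/
  B : Y →ᵃ[ℝ] ℝ

/-- a semidefinite constraint: `A y` is positive semidefinite -/
structure SdpCon where
  /-- size of the matrix -/
  dim : ℕ
  /-- the matrix, an affine function -/
  A : Y →ᵃ[ℝ] Matrix (Fin dim) (Fin dim) ℝ

/-- a convex constraint `A y ∈ K` with an arbitrary convex set `K` -/
structure CvxCon where
  /-- dimension -/
  dim : ℕ
  /-- the set -/
  K : Set (Fin dim → ℝ)
  /-- it is convex -/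
  convex : Convex ℝ K
  /-- the affine function -/
  A : Y →ᵃ[ℝ] (Fin dim → ℝ)

/-- A system of constraints on the points `y` of a real vector space `Y`: any number of linear
equations, `q` binary variables, and finitely many linear inequalities, second-order cone
constraints, semidefinite constraints and general convex constraints. -/
structure Constraints (q : ℕ) where
  /-- index set of the equations -/
  E : Type
  /-- the equations `eqn e y = 0` -/
  eqn : E → (Y →ᵃ[ℝ] ℝ)
  /-- the binary variables: affine functions with the value `0` or `1` -/
  bin : Fin q → (Y →ᵃ[ℝ] ℝ)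
  /-- number of linear inequalities -/
  lins : ℕ
  /-- the linear inequalities `0 ≤ lin l y` -/
  lin : Fin lins → (Y →ᵃ[ℝ] ℝ)
  /-- number of second-order cone constraints -/
  socs : ℕ
  /-- the second-order cone constraints -/
  soc : Fin socs → SocCon Y
  /-- number of semidefinite constraints -/
  sdps : ℕ
  /-- the semidefinite constraints -/
  sdp : Fin sdps → SdpCon Y
  /-- number of general convex constraints -/
  cvxs : ℕ
  /-- the general convex constraints -/
  cvx : Fin cvxs → CvxCon Y

namespace Constraints

variable {Y}
variable {q : ℕ} (C : Constraints Y q)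

/-- all constraints hold at `y` -/
def Holds (y : Y) : Prop :=
  (∀ e, C.eqn e y = 0) ∧ (∀ j, C.bin j y = 0 ∨ C.bin j y = 1) ∧ (∀ l, 0 ≤ C.lin l y) ∧
    (∀ l, ‖(C.soc l).A y‖ ≤ (C.soc l).B y) ∧ (∀ l, ((C.sdp l).A y).PosSemidef) ∧
    ∀ l, (C.cvx l).A y ∈ (C.cvx l).K

/-- the cost of the constraints (equations are free): `1` for a linear inequality, `3` for a
second-order cone constraint of any dimension, `k ^ 2` for a semidefinite constraint on `k × k`
matrices, and `(d + 1) ^ 2` for an arbitrary convex set in `ℝ ^ d` -/
def cost : ℕ :=
  C.lins + 3 * C.socs + ∑ l, (C.sdp l).dim ^ 2 + ∑ l, ((C.cvx l).dim + 1) ^ 2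

end Constraints

end

/-- A mixed-integer convex program which is to find the distances in the graphs with vertex set
`Fin n`. The weights `W` of the pairs of vertices are the data; the unknown is an element `x` of a
real vector space `X` (of any dimension, also infinite). The constraints are affine jointly in `W`
and `x`. The output is a matrix, an affine function of `W` and `x`. -/
structure Micp (n q : ℕ) where
  /-- the space of the unknown -/
  X : Type
  /-- it is an additive group -/
  [grp : AddCommGroup X]
  /-- it is a real vector space -/
  [mod : Module ℝ X]
  /-- the constraints on the pair `(W, x)` -/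
  con : Constraints ((Fin n → Fin n → ℝ) × X) q
  /-- the output -/
  out : ((Fin n → Fin n → ℝ) × X) →ᵃ[ℝ] (Fin n → Fin n → ℝ)

attribute [instance] Micp.grp Micp.mod

namespace Micp

variable {n q : ℕ} (P : Micp n q)

/-- For the weights `W` the program determines all distances: no feasible solution has an output
larger than a distance, and some feasible solution has outputs which are at least the distances. (So
maximising the outputs over the feasible solutions gives all distances simultaneously.) -/
def Correct (W : Fin n → Fin n → ℝ) : Prop :=
  (∀ x, P.con.Holds (W, x) → ∀ u v, u ≠ v → P.out (W, x) u v ≤ dist W u v) ∧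
    ∃ x, P.con.Holds (W, x) ∧ ∀ u v, u ≠ v → dist W u v ≤ P.out (W, x) u v

end Micp

end Pool.Agent.H98.CV
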