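import Mathlib

/-!
# H98.CV: faces of convex sets and fooling families
-/

set_option autoImplicit false

namespace Pool.Agent.H98.CV

open Finset

section

variable {V : Type*} [AddCommGroup V] [Module ℝ V]

/-- the smallest face of `K` which contains `z` -/
def Face (K : Set V) (z : V) : Set V := {y | y ∈ K ∧ ∃ r : ℝ, 0 < r ∧ (1 + r) • z - r • y ∈ K}

/-- `N` is a bound for the size of fooling families of `K` -/
def Fool (K : Set V) (N : ℕ) : Prop :=
  ∀ (ι : Type) (T : Finset ι) (z y : ι → V), (∀ t ∈ T, z t ∈ K) → (∀ t ∈ T, y t ∈ K) →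
    (∀ t ∈ T, y t ∉ Face K (z t)) →
    (∀ t ∈ T, ∀ t' ∈ T, t ≠ t' → y t' ∈ Face K (z t) ∨ y t ∈ Face K (z t')) → T.card ≤ N

theorem seg {K : Set V} (hK : Convex ℝ K) {z v : V} (hz : z ∈ K) {ε ε' : ℝ} (h0 : 0 ≤ ε')
    (h1 : ε' ≤ ε) (h : z + ε • v ∈ K) : z + ε' • v ∈ K := by
  rcases eq_or_lt_of_le (h0.trans h1) with h2 | h2
  · have h3 : ε' = ε := le_antisymm h1 (by rw [← h2]; exact h0)
    rw [h3]
    exact h
  · have h3 := hK hz h (a := 1 - ε' / ε) (b := ε' / ε)
      (by rw [sub_nonneg, div_le_one h2]; exact h1) (by positivity) (by ring)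
    convert h3 using 1
    rw [smul_add, smul_smul, div_mul_cancel₀ _ h2.ne', ← add_assoc, ← add_smul]
    congr 1
    rw [sub_add_cancel, one_smul]

theorem face_small {K : Set V} (hK : Convex ℝ K) {z y : V} (hz : z ∈ K) {r r' : ℝ} (h0 : 0 ≤ r')
    (h1 : r' ≤ r) (h : (1 + r) • z - r • y ∈ K) : (1 + r') • z - r' • y ∈ K := by
  have e : ∀ x : ℝ, (1 + x) • z - x • y = z + x • (z - y) := by
    intro x
    module
  rw [e] at h ⊢
  exact seg hK hz h0 h1 h

/-- the points are in the smallest face of their average -/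
theorem face_avg {K : Set V} (hK : Convex ℝ K) {ι : Type*} (Z : Finset ι) (y : ι → V)
    (hy : ∀ s ∈ Z, y s ∈ K) {s : ι} (hs : s ∈ Z) :
    y s ∈ Face K ((Z.card : ℝ)⁻¹ • ∑ s ∈ Z, y s) := by
  classical
  refine ⟨hy s hs, ?_⟩
  have hc : (0 : ℝ) < Z.card := by
    have : 0 < Z.card := Finset.card_pos.2 ⟨s, hs⟩
    exact_mod_cast this
  set c : ℝ := (Z.card : ℝ) with hcdef
  refine ⟨c⁻¹, by positivity, ?_⟩
  have h1 : (1 + c⁻¹) • (c⁻¹ • ∑ s ∈ Z, y s) - c⁻¹ • y s =
      ∑ s' ∈ Z, ((1 + c⁻¹) * c⁻¹ - if s' = s then c⁻¹ else 0) • y s' := by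
    rw [smul_smul, Finset.smul_sum]
    simp_rw [sub_smul]
    rw [Finset.sum_sub_distrib]
    congr 1
    rw [Finset.sum_eq_single s]
    · rw [if_pos rfl]
    · intro b _ hb
      rw [if_neg hb, zero_smul]
    · intro h
      exact absurd hs h
  rw [h1]
  refine hK.sum_mem ?_ ?_ fun s' hs' => hy s' hs'
  · intro s' _
    split_ifs
    · have : (1 + c⁻¹) * c⁻¹ - c⁻¹ = c⁻¹ * c⁻¹ := by ring
      rw [this]
      positivity
    · rw [sub_zero]
      positivity
  · rw [Finset.sum_sub_distrib, Finset.sum_const, nsmul_eq_mul, Finset.sum_ite_eq' Z s,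
      if_pos hs, ← hcdef]
    field_simp
    ring

/-- the average is in the set -/
theorem avg_mem {K : Set V} (hK : Convex ℝ K) {ι : Type*} {Z : Finset ι} (hZ : Z.Nonempty)
    (y : ι → V) (hy : ∀ s ∈ Z, y s ∈ K) : (Z.card : ℝ)⁻¹ • ∑ s ∈ Z, y s ∈ K := by
  have hc : (0 : ℝ) < Z.card := by
    have : 0 < Z.card := Finset.card_pos.2 hZ
    exact_mod_cast this
  rw [Finset.smul_sum]
  refine hK.sum_mem (fun _ _ => by positivity) ?_ fun s hs => hy s hs
  rw [Finset.sum_const, nsmul_eq_mul]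
  field_simp

/-- the directions in which one can move from `z` to both sides -/
def dirs (K : Set V) (hK : Convex ℝ K) (z : V) (hz : z ∈ K) : Submodule ℝ V where
  carrier := {v | ∃ ε : ℝ, 0 < ε ∧ z + ε • v ∈ K ∧ z + ε • (-v) ∈ K}
  zero_mem' := ⟨1, one_pos, by simpa using hz, by simpa using hz⟩
  add_mem' := by
    rintro v w ⟨ε, hε, h1, h2⟩ ⟨δ, hδ, h3, h4⟩
    have hm : 0 < min ε δ := lt_min hε hδ
    have key : ∀ v w : V, z + ε • v ∈ K → z + δ • w ∈ K → z + (min ε δ / 2) • (v + w) ∈ K := by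
      intro v w hv hw
      have h5 := seg hK hz hm.le (min_le_left ε δ) hv
      have h6 := seg hK hz hm.le (min_le_right ε δ) hw
      have h7 := hK h5 h6 (a := 1 / 2) (b := 1 / 2) (by norm_num) (by norm_num) (by norm_num)
      convert h7 using 1
      module
    refine ⟨min ε δ / 2, by positivity, key v w h1 h3, ?_⟩
    rw [neg_add]
    exact key _ _ h2 h4
  smul_mem' := by
    rintro c v ⟨ε, hε, h1, h2⟩
    rcases lt_trichotomy c 0 with hc | hc | hc
    · refine ⟨ε / (-c), div_pos hε (by linarith), ?_, ?_⟩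
      · convert h2 using 2
        rw [smul_smul, smul_neg, ← neg_smul]
        congr 1
        have : c ≠ 0 := hc.ne
        field_simp
      · convert h1 using 2
        rw [smul_neg, smul_smul, ← neg_smul]
        congr 1
        have : c ≠ 0 := hc.ne
        field_simp
    · subst hc
      exact ⟨1, one_pos, by simpa using hz, by simpa using hz⟩
    · refine ⟨ε / c, by positivity, ?_, ?_⟩
      · convert h1 using 2
        rw [smul_smul, div_mul_cancel₀ _ hc.ne']
      · convert h2 using 2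
        rw [smul_neg, smul_smul, div_mul_cancel₀ _ hc.ne', smul_neg]

theorem face_iff {K : Set V} (hK : Convex ℝ K) {z : V} (hz : z ∈ K) {y : V} (hy : y ∈ K) :
    y ∈ Face K z ↔ y - z ∈ dirs K hK z hz := by
  have e : ∀ x : ℝ, (1 + x) • z - x • y = z + x • (-(y - z)) := by
    intro x
    module
  have e1 : z + (1 : ℝ) • (y - z) = y := by module
  constructor
  · rintro ⟨-, r, hr, h⟩
    rw [e] at h
    refine ⟨min 1 r, lt_min one_pos hr, ?_, ?_⟩
    · exact seg hK hz (le_min zero_le_one hr.le) (min_le_left _ _) (by rw [e1]; exact hy)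
    · exact seg hK hz (le_min zero_le_one hr.le) (min_le_right _ _) h
  · rintro ⟨ε, hε, -, h⟩
    exact ⟨hy, ε, hε, by rw [e]; exact h⟩

/-- a point which is not in the face is separated from the affine span of the face -/
theorem face_fun {K : Set V} (hK : Convex ℝ K) {z : V} (hz : z ∈ K) {y : V} (hy : y ∈ K)
    (h : y ∉ Face K z) : ∃ φ : V →ₗ[ℝ] ℝ, φ y - φ z ≠ 0 ∧ ∀ x ∈ Face K z, φ x - φ z = 0 := by
  rw [face_iff hK hz hy] at h
  obtain ⟨φ, h1, h2⟩ := Submodule.exists_le_ker_of_notMem h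
  refine ⟨φ, by rwa [← map_sub], fun x hx => ?_⟩
  rw [← map_sub]
  exact h2 ((face_iff hK hz hx.1).1 hx)

end

/-- the rank argument for fooling families -/
theorem fooling_rank {ι D : Type*} [Fintype D] (T : Finset ι) (p w : ι → D → ℝ)
    (h1 : ∀ t ∈ T, ∑ a, p t a * w t a ≠ 0)
    (h2 : ∀ t ∈ T, ∀ t' ∈ T, t ≠ t' → ∑ a, p t a * w t' a = 0 ∨ ∑ a, p t' a * w t a = 0) :
    T.card ≤ Fintype.card D ^ 2 := by
  classical
  let v : T → (D × D → ℝ) := fun t x => p t x.1 * w t x.2
  have hli : LinearIndependent ℝ v := by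
    rw [Fintype.linearIndependent_iff]
    intro c hc t'
    have h3 : ∀ t : T, ∑ x : D × D, (w t' x.1 * p t' x.2) * v t x =
        (∑ a, p t a * w t' a) * ∑ a, p t' a * w t a := by
      intro t
      rw [Fintype.sum_prod_type, Finset.sum_mul_sum]
      refine Finset.sum_congr rfl fun a _ => Finset.sum_congr rfl fun b _ => ?_
      simp only [v]
      ring
    have h4 : ∑ x : D × D, (w t' x.1 * p t' x.2) * (∑ t, c t • v t) x = 0 := by
      rw [hc]
      simp
    have h5 : ∑ x : D × D, (w t' x.1 * p t' x.2) * (∑ t, c t • v t) x =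
        ∑ t, c t * ((∑ a, p t a * w t' a) * ∑ a, p t' a * w t a) := by
      simp_rw [← h3, Finset.mul_sum, Finset.sum_apply, Pi.smul_apply, smul_eq_mul,
        Finset.mul_sum]
      rw [Finset.sum_comm]
      refine Finset.sum_congr rfl fun t _ => Finset.sum_congr rfl fun x _ => ?_
      ring
    rw [h5, Finset.sum_eq_single t'] at h4
    · rcases mul_eq_zero.1 h4 with h6 | h6
      · exact h6
      · exact absurd h6 (mul_ne_zero (h1 t' t'.2) (h1 t' t'.2))
    · intro t _ ht
      have h6 : (t : ι) ≠ t' := fun h => ht (Subtype.ext h)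
      rcases h2 t t.2 t' t'.2 h6 with h7 | h7
      · rw [h7, zero_mul, mul_zero]
      · rw [h7, mul_zero, mul_zero]
    · intro h
      exact absurd (Finset.mem_univ _) h
  have h8 := hli.fintype_card_le_finrank
  rw [Module.finrank_fintype_fun_eq_card, Fintype.card_prod, Fintype.card_coe] at h8
  rw [pow_two]
  exact h8

/-- convex sets of dimension `d` -/
theorem fool_convex {d : ℕ} {K : Set (Fin d → ℝ)} (hK : Convex ℝ K) : Fool K ((d + 1) ^ 2) := by
  classical
  intro ι T z y hz hy hne hft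
  have hex : ∀ t, ∃ φ : (Fin d → ℝ) →ₗ[ℝ] ℝ, t ∈ T → φ (y t) - φ (z t) ≠ 0 ∧
      ∀ x ∈ Face K (z t), φ x - φ (z t) = 0 := by
    intro t
    by_cases ht : t ∈ T
    · obtain ⟨φ, h1, h2⟩ := face_fun hK (hz t ht) (hy t ht) (hne t ht)
      exact ⟨φ, fun _ => ⟨h1, h2⟩⟩
    · exact ⟨0, fun h => absurd h ht⟩
  choose φ hφ using hex
  have hval : ∀ t (x : Fin d → ℝ), ∑ a : Option (Fin d),
      (a.elim (-(φ t (z t))) fun a' => φ t (Pi.single a' 1)) * (a.elim 1 fun a' => x a') =
      φ t x - φ t (z t) := by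
    intro t x
    rw [Fintype.sum_option]
    simp only [Option.elim]
    have h1 : φ t x = ∑ a, φ t (Pi.single a 1) * x a := by
      conv_lhs => rw [← Finset.univ_sum_single x]
      rw [map_sum]
      refine Finset.sum_congr rfl fun a _ => ?_
      have h2 : (Pi.single a (x a) : Fin d → ℝ) = x a • Pi.single a 1 := by
        rw [← Pi.single_smul]
        simp
      rw [h2, map_smul, smul_eq_mul, mul_comm]
    rw [h1]
    ring
  have key := fooling_rank T
    (fun t (a : Option (Fin d)) => a.elim (-(φ t (z t))) fun a' => φ t (Pi.single a' 1))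
    (fun t a => a.elim 1 fun a' => y t a') ?_ ?_
  · rw [Fintype.card_option, Fintype.card_fin] at key
    exact key
  · intro t ht
    rw [hval t (y t)]
    exact (hφ t ht).1
  · intro t ht t' ht' htt
    rw [hval t (y t'), hval t' (y t)]
    rcases hft t ht t' ht' htt with h | h
    · exact Or.inl ((hφ t ht).2 _ h)
    · exact Or.inr ((hφ t' ht').2 _ h)

/-- linear inequalities -/
theorem fool_lin : Fool (Set.Ici (0 : ℝ)) 1 := by
  intro ι T z y hz hy hne hft
  rw [Finset.card_le_one]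
  intro t ht t' ht' 
  by_contra htt
  have h0 : ∀ t ∈ T, z t = 0 := by
    intro t ht
    by_contra h
    have h1 : 0 < z t := lt_of_le_of_ne (hz t ht) (Ne.symm h)
    have h2 : 0 ≤ y t := hy t ht
    refine hne t ht ⟨hy t ht, z t / (1 + y t), by positivity, ?_⟩
    rw [Set.mem_Ici, smul_eq_mul, smul_eq_mul]
    have h3 : z t / (1 + y t) * y t ≤ z t := by
      rw [div_mul_eq_mul_div, div_le_iff₀ (by positivity)]
      nlinarith
    have h4 : 0 ≤ z t / (1 + y t) * z t := by positivity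
    linarith
  have h1 : ∀ t ∈ T, 0 < y t := by
    intro t ht
    refine lt_of_le_of_ne (hy t ht) fun h => hne t ht ?_
    rw [h0 t ht, ← h]
    exact ⟨Set.mem_Ici.2 le_rfl, 1, one_pos, by simp⟩
  have h2 : ∀ t ∈ T, ∀ t' ∈ T, y t' ∉ Face (Set.Ici (0 : ℝ)) (z t) := by
    rintro t ht t' ht' ⟨-, r, hr, h⟩
    rw [h0 t ht, Set.mem_Ici, smul_zero, smul_eq_mul] at h
    have := mul_pos hr (h1 t' ht')
    linarith
  rcases hft t ht t' ht' htt with h | h
  · exact h2 t ht t' ht' h
  · exact h2 t' ht' t ht h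

end Pool.Agent.H98.CV
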