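import Pool.Agent.H98.CVCore
import Pool.Agent.H98.CVDefs

/-!
# H98.CV: the bound for mixed-integer convex programs
-/

set_option autoImplicit false

namespace Pool.Agent.H98.CV

open Finset Pool.Agent.APM54

/-- a convex constraint -/
structure Con (Y : Type) [AddCommGroup Y] [Module ℝ Y] where
  /-- the space -/
  V : Type
  /-- it is a group -/
  [g : AddCommGroup V]
  /-- it is a vector space -/
  [m : Module ℝ V]
  /-- the linear map -/
  A : Y →ₗ[ℝ] V
  /-- the constant -/
  c : V
  /-- the set -/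
  K : Set V
  /-- it is convex -/
  hK : Convex ℝ K
  /-- the bound for fooling families -/
  N : ℕ
  /-- it is a bound -/
  hN : Fool K N

attribute [instance] Con.g Con.m

section

variable {Y : Type} [AddCommGroup Y] [Module ℝ Y] {q : ℕ} (C : Constraints Y q)

/-- the convex constraints of a system -/
noncomputable def cons : Fin C.lins ⊕ (Fin C.socs ⊕ (Fin C.sdps ⊕ Fin C.cvxs)) → Con Y :=
  Sum.elim (fun l => ⟨ℝ, (C.lin l).linear, C.lin l 0, Set.Ici 0, convex_Ici 0, 1, fool_lin⟩)
    (Sum.elim (fun l => ⟨EuclideanSpace ℝ (Fin (C.soc l).dim) × ℝ,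
        (C.soc l).A.linear.prod (C.soc l).B.linear,
        ((C.soc l).A 0, (C.soc l).B 0), Soc _, soc_convex, 3, fool_soc⟩)
      (Sum.elim (fun l => ⟨Matrix (Fin (C.sdp l).dim) (Fin (C.sdp l).dim) ℝ, (C.sdp l).A.linear,
          (C.sdp l).A 0, {A | A.PosSemidef}, psd_convex, (C.sdp l).dim ^ 2, fool_psd⟩)
        (fun l => ⟨Fin (C.cvx l).dim → ℝ, (C.cvx l).A.linear, (C.cvx l).A 0, (C.cvx l).K,
          (C.cvx l).convex, ((C.cvx l).dim + 1) ^ 2, fool_convex (C.cvx l).convex⟩)))

theorem cons_cost : ∑ l, (cons C l).N = C.cost := by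
  rw [Fintype.sum_sum_type, Fintype.sum_sum_type, Fintype.sum_sum_type]
  simp only [cons, Sum.elim_inl, Sum.elim_inr, Finset.sum_const, Finset.card_univ,
    Fintype.card_fin, smul_eq_mul, mul_one]
  unfold Constraints.cost
  ring

theorem aff_eq {V : Type*} [AddCommGroup V] [Module ℝ V] (f : Y →ᵃ[ℝ] V) (y : Y) :
    f.linear y + f 0 = f y := by
  have := congrFun f.decomp y
  simp only [Pi.add_apply] at this
  exact this.symm

theorem holds_iff (y : Y) : C.Holds y ↔
    (∀ e, (C.eqn e).linear y = - C.eqn e 0) ∧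
      (∀ l, (cons C l).A y + (cons C l).c ∈ (cons C l).K) ∧
      ∀ j, (C.bin j).linear y + C.bin j 0 = 0 ∨ (C.bin j).linear y + C.bin j 0 = 1 := by
  have he : ∀ e, ((C.eqn e).linear y = - C.eqn e 0 ↔ C.eqn e y = 0) := by
    intro e
    rw [← aff_eq (C.eqn e) y, eq_neg_iff_add_eq_zero]
  constructor
  · rintro ⟨h1, h2, h3, h4, h5, h6⟩
    refine ⟨fun e => (he e).2 (h1 e), ?_, fun j => by rw [aff_eq]; exact h2 j⟩
    rintro (l | l | l | l)
    · change (C.lin l).linear y + C.lin l 0 ∈ Set.Ici (0 : ℝ)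
      rw [aff_eq]
      exact h3 l
    · change ‖(C.soc l).A.linear y + (C.soc l).A 0‖ ≤ (C.soc l).B.linear y + (C.soc l).B 0
      rw [aff_eq, aff_eq]
      exact h4 l
    · change ((C.sdp l).A.linear y + (C.sdp l).A 0).PosSemidef
      rw [aff_eq]
      exact h5 l
    · change (C.cvx l).A.linear y + (C.cvx l).A 0 ∈ (C.cvx l).K
      rw [aff_eq]
      exact h6 l
  · rintro ⟨h1, h2, h3⟩
    refine ⟨fun e => (he e).1 (h1 e), fun j => by rw [← aff_eq (C.bin j)]; exact h3 j,
      fun l => ?_, fun l => ?_, fun l => ?_, fun l => ?_⟩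
    · rw [← aff_eq (C.lin l)]
      exact h2 (Sum.inl l)
    · rw [← aff_eq (C.soc l).A, ← aff_eq (C.soc l).B]
      exact h2 (Sum.inr (Sum.inl l))
    · rw [← aff_eq (C.sdp l).A]
      exact h2 (Sum.inr (Sum.inr (Sum.inl l)))
    · rw [← aff_eq (C.cvx l).A]
      exact h2 (Sum.inr (Sum.inr (Sum.inr l)))

end

variable {n : ℕ}

theorem walkWeight_nonneg {W : Fin n → Fin n → ℝ} (hW : ∀ u v, 0 ≤ W u v) (l : List (Fin n)) :
    ∀ u v, 0 ≤ walkWeight W u l v := by
  induction l with
  | nil => exact fun u v => hW u v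
  | cons x l ih => exact fun u v => add_nonneg (hW u x) (ih x v)

theorem dist_le_walk {W : Fin n → Fin n → ℝ} (hW : ∀ u v, 0 ≤ W u v) {u v : Fin n} (huv : u ≠ v)
    (l : List (Fin n)) : dist W u v ≤ walkWeight W u l v := by
  unfold Pool.Agent.APM54.dist
  rw [if_neg huv]
  exact ciInf_le ⟨0, by rintro _ ⟨l, rfl⟩; exact walkWeight_nonneg hW l u v⟩ l

theorem dist_metric {W : Fin n → Fin n → ℝ} (hW : ∀ u v, 0 ≤ W u v)
    (htri : ∀ u v w, W u w ≤ W u v + W v w) {u v : Fin n} (huv : u ≠ v) : dist W u v = W u v := by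
  have h1 : ∀ (l : List (Fin n)) (u v : Fin n), W u v ≤ walkWeight W u l v := by
    intro l
    induction l with
    | nil => exact fun u v => le_rfl
    | cons x l ih => exact fun u v => (htri u x v).trans (add_le_add le_rfl (ih x v))
  refine le_antisymm (dist_le_walk hW huv []) ?_
  unfold Pool.Agent.APM54.dist
  rw [if_neg huv]
  exact le_ciInf fun l => h1 l u v

/-- is the vertex in the middle third -/
def mid (n : ℕ) (u : Fin n) : Prop := n / 3 ≤ u ∧ (u : ℕ) < 2 * (n / 3)

instance (n : ℕ) (u : Fin n) : Decidable (mid n u) := by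
  unfold mid
  infer_instance

/-- the basic weights -/
noncomputable def base (n : ℕ) (u v : Fin n) : ℝ := if (mid n u ↔ mid n v) then 12 / 5 else 6 / 5

/-- the weights of a cut -/
noncomputable def cutW (s : Fin n → Bool) (u v : Fin n) : ℝ :=
  if u = v then 0 else base n u v + if s u = s v then 0 else 1 / 5

theorem base_bounds (u v : Fin n) : 6 / 5 ≤ base n u v ∧ base n u v ≤ 12 / 5 := by
  unfold base
  split_ifs <;> constructor <;> norm_num

theorem base_comm (u v : Fin n) : base n u v = base n v u := by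
  unfold base
  simp only [iff_comm]

theorem cutW_bounds (s : Fin n → Bool) {u v : Fin n} (h : u ≠ v) :
    6 / 5 ≤ cutW s u v ∧ cutW s u v ≤ 13 / 5 := by
  obtain ⟨h1, h2⟩ := base_bounds u v
  unfold cutW
  rw [if_neg h]
  split_ifs <;> constructor <;> linarith

theorem cutW_nonneg (s : Fin n → Bool) (u v : Fin n) : 0 ≤ cutW s u v := by
  by_cases h : u = v
  · rw [h]
    unfold cutW
    rw [if_pos rfl]
  · linarith [(cutW_bounds s h).1]

theorem cutW_comm (s : Fin n → Bool) (u v : Fin n) : cutW s u v = cutW s v u := by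
  unfold cutW
  rw [base_comm u v]
  simp only [eq_comm]

theorem cutW_self (s : Fin n → Bool) (u : Fin n) : cutW s u u = 0 := by
  unfold cutW
  rw [if_pos rfl]

theorem cutW_tri (s : Fin n → Bool) (u v w : Fin n) : cutW s u w ≤ cutW s u v + cutW s v w := by
  by_cases h1 : u = v
  · subst h1
    rw [cutW_self, zero_add]
  · by_cases h2 : v = w
    · subst h2
      rw [cutW_self, add_zero]
    · by_cases h3 : u = w
      · subst h3
        rw [cutW_self]
        exact add_nonneg (cutW_nonneg s _ _) (cutW_nonneg s _ _)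
      · have a1 := base_bounds u v
        have a2 := base_bounds v w
        have a3 := base_bounds u w
        unfold cutW
        rw [if_neg h1, if_neg h2, if_neg h3]
        have h4 : (if s u = s w then (0 : ℝ) else 1 / 5) ≤
            (if s u = s v then (0 : ℝ) else 1 / 5) + if s v = s w then (0 : ℝ) else 1 / 5 := by
          cases s u <;> cases s v <;> cases s w <;> norm_num
        linarith

/-- evaluation of the weights -/
def evW {X : Type} [AddCommGroup X] [Module ℝ X] (u v : Fin n) :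
    ((Fin n → Fin n → ℝ) × X) →ₗ[ℝ] ℝ where
  toFun p := p.1 u v
  map_add' _ _ := rfl
  map_smul' _ _ := rfl

/-- evaluation of a matrix -/
def evM (u v : Fin n) : (Fin n → Fin n → ℝ) →ₗ[ℝ] ℝ where
  toFun D := D u v
  map_add' _ _ := rfl
  map_smul' _ _ := rfl

/-- a vertex of the first third -/
def iv (a : Fin (n / 3)) : Fin n := ⟨a, by omega⟩

/-- a vertex of the middle third -/
def kv (b : Fin (n / 3)) : Fin n := ⟨n / 3 + b, by omega⟩

/-- a vertex of the last third -/
def jv (c : Fin (n / 3)) : Fin n := ⟨2 * (n / 3) + c, by omega⟩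

theorem iv_ne_kv (a b : Fin (n / 3)) : iv a ≠ kv b := by
  intro h
  have := congrArg Fin.val h
  simp only [iv, kv] at this
  omega

theorem kv_ne_jv (b c : Fin (n / 3)) : kv b ≠ jv c := by
  intro h
  have := congrArg Fin.val h
  simp only [kv, jv] at this
  omega

theorem iv_ne_jv (a c : Fin (n / 3)) : iv a ≠ jv c := by
  intro h
  have := congrArg Fin.val h
  simp only [iv, jv] at this
  omega

theorem base_ik (a b : Fin (n / 3)) : base n (iv a) (kv b) = 6 / 5 := by
  unfold base
  rw [if_neg]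
  simp only [mid, iv, kv]
  intro h
  have h1 := h.2 ⟨by omega, by omega⟩
  omega

theorem base_kj (b c : Fin (n / 3)) : base n (kv b) (jv c) = 6 / 5 := by
  unfold base
  rw [if_neg]
  simp only [mid, jv, kv]
  intro h
  have h1 := h.1 ⟨by omega, by omega⟩
  omega

theorem base_ij (a c : Fin (n / 3)) : base n (iv a) (jv c) = 12 / 5 := by
  unfold base
  rw [if_pos]
  simp only [mid, jv, iv]
  constructor
  · intro h
    omega
  · intro h
    omega

/-- the cut of a triple -/
def cut (t : Fin (n / 3) × Fin (n / 3) × Fin (n / 3)) (u : Fin n) : Bool :=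
  decide (u = iv t.1) || decide (u = jv t.2.2) || (decide (mid n u) && decide (u < kv t.2.1))

theorem cut_iv (t : Fin (n / 3) × Fin (n / 3) × Fin (n / 3)) (a : Fin (n / 3)) :
    cut t (iv a) = decide (a = t.1) := by
  have h1 : (iv a = iv t.1) ↔ a = t.1 := by
    constructor
    · intro h
      have := congrArg Fin.val h
      simp only [iv] at this
      exact Fin.ext this
    · intro h
      rw [h]
  have h2 : ¬ iv a = jv t.2.2 := iv_ne_jv _ _
  have h3 : ¬ mid n (iv a) := by
    simp only [mid, iv]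
    omega
  simp only [cut, h1, h2, h3, decide_false, Bool.or_false, Bool.false_and]

theorem cut_jv (t : Fin (n / 3) × Fin (n / 3) × Fin (n / 3)) (c : Fin (n / 3)) :
    cut t (jv c) = decide (c = t.2.2) := by
  have h1 : (jv c = jv t.2.2) ↔ c = t.2.2 := by
    constructor
    · intro h
      have := congrArg Fin.val h
      simp only [jv] at this
      exact Fin.ext (by omega)
    · intro h
      rw [h]
  have h2 : ¬ jv c = iv t.1 := (iv_ne_jv _ _).symm
  have h3 : ¬ mid n (jv c) := by
    simp only [mid, jv]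
    omega
  simp only [cut, h1, h2, h3, decide_false, Bool.or_false, Bool.false_and, Bool.false_or]

theorem cut_kv (t : Fin (n / 3) × Fin (n / 3) × Fin (n / 3)) (b : Fin (n / 3)) :
    cut t (kv b) = decide (b < t.2.1) := by
  have h1 : ¬ kv b = iv t.1 := (iv_ne_kv _ _).symm
  have h2 : ¬ kv b = jv t.2.2 := kv_ne_jv _ _
  have h3 : mid n (kv b) := by
    simp only [mid, kv]
    omega
  have h4 : (kv b < kv t.2.1) ↔ b < t.2.1 := by
    rw [Fin.lt_def, Fin.lt_def]
    simp only [kv]
    omega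
  simp only [cut, h1, h2, h3, h4, decide_false, Bool.or_false, decide_true, Bool.true_and,
    Bool.false_or]

/-- the slack of the triple `t` at a cut -/
noncomputable def sl (t : Fin (n / 3) × Fin (n / 3) × Fin (n / 3)) (s : Fin n → Bool) : ℝ :=
  cutW s (iv t.1) (kv t.2.1) + cutW s (kv t.2.1) (jv t.2.2) - cutW s (iv t.1) (jv t.2.2)

theorem sl_eq (t : Fin (n / 3) × Fin (n / 3) × Fin (n / 3)) (s : Fin n → Bool) :
    sl t s = (if s (iv t.1) = s (kv t.2.1) then 0 else 1 / 5) +
      (if s (kv t.2.1) = s (jv t.2.2) then 0 else 1 / 5) -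
      (if s (iv t.1) = s (jv t.2.2) then 0 else 1 / 5) := by
  unfold sl cutW
  rw [if_neg (iv_ne_kv _ _), if_neg (kv_ne_jv _ _), if_neg (iv_ne_jv _ _), base_ik, base_kj,
    base_ij]
  ring

/-- the points of the fooling family -/
noncomputable def cuts : Option (Fin (n / 3) × Fin (n / 3) × Fin (n / 3)) → Fin n → Bool
  | none => fun _ => false
  | some t => cut t

theorem sl_none (t : Fin (n / 3) × Fin (n / 3) × Fin (n / 3)) : sl t (cuts none) = 0 := by
  rw [sl_eq]
  simp [cuts]

theorem sl_pos (t : Fin (n / 3) × Fin (n / 3) × Fin (n / 3)) : 0 < sl t (cuts (some t)) := by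
  rw [sl_eq]
  simp only [cuts, cut_iv, cut_jv, cut_kv]
  simp

theorem sl_fool (t t' : Fin (n / 3) × Fin (n / 3) × Fin (n / 3)) (h : t ≠ t') :
    sl t (cuts (some t')) = 0 ∨ sl t' (cuts (some t)) = 0 := by
  obtain ⟨a, b, c⟩ := t
  obtain ⟨a', b', c'⟩ := t'
  rw [sl_eq, sl_eq]
  simp only [cuts, cut_iv, cut_jv, cut_kv]
  by_cases ha : a = a' <;> by_cases hc : c = c'
  · subst ha
    subst hc
    rcases lt_trichotomy b b' with hb | hb | hb
    · left
      simp [hb]
    · subst hb
      exact absurd rfl h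
    · right
      simp [hb]
  · left
    subst ha
    by_cases hb : b < b' <;> simp [hc, hb]
  · left
    subst hc
    by_cases hb : b < b' <;> simp [ha, hb]
  · by_cases hb : b < b'
    · right
      have h1 : ¬ b' < b := not_lt.2 hb.le
      simp [Ne.symm ha, Ne.symm hc, h1]
    · left
      simp [ha, hc, hb]

theorem micp_bound {q : ℕ} (P : Micp n q)
    (h : ∀ W : Fin n → Fin n → ℝ, (∀ u, W u u = 0) → (∀ u v, W u v = W v u) →
      (∀ u v, u ≠ v → 1 ≤ W u v ∧ W u v ≤ 3) → P.Correct W) :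
    (n / 3) ^ 3 < 2 ^ q * (P.con.cost + 1) := by
  classical
  have hcut : ∀ s : Fin n → Bool, P.Correct (cutW s) := by
    intro s
    refine h _ (cutW_self s) (cutW_comm s) fun u v huv => ?_
    obtain ⟨h1, h2⟩ := cutW_bounds s huv
    exact ⟨by linarith, by linarith⟩
  choose hc1 x hx1 hx2 using hcut
  let pt : Option (Fin (n / 3) × Fin (n / 3) × Fin (n / 3)) → (Fin n → Fin n → ℝ) × P.X :=
    fun o => (cutW (cuts o), x (cuts o))
  let φ : (Fin (n / 3) × Fin (n / 3) × Fin (n / 3)) → ((Fin n → Fin n → ℝ) × P.X) →ₗ[ℝ] ℝ :=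
    fun t => evW (iv t.1) (kv t.2.1) + evW (kv t.2.1) (jv t.2.2) -
      (evM (iv t.1) (jv t.2.2)).comp P.out.linear
  let φ₀ : (Fin (n / 3) × Fin (n / 3) × Fin (n / 3)) → ℝ := fun t =>
    - P.out 0 (iv t.1) (jv t.2.2)
  have hφ : ∀ t y, φ t y + φ₀ t = y.1 (iv t.1) (kv t.2.1) + y.1 (kv t.2.1) (jv t.2.2) -
      P.out y (iv t.1) (jv t.2.2) := by
    intro t y
    rw [← aff_eq P.out y]
    simp only [φ, φ₀, evW, evM, LinearMap.sub_apply, LinearMap.add_apply,
      LinearMap.comp_apply, LinearMap.coe_mk, AddHom.coe_mk, Pi.add_apply]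
    ring
  have hsl : ∀ t o, φ t (pt o) + φ₀ t = sl t (cuts o) := by
    intro t o
    rw [hφ]
    have h1 := hc1 (cuts o) (x (cuts o)) (hx1 _) (iv t.1) (jv t.2.2) (iv_ne_jv _ _)
    have h2 := hx2 (cuts o) (iv t.1) (jv t.2.2) (iv_ne_jv _ _)
    rw [dist_metric (cutW_nonneg _) (cutW_tri _) (iv_ne_jv _ _)] at h1 h2
    have h3 := le_antisymm h1 h2
    unfold sl
    simp only [pt]
    rw [h3]
  have hfeas : ∀ o, P.con.Holds (pt o) := fun o => hx1 (cuts o)
  have key := core (Y := (Fin n → Fin n → ℝ) × P.X) (V := fun l => (cons P.con l).V)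
    (fun l => (cons P.con l).A) (fun l => (cons P.con l).c) (fun l => (cons P.con l).K)
    (fun l => (cons P.con l).hK) (fun l => (cons P.con l).N) (fun l => (cons P.con l).hN)
    (fun e => (P.con.eqn e).linear) (fun e => - P.con.eqn e 0) (fun j => (P.con.bin j).linear)
    (fun j => P.con.bin j 0) pt
    (fun o => ((holds_iff P.con (pt o)).1 (hfeas o)).1)
    (fun o => ((holds_iff P.con (pt o)).1 (hfeas o)).2.1)
    (fun o => ((holds_iff P.con (pt o)).1 (hfeas o)).2.2) φ φ₀
    (fun t => by rw [hsl, sl_none]) (fun t => by rw [hsl]; exact sl_pos t)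
    (fun t t' htt => by rw [hsl, hsl]; exact sl_fool t t' htt) ?_
  · rw [cons_cost, Fintype.card_prod, Fintype.card_prod, Fintype.card_fin] at key
    have : (n / 3) ^ 3 = n / 3 * (n / 3 * (n / 3)) := by ring
    rw [this]
    exact key
  · intro Z hZ t
    refine ⟨1 / 7, by norm_num, fun r hr0 hr y hy heq hK hbin => ?_⟩
    have hev : ∀ u v, y.1 u v =
        (1 + r) * ((Z.card : ℝ)⁻¹ * ∑ o ∈ Z, cutW (cuts o) u v) - r * cutW (cuts (some t)) u v := by
      intro u v
      have h1 := ext_eval (evW (X := P.X) u v) 0 r ((Z.card : ℝ)⁻¹ • ∑ o ∈ Z, pt o) (pt (some t))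
      rw [avg_eval _ _ hZ, ← hy] at h1
      simp only [add_zero] at h1
      exact h1
    have hc : (0 : ℝ) < Z.card := by
      have : 0 < Z.card := Finset.card_pos.2 hZ
      exact_mod_cast this
    have hdiag : ∀ u, y.1 u u = 0 := by
      intro u
      rw [hev]
      simp only [cutW_self, Finset.sum_const_zero, mul_zero, sub_zero]
    have hsymm : ∀ u v, y.1 u v = y.1 v u := by
      intro u v
      rw [hev, hev]
      rw [cutW_comm (cuts (some t)) u v, Finset.sum_congr rfl fun o _ => cutW_comm (cuts o) u v]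
    have hbox : ∀ u v, u ≠ v → 1 ≤ y.1 u v ∧ y.1 u v ≤ 3 := by
      intro u v huv
      have h1 : 6 / 5 ≤ (Z.card : ℝ)⁻¹ * ∑ o ∈ Z, cutW (cuts o) u v := by
        rw [inv_mul_eq_div, le_div_iff₀ hc]
        calc (6 : ℝ) / 5 * Z.card = ∑ _o ∈ Z, (6 : ℝ) / 5 := by
              rw [Finset.sum_const, nsmul_eq_mul, mul_comm]
          _ ≤ _ := Finset.sum_le_sum fun o _ => (cutW_bounds (cuts o) huv).1
      have h2 : (Z.card : ℝ)⁻¹ * ∑ o ∈ Z, cutW (cuts o) u v ≤ 13 / 5 := by
        rw [inv_mul_eq_div, div_le_iff₀ hc]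
        calc ∑ o ∈ Z, cutW (cuts o) u v ≤ ∑ _o ∈ Z, (13 : ℝ) / 5 :=
              Finset.sum_le_sum fun o _ => (cutW_bounds (cuts o) huv).2
          _ = 13 / 5 * Z.card := by rw [Finset.sum_const, nsmul_eq_mul, mul_comm]
      obtain ⟨h3, h4⟩ := cutW_bounds (cuts (some t)) huv
      rw [hev]
      set m := (Z.card : ℝ)⁻¹ * ∑ o ∈ Z, cutW (cuts o) u v
      constructor <;> nlinarith
    have hpos : ∀ u v, 0 ≤ y.1 u v := by
      intro u v
      by_cases huv : u = v
      · rw [huv, hdiag]
      · linarith [(hbox u v huv).1]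
    have h5 := (h y.1 hdiag hsymm hbox).1 y.2 ((holds_iff P.con y).2 ⟨heq, hK, hbin⟩)
      (iv t.1) (jv t.2.2) (iv_ne_jv _ _)
    have h6 := dist_le_walk hpos (iv_ne_jv t.1 t.2.2) [kv t.2.1]
    simp only [walkWeight] at h6
    rw [hφ]
    exact sub_nonneg.2 (h5.trans h6)

end Pool.Agent.H98.CV
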