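import Mathlib
import Pool.Agent.Lib.DeltaSystem

/-!
# Cohen-style forcing with finite (triangle-free) graphs: combinatorial core
-/

namespace Pool.Agent.H98.CohenGraph

open Set Cardinal

universe u

/-! ## Regular open algebra of a preorder -/

section RO

variable {P : Type*} [Preorder P]

/-- Boolean completion of a preorder. -/
abbrev RO (P : Type*) [Preorder P] : Type _ := Heyting.Regular (LowerSet P)

theorem mem_compl_iff (U : LowerSet P) (p : P) : p ∈ Uᶜ ↔ ∀ q ≤ p, q ∉ U := by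
  have h : p ∈ Uᶜ ↔ LowerSet.Iic p ≤ Uᶜ := by
    rw [LowerSet.Iic_le]
  rw [h, le_compl_iff_disjoint_right, disjoint_iff_inf_le]
  constructor
  · intro h q hq hqU
    have : q ∈ (⊥ : LowerSet P) := h ⟨hq, hqU⟩
    exact this
  · intro h q hq
    exact (h q hq.1 hq.2).elim

theorem mem_of_dense (U : RO P) (p : P) (h : ∀ q ≤ p, ∃ r ≤ q, r ∈ U.val) : p ∈ U.val := by
  have : p ∈ U.valᶜᶜ := by
    rw [mem_compl_iff]
    intro q hq hqU
    rw [mem_compl_iff] at hqU
    obtain ⟨r, hr, hrU⟩ := h q hq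
    exact hqU r hr hrU
  have h2 : U.valᶜᶜ = U.val := U.prop
  rwa [h2] at this

/-- The canonical dense map. -/
def ι (p : P) : RO P := Heyting.Regular.toRegular (LowerSet.Iic p)

theorem mem_ι (p q : P) : q ∈ (ι p).val ↔ ∀ r ≤ q, ∃ s ≤ r, s ≤ p := by
  unfold ι
  rw [Heyting.Regular.coe_toRegular, mem_compl_iff]
  constructor
  · intro h r hr
    have := h r hr
    rw [mem_compl_iff] at this
    push Not at this
    obtain ⟨s, hs, hs2⟩ := this
    exact ⟨s, hs, hs2⟩
  · intro h r hr hr2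
    rw [mem_compl_iff] at hr2
    obtain ⟨s, hs, hs2⟩ := h r hr
    exact hr2 s hs hs2

theorem self_mem_ι (p : P) : p ∈ (ι p).val := by
  rw [mem_ι]; intro r hr; exact ⟨r, le_refl _, hr⟩

theorem ι_le {U : RO P} {p : P} (h : p ∈ U.val) : ι p ≤ U := by
  rw [← Heyting.Regular.coe_le_coe]
  intro q hq
  change q ∈ U.val
  change q ∈ (ι p).val at hq
  rw [mem_ι] at hq
  apply mem_of_dense
  intro r hr
  obtain ⟨s, hs, hs2⟩ := hq r hr
  exact ⟨s, hs, U.val.lower hs2 h⟩

theorem ι_mono {p q : P} (h : p ≤ q) : ι p ≤ ι q :=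
  ι_le ((ι q).val.lower h (self_mem_ι q))

theorem mem_of_le {U V : RO P} (h : U ≤ V) {p : P} (hp : p ∈ U.val) : p ∈ V.val :=
  (Heyting.Regular.coe_le_coe.2 h) hp

theorem exists_mem_of_ne_bot {U : RO P} (h : U ≠ ⊥) : ∃ p, p ∈ U.val := by
  by_contra hcon
  push Not at hcon
  apply h
  rw [← Heyting.Regular.coe_inj]
  rw [Heyting.Regular.coe_bot, LowerSet.ext_iff]
  ext p
  simp only [SetLike.mem_coe, LowerSet.coe_bot, mem_empty_iff_false, iff_false]
  exact hcon p

theorem ne_bot_of_mem {U : RO P} {p : P} (h : p ∈ U.val) : U ≠ ⊥ := by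
  rintro rfl
  rw [Heyting.Regular.coe_bot] at h
  exact h

theorem mem_inf {U V : RO P} {p : P} : p ∈ (U ⊓ V).val ↔ p ∈ U.val ∧ p ∈ V.val := by
  rw [Heyting.Regular.coe_inf]; exact LowerSet.mem_inf_iff

end RO

/-! ## Graph conditions -/

/-- Finite graph conditions; if `F` holds they are required to be triangle-free. -/
@[ext]
structure GC (X : Type u) (F : Prop) : Type u where
  dom : Finset X
  adj : X → X → Prop
  symm : ∀ x y, adj x y → adj y x
  irr : ∀ x, ¬ adj x x
  supp : ∀ x y, adj x y → x ∈ dom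
  tf : F → ∀ x y z, adj x y → adj y z → adj x z → False

namespace GC

variable {X : Type u} {F : Prop}

theorem supp' (p : GC X F) {x y : X} (h : p.adj x y) : y ∈ p.dom := p.supp y x (p.symm x y h)

instance : Preorder (GC X F) where
  le p q := q.dom ⊆ p.dom ∧ ∀ x ∈ q.dom, ∀ y ∈ q.dom, (p.adj x y ↔ q.adj x y)
  le_refl p := ⟨Finset.Subset.refl _, fun _ _ _ _ => Iff.rfl⟩
  le_trans p q r hpq hqr := ⟨hqr.1.trans hpq.1, fun x hx y hy =>
    (hpq.2 x (hqr.1 hx) y (hqr.1 hy)).trans (hqr.2 x hx y hy)⟩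

theorem le_def (p q : GC X F) : p ≤ q ↔ q.dom ⊆ p.dom ∧
    ∀ x ∈ q.dom, ∀ y ∈ q.dom, (p.adj x y ↔ q.adj x y) := Iff.rfl

/-- Restriction of a condition to a set. -/
noncomputable def restrict (p : GC X F) (S : Set X) : GC X F := by
  classical
  exact
  { dom := p.dom.filter (· ∈ S)
    adj := fun x y => p.adj x y ∧ x ∈ S ∧ y ∈ S
    symm := fun x y h => ⟨p.symm x y h.1, h.2.2, h.2.1⟩
    irr := fun x h => p.irr x h.1
    supp := fun x y h => Finset.mem_filter.2 ⟨p.supp x y h.1, h.2.1⟩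
    tf := fun hF x y z h1 h2 h3 => p.tf hF x y z h1.1 h2.1 h3.1 }

theorem mem_restrict_dom (p : GC X F) (S : Set X) (x : X) :
    x ∈ (p.restrict S).dom ↔ x ∈ p.dom ∧ x ∈ S := by
  classical
  unfold restrict
  simp

theorem restrict_adj (p : GC X F) (S : Set X) (x y : X) :
    (p.restrict S).adj x y ↔ p.adj x y ∧ x ∈ S ∧ y ∈ S := Iff.rfl

theorem le_restrict (p : GC X F) (S : Set X) : p ≤ p.restrict S := by
  refine ⟨fun x hx => ((mem_restrict_dom p S x).1 hx).1, fun x hx y hy => ?_⟩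
  rw [mem_restrict_dom] at hx hy
  rw [restrict_adj]
  exact ⟨fun h => ⟨h, hx.2, hy.2⟩, fun h => h.1⟩

theorem restrict_mono {p q : GC X F} (h : p ≤ q) (S : Set X) : p.restrict S ≤ q.restrict S := by
  refine ⟨fun x hx => ?_, fun x hx y hy => ?_⟩
  · rw [mem_restrict_dom] at hx ⊢
    exact ⟨h.1 hx.1, hx.2⟩
  · rw [mem_restrict_dom] at hx hy
    rw [restrict_adj, restrict_adj, h.2 x hx.1 y hy.1]

theorem restrict_anti (p : GC X F) {S T : Set X} (h : S ⊆ T) : p.restrict T ≤ p.restrict S := by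
  refine ⟨fun x hx => ?_, fun x hx y hy => ?_⟩
  · rw [mem_restrict_dom] at hx ⊢
    exact ⟨hx.1, h hx.2⟩
  · rw [mem_restrict_dom] at hx hy
    rw [restrict_adj, restrict_adj]
    constructor
    · rintro ⟨h1, _, _⟩; exact ⟨h1, hx.2, hy.2⟩
    · rintro ⟨h1, h2, h3⟩; exact ⟨h1, h h2, h h3⟩

theorem restrict_restrict (p : GC X F) (S T : Set X) :
    (p.restrict S).restrict T ≤ p.restrict (S ∩ T) := by
  refine ⟨fun x hx => ?_, fun x hx y hy => ?_⟩
  · rw [mem_restrict_dom] at hx ⊢
    rw [mem_restrict_dom]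
    exact ⟨⟨hx.1, hx.2.1⟩, hx.2.2⟩
  · rw [mem_restrict_dom] at hx hy
    rw [restrict_adj, restrict_adj, restrict_adj]
    constructor
    · rintro ⟨⟨h1, _, _⟩, _, _⟩; exact ⟨h1, hx.2, hy.2⟩
    · rintro ⟨h1, h2, h3⟩; exact ⟨⟨h1, h2.1, h3.1⟩, h2.2, h3.2⟩

/-- Free amalgam of two conditions that agree on the common part of their domains. -/
noncomputable def amalg (p q : GC X F)
    (h : ∀ x ∈ p.dom, x ∈ q.dom → ∀ y ∈ p.dom, y ∈ q.dom → (p.adj x y ↔ q.adj x y)) :
    GC X F := by
  classical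
  exact
  { dom := p.dom ∪ q.dom
    adj := fun x y => p.adj x y ∨ q.adj x y
    symm := fun x y h => h.imp (p.symm x y) (q.symm x y)
    irr := fun x h => h.elim (p.irr x) (q.irr x)
    supp := fun x y h => Finset.mem_union.2 (h.imp (p.supp x y) (q.supp x y))
    tf := by
      intro hF x y z h1 h2 h3
      have key : ∀ {a b : X}, p.adj a b → a ∈ p.dom ∧ b ∈ p.dom :=
        fun h => ⟨p.supp _ _ h, p.supp' h⟩
      have key' : ∀ {a b : X}, q.adj a b → a ∈ q.dom ∧ b ∈ q.dom :=
        fun h => ⟨q.supp _ _ h, q.supp' h⟩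
      rcases h1 with h1 | h1 <;> rcases h2 with h2 | h2 <;> rcases h3 with h3 | h3
      · exact p.tf hF x y z h1 h2 h3
      · exact p.tf hF x y z h1 h2
          ((h x (key h1).1 (key' h3).1 z (key h2).2 (key' h3).2).2 h3)
      · exact p.tf hF x y z h1
          ((h y (key h1).2 (key' h2).1 z (key h3).2 (key' h2).2).2 h2) h3
      · exact q.tf hF x y z
          ((h x (key h1).1 (key' h3).1 y (key h1).2 (key' h2).1).1 h1) h2 h3
      · exact p.tf hF x y z
          ((h x (key h3).1 (key' h1).1 y (key h2).1 (key' h1).2).2 h1) h2 h3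
      · exact q.tf hF x y z h1
          ((h y (key h2).1 (key' h1).2 z (key h2).2 (key' h3).2).1 h2) h3
      · exact q.tf hF x y z h1 h2
          ((h x (key h3).1 (key' h1).1 z (key h3).2 (key' h2).2).1 h3)
      · exact q.tf hF x y z h1 h2 h3 }

theorem amalg_le_left (p q : GC X F)
    (h : ∀ x ∈ p.dom, x ∈ q.dom → ∀ y ∈ p.dom, y ∈ q.dom → (p.adj x y ↔ q.adj x y)) :
    p.amalg q h ≤ p := by
  classical
  refine ⟨?_, fun x hx y hy => ?_⟩
  · unfold amalg
    exact Finset.subset_union_left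
  · unfold amalg
    change (p.adj x y ∨ q.adj x y) ↔ p.adj x y
    constructor
    · rintro (h1 | h1)
      · exact h1
      · exact (h x hx (q.supp _ _ h1) y hy (q.supp' h1)).2 h1
    · exact Or.inl

theorem amalg_le_right (p q : GC X F)
    (h : ∀ x ∈ p.dom, x ∈ q.dom → ∀ y ∈ p.dom, y ∈ q.dom → (p.adj x y ↔ q.adj x y)) :
    p.amalg q h ≤ q := by
  classical
  refine ⟨?_, fun x hx y hy => ?_⟩
  · unfold amalg
    exact Finset.subset_union_right
  · unfold amalg
    change (p.adj x y ∨ q.adj x y) ↔ q.adj x y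
    constructor
    · rintro (h1 | h1)
      · exact (h x (p.supp _ _ h1) hx y (p.supp' h1) hy).1 h1
      · exact h1
    · exact Or.inr

/-- Amalgamation of `p` with an extension of a restriction of `p`, supported by `S`. -/
theorem exists_amalg_restrict (p q : GC X F) (S : Set X) (hq : ∀ x ∈ q.dom, x ∈ S)
    (h : q ≤ p.restrict S) : ∃ r, r ≤ p ∧ r ≤ q := by
  refine ⟨p.amalg q ?_, amalg_le_left _ _ _, amalg_le_right _ _ _⟩
  intro x hx hx' y hy hy'
  have h1 := h.2 x ((mem_restrict_dom p S x).2 ⟨hx, hq x hx'⟩) y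
    ((mem_restrict_dom p S y).2 ⟨hy, hq y hy'⟩)
  rw [h1, restrict_adj]
  exact ⟨fun h => ⟨h, hq x hx', hq y hy'⟩, fun h => h.1⟩

/-- Finite code of a condition relative to a finite set. -/
noncomputable def code (D : Finset X) (p : GC X F) : Finset X × Finset (X × X) := by
  classical
  exact (p.dom ∩ D, (D ×ˢ D).filter (fun z => p.adj z.1 z.2))

theorem mem_code_snd (D : Finset X) (p : GC X F) (x y : X) :
    (x, y) ∈ (code D p).2 ↔ (x ∈ D ∧ y ∈ D) ∧ p.adj x y := by
  classical
  unfold code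
  simp [Finset.mem_filter, Finset.mem_product]

theorem finite_code (D : Finset X) : (Set.range (code (F := F) D)).Finite := by
  classical
  apply Set.Finite.subset ((D.powerset ×ˢ (D ×ˢ D).powerset : Finset _).finite_toSet)
  rintro _ ⟨p, rfl⟩
  simp only [Finset.coe_product, mem_prod, Finset.mem_coe, Finset.mem_powerset]
  unfold code
  exact ⟨Finset.inter_subset_right, Finset.filter_subset _ _⟩

theorem finite_dom_subset (D : Finset X) : {p : GC X F | p.dom ⊆ D}.Finite := by
  classical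
  apply Set.Finite.of_finite_image ((finite_code D).subset (image_subset_range _ _))
  intro p hp q hq hpq
  have h1 : p.dom ∩ D = q.dom ∩ D := congrArg Prod.fst hpq
  have hp' : p.dom ⊆ D := hp
  have hq' : q.dom ⊆ D := hq
  rw [Finset.inter_eq_left.2 hp', Finset.inter_eq_left.2 hq'] at h1
  have h2 : ∀ x y, p.adj x y ↔ q.adj x y := by
    intro x y
    have e : (code D p).2 = (code D q).2 := congrArg Prod.snd hpq
    constructor
    · intro h
      have : (x, y) ∈ (code D p).2 := (mem_code_snd D p x y).2 ⟨⟨hp' (p.supp _ _ h),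
        hp' (p.supp' h)⟩, h⟩
      rw [e, mem_code_snd] at this
      exact this.2
    · intro h
      have : (x, y) ∈ (code D q).2 := (mem_code_snd D q x y).2 ⟨⟨hq' (q.supp _ _ h),
        hq' (q.supp' h)⟩, h⟩
      rw [← e, mem_code_snd] at this
      exact this.2
  ext1
  · exact h1
  · funext x y; exact propext (h2 x y)

/-- The countable chain condition. -/
theorem ccc (A : Set (GC X F)) (hA : ∀ p ∈ A, ∀ q ∈ A, p ≠ q → ¬ ∃ r, r ≤ p ∧ r ≤ q) :
    A.Countable := by
  classical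
  by_contra hcon
  obtain ⟨R, T, hTA, hT, hR⟩ := Pool.Agent.Lib.DeltaSystem.deltaSystem (fun p : GC X F => p.dom) A hcon
  have : ∃ p ∈ T, ∃ q ∈ T, p ≠ q ∧ code R p = code R q := by
    by_contra hc
    push Not at hc
    apply hT
    apply Set.Finite.countable
    apply Set.Finite.of_finite_image ((finite_code R).subset (image_subset_range _ T))
    intro p hp q hq hpq
    by_contra hne
    exact hc p hp q hq hne hpq
  obtain ⟨p, hp, q, hq, hne, hcode⟩ := this
  apply hA p (hTA hp) q (hTA hq) hne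
  have hpq : p.dom ∩ q.dom = R := hR p hp q hq hne
  refine ⟨p.amalg q ?_, amalg_le_left _ _ _, amalg_le_right _ _ _⟩
  intro x hx hx' y hy hy'
  have hxR : x ∈ R := by rw [← hpq]; exact Finset.mem_inter.2 ⟨hx, hx'⟩
  have hyR : y ∈ R := by rw [← hpq]; exact Finset.mem_inter.2 ⟨hy, hy'⟩
  have e : (code R p).2 = (code R q).2 := congrArg Prod.snd hcode
  constructor
  · intro h
    have : (x, y) ∈ (code R p).2 := (mem_code_snd R p x y).2 ⟨⟨hxR, hyR⟩, h⟩
    rw [e, mem_code_snd] at this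
    exact this.2
  · intro h
    have : (x, y) ∈ (code R q).2 := (mem_code_snd R q x y).2 ⟨⟨hxR, hyR⟩, h⟩
    rw [← e, mem_code_snd] at this
    exact this.2

/-- `U` is supported by `S`. -/
def Supp (U : RO (GC X F)) (S : Set X) : Prop := ∀ p ∈ U.val, p.restrict S ∈ U.val

theorem Supp.mono {U : RO (GC X F)} {S T : Set X} (h : Supp U S) (hST : S ⊆ T) : Supp U T :=
  fun p hp => U.val.lower (restrict_anti p hST) (h p hp)

/-- Every element of the completion has a countable support. -/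
theorem exists_supp (U : RO (GC X F)) : ∃ S : Set X, S.Countable ∧ Supp U S := by
  classical
  obtain ⟨A, hmax⟩ := zorn_subset {A : Set (GC X F) | A ⊆ (U.val : Set (GC X F)) ∧
      ∀ p ∈ A, ∀ q ∈ A, p ≠ q → ¬ ∃ r, r ≤ p ∧ r ≤ q} (by
    intro c hc hchain
    refine ⟨⋃₀ c, ⟨?_, ?_⟩, fun s hs => subset_sUnion_of_mem hs⟩
    · exact sUnion_subset fun t ht => (hc ht).1
    · rintro i ⟨s, hs, his⟩ j ⟨t, ht, hjt⟩ hij
      rcases hchain.total hs ht with hst | hts
      · exact (hc ht).2 i (hst his) j hjt hij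
      · exact (hc hs).2 i his j (hts hjt) hij)
  obtain ⟨⟨hAU, hAd⟩, hmax⟩ := hmax
  have hAc : A.Countable := ccc A hAd
  refine ⟨⋃ a ∈ A, (a.dom : Set X), hAc.biUnion fun a _ => a.dom.countable_toSet, ?_⟩
  set S : Set X := ⋃ a ∈ A, (a.dom : Set X) with hS
  intro p hp
  apply mem_of_dense
  intro q hq
  -- `q.restrict S` is compatible with `p`
  obtain ⟨t, htp, htq⟩ := exists_amalg_restrict p (q.restrict S) S
    (fun x hx => ((mem_restrict_dom q S x).1 hx).2) (by
      have h1 := restrict_mono hq S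
      refine h1.trans ?_
      refine (restrict_restrict p S S).trans ?_
      rw [inter_self])
  have htU : t ∈ U.val := U.val.lower htp hp
  -- compatible with a member of A
  have : ∃ a ∈ A, ∃ u, u ≤ t ∧ u ≤ a := by
    by_contra hc
    push Not at hc
    have htA : t ∉ A := fun h => hc t h t (le_refl _) (le_refl _)
    have hins : insert t A ∈ {A : Set (GC X F) | A ⊆ (U.val : Set (GC X F)) ∧
      ∀ p ∈ A, ∀ q ∈ A, p ≠ q → ¬ ∃ r, r ≤ p ∧ r ≤ q} := by
      refine ⟨insert_subset htU hAU, ?_⟩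
      rintro a (rfl | ha) b (rfl | hb) hab
      · exact absurd rfl hab
      · rintro ⟨r, hr1, hr2⟩; exact hc b hb r hr1 hr2
      · rintro ⟨r, hr1, hr2⟩; exact hc a ha r hr2 hr1
      · exact hAd a ha b hb hab
    exact htA (hmax hins (subset_insert t A) (mem_insert t A))
  obtain ⟨a, ha, v, hvt, hva⟩ := this
  have haS : ∀ x ∈ a.dom, x ∈ S := by
    intro x hx
    rw [hS]
    simp only [mem_iUnion, Finset.mem_coe, exists_prop]
    exact ⟨a, ha, hx⟩
  -- `v.restrict S ≤ a`
  have hvSa : v.restrict S ≤ a := by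
    refine ⟨fun x hx => (mem_restrict_dom v S x).2 ⟨hva.1 hx, haS x hx⟩, fun x hx y hy => ?_⟩
    rw [restrict_adj, hva.2 x hx y hy]
    exact ⟨fun h => h.1, fun h => ⟨h, haS x hx, haS y hy⟩⟩
  have hvSq : v.restrict S ≤ q.restrict S := by
    have h1 := restrict_mono (hvt.trans htq) S
    refine h1.trans ((restrict_restrict q S S).trans ?_)
    rw [inter_self]
  obtain ⟨w, hwq, hwv⟩ := exists_amalg_restrict q (v.restrict S) S
    (fun x hx => ((mem_restrict_dom v S x).1 hx).2) hvSq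
  exact ⟨w, hwq, U.val.lower (hwv.trans hvSa) (hAU ha)⟩

end GC

end Pool.Agent.H98.CohenGraph
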