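import Mathlib
import Pool.Agent.H98.CohenGraph

/-!
# Non-equivalence of the graph forcing and the triangle-free graph forcing
-/

namespace Pool.Agent.H98.CohenGraph

open Set Cardinal

universe u

/-! ## Closure under a countable-valued set mapping on finite sets -/

section Closure

variable {X : Type u}

/-- One closure step. -/
def clStep (σ : Finset X → Set X) (A : Set X) : Set X :=
  A ∪ ⋃ D ∈ {D : Finset X | (D : Set X) ⊆ A}, σ D

/-- Iterated closure. -/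
def clIter (σ : Finset X → Set X) (A : Set X) : ℕ → Set X
  | 0 => A
  | n + 1 => clStep σ (clIter σ A n)

/-- Closure. -/
def cl (σ : Finset X → Set X) (A : Set X) : Set X := ⋃ n, clIter σ A n

theorem subset_clStep (σ : Finset X → Set X) (A : Set X) : A ⊆ clStep σ A :=
  subset_union_left

theorem clIter_mono (σ : Finset X → Set X) (A : Set X) : Monotone (clIter σ A) :=
  monotone_nat_of_le_succ fun n => subset_clStep σ (clIter σ A n)

theorem subset_cl (σ : Finset X → Set X) (A : Set X) : A ⊆ cl σ A :=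
  subset_iUnion (clIter σ A) 0

theorem clStep_countable (σ : Finset X → Set X) (hσ : ∀ D, (σ D).Countable) {A : Set X}
    (hA : A.Countable) : (clStep σ A).Countable := by
  refine hA.union (Set.Countable.biUnion ?_ fun D _ => hσ D)
  have h1 := Set.countable_ofPred_finite_subset hA
  have h2 : ((fun D : Finset X => (D : Set X)) '' {D : Finset X | (D : Set X) ⊆ A}).Countable := by
    refine h1.mono ?_
    rintro _ ⟨D, hD, rfl⟩
    exact ⟨D.finite_toSet, hD⟩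
  exact (Set.mapsTo_image _ _).countable_of_injOn Finset.coe_injective.injOn h2

theorem cl_countable (σ : Finset X → Set X) (hσ : ∀ D, (σ D).Countable) {A : Set X}
    (hA : A.Countable) : (cl σ A).Countable := by
  refine countable_iUnion fun n => ?_
  induction n with
  | zero => exact hA
  | succ n ih => exact clStep_countable σ hσ ih

theorem cl_closed (σ : Finset X → Set X) (A : Set X) (D : Finset X) (hD : (D : Set X) ⊆ cl σ A) :
    σ D ⊆ cl σ A := by
  classical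
  have : ∃ n, (D : Set X) ⊆ clIter σ A n := by
    have hdir : Directed (· ⊆ ·) (clIter σ A) := (clIter_mono σ A).directed_le
    obtain ⟨n, hn⟩ := hdir.exists_mem_subset_of_finset_subset_biUnion
      (s := D) (by simpa [cl] using hD)
    exact ⟨n, hn⟩
  obtain ⟨n, hn⟩ := this
  intro x hx
  refine mem_iUnion.2 ⟨n + 1, ?_⟩
  refine Or.inr ?_
  simp only [mem_iUnion]
  exact ⟨D, hn, hx⟩

end Closure

/-! ## Free pairs for countable set mappings on a set of size at least aleph two -/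

theorem exists_free_pair {X : Type u} (hX : aleph 2 ≤ #X) (f : X → Set X)
    (hf : ∀ x, (f x).Countable) : ∃ y z : X, y ∉ f z ∧ z ∉ f y := by
  have h1 : aleph 1 ≤ #X := (aleph_le_aleph.2 (by norm_num)).trans hX
  obtain ⟨A, hA⟩ := Cardinal.le_mk_iff_exists_set.1 h1
  have hU : #(⋃ a ∈ A, f a : Set X) ≤ aleph 1 := by
    calc #(⋃ a ∈ A, f a : Set X) ≤ #A * ⨆ a : A, #(f a) := Cardinal.mk_biUnion_le _ _
      _ ≤ aleph 1 * ℵ₀ := by
          refine mul_le_mul' hA.le (ciSup_le' fun a => ?_)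
          exact Cardinal.mk_le_aleph0_iff.2 (hf a).to_subtype
      _ = aleph 1 := Cardinal.mul_aleph0_eq (aleph0_le_aleph 1)
  have hne : (⋃ a ∈ A, f a : Set X) ≠ Set.univ := by
    intro h
    rw [h, Cardinal.mk_univ] at hU
    have := hX.trans hU
    rw [aleph_le_aleph] at this
    norm_num at this
  obtain ⟨z, hz⟩ := (Set.ne_univ_iff_exists_notMem _).1 hne
  have : ∃ y ∈ A, y ∉ f z := by
    by_contra hcon
    push Not at hcon
    have hAc : A.Countable := (hf z).mono hcon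
    have := Cardinal.mk_le_aleph0_iff.2 hAc.to_subtype
    rw [hA, ← aleph_zero, aleph_le_aleph] at this
    norm_num at this
  obtain ⟨y, hy, hyz⟩ := this
  refine ⟨y, z, hyz, fun h => hz ?_⟩
  simp only [mem_iUnion, exists_prop]
  exact ⟨y, hy, h⟩

/-! ## The main argument -/

section Main

variable {X : Type u}

open GC

theorem exists_sigma {F G : Prop} (π : RO (GC X F) ≃o RO (GC X G)) :
    ∃ σ : Finset X → Set X, (∀ D, (σ D).Countable) ∧
      ∀ (D : Finset X) (p : GC X F), p.dom ⊆ D → Supp (π (ι p)) (σ D) := by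
  classical
  choose s hs1 hs2 using fun U : RO (GC X G) => exists_supp U
  refine ⟨fun D => ⋃ p ∈ {p : GC X F | p.dom ⊆ D}, s (π (ι p)), fun D => ?_, fun D p hp => ?_⟩
  · exact (finite_dom_subset D).countable.biUnion fun p _ => hs1 _
  · refine (hs2 (π (ι p))).mono ?_
    intro x hx
    simp only [mem_iUnion]
    exact ⟨p, hp, hx⟩

/-- Extension of a restriction of `p1` by a new vertex `w` adjacent to exactly one vertex. -/
theorem exists_ext_vertex (p1 : GC X True) (w : X) (hw : w ∉ p1.dom) (S : Set X) (v : X)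
    (hv : v ∈ p1.dom) (hvS : v ∈ S) (_hwS : w ∈ S) :
      ∃ r : GC X True, r ≤ p1.restrict S ∧ (∀ x, x ∈ r.dom ↔ ((x ∈ p1.dom ∧ x ∈ S) ∨ x = w)) ∧
        ∀ a b, r.adj a b ↔ ((p1.adj a b ∧ a ∈ S ∧ b ∈ S) ∨ (a = v ∧ b = w) ∨ (a = w ∧ b = v)) := by
  classical
  have hvw : v ≠ w := fun h => hw (h ▸ hv)
  have hna : ∀ a, ¬ p1.adj w a := fun a h => hw (p1.supp _ _ h)
  have hna' : ∀ a, ¬ p1.adj a w := fun a h => hw (p1.supp' h)
  refine ⟨{ dom := insert w (p1.restrict S).dom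
            adj := fun a b => (p1.adj a b ∧ a ∈ S ∧ b ∈ S) ∨ (a = v ∧ b = w) ∨ (a = w ∧ b = v)
            symm := ?_, irr := ?_, supp := ?_, tf := ?_ }, ?_, ?_, ?_⟩
  · rintro a b (⟨h1, h2, h3⟩ | ⟨h1, h2⟩ | ⟨h1, h2⟩)
    · exact Or.inl ⟨p1.symm _ _ h1, h3, h2⟩
    · exact Or.inr (Or.inr ⟨h2, h1⟩)
    · exact Or.inr (Or.inl ⟨h2, h1⟩)
  · rintro a (⟨h1, h2, h3⟩ | ⟨h1, h2⟩ | ⟨h1, h2⟩)
    · exact p1.irr _ h1
    · exact hvw (h1 ▸ h2)
    · exact hvw (h2 ▸ h1)
  · rintro a b (⟨h1, h2, h3⟩ | ⟨h1, h2⟩ | ⟨h1, h2⟩)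
    · exact Finset.mem_insert_of_mem ((mem_restrict_dom _ _ _).2 ⟨p1.supp _ _ h1, h2⟩)
    · subst h1
      exact Finset.mem_insert_of_mem ((mem_restrict_dom _ _ _).2 ⟨hv, hvS⟩)
    · subst h1
      exact Finset.mem_insert_self _ _
  · rintro - a b c h1 h2 h3
    have key : ∀ {a b}, ((p1.adj a b ∧ a ∈ S ∧ b ∈ S) ∨ (a = v ∧ b = w) ∨ (a = w ∧ b = v)) →
        (a = w → b = v) ∧ (b = w → a = v) := by
      rintro a b (⟨h1, h2, h3⟩ | ⟨h1, h2⟩ | ⟨h1, h2⟩)
      · exact ⟨fun h => (hna _ (h ▸ h1)).elim, fun h => (hna' _ (h ▸ h1)).elim⟩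
      · exact ⟨fun h => (hvw (h1 ▸ h)).elim, fun _ => h1⟩
      · exact ⟨fun _ => h2, fun h => (hvw (h2 ▸ h)).elim⟩
    have key2 : ∀ {a b}, ((p1.adj a b ∧ a ∈ S ∧ b ∈ S) ∨ (a = v ∧ b = w) ∨ (a = w ∧ b = v)) →
        a ≠ b := by
      rintro a b (⟨h1, h2, h3⟩ | ⟨h1, h2⟩ | ⟨h1, h2⟩) rfl
      · exact p1.irr _ h1
      · exact hvw (h1 ▸ h2)
      · exact hvw (h2 ▸ h1)
    have key3 : ∀ {a b}, ((p1.adj a b ∧ a ∈ S ∧ b ∈ S) ∨ (a = v ∧ b = w) ∨ (a = w ∧ b = v)) →
        a ≠ w → b ≠ w → p1.adj a b := by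
      rintro a b (⟨h1, h2, h3⟩ | ⟨h1, h2⟩ | ⟨h1, h2⟩) ha hb
      · exact h1
      · exact (hb h2).elim
      · exact (ha h1).elim
    by_cases ha : a = w
    · exact key2 h2 (((key h1).1 ha).trans ((key h3).1 ha).symm)
    · by_cases hb : b = w
      · exact key2 h3 (((key h1).2 hb).trans ((key h2).1 hb).symm)
      · by_cases hc : c = w
        · exact key2 h1 (((key h3).2 hc).trans ((key h2).2 hc).symm)
        · exact p1.tf trivial a b c (key3 h1 ha hb) (key3 h2 hb hc) (key3 h3 ha hc)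
  · refine ⟨fun x hx => Finset.mem_insert_of_mem hx, fun a ha b hb => ?_⟩
    rw [mem_restrict_dom] at ha hb
    rw [restrict_adj]
    constructor
    · rintro (h | ⟨h1, h2⟩ | ⟨h1, h2⟩)
      · exact h
      · exact (hw (h2 ▸ hb.1)).elim
      · exact (hw (h1 ▸ ha.1)).elim
    · exact Or.inl
  · intro x
    rw [Finset.mem_insert, mem_restrict_dom]
    tauto
  · intro a b
    exact Iff.rfl

/-- The triangle-free graph forcing and the graph forcing have non-isomorphic completions when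
the underlying set has size at least aleph two. -/
theorem not_iso (hX : aleph 2 ≤ #X) : ¬ Nonempty (RO (GC X True) ≃o RO (GC X False)) := by
  classical
  rintro ⟨π⟩
  obtain ⟨σ₁, hσ₁, hσ₁'⟩ := exists_sigma π
  obtain ⟨σ₂, hσ₂, hσ₂'⟩ := exists_sigma π.symm
  set σ : Finset X → Set X := fun D => σ₁ D ∪ σ₂ D with hσ
  have hσc : ∀ D, (σ D).Countable := fun D => (hσ₁ D).union (hσ₂ D)
  -- an infinite countable set
  have hinf : Infinite X := by
    rw [Cardinal.infinite_iff]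
    exact (aleph0_le_aleph 2).trans hX
  let W : Set X := Set.range (Infinite.natEmbedding X)
  have hWc : W.Countable := countable_range _
  have hWi : W.Infinite := Set.infinite_range_of_injective (Infinite.natEmbedding X).injective
  obtain ⟨y, z, hyz, hzy⟩ := exists_free_pair hX (fun x => cl σ (insert x W))
    (fun x => cl_countable σ hσc (hWc.insert x))
  set Y := cl σ (insert y W) with hY
  set Z := cl σ (insert z W) with hZ
  have hyY : y ∈ Y := subset_cl σ _ (mem_insert _ _)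
  have hzZ : z ∈ Z := subset_cl σ _ (mem_insert _ _)
  have hWY : W ⊆ Y := (subset_insert _ _).trans (subset_cl σ _)
  have hWZ : W ⊆ Z := (subset_insert _ _).trans (subset_cl σ _)
  have hne : y ≠ z := fun h => hyz (h ▸ hzZ)
  -- support facts
  have suppY1 : ∀ p : GC X True, (∀ x ∈ p.dom, x ∈ Y) → Supp (π (ι p)) Y := fun p hp =>
    (hσ₁' p.dom p (Finset.Subset.refl _)).mono
      (subset_union_left.trans (cl_closed σ _ p.dom hp))
  have suppZ1 : ∀ p : GC X True, (∀ x ∈ p.dom, x ∈ Z) → Supp (π (ι p)) Z := fun p hp =>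
    (hσ₁' p.dom p (Finset.Subset.refl _)).mono
      (subset_union_left.trans (cl_closed σ _ p.dom hp))
  have suppY2 : ∀ p : GC X False, (∀ x ∈ p.dom, x ∈ Y) → Supp (π.symm (ι p)) Y := fun p hp =>
    (hσ₂' p.dom p (Finset.Subset.refl _)).mono
      (subset_union_right.trans (cl_closed σ _ p.dom hp))
  have suppZ2 : ∀ p : GC X False, (∀ x ∈ p.dom, x ∈ Z) → Supp (π.symm (ι p)) Z := fun p hp =>
    (hσ₂' p.dom p (Finset.Subset.refl _)).mono
      (subset_union_right.trans (cl_closed σ _ p.dom hp))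
  -- the condition with the edge `yz`
  let p0 : GC X True :=
    { dom := {y, z}
      adj := fun a b => (a = y ∧ b = z) ∨ (a = z ∧ b = y)
      symm := fun a b h => h.elim (fun h => Or.inr ⟨h.2, h.1⟩) (fun h => Or.inl ⟨h.2, h.1⟩)
      irr := by
        rintro a (⟨h1, h2⟩ | ⟨h1, h2⟩)
        · exact hne (h1 ▸ h2)
        · exact hne (h2 ▸ h1)
      supp := by
        rintro a b (⟨h1, h2⟩ | ⟨h1, h2⟩) <;> simp [h1]
      tf := by
        rintro - a b c (⟨h1, h2⟩ | ⟨h1, h2⟩) (⟨h3, h4⟩ | ⟨h3, h4⟩) (⟨h5, h6⟩ | ⟨h5, h6⟩) <;>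
          simp_all }
  obtain ⟨q, hq⟩ : ∃ q, q ∈ (π (ι p0)).val := by
    apply exists_mem_of_ne_bot
    intro h
    have : ι p0 = ⊥ := by
      have := congrArg π.symm h
      simpa using this
    exact ne_bot_of_mem (self_mem_ι p0) this
  set qY := q.restrict Y with hqY
  set qZ := q.restrict Z with hqZ
  have hV0 : π.symm (ι q) ≤ ι p0 := by
    rw [← π.le_iff_le, OrderIso.apply_symm_apply]
    exact ι_le hq
  have hVY : π.symm (ι q) ≤ π.symm (ι qY) := π.symm.monotone (ι_mono (le_restrict q Y))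
  have hVZ : π.symm (ι q) ≤ π.symm (ι qZ) := π.symm.monotone (ι_mono (le_restrict q Z))
  obtain ⟨p1', hp1'⟩ : ∃ p, p ∈ (π.symm (ι q)).val := by
    apply exists_mem_of_ne_bot
    intro h
    have : ι q = ⊥ := by
      have := congrArg π h
      simpa using this
    exact ne_bot_of_mem (self_mem_ι q) this
  obtain ⟨p1, hp1, hp10⟩ := (mem_ι p0 p1').1 (mem_of_le hV0 hp1') p1' (le_refl _)
  have hp1V : p1 ∈ (π.symm (ι q)).val := (π.symm (ι q)).val.lower hp1 hp1'
  -- choose `w`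
  obtain ⟨w, hwW, hw⟩ : ∃ w ∈ W, w ∉ p1.dom := by
    by_contra hcon
    push Not at hcon
    exact hWi (p1.dom.finite_toSet.subset hcon)
  have hyp1 : y ∈ p1.dom := hp10.1 (by simp [p0])
  have hzp1 : z ∈ p1.dom := hp10.1 (by simp [p0])
  have hwy : w ≠ y := fun h => hw (h ▸ hyp1)
  have hwz : w ≠ z := fun h => hw (h ▸ hzp1)
  obtain ⟨rY, hrY, hrYd, hrYa⟩ := exists_ext_vertex p1 w hw Y y hyp1 hyY (hWY hwW)
  obtain ⟨rZ, hrZ, hrZd, hrZa⟩ := exists_ext_vertex p1 w hw Z z hzp1 hzZ (hWZ hwW)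
  have hwY : w ∈ Y := hWY hwW
  have hwZ : w ∈ Z := hWZ hwW
  have hrYY : ∀ x ∈ rY.dom, x ∈ Y := fun x hx => by
    rcases (hrYd x).1 hx with h | h
    · exact h.2
    · exact h ▸ hwY
  have hrZZ : ∀ x ∈ rZ.dom, x ∈ Z := fun x hx => by
    rcases (hrZd x).1 hx with h | h
    · exact h.2
    · exact h ▸ hwZ
  -- `rY` and `rZ` are compatible
  obtain ⟨r, hr1, hr2⟩ : ∃ r : GC X True, r ≤ rY ∧ r ≤ rZ := by
    refine ⟨rY.amalg rZ ?_, amalg_le_left _ _ _, amalg_le_right _ _ _⟩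
    intro a ha ha' b hb hb'
    have haY := hrYY a ha
    have haZ := hrZZ a ha'
    have hbY := hrYY b hb
    have hbZ := hrZZ b hb'
    have hay : a ≠ y := fun h => hyz (h ▸ haZ)
    have haz : a ≠ z := fun h => hzy (h ▸ haY)
    have hby : b ≠ y := fun h => hyz (h ▸ hbZ)
    have hbz : b ≠ z := fun h => hzy (h ▸ hbY)
    rw [hrYa, hrZa]
    tauto
  have hVYs := suppY2 qY (fun x hx => ((mem_restrict_dom q Y x).1 hx).2)
  have hVZs := suppZ2 qZ (fun x hx => ((mem_restrict_dom q Z x).1 hx).2)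
  have hp1Y : p1.restrict Y ∈ (π.symm (ι qY)).val := hVYs p1 (mem_of_le hVY hp1V)
  have hp1Z : p1.restrict Z ∈ (π.symm (ι qZ)).val := hVZs p1 (mem_of_le hVZ hp1V)
  have hEY : π (ι rY) ≤ ι qY := by
    have : ι rY ≤ π.symm (ι qY) := ι_le ((π.symm (ι qY)).val.lower hrY hp1Y)
    rwa [← π.le_iff_le, OrderIso.apply_symm_apply] at this
  have hEZ : π (ι rZ) ≤ ι qZ := by
    have : ι rZ ≤ π.symm (ι qZ) := ι_le ((π.symm (ι qZ)).val.lower hrZ hp1Z)
    rwa [← π.le_iff_le, OrderIso.apply_symm_apply] at this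
  have hEYs := suppY1 rY hrYY
  have hEZs := suppZ1 rZ hrZZ
  -- a common element of `π (ι rY)` and `π (ι rZ)`
  obtain ⟨s0, hs0⟩ : ∃ s, s ∈ (π (ι r)).val := by
    apply exists_mem_of_ne_bot
    intro h
    have : ι r = ⊥ := by
      have := congrArg π.symm h
      simpa using this
    exact ne_bot_of_mem (self_mem_ι r) this
  have hs0Y : s0 ∈ (π (ι rY)).val := mem_of_le (π.monotone (ι_mono hr1)) hs0
  have hs0Z : s0 ∈ (π (ι rZ)).val := mem_of_le (π.monotone (ι_mono hr2)) hs0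
  obtain ⟨s1, hs1, hs1Y⟩ := (mem_ι qY s0).1 (mem_of_le hEY hs0Y) s0 (le_refl _)
  have hs1Z' : s1 ∈ (π (ι rZ)).val := (π (ι rZ)).val.lower hs1 hs0Z
  obtain ⟨s, hs, hsZ⟩ := (mem_ι qZ s1).1 (mem_of_le hEZ hs1Z') s1 (le_refl _)
  have hsY : s ≤ qY := hs.trans hs1Y
  have hsEY : s ∈ (π (ι rY)).val := (π (ι rY)).val.lower (hs.trans hs1) hs0Y
  have hsEZ : s ∈ (π (ι rZ)).val := (π (ι rZ)).val.lower (hs.trans hs1) hs0Z
  have hsEY' : s.restrict Y ∈ (π (ι rY)).val := hEYs s hsEY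
  have hsEZ' : s.restrict Z ∈ (π (ι rZ)).val := hEZs s hsEZ
  -- amalgamate `s.restrict Y`, `s.restrict Z` and `q`
  have hY2 : ∀ a ∈ q.dom, a ∈ Y → ∀ b ∈ q.dom, b ∈ Y → (s.adj a b ↔ q.adj a b) := by
    intro a ha haY b hb hbY
    have := hsY.2 a ((mem_restrict_dom _ _ _).2 ⟨ha, haY⟩) b ((mem_restrict_dom _ _ _).2 ⟨hb, hbY⟩)
    rw [this, restrict_adj]
    exact ⟨fun h => h.1, fun h => ⟨h, haY, hbY⟩⟩
  have hZ2 : ∀ a ∈ q.dom, a ∈ Z → ∀ b ∈ q.dom, b ∈ Z → (s.adj a b ↔ q.adj a b) := by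
    intro a ha haY b hb hbY
    have := hsZ.2 a ((mem_restrict_dom _ _ _).2 ⟨ha, haY⟩) b ((mem_restrict_dom _ _ _).2 ⟨hb, hbY⟩)
    rw [this, restrict_adj]
    exact ⟨fun h => h.1, fun h => ⟨h, haY, hbY⟩⟩
  let t : GC X False :=
    { dom := s.dom.filter (fun x => x ∈ Y ∨ x ∈ Z) ∪ q.dom
      adj := fun a b => (s.adj a b ∧ a ∈ Y ∧ b ∈ Y) ∨ (s.adj a b ∧ a ∈ Z ∧ b ∈ Z) ∨ q.adj a b
      symm := by
        rintro a b (⟨h1, h2, h3⟩ | ⟨h1, h2, h3⟩ | h)
        · exact Or.inl ⟨s.symm _ _ h1, h3, h2⟩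
        · exact Or.inr (Or.inl ⟨s.symm _ _ h1, h3, h2⟩)
        · exact Or.inr (Or.inr (q.symm _ _ h))
      irr := by
        rintro a (⟨h1, h2, h3⟩ | ⟨h1, h2, h3⟩ | h)
        · exact s.irr _ h1
        · exact s.irr _ h1
        · exact q.irr _ h
      supp := by
        rintro a b (⟨h1, h2, h3⟩ | ⟨h1, h2, h3⟩ | h)
        · exact Finset.mem_union_left _ (Finset.mem_filter.2 ⟨s.supp _ _ h1, Or.inl h2⟩)
        · exact Finset.mem_union_left _ (Finset.mem_filter.2 ⟨s.supp _ _ h1, Or.inr h2⟩)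
        · exact Finset.mem_union_right _ (q.supp _ _ h)
      tf := fun h => h.elim }
  have htq : t ≤ q := by
    refine ⟨Finset.subset_union_right, fun a ha b hb => ?_⟩
    constructor
    · rintro (⟨h1, h2, h3⟩ | ⟨h1, h2, h3⟩ | h)
      · exact (hY2 a ha h2 b hb h3).1 h1
      · exact (hZ2 a ha h2 b hb h3).1 h1
      · exact h
    · exact fun h => Or.inr (Or.inr h)
  have htY : t ≤ s.restrict Y := by
    refine ⟨fun x hx => ?_, fun a ha b hb => ?_⟩
    · rw [mem_restrict_dom] at hx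
      exact Finset.mem_union_left _ (Finset.mem_filter.2 ⟨hx.1, Or.inl hx.2⟩)
    · rw [mem_restrict_dom] at ha hb
      rw [restrict_adj]
      constructor
      · rintro (⟨h1, h2, h3⟩ | ⟨h1, h2, h3⟩ | h)
        · exact ⟨h1, h2, h3⟩
        · exact ⟨h1, ha.2, hb.2⟩
        · exact ⟨(hY2 a (q.supp _ _ h) ha.2 b (q.supp' h) hb.2).2 h, ha.2, hb.2⟩
      · exact Or.inl
  have htZ : t ≤ s.restrict Z := by
    refine ⟨fun x hx => ?_, fun a ha b hb => ?_⟩
    · rw [mem_restrict_dom] at hx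
      exact Finset.mem_union_left _ (Finset.mem_filter.2 ⟨hx.1, Or.inr hx.2⟩)
    · rw [mem_restrict_dom] at ha hb
      rw [restrict_adj]
      constructor
      · rintro (⟨h1, h2, h3⟩ | ⟨h1, h2, h3⟩ | h)
        · exact ⟨h1, ha.2, hb.2⟩
        · exact ⟨h1, h2, h3⟩
        · exact ⟨(hZ2 a (q.supp _ _ h) ha.2 b (q.supp' h) hb.2).2 h, ha.2, hb.2⟩
      · exact fun h => Or.inr (Or.inl h)
  -- pull back along `π`
  have htEY : t ∈ (π (ι rY)).val := (π (ι rY)).val.lower htY hsEY'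
  have htEZ : t ∈ (π (ι rZ)).val := (π (ι rZ)).val.lower htZ hsEZ'
  have h1 : π.symm (ι t) ≤ ι rY := by
    rw [← π.le_iff_le, OrderIso.apply_symm_apply]; exact ι_le htEY
  have h2 : π.symm (ι t) ≤ ι rZ := by
    rw [← π.le_iff_le, OrderIso.apply_symm_apply]; exact ι_le htEZ
  have h3 : π.symm (ι t) ≤ ι p0 := (π.symm.monotone (ι_mono htq)).trans hV0
  obtain ⟨u0, hu0⟩ : ∃ p, p ∈ (π.symm (ι t)).val := by
    apply exists_mem_of_ne_bot
    intro h
    have : ι t = ⊥ := by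
      have := congrArg π h
      simpa using this
    exact ne_bot_of_mem (self_mem_ι t) this
  obtain ⟨u1, hu1, hu1Y⟩ := (mem_ι rY u0).1 (mem_of_le h1 hu0) u0 (le_refl _)
  have hu1' : u1 ∈ (π.symm (ι t)).val := (π.symm (ι t)).val.lower hu1 hu0
  obtain ⟨u2, hu2, hu2Z⟩ := (mem_ι rZ u1).1 (mem_of_le h2 hu1') u1 (le_refl _)
  have hu2' : u2 ∈ (π.symm (ι t)).val := (π.symm (ι t)).val.lower hu2 hu1'
  obtain ⟨v, hv, hv0⟩ := (mem_ι p0 u2).1 (mem_of_le h3 hu2') u2 (le_refl _)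
  have hvY : v ≤ rY := (hv.trans hu2).trans hu1Y
  have hvZ : v ≤ rZ := hv.trans hu2Z
  have e1 : v.adj y w := (hvY.2 y ((hrYd y).2 (Or.inl ⟨hyp1, hyY⟩)) w
    ((hrYd w).2 (Or.inr rfl))).2 ((hrYa y w).2 (Or.inr (Or.inl ⟨rfl, rfl⟩)))
  have e2 : v.adj z w := (hvZ.2 z ((hrZd z).2 (Or.inl ⟨hzp1, hzZ⟩)) w
    ((hrZd w).2 (Or.inr rfl))).2 ((hrZa z w).2 (Or.inr (Or.inl ⟨rfl, rfl⟩)))
  have e3 : v.adj y z := (hv0.2 y (by simp [p0]) z (by simp [p0])).2 (Or.inl ⟨rfl, rfl⟩)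
  exact v.tf trivial y z w e3 e2 e1

end Main

end Pool.Agent.H98.CohenGraph
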