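import Mathlib

/-!
# Counting min gates in computations with free affine forms and nonnegative combinations
-/

namespace Pool.Agent.H98.MinGates

open Finset Filter Topology

/-! ## Homogeneous computations -/

section Homog

variable {E : Type*} [AddCommGroup E] [Module ℝ E] {s : ℕ}

/-- A homogeneous min computation, with explicit coefficients. -/
structure Homog (E : Type*) [AddCommGroup E] [Module ℝ E] (s : ℕ) where
  g : Fin s → E → ℝ
  l₁ : Fin s → E →ₗ[ℝ] ℝ
  l₂ : Fin s → E →ₗ[ℝ] ℝ
  a : Fin s → Fin s → ℝ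
  b : Fin s → Fin s → ℝ
  a_nonneg : ∀ t r, 0 ≤ a t r
  b_nonneg : ∀ t r, 0 ≤ b t r
  a_zero : ∀ t r, t ≤ r → a t r = 0
  b_zero : ∀ t r, t ≤ r → b t r = 0
  eq : ∀ t y, g t y = min (l₁ t y + ∑ r, a t r * g r y) (l₂ t y + ∑ r, b t r * g r y)

variable (H : Homog E s)

/-- Reachability from an output with coefficients `μ`. -/
inductive Reach (H : Homog E s) (μ : Fin s → ℝ) : Fin s → Prop
  | base (r : Fin s) : 0 < μ r → Reach H μ r
  | left (t r : Fin s) : Reach H μ t → 0 < H.a t r → Reach H μ r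
  | right (t r : Fin s) : Reach H μ t → 0 < H.b t r → Reach H μ r

theorem g_zero (t : Fin s) : H.g t 0 = 0 := by
  induction t using WellFoundedLT.induction with
  | _ t ih =>
    rw [H.eq]
    have h1 : ∑ r, H.a t r * H.g r 0 = 0 := by
      apply sum_eq_zero
      intro r _
      by_cases h : r < t
      · rw [ih r h, mul_zero]
      · rw [H.a_zero t r (not_lt.1 h), zero_mul]
    have h2 : ∑ r, H.b t r * H.g r 0 = 0 := by
      apply sum_eq_zero
      intro r _
      by_cases h : r < t
      · rw [ih r h, mul_zero]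
      · rw [H.b_zero t r (not_lt.1 h), zero_mul]
    rw [h1, h2]; simp

theorem g_superadd (t : Fin s) : ∀ x y, H.g t x + H.g t y ≤ H.g t (x + y) := by
  induction t using WellFoundedLT.induction with
  | _ t ih =>
    intro x y
    have h1 : ∑ r, H.a t r * H.g r x + ∑ r, H.a t r * H.g r y ≤ ∑ r, H.a t r * H.g r (x + y) := by
      rw [← sum_add_distrib]
      apply sum_le_sum
      intro r _
      by_cases h : r < t
      · rw [← mul_add]
        exact mul_le_mul_of_nonneg_left (ih r h x y) (H.a_nonneg t r)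
      · rw [H.a_zero t r (not_lt.1 h)]; simp
    have h2 : ∑ r, H.b t r * H.g r x + ∑ r, H.b t r * H.g r y ≤ ∑ r, H.b t r * H.g r (x + y) := by
      rw [← sum_add_distrib]
      apply sum_le_sum
      intro r _
      by_cases h : r < t
      · rw [← mul_add]
        exact mul_le_mul_of_nonneg_left (ih r h x y) (H.b_nonneg t r)
      · rw [H.b_zero t r (not_lt.1 h)]; simp
    rw [H.eq t x, H.eq t y, H.eq t (x + y), map_add, map_add]
    refine le_min ?_ ?_
    · have e1 := min_le_left (H.l₁ t x + ∑ r, H.a t r * H.g r x) (H.l₂ t x + ∑ r, H.b t r * H.g r x)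
      have e2 := min_le_left (H.l₁ t y + ∑ r, H.a t r * H.g r y) (H.l₂ t y + ∑ r, H.b t r * H.g r y)
      linarith
    · have e1 := min_le_right (H.l₁ t x + ∑ r, H.a t r * H.g r x) (H.l₂ t x + ∑ r, H.b t r * H.g r x)
      have e2 := min_le_right (H.l₁ t y + ∑ r, H.a t r * H.g r y) (H.l₂ t y + ∑ r, H.b t r * H.g r y)
      linarith

theorem g_neg (t : Fin s) (z : E) : H.g t z + H.g t (-z) ≤ 0 := by
  have := g_superadd H t z (-z)
  rwa [add_neg_cancel, g_zero] at this

/-- If a nonnegative combination is odd at `z` then so is each term with positive coefficient. -/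
theorem odd_of_sum (l : E →ₗ[ℝ] ℝ) (μ : Fin s → ℝ) (hμ : ∀ r, 0 ≤ μ r) (z : E)
    (h : (l z + ∑ r, μ r * H.g r z) + (l (-z) + ∑ r, μ r * H.g r (-z)) = 0) (r : Fin s)
    (hr : 0 < μ r) : H.g r z + H.g r (-z) = 0 := by
  have h1 : ∑ r, μ r * (H.g r z + H.g r (-z)) = 0 := by
    rw [map_neg] at h
    simp_rw [mul_add]
    rw [sum_add_distrib]
    linarith
  have h2 := (sum_eq_zero_iff_of_nonpos (fun r _ =>
    mul_nonpos_of_nonneg_of_nonpos (hμ r) (g_neg H r z))).1 h1 r (mem_univ r)
  rcases mul_eq_zero.1 h2 with h3 | h3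
  · exact absurd h3 hr.ne'
  · exact h3

theorem combo_neg (l : E →ₗ[ℝ] ℝ) (μ : Fin s → ℝ) (hμ : ∀ r, 0 ≤ μ r) (z : E) :
    (l z + ∑ r, μ r * H.g r z) + (l (-z) + ∑ r, μ r * H.g r (-z)) ≤ 0 := by
  have h1 : ∑ r, μ r * (H.g r z + H.g r (-z)) ≤ 0 :=
    sum_nonpos fun r _ => mul_nonpos_of_nonneg_of_nonpos (hμ r) (g_neg H r z)
  simp_rw [mul_add] at h1
  rw [sum_add_distrib] at h1
  rw [map_neg]; linarith

/-- If a gate is odd at `z` then both its inputs take the value of the gate at `z`, `-z`. -/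
theorem inputs_of_odd (t : Fin s) (z : E) (h : H.g t z + H.g t (-z) = 0) :
    (H.l₁ t z + ∑ r, H.a t r * H.g r z = H.g t z) ∧
    (H.l₂ t z + ∑ r, H.b t r * H.g r z = H.g t z) ∧
    (H.l₁ t (-z) + ∑ r, H.a t r * H.g r (-z) = H.g t (-z)) ∧
    (H.l₂ t (-z) + ∑ r, H.b t r * H.g r (-z) = H.g t (-z)) := by
  have h1 := combo_neg H (H.l₁ t) (H.a t) (H.a_nonneg t) z
  have h2 := combo_neg H (H.l₂ t) (H.b t) (H.b_nonneg t) z
  have e1 := min_le_left (H.l₁ t z + ∑ r, H.a t r * H.g r z) (H.l₂ t z + ∑ r, H.b t r * H.g r z)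
  have e2 := min_le_right (H.l₁ t z + ∑ r, H.a t r * H.g r z) (H.l₂ t z + ∑ r, H.b t r * H.g r z)
  have e3 := min_le_left (H.l₁ t (-z) + ∑ r, H.a t r * H.g r (-z))
    (H.l₂ t (-z) + ∑ r, H.b t r * H.g r (-z))
  have e4 := min_le_right (H.l₁ t (-z) + ∑ r, H.a t r * H.g r (-z))
    (H.l₂ t (-z) + ∑ r, H.b t r * H.g r (-z))
  rw [← H.eq] at e1 e2 e3 e4
  refine ⟨?_, ?_, ?_, ?_⟩ <;> linarith

/-- Representative gradients. -/
noncomputable def γ (H : Homog E s) : ∀ _ : Fin s, E →ₗ[ℝ] ℝ :=
  WellFounded.fix (C := fun _ => E →ₗ[ℝ] ℝ) (wellFounded_lt (α := Fin s))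
    (fun t F => H.l₁ t + ∑ r : {r : Fin s // r < t}, H.a t r.1 • F r.1 r.2)

theorem γ_eq (t : Fin s) : γ H t = H.l₁ t + ∑ r, H.a t r • γ H r := by
  have h : γ H t = H.l₁ t + ∑ r : {r : Fin s // r < t}, H.a t r.1 • γ H r.1 :=
    WellFounded.fix_eq (C := fun _ => E →ₗ[ℝ] ℝ) (wellFounded_lt (α := Fin s)) _ t
  rw [h]
  congr 1
  have h1 : ∑ r, H.a t r • γ H r = ∑ r ∈ univ.filter (fun r => r < t), H.a t r • γ H r := by
    symm
    apply sum_subset (filter_subset _ _)
    intro r _ hr
    rw [mem_filter, not_and] at hr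
    rw [H.a_zero t r (not_lt.1 (hr (mem_univ r))), zero_smul]
  rw [h1]
  exact (sum_subtype (univ.filter fun r => r < t) (p := fun r => r < t) (fun r => by simp)
    (fun r => H.a t r • γ H r)).symm

/-- Gradient differences. -/
noncomputable def δ (H : Homog E s) (t : Fin s) : E →ₗ[ℝ] ℝ :=
  (H.l₂ t + ∑ r, H.b t r • γ H r) - γ H t

theorem γ_apply (t : Fin s) (z : E) : γ H t z = H.l₁ t z + ∑ r, H.a t r * γ H r z := by
  conv_lhs => rw [γ_eq]
  simp [LinearMap.sum_apply]

theorem δ_apply (t : Fin s) (z : E) :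
    γ H t z + δ H t z = H.l₂ t z + ∑ r, H.b t r * γ H r z := by
  unfold δ
  simp [LinearMap.sum_apply]

/-- Upward direction: if all reachable differences vanish at `z`, the reachable gates take the
value of their representative gradient at `z`. -/
theorem value_of_diff_zero (μ : Fin s → ℝ) (z : E) (h : ∀ t, Reach H μ t → δ H t z = 0) (t : Fin s) :
    Reach H μ t → H.g t z = γ H t z := by
  induction t using WellFoundedLT.induction with
  | _ t ih =>
    intro ht
    have h1 : H.l₁ t z + ∑ r, H.a t r * H.g r z = γ H t z := by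
      rw [γ_apply]
      congr 1
      apply sum_congr rfl
      intro r _
      rcases (H.a_nonneg t r).eq_or_lt with h0 | hpos
      · rw [← h0]; simp
      · have hlt : r < t := by
          by_contra hc
          rw [H.a_zero t r (not_lt.1 hc)] at hpos
          exact lt_irrefl _ hpos
        rw [ih r hlt (Reach.left t r ht hpos)]
    have h2 : H.l₂ t z + ∑ r, H.b t r * H.g r z = γ H t z := by
      have h3 := δ_apply H t z
      rw [h t ht, add_zero] at h3
      rw [h3]
      congr 1
      apply sum_congr rfl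
      intro r _
      rcases (H.b_nonneg t r).eq_or_lt with h0 | hpos
      · rw [← h0]; simp
      · have hlt : r < t := by
          by_contra hc
          rw [H.b_zero t r (not_lt.1 hc)] at hpos
          exact lt_irrefl _ hpos
        rw [ih r hlt (Reach.right t r ht hpos)]
    rw [H.eq, h1, h2, min_self]

/-- If the output is odd at `z` then all reachable gates are. -/
theorem reach_odd (l : E →ₗ[ℝ] ℝ) (μ : Fin s → ℝ) (hμ : ∀ r, 0 ≤ μ r) (z : E)
    (h : (l z + ∑ r, μ r * H.g r z) + (l (-z) + ∑ r, μ r * H.g r (-z)) = 0) (t : Fin s)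
    (ht : Reach H μ t) : H.g t z + H.g t (-z) = 0 := by
  induction ht with
  | base r hr => exact odd_of_sum H l μ hμ z h r hr
  | left t r _ hr ih =>
    obtain ⟨e1, _, e3, _⟩ := inputs_of_odd H t z ih
    exact odd_of_sum H (H.l₁ t) (H.a t) (H.a_nonneg t) z (by rw [e1, e3]; exact ih) r hr
  | right t r _ hr ih =>
    obtain ⟨_, e2, _, e4⟩ := inputs_of_odd H t z ih
    exact odd_of_sum H (H.l₂ t) (H.b t) (H.b_nonneg t) z (by rw [e2, e4]; exact ih) r hr

/-- Downward direction: if the output is odd at `z` then all reachable differences vanish at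
`z`. -/
theorem diff_zero_of_odd (l : E →ₗ[ℝ] ℝ) (μ : Fin s → ℝ) (hμ : ∀ r, 0 ≤ μ r) (z : E)
    (h : (l z + ∑ r, μ r * H.g r z) + (l (-z) + ∑ r, μ r * H.g r (-z)) = 0) (t : Fin s) :
    Reach H μ t → H.g t z = γ H t z ∧ δ H t z = 0 := by
  induction t using WellFoundedLT.induction with
  | _ t ih =>
    intro ht
    obtain ⟨e1, e2, _, _⟩ := inputs_of_odd H t z (reach_odd H l μ hμ z h t ht)
    have h1 : H.l₁ t z + ∑ r, H.a t r * H.g r z = γ H t z := by
      rw [γ_apply]
      congr 1
      apply sum_congr rfl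
      intro r _
      rcases (H.a_nonneg t r).eq_or_lt with h0 | hpos
      · rw [← h0]; simp
      · have hlt : r < t := by
          by_contra hc
          rw [H.a_zero t r (not_lt.1 hc)] at hpos
          exact lt_irrefl _ hpos
        rw [(ih r hlt (Reach.left t r ht hpos)).1]
    have h2 : H.l₂ t z + ∑ r, H.b t r * H.g r z = γ H t z + δ H t z := by
      rw [δ_apply]
      congr 1
      apply sum_congr rfl
      intro r _
      rcases (H.b_nonneg t r).eq_or_lt with h0 | hpos
      · rw [← h0]; simp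
      · have hlt : r < t := by
          by_contra hc
          rw [H.b_zero t r (not_lt.1 hc)] at hpos
          exact lt_irrefl _ hpos
        rw [(ih r hlt (Reach.right t r ht hpos)).1]
    have h3 : H.g t z = γ H t z := by rw [← e1, h1]
    refine ⟨h3, ?_⟩
    rw [h2, h3] at e2
    linarith

end Homog

/-! ## Outputs that are minima over intermediate vertices -/

section Mid

variable {n s : ℕ}

/-- Unit vector of an arc. -/
def arc (a b : Fin n) : Fin n → Fin n → ℝ := fun x y => if x = a ∧ y = b then 1 else 0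

theorem eq_zero_of_arcs (δ : (Fin n → Fin n → ℝ) →ₗ[ℝ] ℝ) (h : ∀ a b, δ (arc a b) = 0) : δ = 0 := by
  apply LinearMap.ext
  intro y
  have hy : y = ∑ a, ∑ b, y a b • arc a b := by
    funext x z
    simp only [Finset.sum_apply, Pi.smul_apply, smul_eq_mul, arc]
    rw [Finset.sum_eq_single x, Finset.sum_eq_single z]
    · simp
    · intro b _ hb; simp [Ne.symm hb]
    · simp
    · intro a _ ha; simp [Ne.symm ha]
    · simp
  rw [hy, map_sum]
  simp [h]

/-- Data of an output: end vertices, admissible intermediate vertices and coefficients. -/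
structure Output (H : Homog (Fin n → Fin n → ℝ) s) where
  u : Fin n
  w : Fin n
  mid : Finset (Fin n)
  ne : u ≠ w
  u_notMem : u ∉ mid
  w_notMem : w ∉ mid
  l : (Fin n → Fin n → ℝ) →ₗ[ℝ] ℝ
  μ : Fin s → ℝ
  μ_nonneg : ∀ r, 0 ≤ μ r
  le : ∀ y, ∀ v ∈ mid, l y + ∑ r, μ r * H.g r y ≤ y u v + y v w
  ex : mid.Nonempty → ∀ y, ∃ v ∈ mid, l y + ∑ r, μ r * H.g r y = y u v + y v w

variable {H : Homog (Fin n → Fin n → ℝ) s}

/-- The gates charged to an output. -/
noncomputable def Output.R (o : Output H) : Finset (Fin s) := by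
  classical
  exact univ.filter fun t => Reach H o.μ t ∧ δ H t ≠ 0

theorem Output.mem_R (o : Output H) (t : Fin s) : t ∈ o.R ↔ Reach H o.μ t ∧ δ H t ≠ 0 := by
  classical
  unfold Output.R
  simp

theorem Output.card_mid_le (o : Output H) : o.mid.card ≤ o.R.card + 1 := by
  classical
  rcases o.mid.eq_empty_or_nonempty with he | ⟨v0, hv0⟩
  · simp [he]
  -- embedding of coefficient vectors
  let e : (o.mid → ℝ) →ₗ[ℝ] (Fin n → Fin n → ℝ) :=
    { toFun := fun c x y => if x = o.u then (if h : y ∈ o.mid then c ⟨y, h⟩ else 0) else 0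
      map_add' := fun c d => by
        funext x y
        simp only [Pi.add_apply]
        split_ifs <;> simp
      map_smul' := fun r c => by
        funext x y
        simp only [Pi.smul_apply, smul_eq_mul, RingHom.id_apply]
        split_ifs <;> simp }
  have hφ : ∀ (c : o.mid → ℝ) (v : Fin n) (hv : v ∈ o.mid), e c o.u v + e c v o.w = c ⟨v, hv⟩ := by
    intro c v hv
    have hne : v ≠ o.u := fun h => o.u_notMem (h ▸ hv)
    change (if o.u = o.u then (if h : v ∈ o.mid then c ⟨v, h⟩ else 0) else 0) +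
      (if v = o.u then (if h : o.w ∈ o.mid then c ⟨o.w, h⟩ else 0) else 0) = _
    rw [if_pos rfl, dif_pos hv, if_neg hne, add_zero]
  let Φ : (o.mid → ℝ) →ₗ[ℝ] ((o.R → ℝ) × ℝ) :=
    LinearMap.prod (LinearMap.pi fun t => (δ H t.1).comp e) (LinearMap.proj ⟨v0, hv0⟩)
  have hinj : Function.Injective Φ := by
    rw [← LinearMap.ker_eq_bot, LinearMap.ker_eq_bot']
    intro c hc
    have hc1 : ∀ t ∈ o.R, δ H t (e c) = 0 := fun t ht => congrFun (congrArg Prod.fst hc) ⟨t, ht⟩
    have hc2 : c ⟨v0, hv0⟩ = 0 := congrArg Prod.snd hc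
    have hz : ∀ t, Reach H o.μ t → δ H t (e c) = 0 := by
      intro t ht
      by_cases h0 : δ H t = 0
      · rw [h0]; rfl
      · exact hc1 t ((o.mem_R t).2 ⟨ht, h0⟩)
    have hz' : ∀ t, Reach H o.μ t → δ H t (-e c) = 0 := by
      intro t ht
      rw [map_neg, hz t ht, neg_zero]
    have h1 : ∀ r, o.μ r * H.g r (e c) = o.μ r * γ H r (e c) := by
      intro r
      rcases (o.μ_nonneg r).eq_or_lt with h0 | hpos
      · rw [← h0]; simp
      · rw [value_of_diff_zero H o.μ (e c) hz r (Reach.base r hpos)]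
    have h2 : ∀ r, o.μ r * H.g r (-e c) = -(o.μ r * γ H r (e c)) := by
      intro r
      rcases (o.μ_nonneg r).eq_or_lt with h0 | hpos
      · rw [← h0]; simp
      · rw [value_of_diff_zero H o.μ (-e c) hz' r (Reach.base r hpos), map_neg]; ring
    have h3 : (o.l (e c) + ∑ r, o.μ r * H.g r (e c)) +
        (o.l (-e c) + ∑ r, o.μ r * H.g r (-e c)) = 0 := by
      simp_rw [h1, h2, map_neg, sum_neg_distrib]; ring
    have h4 := o.le (e c)
    have h5 := o.le (-e c)
    funext v
    have a1 := h4 v.1 v.2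
    have a2 := h5 v.1 v.2
    have a3 := h4 v0 hv0
    have a4 := h5 v0 hv0
    rw [hφ c v.1 v.2] at a1
    rw [hφ c v0 hv0] at a3
    have b1 : (-e c) o.u v.1 + (-e c) v.1 o.w = - c v := by
      have := hφ c v.1 v.2
      simp only [Pi.neg_apply]
      linarith
    have b2 : (-e c) o.u v0 + (-e c) v0 o.w = - c ⟨v0, hv0⟩ := by
      have := hφ c v0 hv0
      simp only [Pi.neg_apply]
      linarith
    rw [b1] at a2
    rw [b2] at a4
    change c v = 0
    have a1' : o.l (e c) + ∑ r, o.μ r * H.g r (e c) ≤ c v := a1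
    linarith
  have hfin := LinearMap.finrank_le_finrank_of_injective hinj
  simp only [Module.finrank_fintype_fun_eq_card, Module.finrank_prod, Module.finrank_self,
    Fintype.card_coe] at hfin
  exact hfin

/-- Charged gates of outputs with different end vertices are disjoint. -/
theorem Output.disjoint (o o' : Output H) (hne : (o.u, o.w) ≠ (o'.u, o'.w)) (hm : o.mid.Nonempty)
    (hm' : o'.mid.Nonempty) : Disjoint o.R o'.R := by
  classical
  rw [Finset.disjoint_left]
  intro t ht ht'
  rw [Output.mem_R] at ht ht'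
  apply ht.2
  -- differences vanish where an output is odd
  have key : ∀ (o : Output H), Reach H o.μ t → o.mid.Nonempty → ∀ z : Fin n → Fin n → ℝ,
      (∀ v ∈ o.mid, z o.u v + z v o.w = 0) → δ H t z = 0 := by
    intro o hr hm z hz
    refine (diff_zero_of_odd H o.l o.μ o.μ_nonneg z ?_ t hr).2
    obtain ⟨v, hv, e1⟩ := o.ex hm z
    obtain ⟨v', hv', e2⟩ := o.ex hm (-z)
    rw [e1, e2, hz v hv]
    simp only [Pi.neg_apply]
    have := hz v' hv'
    linarith
  have hform : ∀ (o : Output H), Reach H o.μ t → o.mid.Nonempty → ∀ a b,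
      ¬ (a = o.u ∧ b ∈ o.mid) → ¬ (a ∈ o.mid ∧ b = o.w) → δ H t (arc a b) = 0 := by
    intro o hr hm a b h1 h2
    apply key o hr hm
    intro v hv
    unfold arc
    rw [if_neg (fun h : o.u = a ∧ v = b => h1 ⟨h.1.symm, h.2 ▸ hv⟩),
      if_neg (fun h : v = a ∧ o.w = b => h2 ⟨h.1 ▸ hv, h.2.symm⟩), add_zero]
  have hpair : ∀ (o : Output H), Reach H o.μ t → o.mid.Nonempty → ∀ v ∈ o.mid,
      δ H t (arc o.u v) = δ H t (arc v o.w) := by
    intro o hr hm v hv
    have : δ H t (arc o.u v - arc v o.w) = 0 := by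
      apply key o hr hm
      intro v' hv'
      have h1 : v' ≠ o.u := fun h => o.u_notMem (h ▸ hv')
      have h2 : v' ≠ o.w := fun h => o.w_notMem (h ▸ hv')
      have h3 : v ≠ o.u := fun h => o.u_notMem (h ▸ hv)
      have h4 : v ≠ o.w := fun h => o.w_notMem (h ▸ hv)
      unfold arc
      simp only [Pi.sub_apply]
      rw [if_neg (fun h : v' = o.u ∧ o.w = v => h1 h.1), if_neg (fun h : o.u = v ∧ v' = o.w => h2 h.2)]
      by_cases hvv : v' = v
      · subst hvv; simp
      · simp [hvv]
    rw [map_sub] at this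
    exact sub_eq_zero.1 this
  apply eq_zero_of_arcs
  intro a b
  -- arcs of the form of `o`
  have hmain : ∀ v ∈ o.mid, δ H t (arc o.u v) = 0 := by
    intro v hv
    by_contra hcon
    have h3 : v ≠ o.u := fun h => o.u_notMem (h ▸ hv)
    have h4 : v ≠ o.w := fun h => o.w_notMem (h ▸ hv)
    have hcon2 : δ H t (arc v o.w) ≠ 0 := by rw [← hpair o ht.1 hm v hv]; exact hcon
    -- both arcs are of the form of `o'`
    have f1 : (o.u = o'.u ∧ v ∈ o'.mid) ∨ (o.u ∈ o'.mid ∧ v = o'.w) := by
      by_contra hc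
      rw [not_or] at hc
      exact hcon (hform o' ht'.1 hm' _ _ hc.1 hc.2)
    have f2 : (v = o'.u ∧ o.w ∈ o'.mid) ∨ (v ∈ o'.mid ∧ o.w = o'.w) := by
      by_contra hc
      rw [not_or] at hc
      exact hcon2 (hform o' ht'.1 hm' _ _ hc.1 hc.2)
    rcases f1 with ⟨g1, g2⟩ | ⟨g1, g2⟩
    · rcases f2 with ⟨k1, k2⟩ | ⟨k1, k2⟩
      · exact h3 (k1.trans g1.symm)
      · exact hne (Prod.ext g1 k2)
    · rcases f2 with ⟨k1, k2⟩ | ⟨k1, k2⟩
      · exact o'.ne (k1.symm.trans g2)
      · exact h4 (g2.trans k2.symm)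
  by_cases c1 : a = o.u ∧ b ∈ o.mid
  · rw [c1.1]; exact hmain b c1.2
  · by_cases c2 : a ∈ o.mid ∧ b = o.w
    · rw [c2.2, ← hpair o ht.1 hm a c2.1]; exact hmain a c2.1
    · exact hform o ht.1 hm a b c1 c2

/-- The total count. -/
theorem count {O : Type*} [Fintype O] (out : O → Output H)
    (hinj : ∀ i j, i ≠ j → ((out i).u, (out i).w) ≠ ((out j).u, (out j).w)) :
    ∑ i, ((out i).mid.card - 1) ≤ s := by
  classical
  calc ∑ i, ((out i).mid.card - 1)
      = ∑ i ∈ univ.filter (fun i => (out i).mid.Nonempty), ((out i).mid.card - 1) := by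
        symm
        apply sum_subset (filter_subset _ _)
        intro i _ hi
        rw [mem_filter, not_and] at hi
        have := not_nonempty_iff_eq_empty.1 (hi (mem_univ i))
        rw [this]; rfl
    _ ≤ ∑ i ∈ univ.filter (fun i => (out i).mid.Nonempty), (out i).R.card := by
        apply sum_le_sum
        intro i _
        have := (out i).card_mid_le
        omega
    _ = ((univ.filter (fun i => (out i).mid.Nonempty)).biUnion fun i => (out i).R).card := by
        rw [card_biUnion]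
        intro i hi j hj hij
        exact (out i).disjoint (out j) (hinj i j hij) (mem_filter.1 hi).2 (mem_filter.1 hj).2
    _ ≤ (univ : Finset (Fin s)).card := card_le_card (subset_univ _)
    _ = s := by simp

end Mid

end Pool.Agent.H98.MinGates
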