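import Mathlib
import Pool.Agent.H98.MinGates

/-!
# From min computations with affine inputs to homogeneous computations
-/

namespace Pool.Agent.H98.MinGates

open Finset Filter Topology

section DD

variable {E : Type*} [AddCommGroup E] [Module ℝ E]

/-- `F` is affine along each short segment starting at `x₀`, with slope `F' y`. -/
def HasDD (x₀ : E) (F F' : E → ℝ) : Prop :=
  ∀ y, ∀ᶠ ε : ℝ in 𝓝[>] 0, F (x₀ + ε • y) = F x₀ + ε * F' y

theorem HasDD.unique {x₀ : E} {F F' F'' : E → ℝ} (h : HasDD x₀ F F') (h' : HasDD x₀ F F'') :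
    F' = F'' := by
  funext y
  have hpos : ∀ᶠ r : ℝ in 𝓝[>] 0, 0 < r := self_mem_nhdsWithin
  obtain ⟨ε, ⟨h1, h2⟩, h3⟩ := (((h y).and (h' y)).and hpos).exists
  rw [h1] at h2
  have : ε * F' y = ε * F'' y := by linarith
  exact mul_left_cancel₀ h3.ne' this

theorem HasDD.congr {x₀ : E} {F G F' : E → ℝ} (h : HasDD x₀ F F')
    (hG : ∀ y, ∀ᶠ ε : ℝ in 𝓝[>] 0, G (x₀ + ε • y) = F (x₀ + ε • y)) (h0 : G x₀ = F x₀) :
    HasDD x₀ G F' := by
  intro y
  filter_upwards [h y, hG y] with ε h1 h2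
  rw [h2, h1, h0]

theorem hasDD_affine (x₀ : E) (l : E →ₗ[ℝ] ℝ) (c : ℝ) : HasDD x₀ (fun x => l x + c) l := by
  intro y
  filter_upwards with ε
  rw [map_add, map_smul, smul_eq_mul]; ring

theorem HasDD.add {x₀ : E} {F F' G G' : E → ℝ} (hF : HasDD x₀ F F') (hG : HasDD x₀ G G') :
    HasDD x₀ (fun x => F x + G x) (fun y => F' y + G' y) := by
  intro y
  filter_upwards [hF y, hG y] with ε h1 h2
  rw [h1, h2]; ring

theorem hasDD_sum {ι : Type*} (S : Finset ι) {x₀ : E} (F F' : ι → E → ℝ) (μ : ι → ℝ)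
    (h : ∀ i ∈ S, μ i = 0 ∨ HasDD x₀ (F i) (F' i)) :
    HasDD x₀ (fun x => ∑ i ∈ S, μ i * F i x) (fun y => ∑ i ∈ S, μ i * F' i y) := by
  classical
  induction S using Finset.induction_on with
  | empty => intro y; filter_upwards with ε; simp
  | insert i S hi ih =>
    have h1 := ih (fun j hj => h j (mem_insert_of_mem hj))
    have h2 : HasDD x₀ (fun x => μ i * F i x) (fun y => μ i * F' i y) := by
      rcases h i (mem_insert_self i S) with h0 | h0
      · intro y; filter_upwards with ε; rw [h0]; ring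
      · intro y
        filter_upwards [h0 y] with ε h3
        rw [h3]; ring
    have h3 := h2.add h1
    simp_rw [sum_insert hi]
    exact h3

theorem HasDD.min_lt {x₀ : E} {F F' G G' : E → ℝ} (hF : HasDD x₀ F F') (hG : HasDD x₀ G G')
    (hlt : F x₀ < G x₀) : HasDD x₀ (fun x => min (F x) (G x)) F' := by
  intro y
  have hc : Continuous fun ε : ℝ => (G x₀ + ε * G' y) - (F x₀ + ε * F' y) := by fun_prop
  have h0 : ∀ᶠ ε : ℝ in 𝓝 0, 0 < (G x₀ + ε * G' y) - (F x₀ + ε * F' y) := by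
    refine hc.continuousAt.eventually (lt_mem_nhds ?_)
    simpa using hlt
  filter_upwards [hF y, hG y, nhdsWithin_le_nhds h0] with ε h1 h2 h3
  rw [h1, h2, min_eq_left hlt.le, min_eq_left (by linarith)]

theorem HasDD.min_gt {x₀ : E} {F F' G G' : E → ℝ} (hF : HasDD x₀ F F') (hG : HasDD x₀ G G')
    (hlt : G x₀ < F x₀) : HasDD x₀ (fun x => min (F x) (G x)) G' := by
  have := hG.min_lt hF hlt
  simp_rw [min_comm (F _) (G _)]
  exact this

theorem HasDD.min_eq {x₀ : E} {F F' G G' : E → ℝ} (hF : HasDD x₀ F F') (hG : HasDD x₀ G G')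
    (heq : F x₀ = G x₀) : HasDD x₀ (fun x => min (F x) (G x)) (fun y => min (F' y) (G' y)) := by
  intro y
  have hpos : ∀ᶠ r : ℝ in 𝓝[>] 0, 0 < r := self_mem_nhdsWithin
  filter_upwards [hF y, hG y, hpos] with ε h1 h2 h3
  rw [h1, h2, heq, min_self, min_add_add_left, mul_min_of_nonneg _ _ h3.le]

end DD

section Comp

variable {E : Type*} [AddCommGroup E] [Module ℝ E] {s : ℕ}

/-- Affine form plus nonnegative combination of the first `t` gates. -/
def IsFreeCombination (Ω : Set E) (g : Fin s → E → ℝ) (t : ℕ) (f : E → ℝ) : Prop :=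
  ∃ (l : E →ₗ[ℝ] ℝ) (c : ℝ) (μ : Fin s → ℝ), (∀ r, 0 ≤ μ r) ∧
    (∀ r : Fin s, t ≤ (r : ℕ) → μ r = 0) ∧
    ∀ x ∈ Ω, f x = l x + c + ∑ r, μ r * g r x

/-- Each gate is the minimum of two free combinations of earlier gates. -/
def IsMinComputation (Ω : Set E) (g : Fin s → E → ℝ) : Prop :=
  ∀ t : Fin s, ∃ f h : E → ℝ, IsFreeCombination Ω g t f ∧ IsFreeCombination Ω g t h ∧
    ∀ x ∈ Ω, g t x = min (f x) (h x)

/-- `x₀` is interior to `Ω` along segments. -/
def SegInterior (Ω : Set E) (x₀ : E) : Prop :=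
  x₀ ∈ Ω ∧ ∀ y, ∀ᶠ ε : ℝ in 𝓝[>] 0, x₀ + ε • y ∈ Ω

theorem hasDD_combo {Ω : Set E} {x₀ : E} (hΩ : SegInterior Ω x₀) (g G : Fin s → E → ℝ)
    (l : E →ₗ[ℝ] ℝ) (c : ℝ) (μ : Fin s → ℝ) (f : E → ℝ)
    (hf : ∀ x ∈ Ω, f x = l x + c + ∑ r, μ r * g r x)
    (hG : ∀ r, μ r = 0 ∨ HasDD x₀ (g r) (G r)) :
    HasDD x₀ f (fun y => l y + ∑ r, μ r * G r y) := by
  have h1 := (hasDD_affine x₀ l c).add (hasDD_sum univ g G μ (fun r _ => hG r))
  refine h1.congr (fun y => ?_) (hf x₀ hΩ.1)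
  filter_upwards [hΩ.2 y] with ε hε
  exact hf _ hε

/-- Every gate has a directional derivative. -/
theorem exists_dd {Ω : Set E} {x₀ : E} (hΩ : SegInterior Ω x₀) (g : Fin s → E → ℝ)
    (hg : IsMinComputation Ω g) (t : Fin s) : ∃ G : E → ℝ, HasDD x₀ (g t) G := by
  induction t using WellFoundedLT.induction with
  | _ t ih =>
    classical
    obtain ⟨f, h, ⟨l, c, μ, _, hμz, hf⟩, ⟨l', c', μ', _, hμz', hh⟩, hgt⟩ := hg t
    choose G hG using ih
    let G' : Fin s → E → ℝ := fun r => if hr : r < t then G r hr else 0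
    have key : ∀ μ : Fin s → ℝ, (∀ r : Fin s, (t : ℕ) ≤ (r : ℕ) → μ r = 0) →
        ∀ r, μ r = 0 ∨ HasDD x₀ (g r) (G' r) := by
      intro μ hμ r
      by_cases hr : r < t
      · right
        simp only [G', dif_pos hr]
        exact hG r hr
      · left; exact hμ r (not_lt.1 hr)
    have d1 := hasDD_combo hΩ g G' l c μ f hf (key μ hμz)
    have d2 := hasDD_combo hΩ g G' l' c' μ' h hh (key μ' hμz')
    have hcong : ∀ F', HasDD x₀ (fun x => min (f x) (h x)) F' → HasDD x₀ (g t) F' := by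
      intro F' hF'
      refine hF'.congr (fun y => ?_) (hgt x₀ hΩ.1)
      filter_upwards [hΩ.2 y] with ε hε
      exact hgt _ hε
    rcases lt_trichotomy (f x₀) (h x₀) with hlt | heq | hgt'
    · exact ⟨_, hcong _ (d1.min_lt d2 hlt)⟩
    · exact ⟨_, hcong _ (d1.min_eq d2 heq)⟩
    · exact ⟨_, hcong _ (d1.min_gt d2 hgt')⟩

/-- The homogeneous computation formed by the directional derivatives. -/
theorem exists_homog {Ω : Set E} {x₀ : E} (hΩ : SegInterior Ω x₀) (g : Fin s → E → ℝ)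
    (hg : IsMinComputation Ω g) : ∃ H : Homog E s, ∀ t, HasDD x₀ (g t) (H.g t) := by
  classical
  choose G hG using exists_dd hΩ g hg
  have hrow : ∀ t : Fin s, ∃ (l₁ l₂ : E →ₗ[ℝ] ℝ) (a b : Fin s → ℝ), (∀ r, 0 ≤ a r) ∧
      (∀ r, 0 ≤ b r) ∧ (∀ r, t ≤ r → a r = 0) ∧ (∀ r, t ≤ r → b r = 0) ∧
      ∀ y, G t y = min (l₁ y + ∑ r, a r * G r y) (l₂ y + ∑ r, b r * G r y) := by
    intro t
    obtain ⟨f, h, ⟨l, c, μ, hμ, hμz, hf⟩, ⟨l', c', μ', hμ', hμz', hh⟩, hgt⟩ := hg t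
    have d1 := hasDD_combo hΩ g G l c μ f hf (fun r => Or.inr (hG r))
    have d2 := hasDD_combo hΩ g G l' c' μ' h hh (fun r => Or.inr (hG r))
    have hcong : ∀ F', HasDD x₀ (fun x => min (f x) (h x)) F' → HasDD x₀ (g t) F' := by
      intro F' hF'
      refine hF'.congr (fun y => ?_) (hgt x₀ hΩ.1)
      filter_upwards [hΩ.2 y] with ε hε
      exact hgt _ hε
    rcases lt_trichotomy (f x₀) (h x₀) with hlt | heq | hgt'
    · have := (hG t).unique (hcong _ (d1.min_lt d2 hlt))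
      refine ⟨l, l, μ, μ, hμ, hμ, fun r hr => hμz r hr, fun r hr => hμz r hr, fun y => ?_⟩
      rw [this, min_self]
    · have := (hG t).unique (hcong _ (d1.min_eq d2 heq))
      refine ⟨l, l', μ, μ', hμ, hμ', fun r hr => hμz r hr, fun r hr => hμz' r hr, fun y => ?_⟩
      rw [this]
    · have := (hG t).unique (hcong _ (d1.min_gt d2 hgt'))
      refine ⟨l', l', μ', μ', hμ', hμ', fun r hr => hμz' r hr, fun r hr => hμz' r hr, fun y => ?_⟩
      rw [this, min_self]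
  choose l₁ l₂ a b ha hb haz hbz heq using hrow
  exact ⟨⟨G, l₁, l₂, a, b, ha, hb, haz, hbz, heq⟩, hG⟩

end Comp

end Pool.Agent.H98.MinGates
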