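import Mathlib

/-!
# H98.Net: the charging lemma for networks with free nonnegative linear combinations

This is a version, for real values and linear forms, of the charging lemma `Pool.Agent.APM54.core`.
-/

set_option autoImplicit false

namespace Pool.Agent.H98.Net

open Finset

/-- Triples `(i, j, k)` are charged to arguments of gates: every argument gets at most one
triple. -/
theorem core {s : ℕ} {In R J K : Type} [Fintype In]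
    (ar : Fin s → ℕ) (coef : (t : Fin s) → Fin (ar t) → (In ⊕ Fin s) → ℝ)
    (hnn : ∀ t a v, 0 ≤ coef t a v)
    (earlier : ∀ t a u, coef t a (Sum.inr u) ≠ 0 → u < t)
    (𝒯 : Finset (R × J × K))
    (Δ : (In ⊕ Fin s) → (R × J × K) → ℝ)
    (hgate : ∀ t τ, τ ∈ 𝒯 → 0 < Δ (Sum.inr t) τ → ∃ a, 0 < ∑ v, coef t a v * Δ v τ)
    (hin : ∀ e τ σ, τ ∈ 𝒯 → σ ∈ 𝒯 → 0 < Δ (Sum.inl e) τ → ¬ (τ.1 = σ.1 ∧ τ.2.2 = σ.2.2) →
      Δ (Sum.inl e) τ + Δ (Sum.inl e) σ ≤ 0)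
    (hexc : ∀ v σ τ, σ ∈ 𝒯 → τ ∈ 𝒯 → σ.2.1 ≠ τ.2.1 → ¬ (σ.1 = τ.1 ∧ σ.2.2 = τ.2.2) →
      Δ v σ + Δ v τ ≤ 0)
    (hout : ∀ τ ∈ 𝒯, ∃ t, 0 < Δ (Sum.inr t) τ ∧
      ∀ σ ∈ 𝒯, σ.1 = τ.1 → σ.2.2 = τ.2.2 → σ ≠ τ → Δ (Sum.inr t) σ < Δ (Sum.inr t) τ) :
    𝒯.card ≤ ∑ t, ar t := by
  classical
  set Dom : Fin s → (R × J × K) → Prop := fun t τ =>
    ∀ σ ∈ 𝒯, σ.1 = τ.1 → σ.2.2 = τ.2.2 → σ ≠ τ → Δ (Sum.inr t) σ < Δ (Sum.inr t) τ with hDom
  -- the end of the path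
  have key : ∀ τ ∈ 𝒯, ∀ N : ℕ, ∀ t : Fin s, t.val = N → 0 < Δ (Sum.inr t) τ → Dom t τ →
      ∃ (t' : Fin s) (a : Fin (ar t')), 0 < Δ (Sum.inr t') τ ∧ Dom t' τ ∧
        0 < ∑ v, coef t' a v * Δ v τ ∧
        ∀ u, 0 < coef t' a (Sum.inr u) → 0 < Δ (Sum.inr u) τ → ¬ Dom u τ := by
    intro τ hτ N
    induction N using Nat.strong_induction_on with
    | _ N ih =>
      intro t ht h1 h2
      obtain ⟨a, ha⟩ := hgate t τ hτ h1
      by_cases hch : ∀ u, 0 < coef t a (Sum.inr u) → 0 < Δ (Sum.inr u) τ → ¬ Dom u τ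
      · exact ⟨t, a, h1, h2, ha, hch⟩
      · push Not at hch
        obtain ⟨u, hu1, hu2, hu3⟩ := hch
        have hlt : u.val < N := ht ▸ earlier t a u (ne_of_gt hu1)
        exact ih u.val hlt u rfl hu2 hu3
  have key2 : ∀ τ ∈ 𝒯, ∃ z : (Σ t : Fin s, Fin (ar t)), 0 < Δ (Sum.inr z.1) τ ∧ Dom z.1 τ ∧
        0 < ∑ v, coef z.1 z.2 v * Δ v τ ∧
        ∀ u, 0 < coef z.1 z.2 (Sum.inr u) → 0 < Δ (Sum.inr u) τ → ¬ Dom u τ := by
    intro τ hτ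
    obtain ⟨t, h1, h2⟩ := hout τ hτ
    obtain ⟨t', a, h3, h4, h5, h6⟩ := key τ hτ t.val t rfl h1 h2
    exact ⟨⟨t', a⟩, h3, h4, h5, h6⟩
  rcases 𝒯.eq_empty_or_nonempty with h0 | ⟨τ₀, hτ₀⟩
  · simp [h0]
  have : Nonempty (Σ t : Fin s, Fin (ar t)) := ⟨(key2 τ₀ hτ₀).choose⟩
  choose! f hf using key2
  -- a child of the argument charged by `τ₁`
  have hchild : ∀ τ₁ ∈ 𝒯, ∀ τ₂ ∈ 𝒯, τ₁.2.1 = τ₂.2.1 → ¬ (τ₁.1 = τ₂.1 ∧ τ₁.2.2 = τ₂.2.2) →
      ∀ v, 0 < coef (f τ₁).1 (f τ₁).2 v → 0 < Δ v τ₁ → Δ v τ₁ + Δ v τ₂ ≤ 0 := by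
    intro τ₁ h₁ τ₂ h₂ hj hik v hv hΔ
    rcases v with e | u
    · exact hin e τ₁ τ₂ h₁ h₂ hΔ hik
    · have hnd := (hf τ₁ h₁).2.2.2 u hv hΔ
      simp only [hDom, not_forall, not_lt] at hnd
      obtain ⟨σ, hσ, s1, s2, s3, s4⟩ := hnd
      have hσj : σ.2.1 ≠ τ₂.2.1 := by
        intro h
        apply s3
        refine Prod.ext s1 (Prod.ext ?_ s2)
        rw [h, hj]
      have := hexc (Sum.inr u) σ τ₂ hσ h₂ hσj (by rw [s1, s2]; exact hik)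
      linarith
  have hcard : 𝒯.card ≤
      ((Finset.univ : Finset (Fin s)).sigma fun t => (Finset.univ : Finset (Fin (ar t)))).card := by
    refine Finset.card_le_card_of_injOn f ?_ ?_
    · intro τ _
      simp
    · intro τ₁ h₁ τ₂ h₂ he
      have h₁ : τ₁ ∈ 𝒯 := h₁
      have h₂ : τ₂ ∈ 𝒯 := h₂
      obtain ⟨a1, a2, a3, a4⟩ := hf τ₁ h₁
      obtain ⟨b1, b2, b3, b4⟩ := hf τ₂ h₂
      by_contra hne
      by_cases hik : τ₁.1 = τ₂.1 ∧ τ₁.2.2 = τ₂.2.2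
      · have c1 := b2 τ₁ h₁ hik.1 hik.2 hne
        rw [← he] at c1
        have c2 := a2 τ₂ h₂ hik.1.symm hik.2.symm (Ne.symm hne)
        linarith
      · by_cases hj : τ₁.2.1 = τ₂.2.1
        · have hsum : ∀ v, coef (f τ₁).1 (f τ₁).2 v * (Δ v τ₁ + Δ v τ₂) ≤ 0 := by
            intro v
            rcases (hnn (f τ₁).1 (f τ₁).2 v).eq_or_lt with h0 | h0
            · rw [← h0, zero_mul]
            · refine mul_nonpos_of_nonneg_of_nonpos h0.le ?_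
              by_cases p1 : 0 < Δ v τ₁
              · exact hchild τ₁ h₁ τ₂ h₂ hj hik v h0 p1
              · by_cases p2 : 0 < Δ v τ₂
                · have h0' : 0 < coef (f τ₂).1 (f τ₂).2 v := by rw [← he]; exact h0
                  have := hchild τ₂ h₂ τ₁ h₁ hj.symm
                    (fun h => hik ⟨h.1.symm, h.2.symm⟩) v h0' p2
                  linarith
                · linarith
          have htot : ∑ v, coef (f τ₁).1 (f τ₁).2 v * (Δ v τ₁ + Δ v τ₂) ≤ 0 :=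
            Finset.sum_nonpos fun v _ => hsum v
          have hb3 : 0 < ∑ v, coef (f τ₁).1 (f τ₁).2 v * Δ v τ₂ := by rw [he]; exact b3
          have hsplit : ∑ v, coef (f τ₁).1 (f τ₁).2 v * (Δ v τ₁ + Δ v τ₂) =
              ∑ v, coef (f τ₁).1 (f τ₁).2 v * Δ v τ₁ + ∑ v, coef (f τ₁).1 (f τ₁).2 v * Δ v τ₂ := by
            rw [← Finset.sum_add_distrib]
            exact Finset.sum_congr rfl fun v _ => mul_add _ _ _
          linarith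
        · have := hexc (Sum.inr (f τ₁).1) τ₁ τ₂ h₁ h₂ hj hik
          have b1' : 0 < Δ (Sum.inr (f τ₁).1) τ₂ := by rw [he]; exact b1
          linarith
  refine hcard.trans (le_of_eq ?_)
  rw [Finset.card_sigma]
  simp only [Finset.card_univ, Fintype.card_fin]

end Pool.Agent.H98.Net
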