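import Pool.Agent.APM54.Defs

/-!
# MP_885423_lc: monotone networks with free nonnegative linear combinations, and programs with tests

Definitions used in the statement of `Pool.Agent.Results.MP_885423_lc.MonotoneNetworks.result`.
Distances (`dist`, `walkWeight`) are those of `Pool.Agent.APM54.Defs`.
-/

set_option autoImplicit false

namespace Pool.Agent.H98.Net

open Finset Pool.Agent.APM54

/-- A monotone network on the `n * n` edge weights of a digraph with vertex set `Fin n`. The nodes
are the edges (inputs) and the gates; every node carries a real number. A gate is an arbitrary
nondecreasing function of finitely many arguments, and each argument is a linear combination, with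
arbitrary nonnegative coefficients, of the numbers at all inputs and all earlier gates. -/
structure Network (n : ℕ) where
  /-- number of gates -/
  size : ℕ
  /-- the number of arguments of a gate -/
  ar : Fin size → ℕ
  /-- argument `a` of gate `t` is the sum over all nodes `v` of `coef t a v` times the number
  at `v` -/
  coef : (t : Fin size) → Fin (ar t) → ((Fin n × Fin n) ⊕ Fin size) → ℝ
  /-- coefficients are nonnegative -/
  coef_nonneg : ∀ t a v, 0 ≤ coef t a v
  /-- only inputs and earlier gates occur in an argument -/
  earlier : ∀ t a u, coef t a (Sum.inr u) ≠ 0 → u < t
  /-- the function computed by a gate -/
  op : (t : Fin size) → (Fin (ar t) → ℝ) → ℝ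
  /-- it is nondecreasing in every argument -/
  mono : ∀ t, Monotone (op t)
  /-- the node where the output for the pair `(u, v)` is found -/
  out : Fin n → Fin n → (Fin n × Fin n) ⊕ Fin size

namespace Network

/-- the number computed by gate `t` on the weights `W`: `op t` of its arguments, which are computed
from the weights at the inputs and the numbers at the earlier gates -/
noncomputable def gate {n : ℕ} (C : Network n) (W : Fin n → Fin n → ℝ) (t : Fin C.size) : ℝ :=
  C.op t (fun a => ∑ v, C.coef t a v * (match v with
    | Sum.inl e => W e.1 e.2
    | Sum.inr u => if _h : u < t then gate C W u else 0))
termination_by t.val
decreasing_by exact _h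

variable {n : ℕ} (C : Network n)

/-- the number at a node on the weights `W` -/
noncomputable def node (W : Fin n → Fin n → ℝ) : ((Fin n × Fin n) ⊕ Fin C.size) → ℝ
  | Sum.inl e => W e.1 e.2
  | Sum.inr t => C.gate W t

/-- the output of the network for the pair `(u, v)` on the weights `W` -/
noncomputable def output (W : Fin n → Fin n → ℝ) (u v : Fin n) : ℝ := C.node W (C.out u v)

/-- the number of all arguments of all gates (linear combinations are free) -/
def numArgs : ℕ := ∑ t, C.ar t

/-- on the weights `W` the network computes all distances up to the factor `α` -/
def Correct (α : ℝ) (W : Fin n → Fin n → ℝ) : Prop :=
  ∀ u v, u ≠ v → dist W u v ≤ C.output W u v ∧ C.output W u v ≤ α * dist W u v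

end Network

/-- A program of monotone operations which asks `r` yes/no questions. The answers are arbitrary
functions of the input, and the program, that is the network of the operations which are carried
out, depends arbitrarily on the answers. (This includes programs in which a test is an arbitrary
function of all that was computed before it, and everything which comes after a test depends on its
answer.) -/
structure Program (n r : ℕ) where
  /-- the operations carried out for given answers -/
  net : (Fin r → Bool) → Network n
  /-- the answers for given weights -/
  answers : (Fin n → Fin n → ℝ) → Fin r → Bool

namespace Program

variable {n r : ℕ} (P : Program n r)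

/-- on the weights `W` the program computes all distances up to the factor `α` -/
def Correct (α : ℝ) (W : Fin n → Fin n → ℝ) : Prop := (P.net (P.answers W)).Correct α W

/-- the largest number of arguments of operations in a run -/
def numArgs : ℕ := univ.sup fun s => (P.net s).numArgs

end Program

end Pool.Agent.H98.Net
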