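import Pool.Agent.H98.NetMain

/-!
# H98.Net: choice of the parameters, and tests

The proofs follow `Pool.Agent.APM54.Final` and `Pool.Agent.APM54.Test`.
-/

set_option autoImplicit false

namespace Pool.Agent.H98.Net

open Finset Pool.Agent.APM54
open scoped Classical

theorem final (n D : ℕ) (hD : 1 ≤ D) (hn : 200 * D ^ 6 ≤ n) (α L : ℝ) (hα : 1 ≤ α)
    (hL : 2 * α < L) {ι : Type} [Fintype ι] (C : ι → Network n) (p : ι → ℝ)
    (hp : ∀ c, 0 ≤ p c) (hp1 : ∑ c, p c = 1)
    (hC : ∀ W : Fin n → Fin n → ℝ, (∀ u v, W u v = 1 ∨ W u v = L) →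
      (1 : ℝ) / D ≤ ∑ c, p c * ind ((C c).Correct α W)) :
    (n : ℝ) ^ 3 ≤ 1000 * D ^ 6 * ∑ c, p c * (C c).numArgs := by
  -- parameters
  obtain ⟨T, hT⟩ : ∃ T, T + 1 = 2 * D := ⟨2 * D - 1, by omega⟩
  set q := n / (6 * D) with hq
  set κ := n / 3 with hκ
  have hD6 : D ≤ D ^ 6 := by
    calc D = D ^ 1 := (pow_one D).symm
      _ ≤ D ^ 6 := Nat.pow_le_pow_right hD (by norm_num)
  have hq1 : 33 * D ^ 5 ≤ q := by
    rw [hq, Nat.le_div_iff_mul_le (by omega)]
    calc 33 * D ^ 5 * (6 * D) = 198 * D ^ 6 := by ring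
      _ ≤ 200 * D ^ 6 := Nat.mul_le_mul_right _ (by norm_num)
      _ ≤ n := hn
  have hD5 : 1 ≤ D ^ 5 := Nat.one_le_pow _ _ hD
  have hqpos : 1 ≤ q := by omega
  have hDle : 200 * D ≤ n := (Nat.mul_le_mul_left 200 hD6).trans hn
  have hκ2 : 2 ≤ κ := by omega
  have hqn : 6 * D * q ≤ n := Nat.mul_div_le n (6 * D)
  have hqn' : n < 6 * D * q + 6 * D := by
    have := Nat.lt_mul_div_succ n (show 0 < 6 * D by omega)
    rw [← hq] at this
    calc n < 6 * D * (q + 1) := this
      _ = _ := by ring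
  have hκn : 3 * κ ≤ n := by omega
  have hκn' : n ≤ 3 * κ + 2 := by omega
  -- embedding
  have hcard : Fintype.card ((Fin T × Fin q) ⊕ Fin κ ⊕ (Fin T × Fin q)) ≤
      Fintype.card (Fin n) := by
    simp only [Fintype.card_sum, Fintype.card_prod, Fintype.card_fin]
    have h1 : 3 * (T * q) ≤ n := by
      calc 3 * (T * q) ≤ 3 * ((2 * D) * q) := by
            apply Nat.mul_le_mul_left
            apply Nat.mul_le_mul_right
            omega
        _ = 6 * D * q := by ring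
        _ ≤ n := hqn
    omega
  obtain ⟨e⟩ := Function.Embedding.nonempty_of_card_le hcard
  have : Nonempty (Fin q × Fin q × Fin κ) := ⟨(⟨0, by omega⟩, ⟨0, by omega⟩, ⟨0, by omega⟩)⟩
  set K : ℝ := (Fintype.card (Fin q × Fin q × Fin κ) : ℝ) with hK
  have hKval : K = (q : ℝ) * (q * κ) := by
    rw [hK, Fintype.card_prod, Fintype.card_prod, Fintype.card_fin, Fintype.card_fin]
    push_cast
    ring
  -- reals
  have hDr : (1 : ℝ) ≤ D := by exact_mod_cast hD
  have hDpos : (0 : ℝ) < D := by linarith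
  have hqr : 33 * (D : ℝ) ^ 5 ≤ q := by exact_mod_cast hq1
  have hqrpos : (0 : ℝ) < q := by exact_mod_cast hqpos
  have hTr : (T : ℝ) ≤ 2 * D := by
    have : T ≤ 2 * D := by omega
    exact_mod_cast this
  have hTβ : (T : ℝ) * (2 / q) ≤ 1 / (8 * (D : ℝ) ^ 4) := by
    have h1 : (T : ℝ) * (2 / q) ≤ 2 * D * (2 / q) :=
      mul_le_mul_of_nonneg_right hTr (by positivity)
    refine h1.trans ?_
    rw [mul_div_assoc', div_le_div_iff₀ hqrpos (by positivity)]
    have h2 : 2 * (D : ℝ) * 2 * (8 * (D : ℝ) ^ 4) = 32 * (D : ℝ) ^ 5 := by ring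
    rw [h2]
    have h3 : (0 : ℝ) ≤ (D : ℝ) ^ 5 := by positivity
    linarith
  have hhalf : 1 / (4 * (D : ℝ) ^ 4) = 1 / (8 * (D : ℝ) ^ 4) + 1 / (8 * (D : ℝ) ^ 4) := by
    field_simp
    ring
  have h8pos : 0 < 1 / (8 * (D : ℝ) ^ 4) := by positivity
  have hpos : 0 < 1 / (4 * (D : ℝ) ^ 4) - T * (2 / q) := by linarith
  obtain ⟨a, b, hab, hbT, x, η, η', hgen, hbound⟩ := count (Θ := Fin q × Fin q × Fin κ) hD hT p hp
    hp1 (fun c a θ => (C c).Correct α (wt e L (wA a θ) (wB a θ)))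
    (fun a _ θ => hC _ fun u v => wt_mem e L u v)
    (fun x y => x.1 ≠ y.1 ∧ x.2.1 ≠ y.2.1) (2 / q) (nongen_count q κ hqpos) hpos
  have hcirc : ∀ c, ∑ τ : Fin q × Fin q × Fin κ,
      ind ((C c).Correct α (wt e L (wA a (word a b x η τ)) (wB a (word a b x η τ))) ∧
        (C c).Correct α (wt e L (wA b (word a b x η' τ)) (wB b (word a b x η' τ)))) ≤
      (C c).numArgs := by
    intro c
    rw [sum_ind]
    have h := circuit_bound e (C c) hα hL hκ2 hab hbT x η η' hgen
      (Finset.univ.filter fun τ : Fin q × Fin q × Fin κ =>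
        (C c).Correct α (wt e L (wA a (word a b x η τ)) (wB a (word a b x η τ))) ∧
        (C c).Correct α (wt e L (wA b (word a b x η' τ)) (wB b (word a b x η' τ))))
      (fun τ hτ => (Finset.mem_filter.1 hτ).2)
    have h' : ((Finset.univ.filter fun τ : Fin q × Fin q × Fin κ =>
        (C c).Correct α (wt e L (wA a (word a b x η τ)) (wB a (word a b x η τ))) ∧
        (C c).Correct α (wt e L (wA b (word a b x η' τ)) (wB b (word a b x η' τ)))).card : ℝ) ≤
        (C c).numArgs := by exact_mod_cast h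
    refine le_trans (le_of_eq ?_) h'
    congr!
  have hfin : K * (1 / (8 * (D : ℝ) ^ 4)) ≤ ∑ c, p c * (C c).numArgs := by
    calc K * (1 / (8 * (D : ℝ) ^ 4)) ≤ K * (1 / (4 * (D : ℝ) ^ 4) - T * (2 / q)) := by
          apply mul_le_mul_of_nonneg_left _ (by rw [hKval]; positivity)
          linarith
      _ ≤ _ := hbound
      _ ≤ ∑ c, p c * (C c).numArgs :=
          Finset.sum_le_sum fun c _ => mul_le_mul_of_nonneg_left (hcirc c) (hp c)
  -- arithmetic
  have hnr : (200 : ℝ) * D ≤ n := by exact_mod_cast hDle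
  have hq' : (n : ℝ) - 6 * D ≤ 6 * D * q := by
    have : (n : ℝ) ≤ 6 * D * q + 6 * D := by exact_mod_cast hqn'.le
    linarith
  have hκ' : (n : ℝ) - 2 ≤ 3 * κ := by
    have : (n : ℝ) ≤ 3 * κ + 2 := by exact_mod_cast hκn'
    linarith
  have hn97 : (97 / 100 : ℝ) * n ≤ 6 * D * q := by linarith
  have hn99 : (99 / 100 : ℝ) * n ≤ 3 * κ := by linarith
  have hnpos : (0 : ℝ) ≤ n := by positivity
  have hKbig : (n : ℝ) ^ 3 ≤ 125 * D ^ 2 * K := by
    have h1 : ((97 / 100 : ℝ) * n) ^ 2 ≤ (6 * D * q) ^ 2 := pow_le_pow_left₀ (by positivity) hn97 2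
    have h2 : ((97 / 100 : ℝ) * n) ^ 2 * ((99 / 100 : ℝ) * n) ≤ (6 * D * q) ^ 2 * (3 * κ) :=
      mul_le_mul h1 hn99 (by positivity) (by positivity)
    have h3 : (6 * (D : ℝ) * q) ^ 2 * (3 * κ) = 108 * (D ^ 2 * K) := by
      rw [hKval]
      ring
    have h4 : (0 : ℝ) ≤ (n : ℝ) ^ 3 := by positivity
    nlinarith
  calc (n : ℝ) ^ 3 ≤ 125 * D ^ 2 * K := hKbig
    _ = 1000 * D ^ 6 * (K * (1 / (8 * (D : ℝ) ^ 4))) := by
        field_simp
        ring
    _ ≤ 1000 * D ^ 6 * (∑ c, p c * (C c).numArgs) :=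
        mul_le_mul_of_nonneg_left hfin (by positivity)
    _ = _ := by ring


/-- random guesses of the answers -/
theorem final_program (n r D : ℕ) (hD : 1 ≤ D) (hn : 200 * (2 ^ r * D) ^ 6 ≤ n) (α L : ℝ)
    (hα : 1 ≤ α) (hL : 2 * α < L) {ι : Type} [Fintype ι] (P : ι → Program n r) (p : ι → ℝ)
    (hp : ∀ c, 0 ≤ p c) (hp1 : ∑ c, p c = 1)
    (hP : ∀ W : Fin n → Fin n → ℝ, (∀ u v, W u v = 1 ∨ W u v = L) →
      (1 : ℝ) / D ≤ ∑ c ∈ Finset.univ.filter (fun c => (P c).Correct α W), p c) :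
    (n : ℝ) ^ 3 ≤ 1000 * (2 ^ r * D) ^ 6 * ∑ c, p c * (P c).numArgs := by
  have h2r : (0 : ℝ) < 2 ^ r := by positivity
  have hDpos : (0 : ℝ) < D := by exact_mod_cast hD
  have hG : (Fintype.card (Fin r → Bool) : ℝ) = 2 ^ r := by
    rw [Fintype.card_fun, Fintype.card_bool, Fintype.card_fin]
    push_cast
    rfl
  have key := final n (2 ^ r * D) (Nat.mul_pos (by positivity) hD) hn α L hα hL
    (ι := ι × (Fin r → Bool)) (fun z => (P z.1).net z.2)
    (fun z => p z.1 / 2 ^ r) (fun z => div_nonneg (hp _) h2r.le)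
    (by
      rw [Fintype.sum_prod_type]
      refine Eq.trans (Finset.sum_congr rfl fun c _ => ?_) hp1
      show ∑ _s : Fin r → Bool, p c / 2 ^ r = p c
      rw [Finset.sum_const, nsmul_eq_mul, Finset.card_univ, hG]
      field_simp)
    (by
      intro W hW
      rw [Fintype.sum_prod_type]
      have h1 := hP W hW
      have h2 : ∑ c ∈ Finset.univ.filter (fun c => (P c).Correct α W), p c =
          ∑ c, p c * ind ((P c).Correct α W) := by
        rw [Finset.sum_filter]
        refine Finset.sum_congr rfl fun c _ => ?_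
        unfold ind
        split <;> simp
      rw [h2] at h1
      have h3 : ∀ c, p c * ind ((P c).Correct α W) / 2 ^ r ≤
          ∑ s : Fin r → Bool, p c / 2 ^ r * ind (((P c).net s).Correct α W) := by
        intro c
        have h4 : p c * ind ((P c).Correct α W) / 2 ^ r =
            p c / 2 ^ r * ind (((P c).net ((P c).answers W)).Correct α W) := by
          unfold Program.Correct
          ring
        rw [h4]
        exact Finset.single_le_sum (f := fun s : Fin r → Bool =>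
          p c / 2 ^ r * ind (((P c).net s).Correct α W))
          (fun s _ => mul_nonneg (div_nonneg (hp c) h2r.le) (ind_nonneg _))
          (Finset.mem_univ _)
      have h5 : (1 : ℝ) / ((2 ^ r * D : ℕ) : ℝ) = (1 / D) / 2 ^ r := by
        push_cast
        field_simp
      rw [h5]
      calc (1 / (D : ℝ)) / 2 ^ r ≤ (∑ c, p c * ind ((P c).Correct α W)) / 2 ^ r :=
            div_le_div_of_nonneg_right h1 h2r.le
        _ = ∑ c, p c * ind ((P c).Correct α W) / 2 ^ r := by rw [Finset.sum_div]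
        _ ≤ _ := Finset.sum_le_sum fun c _ => h3 c)
  push_cast at key
  refine key.trans ?_
  refine mul_le_mul_of_nonneg_left ?_ (by positivity)
  rw [Fintype.sum_prod_type]
  refine Finset.sum_le_sum fun c _ => ?_
  have h6 : ∀ s : Fin r → Bool, p c / 2 ^ r * (((P c).net s).numArgs : ℝ) ≤
      p c / 2 ^ r * ((P c).numArgs : ℝ) := by
    intro s
    refine mul_le_mul_of_nonneg_left ?_ (div_nonneg (hp c) h2r.le)
    have : ((P c).net s).numArgs ≤ (P c).numArgs :=
      Finset.le_sup (f := fun s => ((P c).net s).numArgs) (Finset.mem_univ s)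
    exact_mod_cast this
  calc ∑ s : Fin r → Bool, p c / 2 ^ r * (((P c).net s).numArgs : ℝ)
      ≤ ∑ _s : Fin r → Bool, p c / 2 ^ r * ((P c).numArgs : ℝ) :=
        Finset.sum_le_sum fun s _ => h6 s
    _ = p c * (P c).numArgs := by
        rw [Finset.sum_const, nsmul_eq_mul, Finset.card_univ, hG]
        field_simp

end Pool.Agent.H98.Net
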