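import Pool.Agent.H98.NetMono
import Pool.Agent.H98.NetCore
import Pool.Agent.APM54.Final

/-!
# H98.Net: the lower bound for one network

The inputs (words of levels) and the lemmas about them are those of `Pool.Agent.APM54.Main` and
`Pool.Agent.APM54.Graph`; the proof follows `Pool.Agent.APM54.circuit_bound`.
-/

set_option autoImplicit false

namespace Pool.Agent.H98.Net

open Finset Pool.Agent.APM54
open scoped Classical

theorem circuit_bound {n T q κ : ℕ} (ι : ((Fin T × Fin q) ⊕ Fin κ ⊕ (Fin T × Fin q)) ↪ Fin n)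
    (C : Network n) {α L : ℝ} (hα : 1 ≤ α) (hL : 2 * α < L) (hκ : 2 ≤ κ) {a b : ℕ} (hab : a < b)
    (hbT : b ≤ T) (x η η' : Fin T → Fin q × Fin q × Fin κ)
    (hgen : ∀ t : Fin T, a < t.val → t.val < b → (η t).1 ≠ (η' t).1 ∧ (η t).2.1 ≠ (η' t).2.1)
    (𝒯 : Finset (Fin q × Fin q × Fin κ))
    (h𝒯 : ∀ τ ∈ 𝒯,
      C.Correct α (wt ι L (wA a (word a b x η τ)) (wB a (word a b x η τ))) ∧
      C.Correct α (wt ι L (wA b (word a b x η' τ)) (wB b (word a b x η' τ)))) :
    𝒯.card ≤ C.numArgs := by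
  have hL1 : 1 ≤ L := by linarith
  have hL2 : 2 ≤ L := by linarith
  set WP : (Fin q × Fin q × Fin κ) → Fin n → Fin n → ℝ := fun τ =>
    wt ι L (wA a (word a b x η τ)) (wB a (word a b x η τ)) with hWP
  set WQ : (Fin q × Fin q × Fin κ) → Fin n → Fin n → ℝ := fun τ =>
    wt ι L (wA b (word a b x η' τ)) (wB b (word a b x η' τ)) with hWQ
  let t₀ : Fin T := ⟨a, by omega⟩
  have ht₀ : t₀.val = a := rfl
  -- comparison
  have hcmp : ∀ σ τ : Fin q × Fin q × Fin κ, σ.2.1 ≠ τ.2.1 → ¬ (σ.1 = τ.1 ∧ σ.2.2 = τ.2.2) →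
      ∀ u v, WQ τ u v ≤ WP σ u v := by
    intro σ τ hj hik
    refine wt_anti ι L hL1 ?_ ?_
    · rintro ⟨t, i⟩ k h
      by_cases ht : t.val = a
      · have ht' : t = t₀ := Fin.ext ht
        subst ht'
        rw [wA_low ht₀] at h
        rw [wA_high ht₀ hab]
        rintro ⟨h1, h2⟩
        exact hik ⟨h.1.symm.trans h1, h.2.symm.trans h2⟩
      · exact wA_other hab hgen ht i k h
    · rintro k ⟨t, j⟩ h
      by_cases ht : t.val = a
      · have ht' : t = t₀ := Fin.ext ht
        subst ht'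
        rw [wB_low ht₀] at h
        rw [wB_high ht₀ hab]
        intro h1
        exact absurd (h.1.symm.trans h1) hj
      · exact wB_other hab hgen ht j k h
  -- inputs
  have hinput : ∀ (e : Fin n × Fin n) (τ : Fin q × Fin q × Fin κ),
      WP τ e.1 e.2 < WQ τ e.1 e.2 →
      row ι (t₀, τ.1) = e.1 ∧ mid ι τ.2.2 = e.2 ∧ WP τ e.1 e.2 = 1 ∧ WQ τ e.1 e.2 = L := by
    intro e τ hlt
    have hP : Short ι (wA a (word a b x η τ)) (wB a (word a b x η τ)) e.1 e.2 := by
      by_contra hP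
      have h1 : WP τ e.1 e.2 = L := by
        simp only [hWP, wt]
        rw [if_neg hP]
      rw [h1] at hlt
      rcases wt_mem ι L (A := wA b (word a b x η' τ)) (B := wB b (word a b x η' τ)) e.1 e.2 with
        h2 | h2
      · have h3 : WQ τ e.1 e.2 = 1 := h2
        rw [h3] at hlt
        linarith
      · have h3 : WQ τ e.1 e.2 = L := h2
        rw [h3] at hlt
        linarith
    have hP1 : WP τ e.1 e.2 = 1 := by
      simp only [hWP, wt]
      rw [if_pos hP]
    have hQ : ¬ Short ι (wA b (word a b x η' τ)) (wB b (word a b x η' τ)) e.1 e.2 := by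
      intro hQ
      have h1 : WQ τ e.1 e.2 = 1 := by
        simp only [hWQ, wt]
        rw [if_pos hQ]
      rw [h1, hP1] at hlt
      exact lt_irrefl _ hlt
    have hQ1 : WQ τ e.1 e.2 = L := by
      simp only [hWQ, wt]
      rw [if_neg hQ]
    rcases hP with ⟨⟨t, i⟩, k, h1, h2, h3⟩ | ⟨k, ⟨t, j⟩, h1, h2, h3⟩
    · by_cases ht : t.val = a
      · have ht' : t = t₀ := Fin.ext ht
        subst ht'
        rw [wA_low ht₀] at h3
        obtain ⟨h4, h5⟩ := h3
        subst h4
        subst h5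
        exact ⟨h1, h2, hP1, hQ1⟩
      · exact absurd (Or.inl ⟨(t, i), k, h1, h2, wA_other hab hgen ht i k h3⟩) hQ
    · exfalso
      by_cases ht : t.val = a
      · have ht' : t = t₀ := Fin.ext ht
        subst ht'
        rw [wB_low ht₀] at h3
        refine hQ (Or.inr ⟨k, (t₀, j), h1, h2, ?_⟩)
        rw [wB_high ht₀ hab]
        exact fun _ => h3.2
      · exact hQ (Or.inr ⟨k, (t, j), h1, h2, wB_other hab hgen ht j k h3⟩)
  -- the edge from the row of `τ` to the middle vertex of `τ`, at another triple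
  have hother : ∀ (τ σ : Fin q × Fin q × Fin κ), ¬ (τ.1 = σ.1 ∧ τ.2.2 = σ.2.2) →
      WP σ (row ι (t₀, τ.1)) (mid ι τ.2.2) = L ∧ WQ σ (row ι (t₀, τ.1)) (mid ι τ.2.2) = 1 := by
    intro τ σ hne
    constructor
    · simp only [hWP, wt]
      rw [if_neg]
      rintro (⟨⟨t, i⟩, k, h1, h2, h3⟩ | ⟨k, ⟨t, j⟩, h1, h2, h3⟩)
      · have e1 := row_inj.1 h1
        have e2 := mid_inj.1 h2
        rw [e1, e2, wA_low ht₀] at h3
        exact hne h3
      · exact row_ne_mid _ _ h1.symm
    · simp only [hWQ, wt]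
      rw [if_pos]
      refine Or.inl ⟨(t₀, τ.1), τ.2.2, rfl, rfl, ?_⟩
      rw [wA_high ht₀ hab]
      exact hne
  refine core C.ar C.coef C.coef_nonneg C.earlier 𝒯
    (fun y τ => C.node (WQ τ) y - C.node (WP τ) y) ?_ ?_ ?_ ?_
  · -- gates
    intro t τ _ hs
    by_contra hcon
    push Not at hcon
    have h1 : C.node (WQ τ) (Sum.inr t) ≤ C.node (WP τ) (Sum.inr t) := by
      show C.gate (WQ τ) t ≤ C.gate (WP τ) t
      rw [C.gate_eq, C.gate_eq]
      apply C.mono
      intro a'
      have h2 := hcon a'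
      have h3 : ∑ v, C.coef t a' v * (C.node (WQ τ) v - C.node (WP τ) v) =
          ∑ v, C.coef t a' v * C.node (WQ τ) v - ∑ v, C.coef t a' v * C.node (WP τ) v := by
        rw [← Finset.sum_sub_distrib]
        exact Finset.sum_congr rfl fun v _ => mul_sub _ _ _
      rw [h3] at h2
      show ∑ v, C.coef t a' v * C.node (WQ τ) v ≤ ∑ v, C.coef t a' v * C.node (WP τ) v
      linarith
    have hs' : 0 < C.node (WQ τ) (Sum.inr t) - C.node (WP τ) (Sum.inr t) := hs
    linarith
  · -- inputs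
    intro e τ σ _ _ h1 hne
    have h1' : WP τ e.1 e.2 < WQ τ e.1 e.2 := by
      have : 0 < WQ τ e.1 e.2 - WP τ e.1 e.2 := h1
      linarith
    obtain ⟨a1, a2, a3, a4⟩ := hinput e τ h1'
    obtain ⟨b1, b2⟩ := hother τ σ hne
    rw [a1, a2] at b1 b2
    show (WQ τ e.1 e.2 - WP τ e.1 e.2) + (WQ σ e.1 e.2 - WP σ e.1 e.2) ≤ 0
    rw [a3, a4, b1, b2]
    linarith
  · -- exclusion
    intro y σ τ _ _ hj hik
    have e1 := C.node_mono (hcmp σ τ hj hik) y
    have e2 := C.node_mono (hcmp τ σ (Ne.symm hj) (fun h => hik ⟨h.1.symm, h.2.symm⟩)) y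
    show (C.node (WQ σ) y - C.node (WP σ) y) + (C.node (WQ τ) y - C.node (WP τ) y) ≤ 0
    linarith
  · -- outputs
    intro τ hτ
    obtain ⟨hcP, hcQ⟩ := h𝒯 τ hτ
    set u := row ι (t₀, τ.1) with hu
    set v := col ι (t₀, τ.2.1) with hv
    have huv : u ≠ v := row_ne_col _ _
    have hserve : C.node (WP τ) (C.out u v) < C.node (WQ τ) (C.out u v) := by
      have h1 := (hcP u v huv).2
      have h2 := (hcQ u v huv).1
      have h3 : dist (WP τ) u v ≤ 2 :=
        dist_le_two ι L hL1 (k := τ.2.2) ((wA_low ht₀ _ _).2 ⟨rfl, rfl⟩)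
          ((wB_low ht₀ _ _).2 ⟨rfl, rfl⟩)
      have h4 : L ≤ dist (WQ τ) u v := by
        refine le_dist_of_not ι L hL1 ?_
        rintro k ⟨h5, h6⟩
        rw [wA_high ht₀ hab] at h5
        rw [wB_high ht₀ hab] at h6
        exact h5 ⟨rfl, h6 rfl⟩
      have h5 : α * dist (WP τ) u v ≤ α * 2 := mul_le_mul_of_nonneg_left h3 (by linarith)
      calc C.node (WP τ) (C.out u v) ≤ α * dist (WP τ) u v := h1
        _ ≤ α * 2 := h5
        _ < L := by linarith
        _ ≤ dist (WQ τ) u v := h4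
        _ ≤ _ := h2
    rcases hout : C.out u v with e | t
    · exfalso
      have hs : WP τ e.1 e.2 < WQ τ e.1 e.2 := by
        rw [hout] at hserve
        exact hserve
      obtain ⟨-, -, h1, -⟩ := hinput e τ hs
      have h2 := (hcP u v huv).1
      have h3 : (2 : ℝ) ≤ dist (WP τ) u v := two_le_dist ι L hL2 _ _
      have h4 : C.output (WP τ) u v = 1 := by
        show C.node (WP τ) (C.out u v) = 1
        rw [hout]
        exact h1
      have h5 : dist (WP τ) u v ≤ C.output (WP τ) u v := h2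
      rw [h4] at h5
      linarith
    · have hpos : 0 < C.node (WQ τ) (Sum.inr t) - C.node (WP τ) (Sum.inr t) := by
        rw [← hout]
        linarith
      refine ⟨t, hpos, ?_⟩
      intro σ hσ h1 h2 hne
      refine lt_of_le_of_lt ?_ hpos
      have hj : σ.2.1 ≠ τ.2.1 := fun h3 => hne (Prod.ext h1 (Prod.ext h3 h2))
      obtain ⟨hsP, hsQ⟩ := h𝒯 σ hσ
      have g1 := (hsP u v huv).1
      have g2 := (hsQ u v huv).2
      have g3 : L ≤ dist (WP σ) u v := by
        refine le_dist_of_not ι L hL1 ?_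
        rintro k ⟨-, h6⟩
        rw [wB_low ht₀] at h6
        exact hj h6.1.symm
      have g4 : dist (WQ σ) u v ≤ 2 := by
        obtain ⟨k, hk⟩ : ∃ k : Fin κ, k ≠ σ.2.2 := by
          have : Nontrivial (Fin κ) := Fin.nontrivial_iff_two_le.2 hκ
          exact exists_ne _
        refine dist_le_two ι L hL1 (k := k) ?_ ?_
        · rw [wA_high ht₀ hab]
          exact fun h => hk h.2
        · rw [wB_high ht₀ hab]
          exact fun h => absurd h.symm hj
      have g6 : α * dist (WQ σ) u v ≤ α * 2 := mul_le_mul_of_nonneg_left g4 (by linarith)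
      have g7 : C.output (WP σ) u v = C.node (WP σ) (Sum.inr t) := by
        show C.node (WP σ) (C.out u v) = _
        rw [hout]
      have g8 : C.output (WQ σ) u v = C.node (WQ σ) (Sum.inr t) := by
        show C.node (WQ σ) (C.out u v) = _
        rw [hout]
      rw [g7] at g1
      rw [g8] at g2
      show C.node (WQ σ) (Sum.inr t) - C.node (WP σ) (Sum.inr t) ≤ 0
      have g9 : C.node (WQ σ) (Sum.inr t) ≤ α * dist (WQ σ) u v := g2
      have g10 : dist (WP σ) u v ≤ C.node (WP σ) (Sum.inr t) := g1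
      linarith

end Pool.Agent.H98.Net
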