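import Pool.Agent.H98.NetDefs

/-!
# H98.Net: networks are monotone
-/

set_option autoImplicit false

namespace Pool.Agent.H98.Net

open Finset Pool.Agent.APM54

namespace Network

variable {n : ℕ} (C : Network n)

theorem gate_eq (W : Fin n → Fin n → ℝ) (t : Fin C.size) :
    C.gate W t = C.op t (fun a => ∑ v, C.coef t a v * C.node W v) := by
  rw [gate]
  congr 1
  funext a
  refine Finset.sum_congr rfl fun v _ => ?_
  rcases v with e | u
  · rfl
  · by_cases hu : u < t
    · simp only [hu, dite_true]
      rfl
    · have : C.coef t a (Sum.inr u) = 0 := by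
        by_contra h
        exact hu (C.earlier t a u h)
      rw [this, zero_mul, zero_mul]

theorem node_mono {W W' : Fin n → Fin n → ℝ}
    (h : ∀ u v, W u v ≤ W' u v) (y : (Fin n × Fin n) ⊕ Fin C.size) : C.node W y ≤ C.node W' y := by
  have key : ∀ N : ℕ, ∀ t : Fin C.size, t.val = N → C.gate W t ≤ C.gate W' t := by
    intro N
    induction N using Nat.strong_induction_on with
    | _ N ih =>
      intro t ht
      rw [gate_eq, gate_eq]
      apply C.mono
      intro a
      refine Finset.sum_le_sum fun v _ => ?_
      rcases v with e | u
      · exact mul_le_mul_of_nonneg_left (h _ _) (C.coef_nonneg _ _ _)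
      · by_cases hu : u < t
        · exact mul_le_mul_of_nonneg_left (ih u.val (ht ▸ hu) u rfl) (C.coef_nonneg _ _ _)
        · have : C.coef t a (Sum.inr u) = 0 := by
            by_contra h
            exact hu (C.earlier t a u h)
          rw [this, zero_mul, zero_mul]
  rcases y with e | t
  · exact h _ _
  · exact key t.val t rfl

end Network

end Pool.Agent.H98.Net
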