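import Mathlib

/-!
# Linear decision trees for the `(min, +)` product of two matrices
-/

namespace Pool.Agent.H98.Sparse

open Finset Filter Topology

/-- An affine form `∑ a i k * A i k + ∑ b k j * B k j + c` in the entries of two `n × n`
matrices `A` and `B`. -/
structure AffForm (n : ℕ) where
  a : Fin n → Fin n → ℝ
  b : Fin n → Fin n → ℝ
  c : ℝ

variable {n : ℕ}

/-- The value of an affine form. -/
def AffForm.eval (q : AffForm n) (A B : Fin n → Fin n → ℝ) : ℝ :=
  (∑ i, ∑ k, q.a i k * A i k) + (∑ k, ∑ j, q.b k j * B k j) + q.c

/-- A linear decision tree: every inner node asks for the sign (negative, zero, positive) of an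
affine form in the entries of `A` and `B`; every leaf is labelled with `n²` affine forms. -/
inductive DTree (n : ℕ) : Type
  | leaf (out : Fin n → Fin n → AffForm n) : DTree n
  | node (q : AffForm n) (neg zero pos : DTree n) : DTree n

/-- The label of the leaf that is reached when the query `q` gets the answer `sign (f q)`. -/
noncomputable def DTree.reach : DTree n → (AffForm n → ℝ) → (Fin n → Fin n → AffForm n)
  | .leaf out, _ => out
  | .node q l m r, f => if f q < 0 then l.reach f else if f q = 0 then m.reach f else r.reach f

/-- The queries that are asked when the query `q` gets the answer `sign (f q)`. -/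
noncomputable def DTree.asked : DTree n → (AffForm n → ℝ) → List (AffForm n)
  | .leaf _, _ => []
  | .node q l m r, f =>
      q :: (if f q < 0 then l.asked f else if f q = 0 then m.asked f else r.asked f)

/-- The output matrix of the tree on the input `A, B`: the values of the affine forms at the leaf
reached by the input. -/
noncomputable def DTree.output (T : DTree n) (A B : Fin n → Fin n → ℝ) (i j : Fin n) : ℝ :=
  (T.reach (fun q => q.eval A B) i j).eval A B

open Classical in
/-- The number of queries involving at least one entry of `A` that the tree asks on the input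
`A, B`. Queries in the entries of `B` only are not counted. -/
noncomputable def DTree.cost (T : DTree n) (A B : Fin n → Fin n → ℝ) : ℕ :=
  ((T.asked (fun q => q.eval A B)).filter (fun q => q.a ≠ 0)).length

/-- The `(min, +)` product. -/
noncomputable def minPlus (A B : Fin n → Fin n → ℝ) (i j : Fin n) : ℝ := ⨅ k, (A i k + B k j)

/-- The tree computes the `(min, +)` product of all matrices with entries in `(0, 1)`. -/
def DTree.Correct (T : DTree n) : Prop :=
  ∀ A B : Fin n → Fin n → ℝ, (∀ i k, 0 < A i k ∧ A i k < 1) → (∀ k j, 0 < B k j ∧ B k j < 1) →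
    ∀ i j, T.output A B i j = minPlus A B i j

/-- The allowed queries. There is a row `i` of `A` such that every other row of `A` contains at
most one entry that is involved in the query (so a query may involve arbitrarily many entries of
one row of `A` and at most one entry of every other row of `A`). A query that involves an entry of
`A` may involve arbitrarily many entries of `B`. A query that involves entries of `B` only may
involve arbitrarily many entries of one column `j` of `B`, at most one entry of every other column,
and at most `s` further entries of `B` (those in `S`). -/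
def AffForm.Allowed (s : ℕ) (q : AffForm n) : Prop :=
  (∃ i : Fin n, ∀ i', i' ≠ i → ∀ k k', q.a i' k ≠ 0 → q.a i' k' ≠ 0 → k = k') ∧
  (q.a = 0 → ∃ (j : Fin n) (S : Finset (Fin n × Fin n)), S.card ≤ s ∧
    ∀ j', j' ≠ j → ∀ k k', (k, j') ∉ S → (k', j') ∉ S → q.b k j' ≠ 0 → q.b k' j' ≠ 0 → k = k')

/-- All queries of the tree are allowed. -/
def DTree.Allowed (s : ℕ) : DTree n → Prop
  | .leaf _ => True
  | .node q l m r => q.Allowed s ∧ l.Allowed s ∧ m.Allowed s ∧ r.Allowed s

/-- All queries in the tree. -/
def DTree.queries : DTree n → List (AffForm n)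
  | .leaf _ => []
  | .node q l m r => q :: (l.queries ++ m.queries ++ r.queries)

theorem DTree.Allowed.mem {s : ℕ} {T : DTree n} (h : T.Allowed s) : ∀ q ∈ T.queries, q.Allowed s := by
  induction T with
  | leaf out => intro q hq; simp [DTree.queries] at hq
  | node q' l m r ihl ihm ihr =>
    obtain ⟨h1, h2, h3, h4⟩ := h
    intro q hq
    simp only [DTree.queries, List.mem_cons, List.mem_append] at hq
    rcases hq with rfl | (hq | hq) | hq
    · exact h1
    · exact ihl h2 q hq
    · exact ihm h3 q hq
    · exact ihr h4 q hq

theorem DTree.asked_subset (T : DTree n) (f : AffForm n → ℝ) : ∀ q ∈ T.asked f, q ∈ T.queries := by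
  induction T with
  | leaf out => intro q hq; simp [DTree.asked] at hq
  | node q' l m r ihl ihm ihr =>
    intro q hq
    simp only [DTree.asked, List.mem_cons] at hq
    simp only [DTree.queries, List.mem_cons, List.mem_append]
    rcases hq with rfl | hq
    · exact Or.inl rfl
    · right
      split_ifs at hq
      · exact Or.inl (Or.inl (ihl q hq))
      · exact Or.inl (Or.inr (ihm q hq))
      · exact Or.inr (ihr q hq)

/-- Two reals have the same sign. -/
def SameSign (x y : ℝ) : Prop := (x < 0 ↔ y < 0) ∧ (x = 0 ↔ y = 0)

theorem DTree.congr (T : DTree n) (f g : AffForm n → ℝ)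
    (h : ∀ q ∈ T.asked f, SameSign (f q) (g q)) : T.reach g = T.reach f ∧ T.asked g = T.asked f := by
  induction T with
  | leaf out => exact ⟨rfl, rfl⟩
  | node q l m r ihl ihm ihr =>
    have hq := h q (by simp [DTree.asked])
    simp only [DTree.reach, DTree.asked]
    by_cases h1 : f q < 0
    · have h1' := hq.1.1 h1
      rw [if_pos h1, if_pos h1', if_pos h1, if_pos h1']
      obtain ⟨e1, e2⟩ := ihl (fun q' hq' => h q' (by simp [DTree.asked, h1, hq']))
      exact ⟨e1, by rw [e2]⟩
    · have h1' : ¬ g q < 0 := fun h' => h1 (hq.1.2 h')
      by_cases h2 : f q = 0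
      · have h2' := hq.2.1 h2
        rw [if_neg h1, if_neg h1', if_neg h1, if_neg h1', if_pos h2, if_pos h2', if_pos h2,
          if_pos h2']
        obtain ⟨e1, e2⟩ := ihm (fun q' hq' => h q' (by simp [DTree.asked, h2, hq']))
        exact ⟨e1, by rw [e2]⟩
      · have h2' : ¬ g q = 0 := fun h' => h2 (hq.2.2 h')
        rw [if_neg h1, if_neg h1', if_neg h1, if_neg h1', if_neg h2, if_neg h2', if_neg h2,
          if_neg h2']
        obtain ⟨e1, e2⟩ := ihr (fun q' hq' => h q' (by simp [DTree.asked, h1, h2, hq']))
        exact ⟨e1, by rw [e2]⟩

open Classical in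
/-- Every nonzero circulation on the bipartite graph `G` between the rows and columns of `B` has
more than `s + 1` nonzero columns. -/
def NoShort (s : ℕ) (G : Finset (Fin n × Fin n)) : Prop :=
  ∀ b : Fin n → Fin n → ℝ, (∀ k j, (k, j) ∉ G → b k j = 0) → (∀ k, ∑ j, b k j = 0) →
    (∀ j, ∑ k, b k j = 0) → (univ.filter fun j => ∃ k, b k j ≠ 0).card ≤ s + 1 → b = 0

end Pool.Agent.H98.Sparse
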