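import Pool.Agent.H98.SparseDefs

/-!
# Dense bipartite graphs without short circulations
-/

namespace Pool.Agent.H98.Sparse

open Finset

variable {n : ℕ}

/-- The complete bipartite graph. -/
theorem noShort_zero (G : Finset (Fin n × Fin n)) : NoShort 0 G := by
  classical
  intro b _ hrow hcol hcard
  by_contra hne
  obtain ⟨k, j, hkj⟩ : ∃ k j, b k j ≠ 0 := by
    by_contra hcon
    push Not at hcon
    exact hne (funext fun k => funext fun j => hcon k j)
  obtain ⟨j', hj', hkj'⟩ : ∃ j', j' ≠ j ∧ b k j' ≠ 0 := by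
    by_contra hcon
    push Not at hcon
    have := hrow k
    rw [Finset.sum_eq_single j (fun j' _ hj' => hcon j' hj') (by simp)] at this
    exact hkj this
  have h1 : ({j, j'} : Finset (Fin n)) ⊆ univ.filter fun j => ∃ k, b k j ≠ 0 := by
    intro x hx
    rw [Finset.mem_insert, Finset.mem_singleton] at hx
    rw [Finset.mem_filter]
    rcases hx with rfl | rfl
    · exact ⟨Finset.mem_univ _, k, hkj⟩
    · exact ⟨Finset.mem_univ _, k, hkj'⟩
  have h2 := Finset.card_le_card h1
  rw [Finset.card_pair hj'.symm] at h2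
  have : (univ.filter fun j => ∃ k, b k j ≠ 0).card ≤ 0 + 1 := by convert hcard
  omega

/-- Graphs without 4-cycles. -/
theorem noShort_one (G : Finset (Fin n × Fin n))
    (hG : ∀ k k' j j', k ≠ k' → j ≠ j' → (k, j) ∈ G → (k', j) ∈ G → (k, j') ∈ G → (k', j') ∈ G →
      False) : NoShort 1 G := by
  classical
  intro b hoff hrow hcol hcard
  have hmem : ∀ k j, b k j ≠ 0 → (k, j) ∈ G := by
    intro k j h
    by_contra hcon
    exact h (hoff k j hcon)
  by_contra hne
  obtain ⟨k, j, hkj⟩ : ∃ k j, b k j ≠ 0 := by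
    by_contra hcon
    push Not at hcon
    exact hne (funext fun k => funext fun j => hcon k j)
  have hrow' : ∀ k j, b k j ≠ 0 → ∃ j', j' ≠ j ∧ b k j' ≠ 0 := by
    intro k j hkj
    by_contra hcon
    push Not at hcon
    have := hrow k
    rw [Finset.sum_eq_single j (fun j' _ hj' => hcon j' hj') (by simp)] at this
    exact hkj this
  obtain ⟨j', hj', hkj'⟩ := hrow' k j hkj
  obtain ⟨k', hk', hk'j⟩ : ∃ k', k' ≠ k ∧ b k' j ≠ 0 := by
    by_contra hcon
    push Not at hcon
    have := hcol j
    rw [Finset.sum_eq_single k (fun k' _ hk' => hcon k' hk') (by simp)] at this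
    exact hkj this
  obtain ⟨j'', hj'', hk'j''⟩ := hrow' k' j hk'j
  have h3 : j'' = j' := by
    by_contra hcon
    have h1 : ({j, j', j''} : Finset (Fin n)) ⊆ univ.filter fun j => ∃ k, b k j ≠ 0 := by
      intro x hx
      rw [Finset.mem_insert, Finset.mem_insert, Finset.mem_singleton] at hx
      rw [Finset.mem_filter]
      rcases hx with rfl | rfl | rfl
      · exact ⟨Finset.mem_univ _, k, hkj⟩
      · exact ⟨Finset.mem_univ _, k, hkj'⟩
      · exact ⟨Finset.mem_univ _, k', hk'j''⟩
    have h2 := Finset.card_le_card h1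
    have h4 : ({j, j', j''} : Finset (Fin n)).card = 3 := by
      rw [Finset.card_eq_three]
      exact ⟨j, j', j'', hj'.symm, hj''.symm, Ne.symm hcon, rfl⟩
    rw [h4] at h2
    have : (univ.filter fun j => ∃ k, b k j ≠ 0).card ≤ 1 + 1 := by convert hcard
    omega
  subst h3
  exact hG k k' j j'' hk'.symm hj'.symm (hmem _ _ hkj) (hmem _ _ hk'j) (hmem _ _ hkj')
    (hmem _ _ hk'j'')

/-- The affine plane over a prime field. -/
theorem exists_plane (p : ℕ) (hp : p.Prime) (hn : p ^ 2 ≤ n) :
    ∃ G : Finset (Fin n × Fin n), NoShort 1 G ∧ p ^ 3 ≤ G.card := by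
  classical
  have : Fact p.Prime := ⟨hp⟩
  have hp0 : 0 < p := hp.pos
  let G : Finset (Fin n × Fin n) := univ.filter fun e =>
    (e.1 : ℕ) < p ^ 2 ∧ (e.2 : ℕ) < p ^ 2 ∧
      (((e.1 : ℕ) / p : ℕ) : ZMod p) =
        (((e.2 : ℕ) % p : ℕ) : ZMod p) * (((e.1 : ℕ) % p : ℕ) : ZMod p) + (((e.2 : ℕ) / p : ℕ) : ZMod p)
  have hmem : ∀ e : Fin n × Fin n, e ∈ G ↔ (e.1 : ℕ) < p ^ 2 ∧ (e.2 : ℕ) < p ^ 2 ∧
      (((e.1 : ℕ) / p : ℕ) : ZMod p) =
        (((e.2 : ℕ) % p : ℕ) : ZMod p) * (((e.1 : ℕ) % p : ℕ) : ZMod p) +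
          (((e.2 : ℕ) / p : ℕ) : ZMod p) := by
    intro e; simp [G]
  have hcast : ∀ x y : ℕ, x < p → y < p → ((x : ℕ) : ZMod p) = (y : ℕ) → x = y := by
    intro x y hx hy h
    rw [ZMod.natCast_eq_natCast_iff] at h
    exact Nat.ModEq.eq_of_lt_of_lt h hx hy
  have hdiv : ∀ x : ℕ, x < p ^ 2 → x / p < p := by
    intro x hx
    rw [Nat.div_lt_iff_lt_mul hp0]
    rwa [sq] at hx
  have hdm : ∀ x y : ℕ, x % p = y % p → x / p = y / p → x = y := by
    intro x y h1 h2
    rw [← Nat.div_add_mod x p, ← Nat.div_add_mod y p, h1, h2]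
  refine ⟨G, noShort_one G ?_, ?_⟩
  · intro k k' j j' hk hj h1 h2 h3 h4
    rw [hmem] at h1 h2 h3 h4
    obtain ⟨a1, a2, a3⟩ := h1
    obtain ⟨b1, b2, b3⟩ := h2
    obtain ⟨c1, c2, c3⟩ := h3
    obtain ⟨d1, d2, d3⟩ := h4
    simp only at a1 a2 a3 b1 b2 b3 c1 c2 c3 d1 d2 d3
    set x : ZMod p := (((k : ℕ) % p : ℕ) : ZMod p) with hx
    set x' : ZMod p := (((k' : ℕ) % p : ℕ) : ZMod p) with hx'
    set m : ZMod p := (((j : ℕ) % p : ℕ) : ZMod p) with hm
    set m' : ZMod p := (((j' : ℕ) % p : ℕ) : ZMod p) with hm'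
    set c : ZMod p := (((j : ℕ) / p : ℕ) : ZMod p) with hc
    set c' : ZMod p := (((j' : ℕ) / p : ℕ) : ZMod p) with hc'
    have hprod : (m - m') * (x - x') = 0 := by
      have e1 : m * x + c = m' * x + c' := by rw [← a3, ← c3]
      have e2 : m * x' + c = m' * x' + c' := by rw [← b3, ← d3]
      linear_combination e1 - e2
    rcases mul_eq_zero.1 hprod with h | h
    · -- equal slopes
      have hmm : m = m' := sub_eq_zero.1 h
      have hcc : c = c' := by
        have e1 : m * x + c = m' * x + c' := by rw [← a3, ← c3]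
        rw [hmm] at e1
        exact add_left_cancel e1
      apply hj
      apply Fin.ext
      exact hdm _ _ (hcast _ _ (Nat.mod_lt _ hp0) (Nat.mod_lt _ hp0) hmm)
        (hcast _ _ (hdiv _ a2) (hdiv _ c2) hcc)
    · have hxx : x = x' := sub_eq_zero.1 h
      have hyy : (((k : ℕ) / p : ℕ) : ZMod p) = (((k' : ℕ) / p : ℕ) : ZMod p) := by
        rw [a3, b3, hxx]
      apply hk
      apply Fin.ext
      exact hdm _ _ (hcast _ _ (Nat.mod_lt _ hp0) (Nat.mod_lt _ hp0) hxx)
        (hcast _ _ (hdiv _ a1) (hdiv _ b1) hyy)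
  · -- count
    let yv : Fin p × Fin p × Fin p → ℕ := fun t =>
      ((((t.2.1 : ℕ) : ZMod p) * ((t.1 : ℕ) : ZMod p) + ((t.2.2 : ℕ) : ZMod p)) : ZMod p).val
    have hyv : ∀ t, yv t < p := fun t => ZMod.val_lt _
    have hlt : ∀ a b : ℕ, a < p → b < p → a + p * b < p ^ 2 := by
      intro a b ha hb
      have : p * b + p ≤ p * p := by
        have : p * (b + 1) ≤ p * p := Nat.mul_le_mul_left p hb
        linarith [mul_add p b 1]
      rw [sq]; omega
    let f : Fin p × Fin p × Fin p → Fin n × Fin n := fun t =>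
      (⟨(t.1 : ℕ) + p * yv t, (hlt _ _ t.1.2 (hyv t)).trans_le hn⟩,
        ⟨(t.2.1 : ℕ) + p * (t.2.2 : ℕ), (hlt _ _ t.2.1.2 t.2.2.2).trans_le hn⟩)
    have hmodp : ∀ a b : ℕ, a < p → (a + p * b) % p = a := by
      intro a b ha
      rw [Nat.add_mul_mod_self_left, Nat.mod_eq_of_lt ha]
    have hdivp : ∀ a b : ℕ, a < p → (a + p * b) / p = b := by
      intro a b ha
      rw [Nat.add_mul_div_left _ _ hp0, Nat.div_eq_of_lt ha, zero_add]
    have hcard : (univ : Finset (Fin p × Fin p × Fin p)).card = p ^ 3 := by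
      simp only [Finset.card_univ, Fintype.card_prod, Fintype.card_fin]; ring
    rw [← hcard]
    refine Finset.card_le_card_of_injOn f ?_ ?_
    · intro t _
      rw [Finset.mem_coe, hmem]
      refine ⟨hlt _ _ t.1.2 (hyv t), hlt _ _ t.2.1.2 t.2.2.2, ?_⟩
      simp only [f]
      rw [hmodp _ _ t.1.2, hdivp _ _ t.1.2, hmodp _ _ t.2.1.2, hdivp _ _ t.2.1.2]
      simp only [yv, ZMod.natCast_val, ZMod.cast_id', id_eq]
    · intro t _ t' _ htt
      simp only [f, Prod.mk.injEq, Fin.mk.injEq] at htt
      obtain ⟨e1, e2⟩ := htt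
      have g1 : (t.1 : ℕ) = t'.1 := by
        have := congrArg (· % p) e1
        rwa [hmodp _ _ t.1.2, hmodp _ _ t'.1.2] at this
      have g2 : (t.2.1 : ℕ) = t'.2.1 := by
        have := congrArg (· % p) e2
        rwa [hmodp _ _ t.2.1.2, hmodp _ _ t'.2.1.2] at this
      have g3 : (t.2.2 : ℕ) = t'.2.2 := by
        have := congrArg (· / p) e2
        rwa [hdivp _ _ t.2.1.2, hdivp _ _ t'.2.1.2] at this
      exact Prod.ext (Fin.ext g1) (Prod.ext (Fin.ext g2) (Fin.ext g3))

/-! ### Greedy graphs -/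

section Greedy

variable (G : Finset (Fin n × Fin n)) (k : Fin n)

open Classical in
/-- Alternating balls around the row vertex `k`: rows and columns. -/
noncomputable def ball : ℕ → Finset (Fin n) × Finset (Fin n)
  | 0 => ({k}, univ.filter fun j => (k, j) ∈ G)
  | m + 1 =>
    let S := univ.filter fun k' => ∃ j ∈ (ball m).2, (k', j) ∈ G
    (S, univ.filter fun j => ∃ k' ∈ S, (k', j) ∈ G)

theorem mem_ball_snd (m : ℕ) (j : Fin n) :
    j ∈ (ball G k m).2 ↔ ∃ k' ∈ (ball G k m).1, (k', j) ∈ G := by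
  classical
  cases m with
  | zero => simp [ball]
  | succ m => simp [ball]

theorem mem_ball_succ_fst (m : ℕ) (k' : Fin n) :
    k' ∈ (ball G k (m + 1)).1 ↔ ∃ j ∈ (ball G k m).2, (k', j) ∈ G := by
  classical
  simp [ball]

theorem ball_mono (m : ℕ) : (ball G k m).2 ⊆ (ball G k (m + 1)).2 := by
  intro j hj
  obtain ⟨k', hk', hkj⟩ := (mem_ball_snd G k m j).1 hj
  rw [mem_ball_snd]
  exact ⟨k', (mem_ball_succ_fst G k m k').2 ⟨j, hj, hkj⟩, hkj⟩

theorem ball_mono' {m m' : ℕ} (h : m ≤ m') : (ball G k m).2 ⊆ (ball G k m').2 := by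
  induction m', h using Nat.le_induction with
  | base => exact subset_rfl
  | succ m' _ ih => exact ih.trans (ball_mono G k m')

theorem ball_card {d : ℕ} (hrow : ∀ k, (G.filter fun e => e.1 = k).card ≤ d)
    (hcol : ∀ j, (G.filter fun e => e.2 = j).card ≤ d) (m : ℕ) :
    (ball G k m).1.card ≤ d ^ (2 * m) ∧ (ball G k m).2.card ≤ d ^ (2 * m + 1) := by
  classical
  have h2 : ∀ m, (ball G k m).2.card ≤ (ball G k m).1.card * d := by
    intro m
    have : (ball G k m).2 ⊆ (ball G k m).1.biUnion fun k' =>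
        (G.filter fun e => e.1 = k').image Prod.snd := by
      intro j hj
      obtain ⟨k', hk', hkj⟩ := (mem_ball_snd G k m j).1 hj
      rw [Finset.mem_biUnion]
      exact ⟨k', hk', Finset.mem_image.2 ⟨(k', j), by simp [hkj], rfl⟩⟩
    refine (Finset.card_le_card this).trans ?_
    exact Finset.card_biUnion_le_card_mul _ _ _ fun k' _ => Finset.card_image_le.trans (hrow k')
  have h1 : ∀ m, (ball G k (m + 1)).1.card ≤ (ball G k m).2.card * d := by
    intro m
    have : (ball G k (m + 1)).1 ⊆ (ball G k m).2.biUnion fun j =>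
        (G.filter fun e => e.2 = j).image Prod.fst := by
      intro k' hk'
      obtain ⟨j, hj, hkj⟩ := (mem_ball_succ_fst G k m k').1 hk'
      rw [Finset.mem_biUnion]
      exact ⟨j, hj, Finset.mem_image.2 ⟨(k', j), by simp [hkj], rfl⟩⟩
    refine (Finset.card_le_card this).trans ?_
    exact Finset.card_biUnion_le_card_mul _ _ _ fun j _ => Finset.card_image_le.trans (hcol j)
  induction m with
  | zero =>
    refine ⟨by simp [ball], ?_⟩
    have := h2 0
    simpa [ball] using this
  | succ m ih =>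
    have e1 := h1 m
    have e2 := h2 (m + 1)
    have e3 : (ball G k (m + 1)).1.card ≤ d ^ (2 * (m + 1)) :=
      e1.trans ((Nat.mul_le_mul_right d ih.2).trans (le_of_eq (by ring)))
    exact ⟨e3, e2.trans ((Nat.mul_le_mul_right d e3).trans (le_of_eq (by ring)))⟩

/-- Adding an edge to a column far away creates no short circulation. -/
theorem noShort_insert {s : ℕ} (hG : NoShort s G) (j : Fin n) (hj : j ∉ (ball G k s).2) :
    NoShort s (insert (k, j) G) := by
  classical
  intro b hoff hrow hcol hcard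
  by_cases hb : b k j = 0
  · refine hG b (fun k' j' h => ?_) hrow hcol hcard
    by_cases he : (k', j') = (k, j)
    · rw [Prod.ext_iff] at he
      simp only at he
      rw [he.1, he.2, hb]
    · exact hoff k' j' (by rw [Finset.mem_insert, not_or]; exact ⟨he, h⟩)
  exfalso
  have hmemG : ∀ k' j', b k' j' ≠ 0 → j' ≠ j → (k', j') ∈ G := by
    intro k' j' h1 h2
    by_contra hcon
    apply h1
    apply hoff
    rw [Finset.mem_insert, not_or]
    exact ⟨fun h => h2 (congrArg Prod.snd h), hcon⟩
  have hmemG' : ∀ k' j', b k' j' ≠ 0 → k' ≠ k → (k', j') ∈ G := by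
    intro k' j' h1 h2
    by_contra hcon
    apply h1
    apply hoff
    rw [Finset.mem_insert, not_or]
    exact ⟨fun h => h2 (congrArg Prod.fst h), hcon⟩
  -- `k` lies in all balls
  have hk : ∀ m, k ∈ (ball G k m).1 := by
    obtain ⟨j', hj', hkj'⟩ : ∃ j', j' ≠ j ∧ b k j' ≠ 0 := by
      by_contra hcon
      push Not at hcon
      have := hrow k
      rw [Finset.sum_eq_single j (fun j' _ hj' => hcon j' hj') (by simp)] at this
      exact hb this
    have hG' := hmemG k j' hkj' hj'
    intro m
    cases m with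
    | zero => simp [ball]
    | succ m =>
      rw [mem_ball_succ_fst]
      refine ⟨j', ball_mono' G k (Nat.zero_le m) ?_, hG'⟩
      rw [mem_ball_snd]
      exact ⟨k, by simp [ball], hG'⟩
  -- new columns at every level
  have hlevel : ∀ m, m ≤ s → ∃ j' ∈ (ball G k m).2, (∃ k', b k' j' ≠ 0) ∧
      ∀ m', m' < m → j' ∉ (ball G k m').2 := by
    intro m hm
    have hjm : j ∉ (ball G k m).2 := fun h => hj (ball_mono' G k hm h)
    set S := (ball G k m).1 with hS
    set U := (ball G k m).2 with hU
    -- entries of rows in `S` lie in the columns `U`, except `(k, j)`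
    have h1 : ∑ k' ∈ S, ∑ j', b k' j' = ∑ k' ∈ S, ∑ j' ∈ U, b k' j' + b k j := by
      have h2 : ∀ k' ∈ S, ∑ j', b k' j' = ∑ j' ∈ U, b k' j' + if k' = k then b k j else 0 := by
        intro k' hk'
        have h3 : ∑ j', b k' j' = ∑ j' ∈ insert j U, b k' j' := by
          symm
          apply Finset.sum_subset (Finset.subset_univ _)
          intro j' _ hj'
          rw [Finset.mem_insert, not_or] at hj'
          by_contra hne
          apply hj'.2
          rw [hU, mem_ball_snd]
          exact ⟨k', hk', hmemG k' j' hne hj'.1⟩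
        rw [h3, Finset.sum_insert hjm, add_comm]
        congr 1
        by_cases hkk : k' = k
        · rw [if_pos hkk, hkk]
        · rw [if_neg hkk]
          by_contra hne
          apply hjm
          rw [hU, mem_ball_snd]
          exact ⟨k', hk', hmemG' k' j hne hkk⟩
      rw [Finset.sum_congr rfl h2, Finset.sum_add_distrib, Finset.sum_ite_eq' S k, if_pos (hk m)]
    rw [Finset.sum_eq_zero (fun k' _ => hrow k')] at h1
    have h4 : ∑ j' ∈ U, ∑ k', b k' j' = 0 := Finset.sum_eq_zero (fun j' _ => hcol j')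
    rw [Finset.sum_comm] at h4
    rw [← Finset.sum_sdiff (Finset.subset_univ S)] at h4
    have h5 : ∑ k' ∈ univ \ S, ∑ j' ∈ U, b k' j' ≠ 0 := by
      intro h6
      rw [h6, zero_add] at h4
      rw [h4] at h1
      exact hb (by linarith)
    obtain ⟨k', hk', h6⟩ := Finset.exists_ne_zero_of_sum_ne_zero h5
    obtain ⟨j', hj', h7⟩ := Finset.exists_ne_zero_of_sum_ne_zero h6
    refine ⟨j', hj', ⟨k', h7⟩, fun m' hm' hmem => ?_⟩
    have hj'j : j' ≠ j := fun h => hjm (h ▸ hj')
    have hGm := hmemG k' j' h7 hj'j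
    rw [Finset.mem_sdiff] at hk'
    apply hk'.2
    obtain ⟨m'', rfl⟩ : ∃ m'', m = m'' + 1 := ⟨m - 1, by omega⟩
    rw [hS, mem_ball_succ_fst]
    exact ⟨j', ball_mono' G k (by omega : m' ≤ m'') hmem, hGm⟩
  have : Nonempty (Fin n) := ⟨j⟩
  choose! c hc1 hc2 hc3 using hlevel
  have hsub : (Finset.range (s + 1)).image c ∪ {j} ⊆ univ.filter fun j => ∃ k, b k j ≠ 0 := by
    intro x hx
    rw [Finset.mem_union, Finset.mem_image, Finset.mem_singleton] at hx
    rw [Finset.mem_filter]
    refine ⟨Finset.mem_univ _, ?_⟩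
    rcases hx with ⟨m, hm, rfl⟩ | rfl
    · exact hc2 m (by rw [Finset.mem_range] at hm; omega)
    · exact ⟨k, hb⟩
  have hcardc : ((Finset.range (s + 1)).image c).card = s + 1 := by
    rw [Finset.card_image_of_injOn, Finset.card_range]
    intro m hm m' hm' heq
    rw [Finset.mem_coe, Finset.mem_range] at hm hm'
    rcases lt_trichotomy m m' with h | h | h
    · exfalso
      apply hc3 m' (by omega) m h
      rw [← heq]
      exact hc1 m (by omega)
    · exact h
    · exfalso
      apply hc3 m (by omega) m' h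
      rw [heq]
      exact hc1 m' (by omega)
  have hdis : Disjoint ((Finset.range (s + 1)).image c) {j} := by
    rw [Finset.disjoint_singleton_right, Finset.mem_image]
    rintro ⟨m, hm, rfl⟩
    rw [Finset.mem_range] at hm
    exact hj (ball_mono' G k (by omega : m ≤ s) (hc1 m (by omega)))
  have h8 := Finset.card_le_card hsub
  rw [Finset.card_union_of_disjoint hdis, hcardc, Finset.card_singleton] at h8
  have : (univ.filter fun j => ∃ k, b k j ≠ 0).card ≤ s + 1 := by convert hcard
  omega

end Greedy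

/-- Greedy graphs: degrees at most `d`, no short circulations, and many edges. -/
theorem exists_greedy (n s d : ℕ) :
    ∃ G : Finset (Fin n × Fin n), NoShort s G ∧ d * (n - d ^ (2 * s + 1)) ≤ G.card := by
  classical
  by_cases hdn : n < d
  · -- trivial
    refine ⟨∅, ?_, ?_⟩
    · intro b hoff _ _ _
      funext k j
      exact hoff k j (by simp)
    · have h1 : d ^ 1 ≤ d ^ (2 * s + 1) := Nat.pow_le_pow_right (by omega) (by omega)
      rw [pow_one] at h1
      have : n - d ^ (2 * s + 1) = 0 := by omega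
      rw [this]; simp
  rw [not_lt] at hdn
  let good : Finset (Finset (Fin n × Fin n)) := univ.filter fun G => NoShort s G ∧
    (∀ k, (G.filter fun e => e.1 = k).card ≤ d) ∧ (∀ j, (G.filter fun e => e.2 = j).card ≤ d)
  have hne : good.Nonempty := by
    refine ⟨∅, ?_⟩
    simp only [good, Finset.mem_filter, Finset.mem_univ, true_and]
    refine ⟨?_, by simp, by simp⟩
    intro b hoff _ _ _
    funext k j
    exact hoff k j (by simp)
  obtain ⟨G, hG, hmax⟩ := Finset.exists_max_image good Finset.card hne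
  simp only [good, Finset.mem_filter, Finset.mem_univ, true_and] at hG
  obtain ⟨hG1, hrow, hcol⟩ := hG
  refine ⟨G, hG1, ?_⟩
  have hsumcol : G.card = ∑ j : Fin n, (G.filter fun e => e.2 = j).card :=
    Finset.card_eq_sum_card_fiberwise (fun e _ => by simp)
  have hsumrow : G.card = ∑ k : Fin n, (G.filter fun e => e.1 = k).card :=
    Finset.card_eq_sum_card_fiberwise (fun e _ => by simp)
  by_cases hfull : ∀ k, d ≤ (G.filter fun e => e.1 = k).card
  · rw [hsumrow]
    calc d * (n - d ^ (2 * s + 1)) ≤ d * n := Nat.mul_le_mul_left _ (Nat.sub_le _ _)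
      _ = ∑ _k : Fin n, d := by simp [mul_comm]
      _ ≤ _ := Finset.sum_le_sum fun k _ => hfull k
  push Not at hfull
  obtain ⟨k, hk⟩ := hfull
  -- columns of small degree lie in the ball
  have hball : (univ.filter fun j => (G.filter fun e => e.2 = j).card < d) ⊆ (ball G k s).2 := by
    intro j hj
    rw [Finset.mem_filter] at hj
    by_contra hcon
    have hnot : (k, j) ∉ G := by
      intro hmem
      apply hcon
      apply ball_mono' G k (Nat.zero_le s)
      rw [mem_ball_snd]
      exact ⟨k, by simp [ball], hmem⟩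
    have hins : insert (k, j) G ∈ good := by
      simp only [good, Finset.mem_filter, Finset.mem_univ, true_and]
      refine ⟨noShort_insert G k hG1 j hcon, fun k' => ?_, fun j' => ?_⟩
      · rw [Finset.filter_insert]
        split_ifs with h
        · simp only at h
          subst h
          exact (Finset.card_insert_le _ _).trans hk
        · exact hrow k'
      · rw [Finset.filter_insert]
        split_ifs with h
        · simp only at h
          subst h
          exact (Finset.card_insert_le _ _).trans hj.2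
        · exact hcol j'
    have := hmax _ hins
    rw [Finset.card_insert_of_notMem hnot] at this
    omega
  have hcardball := (Finset.card_le_card hball).trans (ball_card G k hrow hcol s).2
  have hcompl : n - d ^ (2 * s + 1) ≤ (univ.filter fun j : Fin n =>
      ¬ (G.filter fun e => e.2 = j).card < d).card := by
    have h1 := Finset.card_filter_add_card_filter_not (s := (univ : Finset (Fin n)))
      (fun j => (G.filter fun e => e.2 = j).card < d)
    rw [Finset.card_univ, Fintype.card_fin] at h1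
    omega
  rw [hsumcol]
  calc d * (n - d ^ (2 * s + 1)) ≤ d * (univ.filter fun j : Fin n =>
        ¬ (G.filter fun e => e.2 = j).card < d).card := Nat.mul_le_mul_left _ hcompl
    _ = ∑ _j ∈ univ.filter (fun j : Fin n => ¬ (G.filter fun e => e.2 = j).card < d), d := by
      simp [mul_comm]
    _ ≤ ∑ j ∈ univ.filter (fun j : Fin n => ¬ (G.filter fun e => e.2 = j).card < d),
        (G.filter fun e => e.2 = j).card := by
      apply Finset.sum_le_sum
      intro j hj
      rw [Finset.mem_filter] at hj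
      omega
    _ ≤ ∑ j : Fin n, (G.filter fun e => e.2 = j).card :=
      Finset.sum_le_sum_of_subset (Finset.filter_subset _ _)

end Pool.Agent.H98.Sparse
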