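import Pool.Agent.H98.SparseDefs

/-!
# The adversary argument for sparse linear decision trees
-/

namespace Pool.Agent.H98.Sparse

open Finset Filter Topology

variable {n : ℕ}

/-! ### Signs of germs -/

theorem sameSign_of_near {α : ℝ} (hα : α ≠ 0) {f : ℝ → ℝ} (hf : Continuous f) (h0 : f 0 = α) :
    ∀ᶠ δ : ℝ in 𝓝[>] 0, SameSign α (f δ) := by
  rcases lt_or_gt_of_ne hα with h | h
  · have : ∀ᶠ δ : ℝ in 𝓝 0, f δ < 0 := by
      refine hf.continuousAt.eventually (gt_mem_nhds ?_)
      rw [h0]; exact h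
    filter_upwards [nhdsWithin_le_nhds this] with δ hδ
    exact ⟨⟨fun _ => hδ, fun _ => h⟩, ⟨fun h' => absurd h' hα, fun h' => absurd h' hδ.ne⟩⟩
  · have : ∀ᶠ δ : ℝ in 𝓝 0, 0 < f δ := by
      refine hf.continuousAt.eventually (lt_mem_nhds ?_)
      rw [h0]; exact h
    filter_upwards [nhdsWithin_le_nhds this] with δ hδ
    exact ⟨⟨fun h' => absurd h' (not_lt.2 h.le), fun h' => absurd h' (not_lt.2 hδ.le)⟩,
      ⟨fun h' => absurd h' hα, fun h' => absurd h' hδ.ne'⟩⟩

theorem SameSign.mul_pos {x y c : ℝ} (h : SameSign x y) (hc : 0 < c) : SameSign x (c * y) := by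
  constructor
  · rw [h.1]
    constructor
    · intro h1; exact mul_neg_of_pos_of_neg hc h1
    · intro h1; exact neg_of_mul_neg_right h1 hc.le
  · rw [h.2]
    constructor
    · intro h1; rw [h1, mul_zero]
    · intro h1; exact (mul_eq_zero.1 h1).resolve_left hc.ne'

theorem SameSign.symm {x y : ℝ} (h : SameSign x y) : SameSign y x := ⟨h.1.symm, h.2.symm⟩

theorem SameSign.trans {x y z : ℝ} (h : SameSign x y) (h' : SameSign y z) : SameSign x z :=
  ⟨h.1.trans h'.1, h.2.trans h'.2⟩

theorem SameSign.refl (x : ℝ) : SameSign x x := ⟨Iff.rfl, Iff.rfl⟩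

/-- The leading coefficient of `α + δ β + δ² γ`. -/
noncomputable def lead (α β γ : ℝ) : ℝ := if α ≠ 0 then α else if β ≠ 0 then β else γ

theorem lead_sign (α β γ : ℝ) : ∀ᶠ δ : ℝ in 𝓝[>] 0, SameSign (lead α β γ) (α + δ * β + δ ^ 2 * γ) := by
  have hpos : ∀ᶠ r : ℝ in 𝓝[>] 0, 0 < r := self_mem_nhdsWithin
  unfold lead
  split_ifs with h1 h2
  · exact sameSign_of_near h1 (by fun_prop) (by simp)
  · rw [not_not] at h1
    have h3 : ∀ᶠ δ : ℝ in 𝓝[>] 0, SameSign β (β + δ * γ) :=
      sameSign_of_near h2 (by fun_prop) (by simp)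
    filter_upwards [h3, hpos] with δ h4 h5
    have := h4.mul_pos h5
    rw [h1]
    convert this using 1
    ring
  · rw [not_not] at h1 h2
    filter_upwards [hpos] with δ h5
    have := (SameSign.refl γ).mul_pos (pow_pos h5 2)
    rw [h1, h2]
    convert this using 1
    ring

/-! ### Linear parts -/

/-- The linear part. -/
def AffForm.lin (q : AffForm n) (A B : Fin n → Fin n → ℝ) : ℝ :=
  (∑ i, ∑ k, q.a i k * A i k) + (∑ k, ∑ j, q.b k j * B k j)

theorem AffForm.lin_comb (q : AffForm n) (A B A' B' A'' B'' : Fin n → Fin n → ℝ) (x y : ℝ) :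
    q.lin (fun i k => A i k + x * A' i k + y * A'' i k) (fun k j => B k j + x * B' k j + y * B'' k j)
      = q.lin A B + x * q.lin A' B' + y * q.lin A'' B'' := by
  unfold AffForm.lin
  simp only [mul_add, Finset.sum_add_distrib, Finset.mul_sum]
  simp only [mul_left_comm _ x, mul_left_comm _ y]
  ring

theorem AffForm.lin_comb' (q : AffForm n) (A B A' B' : Fin n → Fin n → ℝ) (x : ℝ) :
    q.lin (fun i k => A i k + x * A' i k) (fun k j => B k j + x * B' k j)
      = q.lin A B + x * q.lin A' B' := by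
  have := q.lin_comb A B A' B' 0 0 x 0
  simpa using this

/-- The parameters of the degenerate inputs. -/
abbrev Par (n : ℕ) : Type := (Fin n → ℝ) × (Fin n → ℝ) × (Fin n → ℝ) × (Fin n → Fin n → ℝ)

/-- The matrix `A` of a degenerate input. -/
def UA (v : Par n) (i k : Fin n) : ℝ := v.1 i + v.2.1 k

open Classical in
/-- The matrix `B` of a degenerate input. -/
noncomputable def UB (G : Finset (Fin n × Fin n)) (v : Par n) (k j : Fin n) : ℝ :=
  v.2.2.1 j - v.2.1 k + (if (k, j) ∈ G then 0 else v.2.2.2 k j)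

/-- A query as a linear functional of the parameters. -/
noncomputable def phi (G : Finset (Fin n × Fin n)) (q : AffForm n) : Par n →ₗ[ℝ] ℝ where
  toFun v := q.lin (UA v) (UB G v)
  map_add' v w := by
    have h1 : UA (v + w) = fun i k => UA v i k + 1 * UA w i k := by
      funext i k; simp only [UA, Prod.fst_add, Prod.snd_add, Pi.add_apply]; ring
    have h2 : UB G (v + w) = fun k j => UB G v k j + 1 * UB G w k j := by
      funext k j; simp only [UB, Prod.fst_add, Prod.snd_add, Pi.add_apply]; split_ifs <;> ring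
    rw [h1, h2, q.lin_comb']; ring
  map_smul' c v := by
    have h1 : UA (c • v) = fun i k => 0 * UA v i k + c * UA v i k := by
      funext i k
      simp only [UA, Prod.smul_fst, Prod.smul_snd, Pi.smul_apply, smul_eq_mul]; ring
    have h2 : UB G (c • v) = fun k j => 0 * UB G v k j + c * UB G v k j := by
      funext k j
      simp only [UB, Prod.smul_fst, Prod.smul_snd, Pi.smul_apply, smul_eq_mul]
      split_ifs <;> ring
    rw [h1, h2, q.lin_comb' (fun i k => 0 * UA v i k) (fun k j => 0 * UB G v k j)]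
    have h3 : q.lin (fun i k => 0 * UA v i k) (fun k j => 0 * UB G v k j) = 0 := by
      unfold AffForm.lin; simp
    rw [h3]; simp

/-- The parameters of the base point. -/
noncomputable def par0 (n : ℕ) : Par n :=
  (fun _ => 1 / 2, fun _ => 0, fun _ => 1 / 4, fun _ _ => 1 / 2)

/-- First matrix of the input. -/
noncomputable def XA (v : Par n) (yA : Fin n → Fin n → ℝ) (δ : ℝ) (i k : Fin n) : ℝ :=
  UA (par0 n) i k + δ * UA v i k + δ ^ 2 * yA i k

/-- Second matrix of the input. -/
noncomputable def XB (G : Finset (Fin n × Fin n)) (v : Par n) (yB : Fin n → Fin n → ℝ) (δ : ℝ)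
    (k j : Fin n) : ℝ := UB G (par0 n) k j + δ * UB G v k j + δ ^ 2 * yB k j

theorem eval_X (G : Finset (Fin n × Fin n)) (v : Par n) (yA yB : Fin n → Fin n → ℝ) (δ : ℝ)
    (q : AffForm n) : q.eval (XA v yA δ) (XB G v yB δ) =
      (phi G q (par0 n) + q.c) + δ * phi G q v + δ ^ 2 * q.lin yA yB := by
  have h1 : q.eval (XA v yA δ) (XB G v yB δ) = q.lin (XA v yA δ) (XB G v yB δ) + q.c := rfl
  have h2 := q.lin_comb (UA (par0 n)) (UB G (par0 n)) (UA v) (UB G v) yA yB δ (δ ^ 2)
  rw [h1]
  have h3 : q.lin (XA v yA δ) (XB G v yB δ) = _ := h2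
  rw [h3]
  change q.lin (UA (par0 n)) (UB G (par0 n)) + δ * q.lin (UA v) (UB G v) + δ ^ 2 * q.lin yA yB + q.c
    = (q.lin (UA (par0 n)) (UB G (par0 n)) + q.c) + δ * q.lin (UA v) (UB G v) + δ ^ 2 * q.lin yA yB
  ring

/-- The sign of a query near the base point in the direction `(yA, yB)`. -/
noncomputable def germ (G : Finset (Fin n × Fin n)) (v : Par n) (yA yB : Fin n → Fin n → ℝ)
    (q : AffForm n) : ℝ := lead (phi G q (par0 n) + q.c) (phi G q v) (q.lin yA yB)

theorem germ_sign (G : Finset (Fin n × Fin n)) (v : Par n) (yA yB : Fin n → Fin n → ℝ)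
    (q : AffForm n) : ∀ᶠ δ : ℝ in 𝓝[>] 0,
      SameSign (germ G v yA yB q) (q.eval (XA v yA δ) (XB G v yB δ)) := by
  filter_upwards [lead_sign (phi G q (par0 n) + q.c) (phi G q v) (q.lin yA yB)] with δ hδ
  rw [eval_X]
  exact hδ

/-- Near the base point the run of the tree is given by the germs. -/
theorem run_germ (G : Finset (Fin n × Fin n)) (v : Par n) (yA yB : Fin n → Fin n → ℝ)
    (T : DTree n) : ∀ᶠ δ : ℝ in 𝓝[>] 0,
      T.reach (fun q => q.eval (XA v yA δ) (XB G v yB δ)) = T.reach (germ G v yA yB) ∧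
      T.asked (fun q => q.eval (XA v yA δ) (XB G v yB δ)) = T.asked (germ G v yA yB) := by
  have hfin : {q | q ∈ T.asked (germ G v yA yB)}.Finite := List.finite_toSet _
  have h : ∀ᶠ δ : ℝ in 𝓝[>] 0, ∀ q ∈ {q | q ∈ T.asked (germ G v yA yB)},
      SameSign (germ G v yA yB q) (q.eval (XA v yA δ) (XB G v yB δ)) :=
    (Filter.eventually_all_finite hfin).2 (fun q _ => germ_sign G v yA yB q)
  filter_upwards [h] with δ hδ
  exact T.congr _ _ (fun q hq => hδ q hq)

end Pool.Agent.H98.Sparse
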