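import Pool.Agent.H98.SparseMain

/-!
# The adversary argument for sparse linear decision trees, continued
-/

namespace Pool.Agent.H98.Sparse

open Finset Filter Topology

variable {n : ℕ}

/-! ### Balanced queries -/

theorem bal_row {G : Finset (Fin n × Fin n)} {q : AffForm n} (h : phi G q = 0) (i : Fin n) :
    ∑ k, q.a i k = 0 := by
  have h1 : phi G q (Pi.single i 1, 0, 0, 0) = 0 := by rw [h]; rfl
  change q.lin (UA _) (UB G _) = 0 at h1
  unfold AffForm.lin at h1
  have h2 : ∀ k j, UB G ((Pi.single i 1, 0, 0, 0) : Par n) k j = 0 := by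
    intro k j; simp [UB]
  have h3 : ∀ i' k, UA ((Pi.single i 1, 0, 0, 0) : Par n) i' k = if i' = i then 1 else 0 := by
    intro i' k; simp [UA, Pi.single_apply]
  simp only [h2, h3, mul_zero, Finset.sum_const_zero, add_zero, mul_ite, mul_one] at h1
  rw [Finset.sum_eq_single i] at h1
  · simpa using h1
  · intro i' _ hi'; simp [hi']
  · simp

theorem bal_col {G : Finset (Fin n × Fin n)} {q : AffForm n} (h : phi G q = 0) (j : Fin n) :
    ∑ k, q.b k j = 0 := by
  have h1 : phi G q (0, 0, Pi.single j 1, 0) = 0 := by rw [h]; rfl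
  change q.lin (UA _) (UB G _) = 0 at h1
  unfold AffForm.lin at h1
  have h2 : ∀ k j', UB G ((0, 0, Pi.single j 1, 0) : Par n) k j' = if j' = j then 1 else 0 := by
    intro k j'; simp [UB, Pi.single_apply]
  have h3 : ∀ i' k, UA ((0, 0, Pi.single j 1, 0) : Par n) i' k = 0 := by
    intro i' k; simp [UA]
  simp only [h2, h3, mul_zero, Finset.sum_const_zero, zero_add, mul_ite, mul_one,
    Finset.sum_ite_eq', Finset.mem_univ, if_true] at h1
  exact h1

theorem bal_mid {G : Finset (Fin n × Fin n)} {q : AffForm n} (h : phi G q = 0) (k : Fin n) :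
    ∑ i, q.a i k = ∑ j, q.b k j := by
  have h1 : phi G q (0, Pi.single k 1, 0, 0) = 0 := by rw [h]; rfl
  change q.lin (UA _) (UB G _) = 0 at h1
  unfold AffForm.lin at h1
  have h2 : ∀ k' j', UB G ((0, Pi.single k 1, 0, 0) : Par n) k' j' = if k' = k then -1 else 0 := by
    intro k' j'; simp only [UB, Pi.single_apply, Pi.zero_apply]; split_ifs <;> simp
  have h3 : ∀ i' k', UA ((0, Pi.single k 1, 0, 0) : Par n) i' k' = if k' = k then 1 else 0 := by
    intro i' k'; simp [UA, Pi.single_apply]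
  simp only [h2, h3, mul_zero, mul_ite, mul_one, Finset.sum_ite_eq', Finset.mem_univ,
    if_true] at h1
  have h4 : ∑ k', ∑ j, (if k' = k then q.b k' j * -1 else 0) = - ∑ j, q.b k j := by
    rw [Finset.sum_eq_single k]
    · simp
    · intro k' _ hk'; simp [hk']
    · simp
  rw [h4] at h1
  linarith

theorem bal_off {G : Finset (Fin n × Fin n)} {q : AffForm n} (h : phi G q = 0) (k j : Fin n)
    (hkj : (k, j) ∉ G) : q.b k j = 0 := by
  have h1 : phi G q (0, 0, 0, fun k' j' => if k' = k ∧ j' = j then 1 else 0) = 0 := by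
    rw [h]; rfl
  change q.lin (UA _) (UB G _) = 0 at h1
  unfold AffForm.lin at h1
  have h2 : ∀ k' j', UB G ((0, 0, 0, fun k' j' => if k' = k ∧ j' = j then 1 else 0) : Par n) k' j' =
      if k' = k ∧ j' = j then 1 else 0 := by
    intro k' j'
    simp only [UB, Pi.zero_apply, sub_zero, zero_add]
    by_cases h5 : k' = k ∧ j' = j
    · rw [h5.1, h5.2, if_neg hkj]
    · rw [if_neg h5]; simp
  have h3 : ∀ i' k', UA ((0, 0, 0, fun k' j' => if k' = k ∧ j' = j then 1 else 0) : Par n) i' k' = 0 := by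
    intro i' k'; simp [UA]
  simp only [h2, h3, mul_zero, Finset.sum_const_zero, zero_add, mul_ite, mul_one] at h1
  rw [Finset.sum_eq_single k, Finset.sum_eq_single j] at h1
  · simpa using h1
  · intro j' _ hj'; simp [hj']
  · simp
  · intro k' _ hk'; simp [hk']
  · simp

/-- The `A`-part of an allowed balanced query lies in one row. -/
theorem exists_row {s : ℕ} {G : Finset (Fin n × Fin n)} {q : AffForm n} (h : phi G q = 0)
    (hq : q.Allowed s) : ∃ i, ∀ i', i' ≠ i → ∀ k, q.a i' k = 0 := by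
  obtain ⟨⟨i, h1⟩, _⟩ := hq
  refine ⟨i, fun i' hi' k => ?_⟩
  by_contra hne
  have h2 := bal_row h i'
  rw [Finset.sum_eq_single k (fun k' _ hk' => by
    by_contra hne'
    exact hk' (h1 i' hi' k' k hne' hne)) (by simp)] at h2
  exact hne h2

/-- A balanced allowed query not involving `A` is trivial. -/
theorem b_eq_zero {s : ℕ} {G : Finset (Fin n × Fin n)} (hG : NoShort s G) {q : AffForm n}
    (h : phi G q = 0) (hq : q.Allowed s) (ha : q.a = 0) : q.b = 0 := by
  classical
  obtain ⟨j, S, hS, h2⟩ := hq.2 ha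
  refine hG q.b (fun k j hkj => bal_off h k j hkj) (fun k => ?_) (fun j => bal_col h j) ?_
  · rw [← bal_mid h k]
    simp [ha]
  · have key : ∀ j' ∈ (univ.filter fun j' => ∃ k, q.b k j' ≠ 0).erase j, ∃ p ∈ S, p.2 = j' := by
      intro j' hj'
      rw [Finset.mem_erase, Finset.mem_filter] at hj'
      obtain ⟨hne, -, k, hk⟩ := hj'
      have h3 : ∃ k', k' ≠ k ∧ q.b k' j' ≠ 0 := by
        by_contra hcon
        push Not at hcon
        have h4 := bal_col h j'
        rw [Finset.sum_eq_single k (fun k' _ hk' => hcon k' hk') (by simp)] at h4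
        exact hk h4
      obtain ⟨k', hk', hk'2⟩ := h3
      by_contra hcon
      push Not at hcon
      exact hk' (h2 j' hne k' k (fun hm => hcon _ hm rfl) (fun hm => hcon _ hm rfl) hk'2 hk)
    have h3 : (univ.filter fun j' => ∃ k, q.b k j' ≠ 0).erase j ⊆ S.image Prod.snd := by
      intro j' hj'
      obtain ⟨p, hp, rfl⟩ := key j' hj'
      exact Finset.mem_image_of_mem _ hp
    have h4 := (Finset.card_le_card h3).trans (Finset.card_image_le.trans hS)
    have h5 := Finset.pred_card_le_card_erase (s := univ.filter fun j' => ∃ k, q.b k j' ≠ 0) (a := j)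
    have h6 : (univ.filter fun j' => ∃ k, q.b k j' ≠ 0).card ≤ s + 1 := by omega
    convert h6

/-! ### Values of the product near the base point -/

theorem X_mem (G : Finset (Fin n × Fin n)) (v : Par n) (yA yB : Fin n → Fin n → ℝ) :
    ∀ᶠ δ : ℝ in 𝓝[>] 0, (∀ i k, 0 < XA v yA δ i k ∧ XA v yA δ i k < 1) ∧
      (∀ k j, 0 < XB G v yB δ k j ∧ XB G v yB δ k j < 1) := by
  have key : ∀ (f : ℝ → ℝ), Continuous f → 0 < f 0 → f 0 < 1 →
      ∀ᶠ δ : ℝ in 𝓝[>] 0, 0 < f δ ∧ f δ < 1 := by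
    intro f hf h1 h2
    have e1 : ∀ᶠ δ : ℝ in 𝓝 0, 0 < f δ := hf.continuousAt.eventually (lt_mem_nhds h1)
    have e2 : ∀ᶠ δ : ℝ in 𝓝 0, f δ < 1 := hf.continuousAt.eventually (gt_mem_nhds h2)
    filter_upwards [nhdsWithin_le_nhds e1, nhdsWithin_le_nhds e2] with δ a b
    exact ⟨a, b⟩
  refine Filter.Eventually.and ?_ ?_
  · rw [Filter.eventually_all]
    intro i
    rw [Filter.eventually_all]
    intro k
    apply key
    · unfold XA; fun_prop
    · simp [XA, UA, par0]
    · simp only [XA, UA, par0]; norm_num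
  · rw [Filter.eventually_all]
    intro k
    rw [Filter.eventually_all]
    intro j
    apply key
    · unfold XB; fun_prop
    · simp only [XB, UB, par0]; split_ifs <;> norm_num
    · simp only [XB, UB, par0]; split_ifs <;> norm_num

theorem X_sum (G : Finset (Fin n × Fin n)) (v : Par n) (yA yB : Fin n → Fin n → ℝ) (δ : ℝ)
    (i k j : Fin n) (h : (k, j) ∈ G) : XA v yA δ i k + XB G v yB δ k j =
      3 / 4 + δ * (v.1 i + v.2.2.1 j) + δ ^ 2 * (yA i k + yB k j) := by
  simp only [XA, XB, UA, UB, par0, if_pos h]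
  ring

theorem X_sum' (G : Finset (Fin n × Fin n)) (v : Par n) (yA yB : Fin n → Fin n → ℝ) (δ : ℝ)
    (i k j : Fin n) (h : (k, j) ∉ G) : XA v yA δ i k + XB G v yB δ k j =
      5 / 4 + δ * (v.1 i + v.2.2.1 j + v.2.2.2 k j) + δ ^ 2 * (yA i k + yB k j) := by
  simp only [XA, XB, UA, UB, par0, if_neg h]
  ring

theorem minPlus_le (A B : Fin n → Fin n → ℝ) (i j k : Fin n) : minPlus A B i j ≤ A i k + B k j :=
  ciInf_le (Set.finite_range _).bddBelow k

theorem minPlus_value (G : Finset (Fin n × Fin n)) (v : Par n) (yA yB : Fin n → Fin n → ℝ)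
    (i j k₀ : Fin n) (hk₀ : (k₀, j) ∈ G)
    (hmin : ∀ k, (k, j) ∈ G → yA i k₀ + yB k₀ j ≤ yA i k + yB k j) :
    ∀ᶠ δ : ℝ in 𝓝[>] 0, minPlus (XA v yA δ) (XB G v yB δ) i j =
      3 / 4 + δ * (v.1 i + v.2.2.1 j) + δ ^ 2 * (yA i k₀ + yB k₀ j) := by
  have h1 : ∀ᶠ δ : ℝ in 𝓝[>] 0, ∀ k, 3 / 4 + δ * (v.1 i + v.2.2.1 j) +
      δ ^ 2 * (yA i k₀ + yB k₀ j) ≤ XA v yA δ i k + XB G v yB δ k j := by
    rw [Filter.eventually_all]
    intro k
    by_cases hk : (k, j) ∈ G
    · filter_upwards with δ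
      rw [X_sum G v yA yB δ i k j hk]
      have := mul_le_mul_of_nonneg_left (hmin k hk) (sq_nonneg δ)
      linarith
    · have hc : Continuous fun δ : ℝ => (5 / 4 + δ * (v.1 i + v.2.2.1 j + v.2.2.2 k j) +
          δ ^ 2 * (yA i k + yB k j)) - (3 / 4 + δ * (v.1 i + v.2.2.1 j) +
          δ ^ 2 * (yA i k₀ + yB k₀ j)) := by fun_prop
      have h0 : ∀ᶠ δ : ℝ in 𝓝 0, 0 < (5 / 4 + δ * (v.1 i + v.2.2.1 j + v.2.2.2 k j) +
          δ ^ 2 * (yA i k + yB k j)) - (3 / 4 + δ * (v.1 i + v.2.2.1 j) +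
          δ ^ 2 * (yA i k₀ + yB k₀ j)) := by
        refine hc.continuousAt.eventually (lt_mem_nhds ?_)
        norm_num
      filter_upwards [nhdsWithin_le_nhds h0] with δ hδ
      rw [X_sum' G v yA yB δ i k j hk]
      linarith
  filter_upwards [h1] with δ hδ
  apply le_antisymm
  · rw [← X_sum G v yA yB δ i k₀ j hk₀]
    exact minPlus_le _ _ i j k₀
  · have : Nonempty (Fin n) := ⟨k₀⟩
    exact le_ciInf hδ

/-! ### The direction `h` -/

/-- The value of the `A`-part on `h`. -/
def P (h : Fin n → ℝ) (q : AffForm n) : ℝ := ∑ i, ∑ k, q.a i k * h k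

theorem lin_h {G : Finset (Fin n × Fin n)} {q : AffForm n} (hq : phi G q = 0) (h : Fin n → ℝ) :
    q.lin (fun _ k => h k) (fun k _ => h k) = 2 * P h q := by
  unfold AffForm.lin P
  have h1 : ∑ k, ∑ j, q.b k j * h k = ∑ i, ∑ k, q.a i k * h k := by
    rw [Finset.sum_comm (f := fun i k => q.a i k * h k)]
    apply Finset.sum_congr rfl
    intro k _
    rw [← Finset.sum_mul, ← Finset.sum_mul, bal_mid hq k]
  rw [h1]; ring

/-- Genericity of the parameters for a tree. -/
structure Gen (G : Finset (Fin n × Fin n)) (v : Par n) (h : Fin n → ℝ) (T : DTree n) : Prop where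
  v : ∀ q ∈ T.queries, phi G q v = 0 → phi G q = 0
  h : ∀ q ∈ T.queries, P h q = 0 → ∀ k, ∑ i, q.a i k = 0

end Pool.Agent.H98.Sparse
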