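import Pool.Agent.H98.SparseMain2

/-!
# The adversary argument for sparse linear decision trees: the count
-/

namespace Pool.Agent.H98.Sparse

open Finset Filter Topology

variable {n : ℕ}

/-- The `A`-part lies in row `i`. -/
def RowOnly (i : Fin n) (q : AffForm n) : Prop := ∀ i', i' ≠ i → ∀ k, q.a i' k = 0

/-- The query vanishes to second order at the base point. -/
def Deg (G : Finset (Fin n × Fin n)) (v : Par n) (q : AffForm n) : Prop :=
  phi G q (par0 n) + q.c = 0 ∧ phi G q v = 0

theorem Deg.germ {G : Finset (Fin n × Fin n)} {v : Par n} {q : AffForm n} (h : Deg G v q)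
    (yA yB : Fin n → Fin n → ℝ) : germ G v yA yB q = q.lin yA yB := by
  unfold Sparse.germ lead
  rw [if_neg (not_not.2 h.1), if_neg (not_not.2 h.2)]

theorem germ_of_not_deg {G : Finset (Fin n × Fin n)} {v : Par n} {q : AffForm n} (h : ¬ Deg G v q)
    (yA yB yA' yB' : Fin n → Fin n → ℝ) : germ G v yA yB q = germ G v yA' yB' q := by
  unfold Deg at h
  unfold Sparse.germ lead
  split_ifs with h1 h2
  · rfl
  · rfl
  · exact absurd ⟨not_not.1 h1, not_not.1 h2⟩ h

theorem P_row {i : Fin n} {q : AffForm n} (h : RowOnly i q) (w : Fin n → ℝ) :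
    P w q = ∑ k, q.a i k * w k := by
  unfold P
  rw [Finset.sum_eq_single i]
  · intro i' _ hi'
    apply Finset.sum_eq_zero
    intro k _
    rw [h i' hi' k, zero_mul]
  · simp

open Classical in
/-- The degenerate queries asked in direction `h` whose `A`-part lies in row `i`. -/
noncomputable def CQ (G : Finset (Fin n × Fin n)) (v : Par n) (h : Fin n → ℝ) (T : DTree n)
    (i : Fin n) : Finset (AffForm n) :=
  (T.asked (germ G v (fun _ k => h k) (fun k _ => h k))).toFinset.filter
    (fun q => q.a ≠ 0 ∧ Deg G v q ∧ RowOnly i q)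

theorem mem_CQ {G : Finset (Fin n × Fin n)} {v : Par n} {h : Fin n → ℝ} {T : DTree n} {i : Fin n}
    {q : AffForm n} : q ∈ CQ G v h T i ↔
      q ∈ T.asked (germ G v (fun _ k => h k) (fun k _ => h k)) ∧ q.a ≠ 0 ∧ Deg G v q ∧ RowOnly i q := by
  classical
  unfold CQ
  rw [Finset.mem_filter, List.mem_toFinset]

/-- The core of the adversary argument: for every row there are many queries. -/
theorem core {s : ℕ} {G : Finset (Fin n × Fin n)} (hG : NoShort s G) {v : Par n} {h : Fin n → ℝ}
    (hinj : Function.Injective h) {T : DTree n} (hT : T.Allowed s) (hC : T.Correct)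
    (hgen : Gen G v h T) (i : Fin n) : G.card ≤ (CQ G v h T i).card + n := by
  classical
  -- minimal elements of the columns
  have hk₀ : ∀ j : Fin n, ∃ k₀ : Fin n, ∀ k, (k, j) ∈ G → (k₀, j) ∈ G ∧ h k₀ ≤ h k := by
    intro j
    by_cases hne : ∃ k, (k, j) ∈ G
    · obtain ⟨k₁, hk₁⟩ := hne
      obtain ⟨k₀, h1, h2⟩ := Finset.exists_min_image (univ.filter fun k => (k, j) ∈ G) h
        ⟨k₁, by simp [hk₁]⟩
      refine ⟨k₀, fun k hk => ⟨?_, h2 k (by simp [hk])⟩⟩
      simpa using h1
    · exact ⟨i, fun k hk => absurd ⟨k, hk⟩ hne⟩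
  choose k₀ hk₀ using hk₀
  set G' := G.filter (fun p => p.1 ≠ k₀ p.2) with hG'
  have hcardG : G.card ≤ G'.card + n := by
    have h1 : G ⊆ G' ∪ univ.image (fun j => (k₀ j, j)) := by
      intro p hp
      rw [Finset.mem_union]
      by_cases hp2 : p.1 = k₀ p.2
      · right
        rw [Finset.mem_image]
        exact ⟨p.2, Finset.mem_univ _, Prod.ext hp2.symm rfl⟩
      · left
        rw [hG', Finset.mem_filter]
        exact ⟨hp, hp2⟩
    calc G.card ≤ (G' ∪ univ.image (fun j => (k₀ j, j))).card := Finset.card_le_card h1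
      _ ≤ G'.card + (univ.image (fun j : Fin n => (k₀ j, j))).card := Finset.card_union_le _ _
      _ ≤ G'.card + n := by
        refine Nat.add_le_add_left ?_ _
        exact Finset.card_image_le.trans (by simp)
  refine hcardG.trans (Nat.add_le_add_right ?_ n)
  -- the linear map
  let ext : (G' → ℝ) → Fin n → Fin n → ℝ := fun ζ k j =>
    if hp : (k, j) ∈ G' then ζ ⟨(k, j), hp⟩ else 0
  have ext_add : ∀ ζ ξ, ext (ζ + ξ) = fun k j => ext ζ k j + 1 * ext ξ k j := by
    intro ζ ξ; funext k j; simp only [ext]; split_ifs <;> simp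
  have ext_smul : ∀ (c : ℝ) ζ, ext (c • ζ) = fun k j => 0 + c * ext ζ k j := by
    intro c ζ; funext k j; simp only [ext]; split_ifs <;> simp
  let zA : Fin n → Fin n → ℝ := fun _ _ => 0
  have hzero : ∀ q : AffForm n, q.lin zA (fun _ _ => 0) = 0 := by
    intro q; unfold AffForm.lin; simp [zA]
  let Φ : (G' → ℝ) →ₗ[ℝ] (CQ G v h T i → ℝ) :=
    { toFun := fun ζ q => q.1.lin zA (ext ζ)
      map_add' := by
        intro ζ ξ
        funext q
        have h1 := q.1.lin_comb' zA (ext ζ) zA (ext ξ) 1
        have h2 : (fun i k => zA i k + 1 * zA i k) = zA := by funext i k; simp [zA]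
        rw [h2] at h1
        simp only [Pi.add_apply, ext_add]
        rw [h1, one_mul]
      map_smul' := by
        intro c ζ
        funext q
        have h1 := q.1.lin_comb' zA (fun _ _ => 0) zA (ext ζ) c
        have h2 : (fun i k => zA i k + c * zA i k) = zA := by funext i k; simp [zA]
        rw [h2, hzero, zero_add] at h1
        simp only [Pi.smul_apply, ext_smul, h1, smul_eq_mul, RingHom.id_apply] }
  have hinjΦ : Function.Injective Φ := by
    rw [← LinearMap.ker_eq_bot, LinearMap.ker_eq_bot']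
    intro ζ hζ
    have hζ' : ∀ q ∈ CQ G v h T i, q.lin zA (ext ζ) = 0 := fun q hq => congrFun hζ ⟨q, hq⟩
    by_contra hne
    obtain ⟨p, hp⟩ : ∃ p, ζ p ≠ 0 := by
      by_contra hcon
      push Not at hcon
      exact hne (funext hcon)
    obtain ⟨⟨k₁, j₁⟩, hpG⟩ := p
    have hz1 : ext ζ k₁ j₁ ≠ 0 := by simp only [ext, dif_pos hpG]; exact hp
    have hz0 : ∀ j, ext ζ (k₀ j) j = 0 := by
      intro j
      simp only [ext]
      rw [dif_neg]
      rw [hG', Finset.mem_filter]
      rintro ⟨-, h2⟩
      exact h2 rfl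
    have hk₁G : (k₁, j₁) ∈ G := (Finset.mem_filter.1 hpG).1
    have hk₀G := (hk₀ j₁ k₁ hk₁G).1
    set z := ext ζ with hz
    obtain ⟨lam, hlam⟩ : ∃ lam : ℝ, 2 * h k₁ + lam * z k₁ j₁ < 2 * h (k₀ j₁) := by
      refine ⟨(2 * h (k₀ j₁) - 2 * h k₁ - 1) / z k₁ j₁, ?_⟩
      rw [div_mul_cancel₀ _ hz1]; linarith
    -- the asked queries in direction `h`
    set π := T.asked (germ G v (fun _ k => h k) (fun k _ => h k)) with hπ
    have hfin : {q | q ∈ π}.Finite := List.finite_toSet _
    obtain ⟨L, hL, hL1⟩ : ∃ L : ℝ, (∀ q ∈ {q | q ∈ π}, P h q ≠ 0 →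
        |lam * q.lin zA z| < L * |P h q|) ∧ 1 ≤ L := by
      have h1 : ∀ᶠ L : ℝ in atTop, ∀ q ∈ {q | q ∈ π}, P h q ≠ 0 →
          |lam * q.lin zA z| < L * |P h q| := by
        rw [Filter.eventually_all_finite hfin]
        intro q _
        by_cases hq : P h q = 0
        · exact Filter.Eventually.of_forall fun L hL => absurd hq hL
        · have h2 : 0 < |P h q| := abs_pos.2 hq
          filter_upwards [eventually_gt_atTop (|lam * q.lin zA z| / |P h q|)] with L hL _
          rwa [div_lt_iff₀ h2] at hL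
      exact (h1.and (eventually_ge_atTop 1)).exists
    -- the direction
    let dA : Fin n → Fin n → ℝ := fun i' k => if i' = i then 0 else (L - 1) * h k
    let dB : Fin n → Fin n → ℝ := fun k j => lam * z k j
    let yA : ℝ → Fin n → Fin n → ℝ := fun η i' k => h k + η * dA i' k
    let yB : ℝ → Fin n → Fin n → ℝ := fun η k j => h k + η * dB k j
    have hy0A : yA 0 = fun _ k => h k := by funext i' k; simp [yA]
    have hy0B : yB 0 = fun k _ => h k := by funext k j; simp [yB]
    have hlin : ∀ (q : AffForm n) (η : ℝ), q.lin (yA η) (yB η) =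
        q.lin (fun _ k => h k) (fun k _ => h k) + η * q.lin dA dB := fun q η =>
      q.lin_comb' (fun _ k => h k) (fun k _ => h k) dA dB η
    have hlind : ∀ q : AffForm n, q.lin dA dB =
        (L - 1) * (P h q - ∑ k, q.a i k * h k) + lam * q.lin zA z := by
      intro q
      have e1 : ∑ i', ∑ k, q.a i' k * dA i' k = (L - 1) * (P h q - ∑ k, q.a i k * h k) := by
        unfold P
        rw [← Finset.add_sum_erase univ (fun i' => ∑ k, q.a i' k * h k) (Finset.mem_univ i),
          ← Finset.add_sum_erase univ (fun i' => ∑ k, q.a i' k * dA i' k) (Finset.mem_univ i)]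
        have e2 : ∑ k, q.a i k * dA i k = 0 := by simp [dA]
        rw [e2, zero_add, add_sub_cancel_left, Finset.mul_sum]
        apply Finset.sum_congr rfl
        intro i' hi'
        rw [Finset.mul_sum]
        apply Finset.sum_congr rfl
        intro k _
        simp only [dA, if_neg (Finset.ne_of_mem_erase hi')]
        ring
      have e3 : ∑ k, ∑ j, q.b k j * dB k j = lam * ∑ k, ∑ j, q.b k j * z k j := by
        rw [Finset.mul_sum]
        apply Finset.sum_congr rfl
        intro k _
        rw [Finset.mul_sum]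
        apply Finset.sum_congr rfl
        intro j _
        simp only [dB]; ring
      have e4 : ∑ i', ∑ k, q.a i' k * zA i' k = 0 := by simp [zA]
      unfold AffForm.lin
      rw [e1, e3, e4]; ring
    -- all these directions have the same run
    have hsame : ∀ η : ℝ, 0 ≤ η → η ≤ 1 → ∀ q ∈ π,
        SameSign (germ G v (fun _ k => h k) (fun k _ => h k) q) (germ G v (yA η) (yB η) q) := by
      intro η hη0 hη1 q hq
      have hqT : q ∈ T.queries := T.asked_subset _ q hq
      by_cases hdeg : Deg G v q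
      · rw [hdeg.germ, hdeg.germ]
        have hphi := hgen.v q hqT hdeg.2
        by_cases ha : q.a = 0
        · have hb := b_eq_zero hG hphi (hT.mem q hqT) ha
          have e1 : ∀ A B, q.lin A B = 0 := by
            intro A B; unfold AffForm.lin; simp [ha, hb]
          rw [e1, e1]; exact SameSign.refl _
        · obtain ⟨iq, hiq⟩ := exists_row hphi (hT.mem q hqT)
          have hP : P h q ≠ 0 := by
            intro hP
            apply ha
            have h1 := hgen.h q hqT hP
            funext i' k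
            by_cases hi' : i' = iq
            · have h2 := h1 k
              rw [Finset.sum_eq_single iq (fun i'' _ hi'' => hiq i'' hi'' k) (by simp)] at h2
              rw [hi', h2]; rfl
            · rw [hiq i' hi' k]; rfl
          rw [hlin, lin_h hphi]
          by_cases hii : iq = i
          · subst hii
            have h0 : q.lin zA z = 0 := hζ' q (mem_CQ.2 ⟨hq, ha, hdeg, hiq⟩)
            rw [hlind, ← P_row hiq, h0]
            simp only [sub_self, mul_zero, add_zero]
            exact SameSign.refl _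
          · have e1 : ∑ k, q.a i k * h k = 0 := by
              apply Finset.sum_eq_zero
              intro k _
              rw [hiq i (Ne.symm hii) k, zero_mul]
            rw [hlind, e1, sub_zero]
            have e2 := hL q hq hP
            have e3 : |η * (lam * q.lin zA z)| ≤ η * (L * |P h q|) := by
              rw [abs_mul, abs_of_nonneg hη0]
              exact mul_le_mul_of_nonneg_left e2.le hη0
            rw [abs_le] at e3
            rcases lt_or_gt_of_ne hP with hneg | hpos
            · rw [abs_of_neg hneg] at e3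
              have e4 : 2 * P h q + η * ((L - 1) * P h q + lam * q.lin zA z) < 0 := by
                nlinarith [e3.2, mul_nonneg hη0 (neg_nonneg.2 hneg.le),
                  mul_nonneg (sub_nonneg.2 hη1) (neg_nonneg.2 hneg.le)]
              exact ⟨⟨fun _ => e4, fun _ => by linarith⟩,
                ⟨fun h' => absurd h' (by linarith), fun h' => absurd h' e4.ne⟩⟩
            · rw [abs_of_pos hpos] at e3
              have e4 : 0 < 2 * P h q + η * ((L - 1) * P h q + lam * q.lin zA z) := by
                nlinarith [e3.1, mul_nonneg hη0 hpos.le,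
                  mul_nonneg (sub_nonneg.2 hη1) hpos.le]
              exact ⟨⟨fun h' => absurd h' (by linarith), fun h' => absurd h' (not_lt.2 e4.le)⟩,
                ⟨fun h' => absurd h' (by linarith), fun h' => absurd h' e4.ne'⟩⟩
      · rw [germ_of_not_deg hdeg _ _ (yA η) (yB η)]
        exact SameSign.refl _
    have hreach : ∀ η : ℝ, 0 ≤ η → η ≤ 1 → T.reach (germ G v (yA η) (yB η)) =
        T.reach (germ G v (fun _ k => h k) (fun k _ => h k)) := fun η h0 h1 =>
      (T.congr _ _ (hsame η h0 h1)).1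
    set f := T.reach (germ G v (fun _ k => h k) (fun k _ => h k)) i j₁ with hf
    -- the output near the base point
    have hout : ∀ η : ℝ, 0 ≤ η → η ≤ 1 → ∀ᶠ δ : ℝ in 𝓝[>] 0,
        (phi G f (par0 n) + f.c) + δ * phi G f v + δ ^ 2 * (f.lin (fun _ k => h k) (fun k _ => h k) +
          η * f.lin dA dB) = minPlus (XA v (yA η) δ) (XB G v (yB η) δ) i j₁ := by
      intro η h0 h1
      filter_upwards [run_germ G v (yA η) (yB η) T, X_mem G v (yA η) (yB η)] with δ e1 e2
      have e3 := hC _ _ e2.1 e2.2 i j₁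
      unfold DTree.output at e3
      rw [e1.1, hreach η h0 h1, ← hf, eval_X, hlin] at e3
      exact e3
    have hyAi : ∀ η k, yA η i k = h k := by intro η k; simp [yA, dA]
    have hyB0 : ∀ η, yB η (k₀ j₁) j₁ = h (k₀ j₁) := by
      intro η; simp only [yB, dB]; rw [hz0]; ring
    -- a small parameter for which the minimum stays at `k₀`
    obtain ⟨η₀, hη₀, hη₀1, hη₀2⟩ : ∃ η₀ : ℝ, 0 < η₀ ∧ η₀ ≤ 1 ∧ ∀ k, (k, j₁) ∈ G →
        yA η₀ i (k₀ j₁) + yB η₀ (k₀ j₁) j₁ ≤ yA η₀ i k + yB η₀ k j₁ := by
      have h1 : ∀ᶠ η : ℝ in 𝓝[>] 0, ∀ k, (k, j₁) ∈ G →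
          yA η i (k₀ j₁) + yB η (k₀ j₁) j₁ ≤ yA η i k + yB η k j₁ := by
        rw [Filter.eventually_all]
        intro k
        by_cases hk : (k, j₁) ∈ G
        · by_cases hkk : k = k₀ j₁
          · rw [hkk]; exact Filter.Eventually.of_forall fun η _ => le_refl _
          · have hlt : h (k₀ j₁) < h k := lt_of_le_of_ne (hk₀ j₁ k hk).2
              (fun h' => hkk (hinj h').symm)
            have hc : Continuous fun η : ℝ => 2 * h k + η * (lam * z k j₁) := by fun_prop
            have h0 : ∀ᶠ η : ℝ in 𝓝 0, 2 * h (k₀ j₁) < 2 * h k + η * (lam * z k j₁) := by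
              refine hc.continuousAt.eventually (lt_mem_nhds ?_)
              simp only [zero_mul, add_zero]
              linarith
            filter_upwards [nhdsWithin_le_nhds h0] with η hη _
            rw [hyAi, hyAi, hyB0]
            simp only [yB, dB]
            linarith
        · exact Filter.Eventually.of_forall fun η hk' => absurd hk' hk
      have hpos : ∀ᶠ r : ℝ in 𝓝[>] 0, 0 < r := self_mem_nhdsWithin
      have hle1 : ∀ᶠ r : ℝ in 𝓝[>] 0, r ≤ 1 :=
        nhdsWithin_le_nhds (eventually_le_nhds one_pos)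
      obtain ⟨η, h2⟩ := (hpos.and (hle1.and h1)).exists
      exact ⟨η, h2.1, h2.2.1, h2.2.2⟩
    have v0 := minPlus_value G v (yA 0) (yB 0) i j₁ (k₀ j₁) hk₀G (by
      intro k hk
      rw [hyAi, hyAi, hyB0]
      have : yB 0 k j₁ = h k := by simp [yB]
      rw [this]
      have := (hk₀ j₁ k hk).2
      linarith)
    have v1 := minPlus_value G v (yA η₀) (yB η₀) i j₁ (k₀ j₁) hk₀G hη₀2
    have hpos : ∀ᶠ r : ℝ in 𝓝[>] 0, 0 < r := self_mem_nhdsWithin
    obtain ⟨δ, w1, w2, w3, w4, w5, w6⟩ := (hpos.and ((hout 0 le_rfl zero_le_one).and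
      ((hout η₀ hη₀.le hη₀1).and ((hout 1 zero_le_one le_rfl).and (v0.and v1))))).exists
    have hδ2 : 0 < δ ^ 2 := pow_pos w1 2
    rw [w5, hyAi, hyB0] at w2
    rw [w6, hyAi, hyB0] at w3
    have hd : f.lin dA dB = 0 := by
      have h1 : δ ^ 2 * (η₀ * f.lin dA dB) = 0 := by linarith
      rcases mul_eq_zero.1 h1 with h2 | h2
      · exact absurd h2 hδ2.ne'
      · exact (mul_eq_zero.1 h2).resolve_left hη₀.ne'
    have h3 := minPlus_le (XA v (yA 1) δ) (XB G v (yB 1) δ) i j₁ k₁
    rw [X_sum G v (yA 1) (yB 1) δ i k₁ j₁ hk₁G, hyAi, ← w4, hd] at h3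
    have h4 : yB 1 k₁ j₁ = h k₁ + lam * z k₁ j₁ := by simp [yB, dB]
    rw [h4] at h3
    have h5 : δ ^ 2 * (h k₁ + (h k₁ + lam * z k₁ j₁)) < δ ^ 2 * (h (k₀ j₁) + h (k₀ j₁)) := by
      apply mul_lt_mul_of_pos_left _ hδ2
      linarith
    linarith
  have hfin := LinearMap.finrank_le_finrank_of_injective hinjΦ
  simp only [Module.finrank_fintype_fun_eq_card, Fintype.card_coe] at hfin
  exact hfin

/-- The count for one tree. -/
theorem count {s : ℕ} {G : Finset (Fin n × Fin n)} (hG : NoShort s G) {v : Par n} {h : Fin n → ℝ}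
    (hinj : Function.Injective h) {T : DTree n} (hT : T.Allowed s) (hC : T.Correct)
    (hgen : Gen G v h T) : ∀ᶠ δ : ℝ in 𝓝[>] 0,
      n * (G.card - n) ≤ T.cost (XA v (fun _ k => h k) δ) (XB G v (fun k _ => h k) δ) := by
  classical
  filter_upwards [run_germ G v (fun _ k => h k) (fun k _ => h k) T] with δ hδ
  unfold DTree.cost
  rw [hδ.2]
  set π := T.asked (germ G v (fun _ k => h k) (fun k _ => h k)) with hπ
  have h1 : ∀ i, G.card - n ≤ (CQ G v h T i).card := by
    intro i
    have := core hG hinj hT hC hgen i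
    omega
  have hdisj : ∀ i ∈ (univ : Finset (Fin n)), ∀ i' ∈ (univ : Finset (Fin n)), i ≠ i' →
      Disjoint (CQ G v h T i) (CQ G v h T i') := by
    intro i _ i' _ hii
    rw [Finset.disjoint_left]
    intro q hq hq'
    rw [mem_CQ] at hq hq'
    apply hq.2.1
    funext i'' k
    by_cases h2 : i'' = i
    · rw [h2, hq'.2.2.2 i hii k]; rfl
    · rw [hq.2.2.2 i'' h2 k]; rfl
  calc n * (G.card - n) = ∑ _i : Fin n, (G.card - n) := by simp
    _ ≤ ∑ i : Fin n, (CQ G v h T i).card := Finset.sum_le_sum fun i _ => h1 i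
    _ = (univ.biUnion fun i => CQ G v h T i).card := (Finset.card_biUnion hdisj).symm
    _ ≤ (π.filter (fun q => q.a ≠ 0)).toFinset.card := by
      apply Finset.card_le_card
      intro q hq
      rw [Finset.mem_biUnion] at hq
      obtain ⟨i, _, hq⟩ := hq
      rw [mem_CQ] at hq
      rw [List.mem_toFinset, List.mem_filter]
      exact ⟨hq.1, by simpa using hq.2.1⟩
    _ ≤ (π.filter (fun q => q.a ≠ 0)).length := List.toFinset_card_le _

/-- The main theorem for a bipartite graph without short circulations: for every finite family of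
correct trees there is one input on which each tree asks many queries. -/
theorem main {s : ℕ} {G : Finset (Fin n × Fin n)} (hG : NoShort s G) {ι : Type*} [Finite ι]
    (T : ι → DTree n) (hT : ∀ t, (T t).Allowed s) (hC : ∀ t, (T t).Correct) :
    ∃ A B : Fin n → Fin n → ℝ, (∀ i k, 0 < A i k ∧ A i k < 1) ∧ (∀ k j, 0 < B k j ∧ B k j < 1) ∧
      ∀ t, n * (G.card - n) ≤ (T t).cost A B := by
  classical
  -- generic parameters
  have hfinQ : {q : AffForm n | ∃ t, q ∈ (T t).queries}.Finite := by
    have : {q : AffForm n | ∃ t, q ∈ (T t).queries} = ⋃ t, {q | q ∈ (T t).queries} := by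
      ext q; simp
    rw [this]
    exact Set.finite_iUnion fun t => List.finite_toSet _
  obtain ⟨v, hv⟩ : ∃ v : Par n, ∀ q : AffForm n, (∃ t, q ∈ (T t).queries) → phi G q v = 0 →
      phi G q = 0 := by
    have hfin2 : ({q : AffForm n | (∃ t, q ∈ (T t).queries) ∧ phi G q ≠ 0}).Finite :=
      hfinQ.subset fun q hq => hq.1
    have : Finite {q : AffForm n | (∃ t, q ∈ (T t).queries) ∧ phi G q ≠ 0} := hfin2
    obtain ⟨v, hv⟩ := Module.Dual.exists_forall_ne_zero_of_forall_exists
      (K := ℝ) (M := Par n)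
      (fun q : {q : AffForm n | (∃ t, q ∈ (T t).queries) ∧ phi G q ≠ 0} => phi G q.1)
      (fun q => by
        by_contra hcon
        push Not at hcon
        exact q.2.2 (LinearMap.ext hcon))
    refine ⟨v, fun q hq h0 => ?_⟩
    by_contra hne
    exact hv ⟨q, hq, hne⟩ h0
  obtain ⟨h, hinj, hh⟩ : ∃ h : Fin n → ℝ, Function.Injective h ∧ ∀ q : AffForm n,
      (∃ t, q ∈ (T t).queries) → P h q = 0 → ∀ k, ∑ i, q.a i k = 0 := by
    let F : AffForm n → ((Fin n → ℝ) →ₗ[ℝ] ℝ) := fun q =>
      { toFun := fun h => P h q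
        map_add' := fun x y => by
          unfold P; simp only [Pi.add_apply, mul_add, Finset.sum_add_distrib]
        map_smul' := fun c x => by
          unfold P
          simp only [Pi.smul_apply, smul_eq_mul, RingHom.id_apply, Finset.mul_sum]
          simp only [mul_left_comm _ c] }
    have hfin2 : ({q : AffForm n | (∃ t, q ∈ (T t).queries) ∧ F q ≠ 0}).Finite :=
      hfinQ.subset fun q hq => hq.1
    have : Finite {q : AffForm n | (∃ t, q ∈ (T t).queries) ∧ F q ≠ 0} := hfin2
    let D : {p : Fin n × Fin n // p.1 ≠ p.2} → ((Fin n → ℝ) →ₗ[ℝ] ℝ) := fun p =>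
      LinearMap.proj (R := ℝ) (φ := fun _ : Fin n => ℝ) p.1.1 -
        LinearMap.proj (R := ℝ) (φ := fun _ : Fin n => ℝ) p.1.2
    obtain ⟨h, hh⟩ := Module.Dual.exists_forall_ne_zero_of_forall_exists
      (K := ℝ) (M := Fin n → ℝ)
      (Sum.elim (fun q : {q : AffForm n | (∃ t, q ∈ (T t).queries) ∧ F q ≠ 0} => F q.1) D)
      (fun x => by
        rcases x with q | p
        · by_contra hcon
          push Not at hcon
          exact q.2.2 (LinearMap.ext hcon)
        · refine ⟨Pi.single p.1.1 1, ?_⟩
          simp [D, p.2.symm])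
    refine ⟨h, ?_, ?_⟩
    · intro k l hkl
      by_contra hne
      apply hh (Sum.inr ⟨(k, l), hne⟩)
      simp [D, hkl]
    · intro q hq h0 k
      have hF : F q = 0 := by
        by_contra hne
        exact hh (Sum.inl ⟨q, hq, hne⟩) h0
      have h1 : P (Pi.single k 1) q = 0 := by
        change F q (Pi.single k 1) = 0
        rw [hF]; rfl
      unfold P at h1
      simpa [Pi.single_apply] using h1
  have hall : ∀ᶠ δ : ℝ in 𝓝[>] 0, ∀ t, n * (G.card - n) ≤
      (T t).cost (XA v (fun _ k => h k) δ) (XB G v (fun k _ => h k) δ) := by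
    rw [Filter.eventually_all]
    intro t
    exact count hG hinj (hT t) (hC t) ⟨fun q hq => hv q ⟨t, hq⟩, fun q hq => hh q ⟨t, hq⟩⟩
  obtain ⟨δ, h1, h2⟩ := (hall.and (X_mem G v (fun _ k => h k) (fun k _ => h k))).exists
  exact ⟨_, _, h2.1, h2.2, h1⟩

end Pool.Agent.H98.Sparse
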