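import Pool.Agent.H98.SparseDefs

/-!
# Upper bounds: sparse linear decision trees for the `(min, +)` product
-/

namespace Pool.Agent.H98.Sparse

open Finset

variable {n : ℕ}

/-! ### Programs -/

/-- Decision trees with leaves labelled by elements of `α`. -/
inductive Prog (n : ℕ) (α : Type) : Type
  | ret (x : α) : Prog n α
  | ask (q : AffForm n) (l m r : Prog n α) : Prog n α

namespace Prog

variable {α β : Type}

/-- Sequential composition. -/
def bind : Prog n α → (α → Prog n β) → Prog n β
  | ret x, f => f x
  | ask q l m r, f => ask q (l.bind f) (m.bind f) (r.bind f)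

/-- The result on an input. -/
noncomputable def run : Prog n α → (Fin n → Fin n → ℝ) → (Fin n → Fin n → ℝ) → α
  | ret x, _, _ => x
  | ask q l m r, A, B =>
    if q.eval A B < 0 then l.run A B else if q.eval A B = 0 then m.run A B else r.run A B

open Classical in
/-- The number of queries involving `A`. -/
noncomputable def cost : Prog n α → (Fin n → Fin n → ℝ) → (Fin n → Fin n → ℝ) → ℕ
  | ret _, _, _ => 0
  | ask q l m r, A, B => (if q.a ≠ 0 then 1 else 0) +
    (if q.eval A B < 0 then l.cost A B else if q.eval A B = 0 then m.cost A B else r.cost A B)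

/-- All queries are allowed. -/
def Ok (s : ℕ) : Prog n α → Prop
  | ret _ => True
  | ask q l m r => q.Allowed s ∧ l.Ok s ∧ m.Ok s ∧ r.Ok s

theorem run_bind (p : Prog n α) (f : α → Prog n β) (A B : Fin n → Fin n → ℝ) :
    (p.bind f).run A B = (f (p.run A B)).run A B := by
  induction p with
  | ret x => rfl
  | ask q l m r ihl ihm ihr =>
    simp only [bind, run]
    split_ifs
    · exact ihl
    · exact ihm
    · exact ihr

theorem cost_bind (p : Prog n α) (f : α → Prog n β) (A B : Fin n → Fin n → ℝ) :
    (p.bind f).cost A B = p.cost A B + (f (p.run A B)).cost A B := by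
  induction p with
  | ret x => simp [bind, run, cost]
  | ask q l m r ihl ihm ihr =>
    simp only [bind, run, cost, ihl, ihm, ihr]
    split_ifs <;> omega

theorem ok_bind {s : ℕ} (p : Prog n α) (f : α → Prog n β) (h : p.Ok s) (hf : ∀ x, (f x).Ok s) :
    (p.bind f).Ok s := by
  induction p with
  | ret x => exact hf x
  | ask q l m r ihl ihm ihr => exact ⟨h.1, ihl h.2.1, ihm h.2.2.1, ihr h.2.2.2⟩

/-- Ask whether an affine form is nonpositive. -/
def le (q : AffForm n) : Prog n Bool := ask q (ret true) (ret true) (ret false)

theorem run_le (q : AffForm n) (A B : Fin n → Fin n → ℝ) :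
    (le q).run A B = decide (q.eval A B ≤ 0) := by
  simp only [le, run]
  split_ifs with h1 h2
  · exact (decide_eq_true h1.le).symm
  · exact (decide_eq_true h2.le).symm
  · have : ¬ q.eval A B ≤ 0 := fun h => h2 (le_antisymm h (not_lt.1 h1))
    exact (decide_eq_false this).symm

theorem cost_le (q : AffForm n) (A B : Fin n → Fin n → ℝ) : (le q).cost A B ≤ 1 := by
  simp only [le, cost]
  split_ifs <;> simp

theorem cost_le_zero (q : AffForm n) (hq : q.a = 0) (A B : Fin n → Fin n → ℝ) :
    (le q).cost A B = 0 := by
  simp only [le, cost]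
  simp [hq]

theorem ok_le {s : ℕ} (q : AffForm n) (hq : q.Allowed s) : (le q).Ok s :=
  ⟨hq, trivial, trivial, trivial⟩

/-- Run a family of programs. -/
def pi : (m : ℕ) → (Fin m → Prog n α) → Prog n (Fin m → α)
  | 0, _ => ret Fin.elim0
  | m + 1, f => (f 0).bind fun a => (pi m fun i => f i.succ).bind fun g => ret (Fin.cons a g)

theorem run_pi (m : ℕ) (f : Fin m → Prog n α) (A B : Fin n → Fin n → ℝ) :
    (pi m f).run A B = fun i => (f i).run A B := by
  induction m with
  | zero => funext i; exact i.elim0
  | succ m ih =>
    simp only [pi, run_bind, run, ih]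
    funext i
    refine Fin.cases ?_ (fun i => ?_) i
    · rfl
    · rfl

theorem cost_pi (m : ℕ) (f : Fin m → Prog n α) (A B : Fin n → Fin n → ℝ) :
    (pi m f).cost A B = ∑ i, (f i).cost A B := by
  induction m with
  | zero => simp [pi, cost]
  | succ m ih =>
    simp only [pi, cost_bind, cost, ih, Fin.sum_univ_succ, add_zero]

theorem ok_pi {s : ℕ} (m : ℕ) (f : Fin m → Prog n α) (hf : ∀ i, (f i).Ok s) : (pi m f).Ok s := by
  induction m with
  | zero => exact trivial
  | succ m ih =>
    exact ok_bind _ _ (hf 0) fun a => ok_bind _ _ (ih _ fun i => hf i.succ) fun g => trivial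

/-- The tree of a program. -/
def toTree : Prog n (Fin n → Fin n → AffForm n) → DTree n
  | ret x => .leaf x
  | ask q l m r => .node q l.toTree m.toTree r.toTree

theorem output_toTree (p : Prog n (Fin n → Fin n → AffForm n)) (A B : Fin n → Fin n → ℝ)
    (i j : Fin n) : p.toTree.output A B i j = (p.run A B i j).eval A B := by
  unfold DTree.output
  have : p.toTree.reach (fun q => q.eval A B) = p.run A B := by
    induction p with
    | ret x => rfl
    | ask q l m r ihl ihm ihr => simp only [toTree, DTree.reach, run, ihl, ihm, ihr]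
  rw [this]

theorem cost_toTree (p : Prog n (Fin n → Fin n → AffForm n)) (A B : Fin n → Fin n → ℝ) :
    p.toTree.cost A B = p.cost A B := by
  classical
  unfold DTree.cost
  induction p with
  | ret x => simp [toTree, DTree.asked, cost]
  | ask q l m r ihl ihm ihr =>
    simp only [toTree, DTree.asked, cost, List.filter_cons]
    rw [← ihl, ← ihm, ← ihr]
    by_cases hq : q.a = 0
    · simp only [hq, ne_eq, not_true_eq_false, decide_false, Bool.false_eq_true, if_false, zero_add]
      split_ifs <;> rfl
    · simp only [hq, ne_eq, not_false_eq_true, decide_true, if_true, List.length_cons]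
      split_ifs <;> omega

theorem allowed_toTree {s : ℕ} (p : Prog n (Fin n → Fin n → AffForm n)) (h : p.Ok s) :
    p.toTree.Allowed s := by
  induction p with
  | ret x => exact trivial
  | ask q l m r ihl ihm ihr => exact ⟨h.1, ihl h.2.1, ihm h.2.2.1, ihr h.2.2.2⟩

end Prog

end Pool.Agent.H98.Sparse
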