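import Pool.Agent.H98.SparseUpper

/-!
# Upper bounds: locating with few queries (Fredman's argument)
-/

namespace Pool.Agent.H98.Sparse

open Finset

variable {n : ℕ}

section Locate

variable {ι : Type} [Fintype ι] [DecidableEq ι]

open Classical in
/-- The set of the forms that are nonpositive on an input. -/
noncomputable def pat (F : ι → AffForm n) (A B : Fin n → Fin n → ℝ) : Finset ι :=
  univ.filter fun x => (F x).eval A B ≤ 0

omit [DecidableEq ι] in
theorem mem_pat (F : ι → AffForm n) (A B : Fin n → Fin n → ℝ) (x : ι) :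
    x ∈ pat F A B ↔ (F x).eval A B ≤ 0 := by simp [pat]

/-- The answers to the queries in `J` are ordered on `W`. -/
def Chain (J : Finset ι) (W : Finset (Finset ι)) : Prop :=
  ∀ x ∈ J, ∀ y ∈ J, (∀ π ∈ W, x ∈ π → y ∈ π) ∨ (∀ π ∈ W, y ∈ π → x ∈ π)

omit [Fintype ι] [DecidableEq ι] in
theorem Chain.mono {J : Finset ι} {W W' : Finset (Finset ι)} (h : Chain J W) (hW : W' ⊆ W) :
    Chain J W' := by
  intro x hx y hy
  rcases h x hx y hy with h | h
  · exact Or.inl fun π hπ => h π (hW hπ)
  · exact Or.inr fun π hπ => h π (hW hπ)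

theorem locate (F : ι → AffForm n) (s : ℕ) (hF : ∀ x, (F x).Allowed s) (J : Finset ι)
    (top bot : ι) (htop : top ∈ J) (hbot : bot ∈ J) (m : ℕ) :
    ∀ (W : Finset (Finset ι)), W.card ≤ m → Chain J W → (∀ π ∈ W, top ∈ π) →
      (∀ π ∈ W, bot ∉ π) →
    ∃ p : Prog n (Finset (Finset ι)), p.Ok s ∧ ∀ A B, pat F A B ∈ W →
      p.run A B ⊆ W ∧ pat F A B ∈ p.run A B ∧
      (∀ π ∈ p.run A B, ∀ x ∈ J, (x ∈ π ↔ x ∈ pat F A B)) ∧
      2 ^ (p.cost A B) * (p.run A B).card ^ 2 ≤ 4 * W.card ^ 2 := by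
  induction m with
  | zero =>
    intro W hW _ _ _
    have hW0 : W = ∅ := Finset.card_eq_zero.1 (by omega)
    subst hW0
    exact ⟨.ret ∅, trivial, fun A B h => absurd h (Finset.notMem_empty _)⟩
  | succ m ih =>
    intro W hW hch ht hb
    by_cases hW0 : W = ∅
    · subst hW0
      exact ⟨.ret ∅, trivial, fun A B h => absurd h (Finset.notMem_empty _)⟩
    have hWpos : 0 < W.card := Finset.card_pos.2 (Finset.nonempty_iff_ne_empty.2 hW0)
    let t : ι → ℕ := fun x => (W.filter (fun π => x ∈ π)).card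
    have htt : t top = W.card := by
      show (W.filter (fun π => top ∈ π)).card = W.card
      rw [Finset.filter_true_of_mem ht]
    have htb : t bot = 0 := by
      show (W.filter (fun π => bot ∈ π)).card = 0
      rw [Finset.filter_false_of_mem hb]; rfl
    obtain ⟨q1, hq1, hq1min⟩ := Finset.exists_min_image (J.filter fun x => W.card ≤ 2 * t x) t
      ⟨top, by rw [Finset.mem_filter]; exact ⟨htop, by rw [htt]; omega⟩⟩
    obtain ⟨q2, hq2, hq2max⟩ := Finset.exists_max_image (J.filter fun x => 2 * t x < W.card) t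
      ⟨bot, by rw [Finset.mem_filter]; exact ⟨hbot, by rw [htb]; omega⟩⟩
    rw [Finset.mem_filter] at hq1 hq2
    have hsum : (W.filter (fun π => q1 ∈ π)).card + (W.filter (fun π => ¬ q1 ∈ π)).card = W.card :=
      Finset.card_filter_add_card_filter_not _
    have hW1 : 2 * (W.filter (fun π => ¬ q1 ∈ π)).card ≤ W.card := by
      have : W.card ≤ 2 * (W.filter (fun π => q1 ∈ π)).card := hq1.2
      omega
    have hW2 : 2 * (W.filter (fun π => q2 ∈ π)).card ≤ W.card := hq2.2.le
    obtain ⟨p1, hp1, hp1'⟩ := ih (W.filter (fun π => ¬ q1 ∈ π)) (by omega)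
      (hch.mono (Finset.filter_subset _ _)) (fun π hπ => ht π (Finset.filter_subset _ _ hπ))
      (fun π hπ => hb π (Finset.filter_subset _ _ hπ))
    obtain ⟨p2, hp2, hp2'⟩ := ih (W.filter (fun π => q2 ∈ π)) (by omega)
      (hch.mono (Finset.filter_subset _ _)) (fun π hπ => ht π (Finset.filter_subset _ _ hπ))
      (fun π hπ => hb π (Finset.filter_subset _ _ hπ))
    -- agreement in the middle class
    have hmid : ∀ π ∈ W, q1 ∈ π → q2 ∉ π → ∀ x ∈ J, (x ∈ π ↔ W.card ≤ 2 * t x) := by
      intro π hπ h1 h2 x hx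
      constructor
      · intro hxπ
        by_contra hcon
        rw [not_le] at hcon
        have hle := hq2max x (by rw [Finset.mem_filter]; exact ⟨hx, hcon⟩)
        rcases hch x hx q2 hq2.1 with h | h
        · exact h2 (h π hπ hxπ)
        · have hsub : W.filter (fun π => q2 ∈ π) ⊆ W.filter (fun π => x ∈ π) := by
            intro ρ hρ
            rw [Finset.mem_filter] at hρ ⊢
            exact ⟨hρ.1, h ρ hρ.1 hρ.2⟩
          have heq := Finset.eq_of_subset_of_card_le hsub hle
          have hm : π ∈ W.filter (fun π => x ∈ π) := by rw [Finset.mem_filter]; exact ⟨hπ, hxπ⟩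
          rw [← heq, Finset.mem_filter] at hm
          exact h2 hm.2
      · intro hxc
        have hle := hq1min x (by rw [Finset.mem_filter]; exact ⟨hx, hxc⟩)
        rcases hch x hx q1 hq1.1 with h | h
        · have hsub : W.filter (fun π => x ∈ π) ⊆ W.filter (fun π => q1 ∈ π) := by
            intro ρ hρ
            rw [Finset.mem_filter] at hρ ⊢
            exact ⟨hρ.1, h ρ hρ.1 hρ.2⟩
          have heq := Finset.eq_of_subset_of_card_le hsub hle
          have hm : π ∈ W.filter (fun π => q1 ∈ π) := by rw [Finset.mem_filter]; exact ⟨hπ, h1⟩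
          rw [← heq, Finset.mem_filter] at hm
          exact hm.2
        · exact h π hπ h1
    refine ⟨(Prog.le (F q1)).bind fun b => if b = true then
      (Prog.le (F q2)).bind (fun b' => if b' = true then p2 else
        .ret (W.filter (fun π => q1 ∈ π ∧ q2 ∉ π))) else p1, ?_, ?_⟩
    · refine Prog.ok_bind _ _ (Prog.ok_le _ (hF q1)) fun b => ?_
      split_ifs
      · refine Prog.ok_bind _ _ (Prog.ok_le _ (hF q2)) fun b' => ?_
        split_ifs
        · exact hp2
        · exact trivial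
      · exact hp1
    · intro A B hAB
      have hc1 := Prog.cost_le (F q1) A B
      have hc2 := Prog.cost_le (F q2) A B
      by_cases h1 : q1 ∈ pat F A B
      · have h1' := (mem_pat F A B q1).1 h1
        by_cases h2 : q2 ∈ pat F A B
        · have h2' := (mem_pat F A B q2).1 h2
          simp only [Prog.run_bind, Prog.cost_bind, Prog.run_le, h1', h2', decide_true, if_true]
          obtain ⟨e1, e2, e3, e4⟩ := hp2' A B (by rw [Finset.mem_filter]; exact ⟨hAB, h2⟩)
          refine ⟨e1.trans (Finset.filter_subset _ _), e2, e3, ?_⟩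
          calc 2 ^ ((Prog.le (F q1)).cost A B + ((Prog.le (F q2)).cost A B + p2.cost A B)) *
                (p2.run A B).card ^ 2
              ≤ 2 ^ (2 + p2.cost A B) * (p2.run A B).card ^ 2 :=
                Nat.mul_le_mul_right _ (Nat.pow_le_pow_right (by norm_num) (by omega))
            _ = 4 * (2 ^ p2.cost A B * (p2.run A B).card ^ 2) := by rw [pow_add]; ring
            _ ≤ 4 * (4 * (W.filter (fun π => q2 ∈ π)).card ^ 2) := Nat.mul_le_mul_left _ e4
            _ = 4 * (2 * (W.filter (fun π => q2 ∈ π)).card) ^ 2 := by ring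
            _ ≤ 4 * W.card ^ 2 := Nat.mul_le_mul_left _ (Nat.pow_le_pow_left hW2 2)
        · have h2' : ¬ (F q2).eval A B ≤ 0 := fun h => h2 ((mem_pat F A B q2).2 h)
          simp only [Prog.run_bind, Prog.cost_bind, Prog.run_le, h1', h2', decide_true,
            decide_false, if_true, Prog.run, Prog.cost, Bool.false_eq_true, if_false]
          refine ⟨Finset.filter_subset _ _, by rw [Finset.mem_filter]; exact ⟨hAB, h1, h2⟩, ?_, ?_⟩
          · intro π hπ x hx
            rw [Finset.mem_filter] at hπ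
            rw [hmid π hπ.1 hπ.2.1 hπ.2.2 x hx, hmid _ hAB h1 h2 x hx]
          · calc 2 ^ ((Prog.le (F q1)).cost A B + ((Prog.le (F q2)).cost A B + 0)) *
                (W.filter (fun π => q1 ∈ π ∧ q2 ∉ π)).card ^ 2
                ≤ 2 ^ 2 * (W.filter (fun π => q1 ∈ π ∧ q2 ∉ π)).card ^ 2 :=
                  Nat.mul_le_mul_right _ (Nat.pow_le_pow_right (by norm_num) (by omega))
              _ ≤ 4 * W.card ^ 2 := by
                  refine Nat.mul_le_mul (by norm_num) (Nat.pow_le_pow_left ?_ 2)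
                  exact Finset.card_le_card (Finset.filter_subset _ _)
      · have h1' : ¬ (F q1).eval A B ≤ 0 := fun h => h1 ((mem_pat F A B q1).2 h)
        simp only [Prog.run_bind, Prog.cost_bind, Prog.run_le, h1', decide_false,
          Bool.false_eq_true, if_false]
        obtain ⟨e1, e2, e3, e4⟩ := hp1' A B (by rw [Finset.mem_filter]; exact ⟨hAB, h1⟩)
        refine ⟨e1.trans (Finset.filter_subset _ _), e2, e3, ?_⟩
        calc 2 ^ ((Prog.le (F q1)).cost A B + p1.cost A B) * (p1.run A B).card ^ 2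
            ≤ 2 ^ (2 + p1.cost A B) * (p1.run A B).card ^ 2 :=
              Nat.mul_le_mul_right _ (Nat.pow_le_pow_right (by norm_num) (by omega))
          _ = 4 * (2 ^ p1.cost A B * (p1.run A B).card ^ 2) := by rw [pow_add]; ring
          _ ≤ 4 * (4 * (W.filter (fun π => ¬ q1 ∈ π)).card ^ 2) := Nat.mul_le_mul_left _ e4
          _ = 4 * (2 * (W.filter (fun π => ¬ q1 ∈ π)).card) ^ 2 := by ring
          _ ≤ 4 * W.card ^ 2 := Nat.mul_le_mul_left _ (Nat.pow_le_pow_left hW1 2)

theorem locateAll (F : ι → AffForm n) (s : ℕ) (hF : ∀ x, (F x).Allowed s)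
    (top bot : ι) (L : List (Finset ι)) :
    ∀ (W : Finset (Finset ι)), (∀ J ∈ L, top ∈ J ∧ bot ∈ J ∧ Chain J W) → (∀ π ∈ W, top ∈ π) →
      (∀ π ∈ W, bot ∉ π) →
    ∃ p : Prog n (Finset (Finset ι)), p.Ok s ∧ ∀ A B, pat F A B ∈ W →
      p.run A B ⊆ W ∧ pat F A B ∈ p.run A B ∧
      (∀ π ∈ p.run A B, ∀ J ∈ L, ∀ x ∈ J, (x ∈ π ↔ x ∈ pat F A B)) ∧
      2 ^ (p.cost A B) * (p.run A B).card ^ 2 ≤ 4 ^ L.length * W.card ^ 2 := by
  classical
  induction L with
  | nil =>
    intro W _ _ _
    refine ⟨.ret W, trivial, fun A B h => ⟨Finset.Subset.refl _, h, ?_, ?_⟩⟩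
    · intro π _ J hJ; exact absurd hJ (List.not_mem_nil)
    · simp [Prog.cost, Prog.run]
  | cons J L ih =>
    intro W hL ht hb
    obtain ⟨p, hp, hp'⟩ := locate F s hF J top bot (hL J (by simp)).1 (hL J (by simp)).2.1
      W.card W le_rfl (hL J (by simp)).2.2 ht hb
    have hex : ∀ W' : Finset (Finset ι), ∃ p : Prog n (Finset (Finset ι)), p.Ok s ∧
        (W' ⊆ W → ∀ A B, pat F A B ∈ W' →
        p.run A B ⊆ W' ∧ pat F A B ∈ p.run A B ∧
        (∀ π ∈ p.run A B, ∀ J ∈ L, ∀ x ∈ J, (x ∈ π ↔ x ∈ pat F A B)) ∧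
        2 ^ (p.cost A B) * (p.run A B).card ^ 2 ≤ 4 ^ L.length * W'.card ^ 2) := by
      intro W'
      by_cases hW' : W' ⊆ W
      · obtain ⟨p', h1, h2⟩ := ih W'
          (fun J' hJ' => ⟨(hL J' (by simp [hJ'])).1, (hL J' (by simp [hJ'])).2.1,
            (hL J' (by simp [hJ'])).2.2.mono hW'⟩)
          (fun π hπ => ht π (hW' hπ)) (fun π hπ => hb π (hW' hπ))
        exact ⟨p', h1, fun _ => h2⟩
      · exact ⟨.ret ∅, trivial, fun h => absurd h hW'⟩
    choose f hf1 hf2 using hex
    refine ⟨p.bind f, Prog.ok_bind _ _ hp hf1, fun A B hAB => ?_⟩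
    obtain ⟨e1, e2, e3, e4⟩ := hp' A B hAB
    obtain ⟨g1, g2, g3, g4⟩ := hf2 (p.run A B) e1 A B e2
    rw [Prog.run_bind, Prog.cost_bind]
    refine ⟨g1.trans e1, g2, ?_, ?_⟩
    · intro π hπ J' hJ' x hx
      rw [List.mem_cons] at hJ'
      rcases hJ' with rfl | hJ'
      · exact e3 π (g1 hπ) x hx
      · exact g3 π hπ J' hJ' x hx
    · calc 2 ^ (p.cost A B + (f (p.run A B)).cost A B) * ((f (p.run A B)).run A B).card ^ 2
          = 2 ^ p.cost A B * (2 ^ (f (p.run A B)).cost A B *
              ((f (p.run A B)).run A B).card ^ 2) := by rw [pow_add]; ring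
        _ ≤ 2 ^ p.cost A B * (4 ^ L.length * (p.run A B).card ^ 2) := Nat.mul_le_mul_left _ g4
        _ = 4 ^ L.length * (2 ^ p.cost A B * (p.run A B).card ^ 2) := by ring
        _ ≤ 4 ^ L.length * (4 * W.card ^ 2) := Nat.mul_le_mul_left _ e4
        _ = 4 ^ (J :: L).length * W.card ^ 2 := by
            rw [List.length_cons, pow_succ]; ring

/-- Asking free queries. -/
theorem freePhase (F : ι → AffForm n) (s : ℕ) (hF : ∀ x, (F x).Allowed s) (S : Finset ι)
    (hS : ∀ x ∈ S, (F x).a = 0) :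
    ∃ p : Prog n (Finset ι), p.Ok s ∧ ∀ A B, p.cost A B = 0 ∧ p.run A B = pat F A B ∩ S := by
  classical
  induction S using Finset.induction_on with
  | empty => exact ⟨.ret ∅, trivial, fun A B => ⟨rfl, by simp [Prog.run]⟩⟩
  | insert x S hx ih =>
    obtain ⟨p, hp, hp'⟩ := ih fun y hy => hS y (Finset.mem_insert_of_mem hy)
    refine ⟨p.bind fun R => (Prog.le (F x)).bind fun b => .ret (if b = true then insert x R else R),
      ?_, fun A B => ?_⟩
    · exact Prog.ok_bind _ _ hp fun R => Prog.ok_bind _ _ (Prog.ok_le _ (hF x)) fun b => trivial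
    · obtain ⟨h1, h2⟩ := hp' A B
      have h3 := Prog.cost_le_zero (F x) (hS x (Finset.mem_insert_self _ _)) A B
      simp only [Prog.run_bind, Prog.cost_bind, Prog.run_le, Prog.run, Prog.cost, h1, h2, h3]
      refine ⟨trivial, ?_⟩
      by_cases hx1 : (F x).eval A B ≤ 0
      · have : x ∈ pat F A B := (mem_pat F A B x).2 hx1
        simp only [hx1, decide_true, if_true]
        rw [Finset.inter_insert_of_mem this]
      · have : x ∉ pat F A B := fun h => hx1 ((mem_pat F A B x).1 h)
        simp only [hx1, decide_false, Bool.false_eq_true, if_false]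
        rw [Finset.inter_insert_of_notMem this]

end Locate

end Pool.Agent.H98.Sparse
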