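import Pool.Agent.H98.SparseUpper2

/-!
# Upper bounds: the number of patterns
-/

namespace Pool.Agent.H98.Sparse

open Finset

variable {n : ℕ}

/-- The coefficient vector of an affine form. -/
def AffForm.vec (q : AffForm n) : (Fin n × Fin n → ℝ) × (Fin n × Fin n → ℝ) × ℝ :=
  (fun x => q.a x.1 x.2, fun x => q.b x.1 x.2, q.c)

theorem sum_eval {ι : Type} (F : ι → AffForm n) (S : Finset ι) (c : ι → ℝ)
    (h : ∑ x ∈ S, c x • (F x).vec = 0) (A B : Fin n → Fin n → ℝ) :
    ∑ x ∈ S, c x * (F x).eval A B = 0 := by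
  have ha : ∀ i k, ∑ x ∈ S, c x * (F x).a i k = 0 := by
    intro i k
    have h1 := congrArg (fun v => v.1 (i, k)) h
    simp only [Prod.fst_sum, Finset.sum_apply, Prod.smul_fst, Pi.smul_apply, smul_eq_mul,
      AffForm.vec, Prod.fst_zero, Pi.zero_apply] at h1
    exact h1
  have hb : ∀ i k, ∑ x ∈ S, c x * (F x).b i k = 0 := by
    intro i k
    have h1 := congrArg (fun v => v.2.1 (i, k)) h
    simp only [Prod.fst_sum, Prod.snd_sum, Finset.sum_apply, Prod.smul_fst, Prod.smul_snd,
      Pi.smul_apply, smul_eq_mul, AffForm.vec, Prod.fst_zero, Prod.snd_zero, Pi.zero_apply] at h1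
    exact h1
  have hc : ∑ x ∈ S, c x * (F x).c = 0 := by
    have h1 := congrArg (fun v => v.2.2) h
    simp only [Prod.snd_sum, Prod.smul_snd,
      smul_eq_mul, AffForm.vec, Prod.snd_zero] at h1
    exact h1
  have e1 : ∑ x ∈ S, c x * (F x).eval A B =
      (∑ i, ∑ k, (∑ x ∈ S, c x * (F x).a i k) * A i k) +
      (∑ k, ∑ j, (∑ x ∈ S, c x * (F x).b k j) * B k j) + ∑ x ∈ S, c x * (F x).c := by
    simp only [AffForm.eval, mul_add, Finset.sum_add_distrib, Finset.mul_sum, Finset.sum_mul]
    congr 1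
    congr 1
    · rw [Finset.sum_comm]
      refine Finset.sum_congr rfl fun i _ => ?_
      rw [Finset.sum_comm]
      refine Finset.sum_congr rfl fun k _ => ?_
      refine Finset.sum_congr rfl fun x _ => ?_
      ring
    · rw [Finset.sum_comm]
      refine Finset.sum_congr rfl fun i _ => ?_
      rw [Finset.sum_comm]
      refine Finset.sum_congr rfl fun k _ => ?_
      refine Finset.sum_congr rfl fun x _ => ?_
      ring
  rw [e1, hc]
  simp [ha, hb]

section

variable {ι : Type} [Fintype ι] [DecidableEq ι]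

open Classical in
/-- The set of all patterns. -/
noncomputable def pats (F : ι → AffForm n) : Finset (Finset ι) :=
  univ.filter fun π => ∃ A B, pat F A B = π

omit [DecidableEq ι] in
theorem mem_pats (F : ι → AffForm n) (A B : Fin n → Fin n → ℝ) : pat F A B ∈ pats F := by
  simp only [pats, Finset.mem_filter, Finset.mem_univ, true_and]
  exact ⟨A, B, rfl⟩

omit [DecidableEq ι] in
theorem of_mem_pats (F : ι → AffForm n) {π : Finset ι} (h : π ∈ pats F) :
    ∃ A B, pat F A B = π := by
  simp only [pats, Finset.mem_filter, Finset.mem_univ, true_and] at h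
  exact h

theorem shatters_card (F : ι → AffForm n) (S : Finset ι) (hS : (pats F).Shatters S) :
    S.card ≤ 2 * n ^ 2 + 1 := by
  classical
  have hli : LinearIndependent ℝ (fun x : S => (F x).vec) := by
    rw [Fintype.linearIndependent_iff]
    by_contra hcon
    push Not at hcon
    obtain ⟨g, hg, x0, hx0⟩ := hcon
    -- there is `c` with a negative value
    obtain ⟨c, hc, x1, hx1⟩ : ∃ c : S → ℝ, (∑ x : S, c x • (F x).vec = 0) ∧ ∃ x1, c x1 < 0 := by
      rcases lt_or_gt_of_ne hx0 with h | h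
      · exact ⟨g, hg, x0, h⟩
      · refine ⟨fun x => - g x, ?_, x0, by simpa using h⟩
        simp only [neg_smul, Finset.sum_neg_distrib, hg, neg_zero]
    obtain ⟨π, hπ, hπS⟩ := hS (Finset.filter_subset (fun x => ∃ h : x ∈ S, 0 ≤ c ⟨x, h⟩) S)
    obtain ⟨A, B, rfl⟩ := of_mem_pats F hπ
    have hmem : ∀ x : S, (F x).eval A B ≤ 0 ↔ 0 ≤ c x := by
      intro x
      have h1 : (x : ι) ∈ S ∩ pat F A B ↔ (x : ι) ∈ S.filter (fun x => ∃ h : x ∈ S, 0 ≤ c ⟨x, h⟩) := by
        rw [hπS]
      rw [Finset.mem_inter, Finset.mem_filter, mem_pat] at h1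
      constructor
      · intro h2
        obtain ⟨_, _, h3⟩ := h1.1 ⟨x.2, h2⟩
        exact h3
      · intro h2
        exact (h1.2 ⟨x.2, x.2, h2⟩).2
    let c' : ι → ℝ := fun x => if h : x ∈ S then c ⟨x, h⟩ else 0
    have hc' : ∑ x ∈ S, c' x • (F x).vec = 0 := by
      rw [← Finset.sum_coe_sort S (fun x => c' x • (F x).vec), ← hc]
      refine Finset.sum_congr rfl fun x _ => ?_
      simp [c']
    have h0 := sum_eval F S c' hc' A B
    rw [← Finset.sum_coe_sort S (fun x => c' x * (F x).eval A B)] at h0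
    have hlt : ∑ x : S, c' x * (F x).eval A B < 0 := by
      have h5 : ∀ x : S, c' x * (F x).eval A B ≤ 0 := by
        intro x
        have h6 : c' x = c x := by simp [c']
        rw [h6]
        by_cases h7 : 0 ≤ c x
        · exact mul_nonpos_of_nonneg_of_nonpos h7 ((hmem x).2 h7)
        · have h8 : ¬ (F x).eval A B ≤ 0 := fun h => h7 ((hmem x).1 h)
          rw [not_le] at h7 h8
          exact (mul_neg_of_neg_of_pos h7 h8).le
      have h9 : c' x1 * (F x1).eval A B < 0 := by
        have h6 : c' x1 = c x1 := by simp [c']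
        rw [h6]
        have h8 : ¬ (F x1).eval A B ≤ 0 := fun h => (not_le.2 hx1) ((hmem x1).1 h)
        rw [not_le] at h8
        exact mul_neg_of_neg_of_pos hx1 h8
      calc ∑ x : S, c' x * (F x).eval A B < ∑ x : S, (0 : ℝ) :=
            Finset.sum_lt_sum (fun x _ => h5 x) ⟨x1, Finset.mem_univ _, h9⟩
        _ = 0 := by simp
    linarith
  have h1 := hli.fintype_card_le_finrank
  have h2 : Module.finrank ℝ ((Fin n × Fin n → ℝ) × (Fin n × Fin n → ℝ) × ℝ) = 2 * n ^ 2 + 1 := by
    rw [Module.finrank_prod, Module.finrank_prod, Module.finrank_pi, Module.finrank_self]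
    simp only [Fintype.card_prod, Fintype.card_fin]
    ring
  rw [h2, Fintype.card_coe] at h1
  exact h1

theorem sum_pow_le (m D : ℕ) : ∑ k ∈ Finset.Iic D, m ^ k ≤ (m + 1) ^ D := by
  induction D with
  | zero =>
    have : Finset.Iic 0 = {0} := by ext x; simp
    rw [this]; simp
  | succ D ih =>
    have : Finset.Iic (D + 1) = insert (D + 1) (Finset.Iic D) := by
      ext x; simp only [Finset.mem_Iic, Finset.mem_insert]; omega
    rw [this, Finset.sum_insert (by simp)]
    calc m ^ (D + 1) + ∑ k ∈ Finset.Iic D, m ^ k ≤ (m + 1) ^ D * m + (m + 1) ^ D := by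
          refine Nat.add_le_add ?_ ih
          rw [pow_succ]
          exact Nat.mul_le_mul_right _ (Nat.pow_le_pow_left (by omega) _)
      _ = (m + 1) ^ (D + 1) := by ring

theorem card_pats_le (F : ι → AffForm n) :
    (pats F).card ≤ (Fintype.card ι + 1) ^ (2 * n ^ 2 + 1) := by
  classical
  have hvc : (pats F).vcDim ≤ 2 * n ^ 2 + 1 := by
    unfold Finset.vcDim
    refine Finset.sup_le fun S hS => ?_
    exact shatters_card F S (Finset.mem_shatterer.1 hS)
  calc (pats F).card ≤ (pats F).shatterer.card := Finset.card_le_card_shatterer _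
    _ ≤ ∑ k ∈ Finset.Iic (pats F).vcDim, (Fintype.card ι).choose k :=
        Finset.card_shatterer_le_sum_vcDim
    _ ≤ ∑ k ∈ Finset.Iic (2 * n ^ 2 + 1), (Fintype.card ι).choose k :=
        Finset.sum_le_sum_of_subset (Finset.Iic_subset_Iic.2 hvc)
    _ ≤ ∑ k ∈ Finset.Iic (2 * n ^ 2 + 1), (Fintype.card ι) ^ k :=
        Finset.sum_le_sum fun k _ => Nat.choose_le_pow _ _
    _ ≤ (Fintype.card ι + 1) ^ (2 * n ^ 2 + 1) := sum_pow_le _ _

end

end Pool.Agent.H98.Sparse
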