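import Pool.Agent.H98.SparseUpper3

/-!
# Upper bounds: the decision trees
-/

namespace Pool.Agent.H98.Sparse

open Finset

variable {n : ℕ}

/-! ### The forms -/

/-- An entry of `A`. -/
def entA (i k : Fin n) : AffForm n where
  a := fun i' k' => if i' = i ∧ k' = k then 1 else 0
  b := fun _ _ => 0
  c := 0

/-- An entry of `B`. -/
def entB (k j : Fin n) : AffForm n where
  a := fun _ _ => 0
  b := fun k' j' => if k' = k ∧ j' = j then 1 else 0
  c := 0

/-- A constant. -/
def const (r : ℝ) : AffForm n where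
  a := fun _ _ => 0
  b := fun _ _ => 0
  c := r

/-- Sum of two affine forms. -/
def addF (p q : AffForm n) : AffForm n where
  a := fun i k => p.a i k + q.a i k
  b := fun k j => p.b k j + q.b k j
  c := p.c + q.c

/-- Difference of two affine forms. -/
def subF (p q : AffForm n) : AffForm n where
  a := fun i k => p.a i k - q.a i k
  b := fun k j => p.b k j - q.b k j
  c := p.c - q.c

theorem eval_entA (i k : Fin n) (A B : Fin n → Fin n → ℝ) : (entA i k).eval A B = A i k := by
  simp only [AffForm.eval, entA, zero_mul, Finset.sum_const_zero, add_zero]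
  rw [Finset.sum_eq_single i, Finset.sum_eq_single k]
  · simp
  · intro b _ hb; simp [hb]
  · simp
  · intro b _ hb; simp [hb]
  · simp

theorem eval_entB (k j : Fin n) (A B : Fin n → Fin n → ℝ) : (entB k j).eval A B = B k j := by
  simp only [AffForm.eval, entB, zero_mul, Finset.sum_const_zero, add_zero, zero_add]
  rw [Finset.sum_eq_single k, Finset.sum_eq_single j]
  · simp
  · intro b _ hb; simp [hb]
  · simp
  · intro b _ hb; simp [hb]
  · simp

theorem eval_const (r : ℝ) (A B : Fin n → Fin n → ℝ) : (const r : AffForm n).eval A B = r := by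
  simp [AffForm.eval, const]

theorem eval_addF (p q : AffForm n) (A B : Fin n → Fin n → ℝ) :
    (addF p q).eval A B = p.eval A B + q.eval A B := by
  simp only [AffForm.eval, addF, add_mul, Finset.sum_add_distrib]
  ring

theorem eval_subF (p q : AffForm n) (A B : Fin n → Fin n → ℝ) :
    (subF p q).eval A B = p.eval A B - q.eval A B := by
  simp only [AffForm.eval, subF, sub_mul, Finset.sum_sub_distrib]
  ring

/-- The term `A i k + B k j`. -/
def term (i j k : Fin n) : AffForm n := addF (entA i k) (entB k j)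

/-- The comparison of `A i k + B k j` and `A i l + B l j`. -/
def cmp (i j k l : Fin n) : AffForm n := subF (term i j k) (term i j l)

/-- The comparison of `B l j - B k j` and `B l j' - B k j'`. -/
def dif (k l j j' : Fin n) : AffForm n :=
  subF (subF (entB l j) (entB k j)) (subF (entB l j') (entB k j'))

theorem eval_term (i j k : Fin n) (A B : Fin n → Fin n → ℝ) :
    (term i j k).eval A B = A i k + B k j := by
  rw [term, eval_addF, eval_entA, eval_entB]

theorem eval_cmp (i j k l : Fin n) (A B : Fin n → Fin n → ℝ) :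
    (cmp i j k l).eval A B = (A i k + B k j) - (A i l + B l j) := by
  rw [cmp, eval_subF, eval_term, eval_term]

theorem eval_dif (k l j j' : Fin n) (A B : Fin n → Fin n → ℝ) :
    (dif k l j j').eval A B = (B l j - B k j) - (B l j' - B k j') := by
  simp only [dif, eval_subF, eval_entB]

theorem allowed_cmp (s : ℕ) (i j k l : Fin n) : (cmp i j k l).Allowed s := by
  refine ⟨⟨i, fun i' hi' k1 k2 h => absurd ?_ h⟩, fun _ => ⟨j, ∅, by simp, ?_⟩⟩
  · simp [cmp, term, subF, addF, entA, entB, hi']
  · intro j' hj' k1 k2 _ _ h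
    exact absurd (by simp [cmp, term, subF, addF, entA, entB, hj']) h

theorem allowed_dif (k l j j' : Fin n) : (dif k l j j').Allowed 1 := by
  refine ⟨⟨j, fun i' _ k1 k2 h => absurd ?_ h⟩, fun _ => ⟨j, {(l, j')}, by simp, ?_⟩⟩
  · simp [dif, subF, entB]
  · intro j1 hj1 k1 k2 hk1 hk2 h1 h2
    have h3 : ∀ k0 : Fin n, (k0, j1) ∉ ({(l, j')} : Finset (Fin n × Fin n)) →
        (dif k l j j').b k0 j1 ≠ 0 → k0 = k := by
      intro k0 hk0 h0
      by_contra hne
      apply h0
      simp only [Finset.mem_singleton, Prod.mk.injEq, not_and] at hk0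
      by_cases hkl : k0 = l
      · have := hk0 hkl
        simp [dif, subF, entB, hne, hj1, this]
      · simp [dif, subF, entB, hne, hkl]
    rw [h3 k1 hk1 h1, h3 k2 hk2 h2]

theorem allowed_const (s : ℕ) (hn : 0 < n) (r : ℝ) : (const r : AffForm n).Allowed s := by
  refine ⟨⟨⟨0, hn⟩, fun i' _ k1 k2 h => absurd rfl h⟩, fun _ => ⟨⟨0, hn⟩, ∅, by simp, ?_⟩⟩
  intro j' _ k1 k2 _ _ h
  exact absurd rfl h

/-! ### Tournaments -/

/-- A tournament among the terms `A i k + B k j`. -/
def tourn (i j : Fin n) : Fin n → List (Fin n) → Prog n (Fin n)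
  | best, [] => .ret best
  | best, k :: L => (Prog.le (cmp i j k best)).bind fun b =>
      if b = true then tourn i j k L else tourn i j best L

theorem tourn_ok (s : ℕ) (i j : Fin n) (L : List (Fin n)) : ∀ best, (tourn i j best L).Ok s := by
  induction L with
  | nil => intro best; exact trivial
  | cons k L ih =>
    intro best
    refine Prog.ok_bind _ _ (Prog.ok_le _ (allowed_cmp s i j k best)) fun b => ?_
    split_ifs
    · exact ih k
    · exact ih best

theorem tourn_cost (i j : Fin n) (L : List (Fin n)) (A B : Fin n → Fin n → ℝ) :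
    ∀ best, (tourn i j best L).cost A B ≤ L.length := by
  induction L with
  | nil => intro best; simp [tourn, Prog.cost]
  | cons k L ih =>
    intro best
    simp only [tourn, Prog.cost_bind, List.length_cons]
    have h1 := Prog.cost_le (cmp i j k best) A B
    split_ifs
    · have := ih k; omega
    · have := ih best; omega

theorem tourn_run (i j : Fin n) (L : List (Fin n)) (A B : Fin n → Fin n → ℝ) :
    ∀ best, (∀ k, (k = best ∨ k ∈ L) →
      A i ((tourn i j best L).run A B) + B ((tourn i j best L).run A B) j ≤ A i k + B k j) := by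
  induction L with
  | nil =>
    intro best k hk
    simp only [List.not_mem_nil, or_false] at hk
    subst hk
    simp [tourn, Prog.run]
  | cons k0 L ih =>
    intro best k hk
    simp only [tourn, Prog.run_bind, Prog.run_le, eval_cmp]
    by_cases h : A i k0 + B k0 j - (A i best + B best j) ≤ 0
    · simp only [h, decide_true, if_true]
      have h1 := ih k0 k0 (Or.inl rfl)
      rcases hk with rfl | hk
      · linarith
      · rw [List.mem_cons] at hk
        rcases hk with rfl | hk
        · exact h1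
        · exact ih k0 k (Or.inr hk)
    · simp only [h, decide_false, Bool.false_eq_true, if_false]
      have h1 := ih best best (Or.inl rfl)
      rcases hk with rfl | hk
      · exact h1
      · rw [List.mem_cons] at hk
        rcases hk with rfl | hk
        · linarith
        · exact ih best k (Or.inr hk)

open Classical in
/-- A tournament on a set of candidates. -/
noncomputable def tournSet (i j : Fin n) (C : Finset (Fin n)) : Prog n (Fin n) :=
  if h : C.Nonempty then tourn i j h.choose (C.erase h.choose).toList else .ret i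

theorem tournSet_ok (s : ℕ) (i j : Fin n) (C : Finset (Fin n)) : (tournSet i j C).Ok s := by
  unfold tournSet
  split_ifs
  · exact tourn_ok s i j _ _
  · exact trivial

theorem tournSet_cost (i j : Fin n) (C : Finset (Fin n)) (A B : Fin n → Fin n → ℝ) :
    (tournSet i j C).cost A B ≤ C.card - 1 := by
  classical
  unfold tournSet
  split_ifs with h
  · refine (tourn_cost i j _ A B _).trans ?_
    rw [Finset.length_toList, Finset.card_erase_of_mem h.choose_spec]
  · simp [Prog.cost]

theorem tournSet_run (i j : Fin n) (C : Finset (Fin n)) (A B : Fin n → Fin n → ℝ) (k : Fin n)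
    (hk : k ∈ C) : A i ((tournSet i j C).run A B) + B ((tournSet i j C).run A B) j ≤
      A i k + B k j := by
  classical
  have hC : C.Nonempty := ⟨k, hk⟩
  have h1 : tournSet i j C = tourn i j hC.choose (C.erase hC.choose).toList := by
    unfold tournSet
    rw [dif_pos hC]
  rw [h1]
  refine tourn_run i j _ A B _ k ?_
  by_cases h : k = hC.choose
  · exact Or.inl h
  · right
    rw [Finset.mem_toList]
    exact Finset.mem_erase.2 ⟨h, hk⟩

/-- The last phase: a tournament for every entry of the product. -/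
noncomputable def finish (C : Fin n → Fin n → Finset (Fin n)) :
    Prog n (Fin n → Fin n → AffForm n) :=
  (Prog.pi n fun i => Prog.pi n fun j => tournSet i j (C i j)).bind fun r =>
    .ret fun i j => term i j (r i j)

theorem finish_ok (s : ℕ) (C : Fin n → Fin n → Finset (Fin n)) : (finish C).Ok s :=
  Prog.ok_bind _ _ (Prog.ok_pi _ _ fun i => Prog.ok_pi _ _ fun j => tournSet_ok s i j _)
    fun _ => trivial

theorem finish_cost (C : Fin n → Fin n → Finset (Fin n)) (m : ℕ) (A B : Fin n → Fin n → ℝ)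
    (hC : ∀ i j, (C i j).card ≤ m + 1) : (finish C).cost A B ≤ n ^ 2 * m := by
  simp only [finish, Prog.cost_bind, Prog.cost, add_zero, Prog.cost_pi]
  calc ∑ i, ∑ j, (tournSet i j (C i j)).cost A B ≤ ∑ i : Fin n, ∑ j : Fin n, m := by
        refine Finset.sum_le_sum fun i _ => Finset.sum_le_sum fun j _ => ?_
        have h1 := tournSet_cost i j (C i j) A B
        have h2 := hC i j
        omega
    _ = n ^ 2 * m := by simp [sq, mul_assoc]

theorem finish_run (C : Fin n → Fin n → Finset (Fin n)) (A B : Fin n → Fin n → ℝ)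
    (hC : ∀ i j k, ∃ l ∈ C i j, A i l + B l j ≤ A i k + B k j) (i j : Fin n) :
    ((finish C).run A B i j).eval A B = minPlus A B i j := by
  simp only [finish, Prog.run_bind, Prog.run, Prog.run_pi, eval_term]
  have hne : Nonempty (Fin n) := ⟨i⟩
  refine le_antisymm ?_ ?_
  · unfold minPlus
    refine le_ciInf fun k => ?_
    obtain ⟨l, hl, hlk⟩ := hC i j k
    exact (tournSet_run i j (C i j) A B l hl).trans hlk
  · exact ciInf_le (Set.finite_range _).bddBelow _

/-- **Upper bound for `s = 0`.** -/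
theorem upper_zero (n : ℕ) : ∃ T : DTree n, T.Allowed 0 ∧
    (∀ A B i j, T.output A B i j = minPlus A B i j) ∧ ∀ A B, T.cost A B ≤ n ^ 2 * (n - 1) := by
  refine ⟨(finish fun _ _ => univ).toTree, Prog.allowed_toTree _ (finish_ok 0 _), ?_, ?_⟩
  · intro A B i j
    rw [Prog.output_toTree]
    exact finish_run _ A B (fun i j k => ⟨k, Finset.mem_univ _, le_rfl⟩) i j
  · intro A B
    rw [Prog.cost_toTree]
    refine finish_cost _ _ A B fun i j => ?_
    rw [Finset.card_univ, Fintype.card_fin]
    omega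

/-! ### Fredman's tree -/

/-- The index set of the queries. -/
abbrev Idx (n : ℕ) : Type :=
  (Fin n × Fin n × Fin n × Fin n) ⊕ (Fin n × Fin n × Fin n × Fin n) ⊕ Bool

/-- The queries of Fredman's tree. -/
noncomputable def forms (n : ℕ) : Idx n → AffForm n
  | .inl (i, j, k, l) => cmp i j k l
  | .inr (.inl (k, l, j, j')) => dif k l j j'
  | .inr (.inr b) => const (if b = true then -1 else 1)

theorem card_idx (n : ℕ) : Fintype.card (Idx n) = 2 * n ^ 4 + 2 := by
  simp only [Idx, Fintype.card_sum, Fintype.card_prod, Fintype.card_fin, Fintype.card_bool]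
  ring

theorem forms_allowed (hn : 0 < n) (x : Idx n) : (forms n x).Allowed 1 := by
  rcases x with ⟨i, j, k, l⟩ | ⟨k, l, j, j'⟩ | b
  · exact allowed_cmp 1 i j k l
  · exact allowed_dif k l j j'
  · exact allowed_const 1 hn _

/-- The indices of the free queries. -/
def freeIdx (n : ℕ) : Finset (Idx n) := univ.image fun x => Sum.inr (Sum.inl x)

/-- The always nonpositive form. -/
def topI (n : ℕ) : Idx n := .inr (.inr true)

/-- The always positive form. -/
def botI (n : ℕ) : Idx n := .inr (.inr false)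

/-- The problem of locating `A i k - A i l` among the `B l j - B k j`. -/
def prob (i k l : Fin n) : Finset (Idx n) :=
  insert (topI n) (insert (botI n) (univ.image fun j => Sum.inl (i, j, k, l)))

theorem mem_prob {i k l : Fin n} {x : Idx n} (hx : x ∈ prob i k l) :
    x = topI n ∨ x = botI n ∨ ∃ j, x = Sum.inl (i, j, k, l) := by
  simp only [prob, Finset.mem_insert, Finset.mem_image, Finset.mem_univ, true_and] at hx
  rcases hx with h | h | ⟨j, h⟩
  · exact Or.inl h
  · exact Or.inr (Or.inl h)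
  · exact Or.inr (Or.inr ⟨j, h.symm⟩)

theorem top_mem (n : ℕ) (π : Finset (Idx n)) (hπ : π ∈ pats (forms n)) : topI n ∈ π := by
  obtain ⟨A, B, rfl⟩ := of_mem_pats _ hπ
  rw [mem_pat]
  simp [topI, forms, eval_const]

theorem bot_notMem (n : ℕ) (π : Finset (Idx n)) (hπ : π ∈ pats (forms n)) : botI n ∉ π := by
  obtain ⟨A, B, rfl⟩ := of_mem_pats _ hπ
  rw [mem_pat]
  simp [botI, forms, eval_const]

open Classical in
theorem chain_prob (i k l : Fin n) (R : Finset (Idx n)) :
    Chain (prob i k l) ((pats (forms n)).filter fun π => π ∩ freeIdx n = R) := by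
  intro x hx y hy
  have hW : ∀ π ∈ (pats (forms n)).filter (fun π => π ∩ freeIdx n = R), π ∈ pats (forms n) :=
    fun π hπ => (Finset.mem_filter.1 hπ).1
  rcases mem_prob hx with rfl | rfl | ⟨j, rfl⟩
  · exact Or.inr fun π hπ _ => top_mem n π (hW π hπ)
  · exact Or.inl fun π hπ h => absurd h (bot_notMem n π (hW π hπ))
  · rcases mem_prob hy with rfl | rfl | ⟨j', rfl⟩
    · exact Or.inl fun π hπ _ => top_mem n π (hW π hπ)
    · exact Or.inr fun π hπ h => absurd h (bot_notMem n π (hW π hπ))
    · have key : ∀ π ∈ (pats (forms n)).filter (fun π => π ∩ freeIdx n = R),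
          ((Sum.inr (Sum.inl (k, l, j, j')) : Idx n) ∈ π ↔
            (Sum.inr (Sum.inl (k, l, j, j')) : Idx n) ∈ R) := by
        intro π hπ
        rw [← (Finset.mem_filter.1 hπ).2, Finset.mem_inter]
        constructor
        · intro h
          exact ⟨h, by simp [freeIdx]⟩
        · intro h
          exact h.1
      by_cases hR : (Sum.inr (Sum.inl (k, l, j, j')) : Idx n) ∈ R
      · left
        intro π hπ h
        have h1 := (key π hπ).2 hR
        obtain ⟨A, B, rfl⟩ := of_mem_pats _ (hW π hπ)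
        rw [mem_pat] at h h1 ⊢
        simp only [forms, eval_cmp, eval_dif] at h h1 ⊢
        linarith
      · right
        intro π hπ h
        have h1 : (Sum.inr (Sum.inl (k, l, j, j')) : Idx n) ∉ π := fun h => hR ((key π hπ).1 h)
        obtain ⟨A, B, rfl⟩ := of_mem_pats _ (hW π hπ)
        rw [mem_pat] at h h1 ⊢
        simp only [forms, eval_cmp, eval_dif, not_le] at h h1 ⊢
        linarith

open Classical in
/-- The candidates for the entry `i, j`. -/
noncomputable def cand (d : ℕ) (π : Finset (Idx n)) (i j : Fin n) : Finset (Fin n) :=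
  univ.filter fun k => ∀ l : Fin n, l.val / d = k.val / d →
    (Sum.inl (i, j, k, l) : Idx n) ∈ π ∧ (l < k → (Sum.inl (i, j, l, k) : Idx n) ∉ π)

theorem cand_spec (d : ℕ) (π : Finset (Idx n)) (i j : Fin n) (A B : Fin n → Fin n → ℝ)
    (h : ∀ k l : Fin n, k.val / d = l.val / d →
      ((Sum.inl (i, j, k, l) : Idx n) ∈ π ↔ A i k + B k j ≤ A i l + B l j)) (k : Fin n) :
    k ∈ cand d π i j ↔ ∀ l : Fin n, l.val / d = k.val / d →
      A i k + B k j ≤ A i l + B l j ∧ (l < k → A i k + B k j < A i l + B l j) := by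
  simp only [cand, Finset.mem_filter, Finset.mem_univ, true_and]
  constructor
  · intro h1 l hl
    obtain ⟨h2, h3⟩ := h1 l hl
    refine ⟨(h k l hl.symm).1 h2, fun hlk => ?_⟩
    have := h3 hlk
    rw [h l k hl, not_le] at this
    exact this
  · intro h1 l hl
    obtain ⟨h2, h3⟩ := h1 l hl
    refine ⟨(h k l hl.symm).2 h2, fun hlk => ?_⟩
    rw [h l k hl, not_le]
    exact h3 hlk

theorem cand_card (d : ℕ) (hd : 0 < d) (π : Finset (Idx n)) (i j : Fin n)
    (A B : Fin n → Fin n → ℝ)
    (h : ∀ k l : Fin n, k.val / d = l.val / d →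
      ((Sum.inl (i, j, k, l) : Idx n) ∈ π ↔ A i k + B k j ≤ A i l + B l j)) :
    (cand d π i j).card ≤ n / d + 1 := by
  rw [← Finset.card_range (n / d + 1)]
  refine Finset.card_le_card_of_injOn (fun k => k.val / d) ?_ ?_
  · intro k _
    simp only [Finset.coe_range, Set.mem_Iio]
    have : k.val / d ≤ n / d := Nat.div_le_div_right k.isLt.le
    omega
  · intro k hk k' hk' hkk'
    rw [Finset.mem_coe] at hk hk'
    simp only at hkk'
    have h1 := (cand_spec d π i j A B h k).1 hk k' hkk'.symm
    have h2 := (cand_spec d π i j A B h k').1 hk' k hkk'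
    by_contra hne
    rcases lt_or_gt_of_ne hne with hlt | hlt
    · have := h2.2 hlt
      linarith [h1.1]
    · have := h1.2 hlt
      linarith [h2.1]

theorem cand_min (d : ℕ) (π : Finset (Idx n)) (i j : Fin n)
    (A B : Fin n → Fin n → ℝ)
    (h : ∀ k l : Fin n, k.val / d = l.val / d →
      ((Sum.inl (i, j, k, l) : Idx n) ∈ π ↔ A i k + B k j ≤ A i l + B l j)) (k : Fin n) :
    ∃ l ∈ cand d π i j, A i l + B l j ≤ A i k + B k j := by
  classical
  -- the minimal value in the block, then the smallest index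
  obtain ⟨l1, hl1, hl1min⟩ := Finset.exists_min_image
    (univ.filter fun l : Fin n => l.val / d = k.val / d) (fun l => A i l + B l j) ⟨k, by simp⟩
  rw [Finset.mem_filter] at hl1
  obtain ⟨l2, hl2, hl2min⟩ := Finset.exists_min_image
    (univ.filter fun l : Fin n => l.val / d = k.val / d ∧ A i l + B l j = A i l1 + B l1 j)
    (fun l => l) ⟨l1, by simp [hl1.2]⟩
  rw [Finset.mem_filter] at hl2
  refine ⟨l2, (cand_spec d π i j A B h l2).2 ?_, ?_⟩
  · intro l hl
    have h1 : A i l1 + B l1 j ≤ A i l + B l j :=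
      hl1min l (by rw [Finset.mem_filter]; exact ⟨Finset.mem_univ _, hl.trans hl2.2.1⟩)
    refine ⟨by rw [hl2.2.2]; exact h1, fun hlt => ?_⟩
    rw [hl2.2.2]
    refine lt_of_le_of_ne h1 fun heq => ?_
    have h2 := hl2min l (by
      rw [Finset.mem_filter]; exact ⟨Finset.mem_univ _, hl.trans hl2.2.1, heq.symm⟩)
    exact absurd hlt (not_lt.2 h2)
  · rw [hl2.2.2]
    exact hl1min k (by rw [Finset.mem_filter]; exact ⟨Finset.mem_univ _, rfl⟩)

theorem card_probs (n d : ℕ) (hd : 0 < d) :
    (univ.filter fun t : Fin n × Fin n × Fin n => t.2.1.val / d = t.2.2.val / d).card ≤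
      n ^ 2 * d := by
  have h1 : (univ : Finset (Fin n × Fin n × Fin d)).card = n ^ 2 * d := by
    simp only [Finset.card_univ, Fintype.card_prod, Fintype.card_fin]
    ring
  rw [← h1]
  refine Finset.card_le_card_of_injOn
    (fun t => (t.1, t.2.1, (⟨t.2.2.val % d, Nat.mod_lt _ hd⟩ : Fin d))) ?_ ?_
  · intro t _; simp
  · intro t ht t' ht' heq
    rw [Finset.mem_coe, Finset.mem_filter] at ht ht'
    simp only [Prod.mk.injEq, Fin.mk.injEq] at heq
    obtain ⟨e1, e2, e3⟩ := heq
    have e4 : t.2.2.val / d = t'.2.2.val / d := by rw [← ht.2, ← ht'.2, e2]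
    have e5 : t.2.2 = t'.2.2 := by
      apply Fin.ext
      rw [← Nat.div_add_mod t.2.2.val d, ← Nat.div_add_mod t'.2.2.val d, e3, e4]
    exact Prod.ext e1 (Prod.ext e2 e5)

/-- The upper bound with block length `d`. -/
theorem upper_aux (n d : ℕ) (hn : 0 < n) (hd : 0 < d) : ∃ T : DTree n, T.Allowed 1 ∧
    (∀ A B i j, T.output A B i j = minPlus A B i j) ∧
    ∀ A B, ∃ c1 c2 : ℕ, T.cost A B ≤ c1 + c2 ∧ c2 ≤ n ^ 2 * (n / d) ∧
      2 ^ c1 ≤ 4 ^ (n ^ 2 * d) * ((2 * n ^ 4 + 3) ^ (2 * n ^ 2 + 1)) ^ 2 := by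
  classical
  obtain ⟨p0, hp0, hp0'⟩ := freePhase (forms n) 1 (forms_allowed hn) (freeIdx n) (by
    intro x hx
    simp only [freeIdx, Finset.mem_image, Finset.mem_univ, true_and] at hx
    obtain ⟨⟨k, l, j, j'⟩, rfl⟩ := hx
    funext i k
    simp [forms, dif, subF, entB])
  let L : List (Finset (Idx n)) :=
    ((univ.filter fun t : Fin n × Fin n × Fin n => t.2.1.val / d = t.2.2.val / d).toList.map
      fun t => prob t.1 t.2.1 t.2.2)
  have hLlen : L.length ≤ n ^ 2 * d := by
    simp only [L, List.length_map, Finset.length_toList]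
    exact card_probs n d hd
  have hex := fun R : Finset (Idx n) => locateAll (forms n) 1 (forms_allowed hn) (topI n) (botI n) L
    ((pats (forms n)).filter fun π => π ∩ freeIdx n = R) (by
      intro J hJ
      simp only [L, List.mem_map, Finset.mem_toList] at hJ
      obtain ⟨t, _, rfl⟩ := hJ
      exact ⟨by simp [prob], by simp [prob], chain_prob _ _ _ _⟩)
    (fun π hπ => top_mem n π (Finset.mem_filter.1 hπ).1)
    (fun π hπ => bot_notMem n π (Finset.mem_filter.1 hπ).1)
  choose p1 hp1 hp1' using hex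
  let ch : Finset (Finset (Idx n)) → Finset (Idx n) := fun W =>
    if h : W.Nonempty then h.choose else ∅
  let P : Prog n (Fin n → Fin n → AffForm n) := (p0.bind p1).bind fun W => finish (cand d (ch W))
  have hall : ∀ A B, ∃ c1 c2 : ℕ, P.cost A B ≤ c1 + c2 ∧ c2 ≤ n ^ 2 * (n / d) ∧
      2 ^ c1 ≤ 4 ^ (n ^ 2 * d) * ((2 * n ^ 4 + 3) ^ (2 * n ^ 2 + 1)) ^ 2 ∧
      ∀ i j, (P.run A B i j).eval A B = minPlus A B i j := by
    intro A B
    obtain ⟨h1, h2⟩ := hp0' A B
    obtain ⟨e1, e2, e3, e4⟩ := hp1' (p0.run A B) A B (by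
      rw [Finset.mem_filter]; exact ⟨mem_pats _ _ _, h2.symm⟩)
    set W := (p1 (p0.run A B)).run A B with hWdef
    have hWne : W.Nonempty := ⟨_, e2⟩
    have hchW : ch W ∈ W := by
      simp only [ch, dif_pos hWne]
      exact hWne.choose_spec
    have hagree : ∀ i j k l : Fin n, k.val / d = l.val / d →
        ((Sum.inl (i, j, k, l) : Idx n) ∈ ch W ↔ A i k + B k j ≤ A i l + B l j) := by
      intro i j k l hkl
      rw [e3 (ch W) hchW (prob i k l) (by
        simp only [L, List.mem_map, Finset.mem_toList]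
        exact ⟨(i, k, l), by simp [hkl], rfl⟩) (Sum.inl (i, j, k, l)) (by simp [prob]), mem_pat]
      simp only [forms, eval_cmp]
      constructor <;> intro h <;> linarith
    refine ⟨(p1 (p0.run A B)).cost A B, (finish (cand d (ch W))).cost A B, ?_, ?_, ?_, ?_⟩
    · simp only [P, Prog.cost_bind, Prog.run_bind, h1, ← hWdef]
      omega
    · exact finish_cost _ _ A B fun i j => cand_card d hd _ i j A B (hagree i j)
    · have hW1 : 1 ≤ W.card := Finset.card_pos.2 hWne
      have hc : ((pats (forms n)).filter fun π => π ∩ freeIdx n = p0.run A B).card ≤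
          (2 * n ^ 4 + 3) ^ (2 * n ^ 2 + 1) := by
        refine (Finset.card_le_card (Finset.filter_subset _ _)).trans ?_
        have := card_pats_le (forms n)
        rw [card_idx] at this
        exact this
      calc 2 ^ (p1 (p0.run A B)).cost A B
          ≤ 2 ^ (p1 (p0.run A B)).cost A B * W.card ^ 2 :=
            Nat.le_mul_of_pos_right _ (by positivity)
        _ ≤ _ := e4
        _ ≤ 4 ^ (n ^ 2 * d) * ((2 * n ^ 4 + 3) ^ (2 * n ^ 2 + 1)) ^ 2 :=
            Nat.mul_le_mul (Nat.pow_le_pow_right (by norm_num) hLlen) (Nat.pow_le_pow_left hc 2)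
    · intro i j
      simp only [P, Prog.run_bind, ← hWdef]
      exact finish_run _ A B (fun i j k => cand_min d _ i j A B (hagree i j) k) i j
  refine ⟨P.toTree, Prog.allowed_toTree _ ?_, ?_, ?_⟩
  · exact Prog.ok_bind _ _ (Prog.ok_bind _ _ hp0 hp1) fun W => finish_ok 1 _
  · intro A B i j
    obtain ⟨_, _, _, _, _, h⟩ := hall A B
    rw [Prog.output_toTree]
    exact h i j
  · intro A B
    obtain ⟨c1, c2, h1, h2, h3, _⟩ := hall A B
    exact ⟨c1, c2, by rw [Prog.cost_toTree]; exact h1, h2, h3⟩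

/-- **Upper bound for `s = 1`.** -/
theorem upper_one (n : ℕ) (hn : 0 < n) : ∃ T : DTree n, T.Allowed 1 ∧
    (∀ A B i j, T.output A B i j = minPlus A B i j) ∧
    ∀ A B, T.cost A B ≤ 71 * (n ^ 2 * Nat.sqrt n) := by
  set r := Nat.sqrt n with hr
  have hr1 : 1 ≤ r := by
    rw [hr, Nat.le_sqrt]; omega
  have hrn : n < (r + 1) * (r + 1) := Nat.lt_succ_sqrt n
  obtain ⟨T, h1, h2, h3⟩ := upper_aux n (r + 1) hn (Nat.succ_pos r)
  refine ⟨T, h1, h2, fun A B => ?_⟩
  obtain ⟨c1, c2, e1, e2, e3⟩ := h3 A B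
  have hdiv : n / (r + 1) ≤ r := by
    have : n / (r + 1) < r + 1 := Nat.div_lt_of_lt_mul hrn
    omega
  have hc2 : c2 ≤ n ^ 2 * r := e2.trans (Nat.mul_le_mul_left _ hdiv)
  -- n ≤ 4^r
  have hn4 : n ≤ 2 ^ (2 * r) := by
    have h4 : r + 1 ≤ 2 ^ r := Nat.lt_two_pow_self
    calc n ≤ (r + 1) * (r + 1) := hrn.le
      _ ≤ 2 ^ r * 2 ^ r := Nat.mul_le_mul h4 h4
      _ = 2 ^ (2 * r) := by rw [← pow_add]; congr 1; ring
  have hbase : 2 * n ^ 4 + 3 ≤ 2 ^ (11 * r) := by
    have h5 : 1 ≤ n ^ 4 := Nat.one_le_pow _ _ hn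
    calc 2 * n ^ 4 + 3 ≤ 8 * n ^ 4 := by omega
      _ ≤ 8 * (2 ^ (2 * r)) ^ 4 := Nat.mul_le_mul_left _ (Nat.pow_le_pow_left hn4 4)
      _ = 2 ^ (8 * r + 3) := by rw [← pow_mul, pow_add]; ring
      _ ≤ 2 ^ (11 * r) := Nat.pow_le_pow_right (by norm_num) (by omega)
  have hc1 : 2 ^ c1 ≤ 2 ^ (2 * (n ^ 2 * (r + 1)) + 11 * r * (2 * n ^ 2 + 1) * 2) := by
    refine e3.trans ?_
    rw [pow_add 2 (2 * (n ^ 2 * (r + 1)))]
    refine Nat.mul_le_mul ?_ ?_
    · have h6 : (4 : ℕ) = 2 ^ 2 := by norm_num
      rw [h6, ← pow_mul]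
    · rw [pow_mul, pow_mul]
      exact Nat.pow_le_pow_left (Nat.pow_le_pow_left hbase _) 2
  have hc1' : c1 ≤ 2 * (n ^ 2 * (r + 1)) + 11 * r * (2 * n ^ 2 + 1) * 2 :=
    (Nat.pow_le_pow_iff_right (by norm_num)).1 hc1
  have hn2 : 1 ≤ n ^ 2 := Nat.one_le_pow _ _ hn
  have h7 : r ≤ n ^ 2 * r := Nat.le_mul_of_pos_left _ (by omega)
  have h8 : n ^ 2 ≤ n ^ 2 * r := Nat.le_mul_of_pos_right _ (by omega)
  calc T.cost A B ≤ c1 + c2 := e1
    _ ≤ (2 * (n ^ 2 * (r + 1)) + 11 * r * (2 * n ^ 2 + 1) * 2) + n ^ 2 * r := by omega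
    _ = 2 * n ^ 2 + 47 * (n ^ 2 * r) + 22 * r := by ring
    _ ≤ 71 * (n ^ 2 * r) := by omega

end Pool.Agent.H98.Sparse
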